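import Pool.Agent.EVS.TT

/-!
# [EV-N1b] homomorphisms of the monoid `TT`
-/

set_option autoImplicit false

namespace EVS

/-- degree -/
def TT.deg : TT → ℕ
  | .one => 0
  | .d _ => 1
  | .t _ => 1
  | .dd _ _ => 2
  | .dt _ _ => 2
  | .v => 2
  | .u => 3
  | .o => 4

/-- PROOF: cases on the constructors. -/
theorem TT.deg_of_mul_u {a b : TT} (h : a * b = .u) : TT.deg a + TT.deg b = 3 := by
  revert a b
  decide

/-- PROOF: cases on the constructors. -/
theorem TT.of_mul_v {a b : TT} (h : a * b = .v) : (a = .one ∧ b = .v) ∨ (a = .v ∧ b = .one) ∨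
    ∃ i j : Fin 7, a = .d i ∧ b = .d j ∧ (j = i + 1 ∨ i = j + 1) := by
  revert a b
  decide

/-- the step of a sign -/
def tth_e (b : Bool) : Fin 7 := if b then 1 else 6

theorem tth_sum : ∀ b0 b1 b2 b3 b4 b5 b6 : Bool,
    tth_e b0 + tth_e b1 + tth_e b2 + tth_e b3 + tth_e b4 + tth_e b5 + tth_e b6 = 0 →
      (b1 = b0 ∧ b2 = b0 ∧ b3 = b0 ∧ b4 = b0 ∧ b5 = b0 ∧ b6 = b0) := by
  decide

theorem tth_true : ∀ a : Fin 7, a = a + 0 ∧ a + tth_e true = a + 1 ∧ a + tth_e true + tth_e true = a + 2 ∧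
    a + tth_e true + tth_e true + tth_e true = a + 3 ∧
    a + tth_e true + tth_e true + tth_e true + tth_e true = a + 4 ∧
    a + tth_e true + tth_e true + tth_e true + tth_e true + tth_e true = a + 5 ∧
    a + tth_e true + tth_e true + tth_e true + tth_e true + tth_e true + tth_e true = a + 6 := by
  decide

theorem tth_false : ∀ a : Fin 7, a = a - 0 ∧ a + tth_e false = a - 1 ∧
    a + tth_e false + tth_e false = a - 2 ∧
    a + tth_e false + tth_e false + tth_e false = a - 3 ∧
    a + tth_e false + tth_e false + tth_e false + tth_e false = a - 4 ∧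
    a + tth_e false + tth_e false + tth_e false + tth_e false + tth_e false = a - 5 ∧
    a + tth_e false + tth_e false + tth_e false + tth_e false + tth_e false + tth_e false = a - 6 := by
  decide

theorem tth_step : ∀ a b : Fin 7, (b = a + 1 ∨ a = b + 1) → ∃ s : Bool, b = a + tth_e s := by
  decide

/-- a closed walk of length 7 in the 7-cycle goes once around.
PROOF: the walk `c` is determined by `c 0` and the 7 directions; `decide` over `7 * 2^7` cases (for instance
generalize `c 0, ..., c 6` and case split on the seven disjunctions, closing each case by `omega` or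
`decide`); or: the sum of the 7 signs is odd, at most 7 in absolute value and divisible by 7, so it is `± 7`
and all signs are equal. -/
theorem walk (c : Fin 7 → Fin 7) (h : ∀ i, c (i + 1) = c i + 1 ∨ c i = c (i + 1) + 1) :
    (∀ i, c i = c 0 + i) ∨ (∀ i, c i = c 0 - i) := by
  have h' : ∀ i, ∃ s : Bool, c (i + 1) = c i + tth_e s := fun i => tth_step _ _ (h i)
  choose b hb using h'
  have h0 : c 1 = c 0 + tth_e (b 0) := hb 0
  have h1 : c 2 = c 1 + tth_e (b 1) := hb 1
  have h2 : c 3 = c 2 + tth_e (b 2) := hb 2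
  have h3 : c 4 = c 3 + tth_e (b 3) := hb 3
  have h4 : c 5 = c 4 + tth_e (b 4) := hb 4
  have h5 : c 6 = c 5 + tth_e (b 5) := hb 5
  have h6 : c 0 = c 6 + tth_e (b 6) := hb 6
  have hs : tth_e (b 0) + tth_e (b 1) + tth_e (b 2) + tth_e (b 3) + tth_e (b 4) + tth_e (b 5) +
      tth_e (b 6) = 0 := by
    have h7 : c 0 + 0 = c 0 + (tth_e (b 0) + tth_e (b 1) + tth_e (b 2) + tth_e (b 3) + tth_e (b 4) +
        tth_e (b 5) + tth_e (b 6)) := by
      rw [add_zero]
      nth_rewrite 1 [h6]
      rw [h5, h4, h3, h2, h1, h0]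
      simp only [add_assoc]
    exact (add_left_cancel h7).symm
  obtain ⟨e1, e2, e3, e4, e5, e6⟩ := tth_sum _ _ _ _ _ _ _ hs
  rw [e1] at h1
  rw [e2] at h2
  rw [e3] at h3
  rw [e4] at h4
  rw [e5] at h5
  rw [e6] at h6
  clear hs e1 e2 e3 e4 e5 e6 hb h h6
  rw [h0] at h1
  rw [h1] at h2
  rw [h2] at h3
  rw [h3] at h4
  rw [h4] at h5
  generalize b 0 = s at h0 h1 h2 h3 h4 h5
  cases s with
  | true =>
    left
    obtain ⟨k0, k1, k2, k3, k4, k5, k6⟩ := tth_true (c 0)
    intro i
    fin_cases i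
    · exact k0
    · exact h0.trans k1
    · exact h1.trans k2
    · exact h2.trans k3
    · exact h3.trans k4
    · exact h4.trans k5
    · exact h5.trans k6
  | false =>
    right
    obtain ⟨k0, k1, k2, k3, k4, k5, k6⟩ := tth_false (c 0)
    intro i
    fin_cases i
    · exact k0
    · exact h0.trans k1
    · exact h1.trans k2
    · exact h2.trans k3
    · exact h3.trans k4
    · exact h4.trans k5
    · exact h5.trans k6

theorem tth_adj : ∀ i : Fin 7, (TT.d i) * (TT.d (i + 1)) = TT.v := by decide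

theorem tth_7 : ∀ i : Fin 7, i + 1 + 1 + 1 + 1 + 1 + 1 + 1 = i := by decide

theorem tth_u0 : TT.d 0 * TT.d 2 * TT.d 4 = TT.u := by decide

theorem tth_up : ∀ a : Fin 7, TT.d a * TT.d (a + 2) * TT.d (a + 4) = TT.u := by decide

theorem tth_um : ∀ a : Fin 7, TT.d a * TT.d (a - 2) * TT.d (a - 4) = TT.u := by decide

theorem tth_vt : ∀ x : TT, TT.v * x = .u → x = .t false ∨ x = .t true := by decide

theorem tth_wp : ∀ a : Fin 7, TT.d a * TT.d (a + 2) * TT.t true = TT.o := by decide

theorem tth_wm : ∀ a : Fin 7, TT.d a * TT.d (a - 2) * TT.t true = TT.o := by decide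

theorem tth_wp' : ∀ a : Fin 7, TT.d a * TT.d (a + 2) * TT.t false = TT.u := by decide

theorem tth_wm' : ∀ a : Fin 7, TT.d a * TT.d (a - 2) * TT.t false = TT.u := by decide

/-- An endomorphism of the monoid `TT` fixing `v` fixes `t false`, `t true`, `u` (and `o`).
PROOF: `v = d i * d (i+1)` for all `i`, so by `of_mul_v` the values `ψ (d i)`, `ψ (d (i+1))` are `one, v` in
some order or `d j, d k` with `j, k` adjacent.  If `ψ (d i) = one` or `= v` for some `i`, then by induction the
values `one`, `v` alternate around the 7-cycle, which is impossible since 7 is odd.  So `ψ (d i) = d (c i)` for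
all `i` with `c (i+1)`, `c i` adjacent, and `walk` gives `c i = c 0 + i` or `c i = c 0 - i`.
`u = d 0 * d 2 * d 4`, so `ψ u = d (c 0) * d (c 0 ± 2) * d (c 0 ± 4) = u` (decide).
`o = u * u`, so `ψ o = o`.  `u = v * t a`, so `u = v * ψ (t a)`, so `ψ (t a) = t false` or `t true`.
`w = ψ (d 0 * d 2) = d (c 0) * d (c 0 ± 2)` is some `dd i k`, and `dd * t false = u`, `dd * t true = o`.
From `d 0 * d 2 * t false = u` we get `w * ψ (t false) = u`, so `ψ (t false) = t false`;
from `d 0 * d 2 * t true = o` we get `w * ψ (t true) = o`, so `ψ (t true) = t true`. -/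
theorem TT.hom_v (ψ : TT → TT) (h1 : ψ .one = .one) (hm : ∀ a b, ψ (a * b) = ψ a * ψ b)
    (hv : ψ .v = .v) : (∀ a, ψ (.t a) = .t a) ∧ ψ .u = .u := by
  have hf : ∀ i : Fin 7, ψ (.d i) * ψ (.d (i + 1)) = .v := by
    intro i
    rw [← hm, tth_adj, hv]
  have h1v : (TT.one : TT) ≠ .v := by decide
  have s1 : ∀ i : Fin 7, ψ (.d i) = .one → ψ (.d (i + 1)) = .v := by
    intro i hi
    rcases TT.of_mul_v (hf i) with h | h | ⟨j, k, h, _⟩
    · exact h.2
    · rw [hi] at h
      exact absurd h.1 h1v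
    · rw [hi] at h
      exact absurd h (by simp)
  have s2 : ∀ i : Fin 7, ψ (.d i) = .v → ψ (.d (i + 1)) = .one := by
    intro i hi
    rcases TT.of_mul_v (hf i) with h | h | ⟨j, k, h, _⟩
    · rw [hi] at h
      exact absurd h.1 h1v.symm
    · exact h.2
    · rw [hi] at h
      exact absurd h (by simp)
  have n1 : ∀ i : Fin 7, ψ (.d i) ≠ .one := by
    intro i hi
    have := s1 _ (s2 _ (s1 _ (s2 _ (s1 _ (s2 _ (s1 _ hi))))))
    rw [tth_7, hi] at this
    exact h1v this
  have n2 : ∀ i : Fin 7, ψ (.d i) ≠ .v := fun i hi => n1 _ (s2 i hi)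
  have hd : ∀ i : Fin 7, ∃ j k : Fin 7, ψ (.d i) = .d j ∧ ψ (.d (i + 1)) = .d k ∧
      (k = j + 1 ∨ j = k + 1) := by
    intro i
    rcases TT.of_mul_v (hf i) with h | h | ⟨j, k, h⟩
    · exact absurd h.1 (n1 i)
    · exact absurd h.1 (n2 i)
    · exact ⟨j, k, h⟩
  choose c k hc hk hck using hd
  have hkc : ∀ i, k i = c (i + 1) := by
    intro i
    have := (hk i).symm.trans (hc (i + 1))
    exact TT.d.inj this
  have hw := walk c (fun i => by rw [← hkc]; exact hck i)
  have hu : ψ .u = .u := by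
    rw [← tth_u0, hm, hm, hc, hc, hc]
    rcases hw with h | h
    · rw [h 2, h 4]
      exact tth_up (c 0)
    · rw [h 2, h 4]
      exact tth_um (c 0)
  have ho : ψ .o = .o := by
    have h1 : (TT.o : TT) = .u * .u := by decide
    rw [h1, hm, hu]
  have ht : ∀ a, ψ (.t a) = .t false ∨ ψ (.t a) = .t true := by
    intro a
    apply tth_vt
    rw [← hv, ← hm, TT.v_mul_t, hu]
  have hdd : ∀ x : TT, ψ (TT.d 0 * TT.d 2 * x) = ψ (TT.d 0) * ψ (TT.d 2) * ψ x := by
    intro x
    rw [hm, hm]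
  have hwt : ψ (TT.d 0) * ψ (TT.d 2) * .t true = .o := by
    rw [hc, hc]
    rcases hw with h | h
    · rw [h 2]
      exact tth_wp (c 0)
    · rw [h 2]
      exact tth_wm (c 0)
  have hwf : ψ (TT.d 0) * ψ (TT.d 2) * .t false = .u := by
    rw [hc, hc]
    rcases hw with h | h
    · rw [h 2]
      exact tth_wp' (c 0)
    · rw [h 2]
      exact tth_wm' (c 0)
  have huo : (TT.u : TT) ≠ .o := by decide
  refine ⟨?_, hu⟩
  intro a
  cases a with
  | false =>
    rcases ht false with h | h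
    · exact h
    · exfalso
      have h2 := hdd (.t false)
      have h3 : TT.d 0 * TT.d 2 * TT.t false = TT.u := by decide
      rw [h3, hu, h, hwt] at h2
      exact huo h2
  | true =>
    rcases ht true with h | h
    · exfalso
      have h2 := hdd (.t true)
      have h3 : TT.d 0 * TT.d 2 * TT.t true = TT.o := by decide
      rw [h3, ho, h, hwf] at h2
      exact huo h2.symm
    · exact h

/-- PROOF: if `ψ v = u`, then `ψ (d i) * ψ (d (i+1)) = u`, so `deg (ψ (d i)) + deg (ψ (d (i+1))) = 3` for all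
`i ∈ ℤ/7`.  So the parity of `deg (ψ (d i))` changes 7 times around the 7-cycle, impossible. -/
theorem TT.hom_u (ψ : TT → TT) (hm : ∀ a b, ψ (a * b) = ψ a * ψ b) : ψ .v ≠ .u := by
  intro hv
  have hf : ∀ i : Fin 7, TT.deg (ψ (.d i)) + TT.deg (ψ (.d (i + 1))) = 3 := by
    intro i
    apply TT.deg_of_mul_u
    rw [← hm, tth_adj, hv]
  have h0 := hf 0
  have h1 := hf (0 + 1)
  have h2 := hf (0 + 1 + 1)
  have h3 := hf (0 + 1 + 1 + 1)
  have h4 := hf (0 + 1 + 1 + 1 + 1)
  have h5 := hf (0 + 1 + 1 + 1 + 1 + 1)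
  have h6 := hf (0 + 1 + 1 + 1 + 1 + 1 + 1)
  rw [tth_7] at h6
  omega

end EVS
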