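import Pool.Agent.EVS.WW
import Pool.Agent.EVS.TTh

/-!
# [EV-N1e] `WW r` has few endomorphisms
-/

set_option autoImplicit false

namespace EVS

private theorem wwe_mul_o (s : TT) : s * TT.o = TT.o := by
  rw [TT.mul_comm', TT.o_mul]

private theorem wwe_idem {r : ℕ} {w : WW r} (h : w * w = w) : w = .tt .one ∨ w = .tt .o := by
  have h1 : w * w = .tt (w.pi * w.pi) := by rw [WW.mul_def, WW.ac_pi]
  rw [h] at h1
  by_cases h2 : w.pi = .one
  · left
    rw [h1, h2, TT.one_mul']
  · right
    rw [h1, TT.sq h2]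

private theorem wwe_ac_o {r : ℕ} (w : WW r) : w.ac .o = .tt .o := by
  cases w with
  | tt s => show WW.tt (s * TT.o) = _; rw [wwe_mul_o]
  | y i => show WW.tt (TT.v * TT.o) = _; rw [wwe_mul_o]
  | z i => rfl

private theorem wwe_const {r : ℕ} (ψ : WW r →ₙ* WW r) (h : ψ (.tt .one) = .tt .o) (w : WW r) :
    ψ w = .tt .o := by
  have h1 : w * .tt .one = w := by rw [WW.mul_tt, WW.ac_one]
  rw [← h1, map_mul, h, WW.mul_tt, wwe_ac_o]

private theorem wwe_tt {r : ℕ} (ψ : WW r →ₙ* WW r) (h : ψ (.tt .one) = .tt .one) (w : WW r) :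
    ψ (.tt w.pi) = .tt (ψ w).pi := by
  have h1 : (.tt .one : WW r) * w = .tt w.pi := by rw [WW.tt_mul, TT.one_mul']
  rw [← h1, map_mul, h, WW.tt_mul, TT.one_mul']

private theorem wwe_z {r : ℕ} (j : Fin (r + 1)) (hr : 1 ≤ r) :
    ∃ (i : Fin r) (a : Bool), (.z j : WW r) = .y i * .tt (.t a) := by
  by_cases hj : j.val < r
  · exact ⟨⟨j.val, hj⟩, false, rfl⟩
  · refine ⟨⟨j.val - 1, by omega⟩, true, ?_⟩
    show (.z j : WW r) = .z (Fin.succ ⟨j.val - 1, _⟩)
    congr 1
    apply Fin.ext
    simp only [Fin.succ_mk]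
    omega

private theorem wwe_ext {r : ℕ} (hr : 1 ≤ r) {ψ ψ' : WW r →ₙ* WW r}
    (h1 : ∀ s, ψ (.tt s) = ψ' (.tt s)) (h2 : ∀ i, ψ (.y i) = ψ' (.y i)) : ψ = ψ' := by
  apply MulHom.ext
  intro w
  cases w with
  | tt s => exact h1 s
  | y i => exact h2 i
  | z j =>
    obtain ⟨i, a, h⟩ := wwe_z j hr
    rw [h, map_mul, map_mul, h1, h2]

private theorem wwe_path {r : ℕ} (hr : 1 ≤ r) (f : Fin r → WW r)
    (hpi : ∀ i, f i = .tt .v ∨ ∃ j, f i = .y j)
    (hst : ∀ i i' : Fin r, i'.val = i.val + 1 → f i * .tt (.t true) = f i' * .tt (.t false)) :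
    (∀ i, f i = .tt .v) ∨ (∀ i, f i = .y i) := by
  have hv : ∀ a, (.tt .v : WW r) * .tt (.t a) = .tt .u := fun a => rfl
  have hyf : ∀ j : Fin r, (.y j : WW r) * .tt (.t false) = .z j.castSucc := fun j => rfl
  have hyt : ∀ j : Fin r, (.y j : WW r) * .tt (.t true) = .z j.succ := fun j => rfl
  rcases hpi ⟨0, hr⟩ with h0 | ⟨j0, h0⟩
  · left
    have key : ∀ n (hn : n < r), f ⟨n, hn⟩ = .tt .v := by
      intro n
      induction n with
      | zero => intro _; exact h0
      | succ n ih =>
        intro hn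
        have h1 := ih (by omega)
        have h2 := hst ⟨n, by omega⟩ ⟨n + 1, hn⟩ rfl
        rw [h1, hv] at h2
        rcases hpi ⟨n + 1, hn⟩ with h3 | ⟨j, h3⟩
        · exact h3
        · rw [h3, hyf] at h2
          cases h2
    intro i
    exact key i.val i.isLt
  · right
    have key : ∀ n (hn : n < r), ∃ j : Fin r, f ⟨n, hn⟩ = .y j ∧ j.val = j0.val + n := by
      intro n
      induction n with
      | zero => intro _; exact ⟨j0, h0, rfl⟩
      | succ n ih =>
        intro hn
        obtain ⟨j, h1, hj⟩ := ih (by omega)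
        have h2 := hst ⟨n, by omega⟩ ⟨n + 1, hn⟩ rfl
        rw [h1, hyt] at h2
        rcases hpi ⟨n + 1, hn⟩ with h3 | ⟨j', h3⟩
        · rw [h3, hv] at h2
          cases h2
        · rw [h3, hyf] at h2
          refine ⟨j', h3, ?_⟩
          have h4 : j.succ = j'.castSucc := by
            injection h2
          have h5 := congrArg Fin.val h4
          simp only [Fin.val_succ, Fin.val_castSucc] at h5
          omega
    have hj0 : j0.val = 0 := by
      obtain ⟨j, -, hj⟩ := key (r - 1) (by omega)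
      have := j.isLt
      omega
    intro i
    obtain ⟨j, h1, hj⟩ := key i.val i.isLt
    have h2 : j = i := Fin.ext (by omega)
    rw [h2] at h1
    exact h1

/-- the code of an endomorphism -/
private noncomputable def wwe_code (r : ℕ) (ψ : WW r →ₙ* WW r) : (TT → TT) × Bool := by
  classical
  exact (fun s => (ψ (.tt s)).pi, decide (∀ i, ψ (.y i) = .tt .v))

private theorem wwe_inj (r : ℕ) (hr : 1 ≤ r) : Function.Injective (wwe_code r) := by
  intro ψ ψ' hc
  have hc1 : ∀ s, (ψ (.tt s)).pi = (ψ' (.tt s)).pi := fun s => congrFun (congrArg Prod.fst hc) s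
  have hc2 : (∀ i, ψ (.y i) = .tt .v) ↔ (∀ i, ψ' (.y i) = .tt .v) := by
    have := congrArg Prod.snd hc
    simpa [wwe_code] using this
  have hid : ∀ χ : WW r →ₙ* WW r, χ (.tt .one) = .tt .one ∨ χ (.tt .one) = .tt .o := by
    intro χ
    apply wwe_idem
    rw [← map_mul, WW.tt_mul]
    show χ (.tt (TT.one * TT.one)) = _
    rw [TT.one_mul']
  rcases hid ψ with h | h
  · have h' : ψ' (.tt .one) = .tt .one := by
      rcases hid ψ' with h' | h'
      · exact h'
      · have := hc1 .one
        rw [h, h'] at this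
        cases this
    have ht := wwe_tt ψ h
    have ht' := wwe_tt ψ' h'
    have hs : ∀ s, ψ (.tt s) = .tt (ψ (.tt s)).pi := fun s => ht (.tt s)
    have hs' : ∀ s, ψ' (.tt s) = .tt (ψ' (.tt s)).pi := fun s => ht' (.tt s)
    have hagree : ∀ s, ψ (.tt s) = ψ' (.tt s) := fun s => by rw [hs, hs', hc1]
    have hm : ∀ (χ : WW r →ₙ* WW r) (a b : TT),
        (χ (.tt (a * b))).pi = (χ (.tt a)).pi * (χ (.tt b)).pi := by
      intro χ a b
      have e1 : (.tt (a * b) : WW r) = .tt a * .tt b := rfl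
      rw [e1, map_mul, WW.pi_mul]
    have hpi : ∀ w, (ψ w).pi = (ψ (.tt w.pi)).pi := fun w => by rw [ht w]; rfl
    have hpi' : ∀ w, (ψ' w).pi = (ψ' (.tt w.pi)).pi := fun w => by rw [ht' w]; rfl
    have hu : (ψ (.tt .v)).pi ≠ .u := TT.hom_u (fun s => (ψ (.tt s)).pi) (hm ψ)
    refine wwe_ext hr hagree ?_
    by_cases hv : (ψ (.tt .v)).pi = .v
    · -- `θ v = v`
      have hv' : (ψ' (.tt .v)).pi = .v := by rw [← hc1]; exact hv
      have hcase : ∀ (χ : WW r →ₙ* WW r), χ (.tt .one) = .tt .one → (χ (.tt .v)).pi = .v →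
          (∀ w, (χ w).pi = (χ (.tt w.pi)).pi) → (∀ s, χ (.tt s) = .tt (χ (.tt s)).pi) →
          (∀ i, χ (.y i) = .tt .v) ∨ (∀ i, χ (.y i) = .y i) := by
        intro χ hχ1 hχv hχpi hχs
        obtain ⟨hta, -⟩ := TT.hom_v (fun s => (χ (.tt s)).pi) (by rw [hχ1]; rfl) (hm χ) hχv
        have hta' : ∀ a, χ (.tt (.t a)) = .tt (.t a) := fun a => by rw [hχs, hta a]
        refine wwe_path hr (fun i => χ (.y i)) ?_ ?_
        · intro i
          have h3 : (χ (.y i)).pi = .v := by rw [hχpi]; exact hχv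
          generalize hw : χ (.y i) = w at h3
          cases w with
          | tt s =>
            left
            have : s = .v := h3
            rw [this]
          | y j => right; exact ⟨j, rfl⟩
          | z j => cases h3
        · intro i i' hii
          show χ (.y i) * .tt (.t true) = χ (.y i') * .tt (.t false)
          rw [← hta' true, ← hta' false, ← map_mul, ← map_mul]
          congr 1
          show (.z i.succ : WW r) = .z i'.castSucc
          congr 1
          apply Fin.ext
          simp only [Fin.val_succ, Fin.val_castSucc]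
          omega
      intro i
      rcases hcase ψ h hv hpi hs with h4 | h4
      · rw [h4 i, (hc2.mp h4) i]
      · rcases hcase ψ' h' hv' hpi' hs' with h5 | h5
        · rw [h5 i, (hc2.mpr h5) i]
        · rw [h4 i, h5 i]
    · -- `θ v ≠ v`
      have hyv : ∀ (w : WW r), w.pi = (ψ (.tt .v)).pi → w = .tt (ψ (.tt .v)).pi := by
        intro w hw
        cases w with
        | tt s =>
          have : s = (ψ (.tt .v)).pi := hw
          rw [← this]
        | y j => exact absurd hw.symm hv
        | z j => exact absurd hw.symm hu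
      intro i
      have h6 : ψ (.y i) = .tt (ψ (.tt .v)).pi := hyv _ (hpi (.y i))
      have h7 : ψ' (.y i) = .tt (ψ (.tt .v)).pi := hyv _ (by rw [hpi' (.y i), ← hc1]; rfl)
      rw [h6, h7]
  · have h' : ψ' (.tt .one) = .tt .o := by
      rcases hid ψ' with h' | h'
      · have := hc1 .one
        rw [h, h'] at this
        cases this
      · exact h'
    apply MulHom.ext
    intro w
    rw [wwe_const ψ h, wwe_const ψ' h']

/-- The number of endomorphisms of `WW r` is bounded independently of `r`: the map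
`ψ ↦ (fun s : TT => (ψ (tt s)).pi, decide (∀ i, (ψ (y i)) = tt v))` is injective on endomorphisms (for each
`r`), so the number is at most `Nat.card ((TT → TT) × Bool)`.
PROOF of the injectivity.  Let `ψ` be an endomorphism.
(1) The idempotents of `WW r` are `tt one` and `tt o` (`TT.sq`; `y i * y i = tt (v * v) = tt o`,
`z i * z i = tt o`).
(2) If `ψ (tt one) = tt o`, then `ψ w = ψ (w * tt one) = ψ w * tt o = tt o` for all `w` (`w.ac o = tt o`), so
`ψ` is constant; this case is recognized by the first component at `one`.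
(3) Otherwise `ψ (tt one) = tt one`.  Then for every `w`: `ψ (tt w.pi) = ψ (tt one * w) = tt one * ψ w =
tt (ψ w).pi`.  (`tt s * w = tt (s * w.pi)`.)  So with `θ s = (ψ (tt s)).pi` we have `ψ (tt s) = tt (θ s)`
(put `w = tt s`), `θ` is multiplicative with `θ one = one`, and `(ψ w).pi = θ w.pi`.
(4) `θ v ≠ u` by `TT.hom_u`.
(5) If `θ v ≠ v`: `(ψ (y i)).pi = θ v` is neither `v` nor `u`, so `ψ (y i) = tt (θ v)`; and
`ψ (z i) = ψ (y i * t false) = ψ (y i) * ψ (tt (t false))` is determined by `θ` (for `i < r`; for `z r` use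
`z (i+1) = y i * t true`).  If `r = 0`: `z 0` is not a product.  To avoid this assume `1 ≤ r`.
(6) If `θ v = v`: `θ (t a) = t a`, `θ u = u` by `TT.hom_v`.  `(ψ (y i)).pi = v`, so `ψ (y i) = tt v` or
`ψ (y i) = y j`.  `ψ (z i.castSucc) = ψ (y i) * t false` and `ψ (z i.succ) = ψ (y i) * t true`: these are
`tt u` if `ψ (y i) = tt v`, and `z j.castSucc`, `z j.succ` if `ψ (y i) = y j`.
Hence for consecutive `i, i+1 < r` (common element `z (i+1)`): `ψ (y i) = tt v` iff `ψ (y (i+1)) = tt v`, and
if `ψ (y i) = y j`, `ψ (y (i+1)) = y j'` then `j' = j + 1`.  So either all `y i ↦ tt v` and all `z i ↦ tt u`,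
or `y i ↦ y (j0 + i)` for all `i < r`, so `j0 = 0` and `ψ` is the identity on the `y i` and `z i`.
In both cases `ψ` is determined by `θ` and the Boolean.  -/
theorem nEnd_WW : ∃ B : ℕ, ∀ r : ℕ, 1 ≤ r → nEnd (WW r) ≤ B := by
  refine ⟨Nat.card ((TT → TT) × Bool), fun r hr => ?_⟩
  exact Nat.card_le_card_of_injective _ (wwe_inj r hr)

end EVS
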