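import Pool.Agent.EVS.WWV
import Pool.Agent.EVS.WWE

/-!
# [EV-N1f] reversal; varieties containing `C2` and `P` or its dual
-/

set_option autoImplicit false

namespace EVS

/-- the reversed word -/
noncomputable def rev : Wd → Wd :=
  fun w => MulOpposite.unop (FreeSemigroup.lift (fun i => MulOpposite.op (FreeSemigroup.of i)) w)

/-- PROOF: induction on `w` (`FreeSemigroup.recOnMul`): `rev (of i) = of i`, `rev (u * w) = rev w * rev u`. -/
theorem lift_rev {S : Type} [Semigroup S] (φ : ℕ → S) (w : Wd) :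
    FreeSemigroup.lift φ (rev w) =
      MulOpposite.unop (FreeSemigroup.lift (fun i => MulOpposite.op (φ i)) w) := by
  induction w using FreeSemigroup.recOnMul with
  | ih1 x =>
    have h : rev (FreeSemigroup.of x) = FreeSemigroup.of x := by
      unfold rev
      rw [FreeSemigroup.lift_of, MulOpposite.unop_op]
    rw [h, FreeSemigroup.lift_of, FreeSemigroup.lift_of, MulOpposite.unop_op]
  | ih2 x y hx hy =>
    have h : rev (FreeSemigroup.of x * y) = rev y * rev (FreeSemigroup.of x) := by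
      unfold rev
      rw [map_mul, MulOpposite.unop_mul]
    rw [h, map_mul, hx, hy, ← MulOpposite.unop_mul, ← map_mul]

/-- PROOF: `lift_rev`. -/
theorem holds_op {S : Type} [Semigroup S] (p : Wd × Wd) :
    Holds Sᵐᵒᵖ p ↔ Holds S (rev p.1, rev p.2) := by
  constructor
  · intro h φ
    show FreeSemigroup.lift φ (rev p.1) = FreeSemigroup.lift φ (rev p.2)
    rw [lift_rev, lift_rev, h]
  · intro h φ
    have h1 := h (fun i => MulOpposite.unop (φ i))
    change FreeSemigroup.lift _ (rev p.1) = FreeSemigroup.lift _ (rev p.2) at h1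
    rw [lift_rev, lift_rev] at h1
    exact MulOpposite.unop_injective h1

/-- PROOF: `C2` is commutative: `MulOpposite.op : C2 → C2ᵐᵒᵖ` is an isomorphism (use `holds_of_div`). -/
theorem holds_C2_op {p : Wd × Wd} (h : Holds C2 p) : Holds C2ᵐᵒᵖ p := by
  have hcomm : ∀ a b : C2, a * b = b * a := by decide
  refine holds_of_div (T := C2) (S := C2ᵐᵒᵖ) Set.univ MulOpposite.op (fun _ _ _ _ => Set.mem_univ _)
    ?_ ?_ h
  · intro a _ b _
    rw [← MulOpposite.op_mul, hcomm]
  · intro s
    exact ⟨MulOpposite.unop s, Set.mem_univ _, MulOpposite.op_unop s⟩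

theorem nEnd_op (S : Type) [Semigroup S] : nEnd Sᵐᵒᵖ = nEnd S := by
  exact Nat.card_congr MulHom.op.symm

/-- PROOF: take `B` from `nEnd_WW`.  If `V` is endomorphic, there is `n` such that all members with at least `n`
elements have more than `B` endomorphisms.  Apply this to `WW (n+1)` (`holds_WW`, `WW.card`). -/
theorem not_endo_of_P {V : Set (Wd × Wd)} (hC : Mem V C2) (hP : Mem V P) : ¬ Endomorphic V := by
  intro hV
  obtain ⟨B, hB⟩ := nEnd_WW
  obtain ⟨n, hn⟩ := hV B
  have h1 := hn (WW (n + 1)) (fun p hp => holds_WW (hC p hp) (hP p hp) (n + 1))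
    (le_trans (Nat.le_succ n) (WW.card (n + 1)))
  have h2 := hB (n + 1) (by omega)
  omega

/-- The dual, with the members `(WW (n+1))ᵐᵒᵖ`: an identity `p ∈ V` holds in `C2` and `Pᵐᵒᵖ`, so
`(rev p.1, rev p.2)` holds in `C2` and `P` (`holds_op`, `holds_C2_op`), hence in `WW (n+1)`, so `p` holds in
`(WW (n+1))ᵐᵒᵖ`. -/
theorem not_endo_of_P' {V : Set (Wd × Wd)} (hC : Mem V C2) (hP : Mem V Pᵐᵒᵖ) : ¬ Endomorphic V := by
  intro hV
  obtain ⟨B, hB⟩ := nEnd_WW
  obtain ⟨n, hn⟩ := hV B
  have hmem : Mem V (WW (n + 1))ᵐᵒᵖ := by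
    intro p hp
    rw [holds_op]
    exact holds_WW (holds_op p |>.1 (holds_C2_op (hC p hp))) ((holds_op p).1 (hP p hp)) (n + 1)
  have hcard : Nat.card (WW (n + 1))ᵐᵒᵖ = Nat.card (WW (n + 1)) :=
    Nat.card_congr MulOpposite.opEquiv.symm
  have hfin : Finite (WW (n + 1))ᵐᵒᵖ := Finite.of_equiv (WW (n + 1)) MulOpposite.opEquiv
  have h1 := hn (WW (n + 1))ᵐᵒᵖ hmem (by
    rw [hcard]
    exact le_trans (Nat.le_succ n) (WW.card (n + 1)))
  have h2 := hB (n + 1) (by omega)
  rw [nEnd_op] at h1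
  omega

end EVS
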