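import Pool.Agent.EVS.WW

/-!
# [EV-N1d] `WW r` satisfies the identities of `C2` and `P`
-/

set_option autoImplicit false

namespace EVS

/-- the values of words in `C2` -/
def wwv_cv : ℕ → C2
  | 0 => .one
  | 1 => .c
  | _ + 2 => .o

theorem wwv_cv_mul (a b : ℕ) : wwv_cv a * wwv_cv b = wwv_cv (a + b) := by
  match a, b with
  | 0, b =>
    rw [Nat.zero_add]
    rfl
  | 1, 0 => rfl
  | 1, 1 => rfl
  | 1, b + 2 =>
    have : 1 + (b + 2) = (b + 1) + 2 := by omega
    rw [this]
    rfl
  | a + 2, 0 => rfl
  | a + 2, 1 =>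
    have : a + 2 + 1 = (a + 1) + 2 := by omega
    rw [this]
    rfl
  | a + 2, b + 2 =>
    have : a + 2 + (b + 2) = (a + b + 2) + 2 := by omega
    rw [this]
    rfl

theorem wwv_cv_inj {a b : ℕ} (h : wwv_cv a = wwv_cv b) : min a 2 = min b 2 := by
  match a, b with
  | 0, 0 => rfl
  | 0, 1 => exact absurd h (by decide)
  | 0, b + 2 => exact absurd (show C2.one = C2.o from h) (by decide)
  | 1, 0 => exact absurd h (by decide)
  | 1, 1 => rfl
  | 1, b + 2 => exact absurd (show C2.c = C2.o from h) (by decide)
  | a + 2, 0 => exact absurd (show C2.o = C2.one from h) (by decide)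
  | a + 2, 1 => exact absurd (show C2.o = C2.c from h) (by decide)
  | a + 2, b + 2 => omega

theorem wwv_cnt_mul (x : ℕ) (u w : Wd) : cnt x (u * w) = cnt x u + cnt x w := by
  unfold cnt
  rw [toL_mul, List.count_append]

theorem wwv_cnt_of (x y : ℕ) : cnt x (FreeSemigroup.of y) = if y = x then 1 else 0 := by
  unfold cnt
  rw [toL_of, List.count_singleton]
  by_cases h : y = x
  · subst h; simp
  · simp [h]

theorem wwv_lift_C2 (x : ℕ) (w : Wd) :
    FreeSemigroup.lift (fun i => if i = x then C2.c else C2.one) w = wwv_cv (cnt x w) := by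
  induction w using FreeSemigroup.recOnMul with
  | ih1 y =>
    rw [FreeSemigroup.lift_of, wwv_cnt_of]
    by_cases h : y = x
    · simp [h, wwv_cv]
    · simp [h, wwv_cv]
  | ih2 y w h1 h2 => rw [map_mul, h1, h2, wwv_cnt_mul, wwv_cv_mul]

/-- An identity of `C2`: every letter occurs in both sides equally often, where at least 2 is not
distinguished.  PROOF: evaluate at `x ↦ c`, all other letters `↦ 1` (`coe_lift`): a word has the value `1`, `c`,
`o` if `x` occurs 0 times, once, at least twice.  (`cnt x w = (toL w).count x`.) -/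
theorem cnt_of_C2 {p : Wd × Wd} (h : Holds C2 p) (x : ℕ) : min (cnt x p.1) 2 = min (cnt x p.2) 2 := by
  have h1 := h (fun i => if i = x then C2.c else C2.one)
  rw [wwv_lift_C2, wwv_lift_C2] at h1
  exact wwv_cv_inj h1

theorem wwv_P_f (s : P) : s * P.f = s := by cases s <;> rfl

theorem wwv_P_y (s : P) : s * P.y = P.o := by cases s <;> rfl

theorem wwv_foldl_P (x : ℕ) (l : List ℕ) (s : P) :
    l.foldl (fun a b => a * (if b = x then P.y else P.f)) s = if x ∈ l then P.o else s := by
  induction l generalizing s with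
  | nil => simp
  | cons b l ih =>
    rw [List.foldl_cons, ih]
    by_cases hb : b = x
    · subst hb
      simp [wwv_P_y]
    · rw [if_neg hb, wwv_P_f]
      have : x ∈ b :: l ↔ x ∈ l := by
        simp [Ne.symm hb]
      by_cases hx : x ∈ l
      · rw [if_pos hx, if_pos (this.2 hx)]
      · rw [if_neg hx, if_neg (fun h => hx (this.1 h))]

theorem wwv_lift_P (x : ℕ) (w : Wd) :
    FreeSemigroup.lift (fun i => if i = x then P.y else P.f) w =
      if x ∈ w.tail then P.o else (if w.head = x then P.y else P.f) :=
  wwv_foldl_P x w.tail _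

theorem wwv_cnt_eq (x : ℕ) (w : Wd) : cnt x w = w.tail.count x + if w.head = x then 1 else 0 := by
  unfold cnt toL
  rw [List.count_cons]
  by_cases h : w.head = x
  · subst h; simp
  · simp [h]

/-- An identity of `P`: if the first letter of one side occurs once, then it is the first letter of the other
side.  PROOF: evaluate at `x ↦ y`, all other letters `↦ f`: a word has the value `y` if and only if it starts
with `x` and `x` does not occur again (`y f = y`, `f y = o`, `y y = o`). -/
theorem head_of_P {p : Wd × Wd} (h : Holds P p) (h1 : cnt p.1.head p.1 = 1) :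
    p.2.head = p.1.head ∧ cnt p.1.head p.2 = 1 := by
  have h2 := h (fun i => if i = p.1.head then P.y else P.f)
  rw [wwv_lift_P, wwv_lift_P, if_pos rfl] at h2
  have h3 : p.1.head ∉ p.1.tail := by
    rw [wwv_cnt_eq, if_pos rfl] at h1
    exact List.count_eq_zero.1 (by omega)
  rw [if_neg h3] at h2
  by_cases h4 : p.1.head ∈ p.2.tail
  · rw [if_pos h4] at h2
    exact absurd h2 (by decide)
  · rw [if_neg h4] at h2
    by_cases h5 : p.2.head = p.1.head
    · refine ⟨h5, ?_⟩
      rw [wwv_cnt_eq, if_pos h5, List.count_eq_zero.2 h4]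
    · rw [if_neg h5] at h2
      exact absurd h2 (by decide)

/-- In `TT` words with the same counts (up to 2) have the same value, also after a change of order.
Precisely: for `φ : ℕ → TT` and lists `l, l'` of letters with `min (l.count x) 2 = min (l'.count x) 2` for all
`x` the products (in `WithOne TT`, or as `List.foldl (· * ·) TT.one`) of `l.map φ` and `l'.map φ` agree,
because `TT` is commutative with `a a = a a a` (both sides are `o` or `one`).  Here `fo` is the product in `TT`
starting from `one`.
PROOF: `fo (l.map φ)` is invariant under permutations of `l`, so if `l` and `l'` are permutations of each other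
we are done; in general: if some letter `x` with `φ x ≠ one` has count at least 2 in `l` (equivalently in `l'`),
both products are `o` (`TT.sq`, `TT.o_mul`).  Otherwise drop all letters with `φ x = one`; the remaining letters
have equal counts `≤ 1` in `l` and `l'`, so the remaining lists are permutations of each other. -/
def fo (l : List TT) : TT := l.foldr (· * ·) TT.one

theorem wwv_fo_cons (a : TT) (l : List TT) : fo (a :: l) = a * fo l := rfl

theorem wwv_fo_perm {l l' : List TT} (h : l.Perm l') : fo l = fo l' := by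
  induction h with
  | nil => rfl
  | cons a _ ih => rw [wwv_fo_cons, wwv_fo_cons, ih]
  | swap a b l =>
    rw [wwv_fo_cons, wwv_fo_cons, wwv_fo_cons, wwv_fo_cons, ← mul_assoc, ← mul_assoc,
      TT.mul_comm' b a]
  | trans _ _ ih1 ih2 => rw [ih1, ih2]

theorem wwv_fo_dup (φ : ℕ → TT) (l : List ℕ) (x : ℕ) (hx : φ x ≠ .one) (h2 : 2 ≤ l.count x) :
    fo (l.map φ) = .o := by
  have h3 : x ∈ l := List.count_pos_iff.1 (by omega)
  have h4 := List.perm_cons_erase h3
  have h5 : x ∈ l.erase x := by
    apply List.count_pos_iff.1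
    rw [List.count_erase_self]
    omega
  have h6 := List.perm_cons_erase h5
  have h7 : l.Perm (x :: x :: (l.erase x).erase x) := h4.trans (h6.cons x)
  rw [wwv_fo_perm (h7.map φ), List.map_cons, List.map_cons, wwv_fo_cons, wwv_fo_cons,
    ← mul_assoc, TT.sq hx, TT.o_mul]

theorem wwv_fo_filter (φ : ℕ → TT) (l : List ℕ) :
    fo (l.map φ) = fo ((l.filter fun x => decide (φ x ≠ .one)).map φ) := by
  induction l with
  | nil => rfl
  | cons b l ih =>
    by_cases hb : φ b = .one
    · rw [List.filter_cons_of_neg (by simp [hb]), List.map_cons, wwv_fo_cons, hb, TT.one_mul', ih]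
    · rw [List.filter_cons_of_pos (by simp [hb]), List.map_cons, List.map_cons, wwv_fo_cons,
        wwv_fo_cons, ih]

theorem fo_eq (φ : ℕ → TT) (l l' : List ℕ) (h : ∀ x, min (l.count x) 2 = min (l'.count x) 2) :
    fo (l.map φ) = fo (l'.map φ) := by
  by_cases hd : ∃ x, φ x ≠ .one ∧ 2 ≤ l.count x
  · obtain ⟨x, h1, h2⟩ := hd
    have h3 := h x
    rw [wwv_fo_dup φ l x h1 h2, wwv_fo_dup φ l' x h1 (by omega)]
  · rw [wwv_fo_filter φ l, wwv_fo_filter φ l']
    apply wwv_fo_perm
    apply List.Perm.map
    rw [List.perm_iff_count]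
    intro x
    by_cases hx : φ x = .one
    · rw [List.count_eq_zero.2, List.count_eq_zero.2]
      · simp [hx]
      · simp [hx]
    · rw [List.count_filter (by simp [hx]), List.count_filter (by simp [hx])]
      have h3 := h x
      have h4 : ¬ 2 ≤ l.count x := fun h4 => hd ⟨x, hx, h4⟩
      omega

theorem wwv_foldl_WW {r : ℕ} (φ : ℕ → WW r) (l : List ℕ) (s : WW r) :
    l.foldl (fun a b => a * φ b) s = s.ac (fo (l.map fun x => (φ x).pi)) := by
  induction l generalizing s with
  | nil => exact (WW.ac_one s).symm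
  | cons b l ih =>
    rw [List.foldl_cons, ih, List.map_cons, wwv_fo_cons, WW.mul_def, WW.ac_ac]

/-- The value of a word in `WW r`: the first letter, acted on by the product of the projections of the other
letters.  PROOF: induction (`FreeSemigroup.recOnMul` or induction on the tail), `WW.ac_ac`. -/
theorem lift_WW {r : ℕ} (φ : ℕ → WW r) (w : Wd) :
    FreeSemigroup.lift φ w = (φ w.head).ac (fo (w.tail.map fun x => (φ x).pi)) :=
  wwv_foldl_WW φ w.tail _

theorem wwv_lift_dup {r : ℕ} (φ : ℕ → WW r) (w : Wd) (h : 2 ≤ cnt w.head w) :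
    FreeSemigroup.lift φ w = .tt (fo ((toL w).map fun x => (φ x).pi)) := by
  have h1 : w.head ∈ w.tail := by
    apply List.count_pos_iff.1
    rw [wwv_cnt_eq, if_pos rfl] at h
    omega
  have h2 := List.perm_cons_erase h1
  have h3 : fo (w.tail.map fun x => (φ x).pi) =
      (φ w.head).pi * fo ((w.tail.erase w.head).map fun x => (φ x).pi) := by
    rw [wwv_fo_perm (h2.map fun x => (φ x).pi), List.map_cons, wwv_fo_cons]
  rw [lift_WW]
  unfold toL
  rw [List.map_cons, wwv_fo_cons, h3, ← WW.ac_ac, WW.ac_pi]
  show WW.tt _ = WW.tt _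
  rw [mul_assoc]

/-- PROOF: let `p = (a, b)`, `φ : ℕ → WW r`, `x` the first letter of `a`.  Write `ψ = pi ∘ φ`.
Case 1: `x` occurs once in `a`.  Then `b` starts with `x`, which occurs once in `b` (`head_of_P`), and the
tails have the same counts up to 2 (`cnt_of_C2`); use `lift_WW` and `fo_eq`.
Case 2: `x` occurs at least twice in `a`; then the first letter `x'` of `b` occurs at least twice in `b`
(if `x'` occurs once in `b`, then it occurs once in `a` by `cnt_of_C2`, and `head_of_P` for `(b, a)`, which holds
in `P` as well, gives `x' = x`, contradiction).  The value of `a` is `tt` of the value of `a` in `TT`: the tail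
of `a` is a permutation of `x :: rest`, so
`lift φ a = (φ x).ac (ψ x * fo (rest)) = ((φ x).ac (ψ x)).ac (fo rest) = (tt (ψ x * ψ x)).ac (fo rest)`
`= tt (ψ x * (ψ x * fo rest)) = tt (fo ((toL a).map ψ))` (`WW.ac_ac`, `WW.ac_pi`).  The same for `b`, and
`fo ((toL a).map ψ) = fo ((toL b).map ψ)` by `fo_eq`. -/
theorem holds_WW {p : Wd × Wd} (hC : Holds C2 p) (hP : Holds P p) (r : ℕ) : Holds (WW r) p := by
  intro φ
  have hpos : ∀ w : Wd, 1 ≤ cnt w.head w := by
    intro w
    rw [wwv_cnt_eq, if_pos rfl]
    omega
  by_cases h1 : cnt p.1.head p.1 = 1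
  · obtain ⟨h2, h3⟩ := head_of_P hP h1
    rw [lift_WW, lift_WW, h2]
    congr 1
    apply fo_eq
    intro x
    have h4 := cnt_of_C2 hC x
    rw [wwv_cnt_eq, wwv_cnt_eq, h2] at h4
    rw [wwv_cnt_eq, if_pos rfl] at h1
    rw [wwv_cnt_eq, if_pos h2] at h3
    by_cases hx : p.1.head = x
    · subst hx
      omega
    · rw [if_neg hx] at h4
      simpa using h4
  · have h2 : 2 ≤ cnt p.1.head p.1 := by
      have := hpos p.1
      omega
    have h3 : 2 ≤ cnt p.2.head p.2 := by
      by_contra h4
      have h5 : cnt p.2.head p.2 = 1 := by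
        have := hpos p.2
        omega
      have h6 : Holds P (p.2, p.1) := fun ψ => (hP ψ).symm
      obtain ⟨h7, h8⟩ := head_of_P h6 h5
      simp only at h7 h8
      rw [← h7] at h8
      exact h1 h8
    rw [wwv_lift_dup φ p.1 h2, wwv_lift_dup φ p.2 h3]
    congr 1
    apply fo_eq
    intro x
    exact cnt_of_C2 hC x

end EVS
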