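import Pool.Agent.EVS.Gen

/-!
# [EV-L1] counting products of lists; nilpotent subsemigroups
-/

set_option autoImplicit false

namespace EVS

variable {S : Type} [Semigroup S] [Finite S]

omit [Finite S] in
private theorem lst_pad (A : Set S) (l : List A) :
    (l.map ((fun o : Option A => o.elim (1 : WithOne S) (fun a => ((a : S) : WithOne S))) ∘ some)).prod =
      prd (l.map Subtype.val) := by
  induction l with
  | nil => rfl
  | cons a l ih =>
    rw [List.map_cons, List.map_cons, List.prod_cons, prd_cons, ih]
    rfl

/-- The number of products of at most `L` elements of `A` is at most `(|A| + 1)^L`.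
PROOF: the map from `Fin L → Option A` to `WithOne S`, `w ↦` product of the entries (`none ↦ 1`), reaches all
these products (pad the list with `none`); `Nat.card (Fin L → Option A) = (|A| + 1)^L`.
So there is an injection from the left set to `Fin L → Option A` (choose a preimage for each element). -/
theorem card_prd_le (A : Set S) (L : ℕ) :
    Nat.card {x : S // ∃ l : List S, l.length ≤ L ∧ (∀ a ∈ l, a ∈ A) ∧ prd l = (x : WithOne S)} ≤
      (Nat.card A + 1) ^ L := by
  classical
  have := Fintype.ofFinite S
  have hcard : Nat.card (List.Vector (Option A) L) = (Nat.card A + 1) ^ L := by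
    rw [Nat.card_eq_fintype_card, card_vector, Fintype.card_option, Nat.card_eq_fintype_card]
  rw [← hcard]
  set g : List (Option A) → WithOne S := fun l =>
    (l.map (fun o : Option A => o.elim 1 (fun a => ((a : S) : WithOne S)))).prod with hg
  have hex : ∀ x : {x : S // ∃ l : List S, l.length ≤ L ∧ (∀ a ∈ l, a ∈ A) ∧ prd l = (x : WithOne S)},
      ∃ v : List.Vector (Option A) L, g v.toList = (x.1 : WithOne S) := by
    rintro ⟨x, l, hl, hA, hx⟩
    lift l to List A using hA
    rw [List.length_map] at hl
    refine ⟨⟨l.map some ++ List.replicate (L - l.length) none, ?_⟩, ?_⟩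
    · rw [List.length_append, List.length_map, List.length_replicate]
      omega
    · show g (l.map some ++ List.replicate (L - l.length) none) = (x : WithOne S)
      rw [← hx, hg]
      simp only [List.map_append, List.map_map, List.prod_append, List.map_replicate,
        Option.elim_none, List.prod_replicate, one_pow, mul_one]
      exact lst_pad A l
  choose f hf using hex
  refine Nat.card_le_card_of_injective f ?_
  intro x y hxy
  apply Subtype.ext
  rw [← WithOne.coe_inj, ← hf x, ← hf y, hxy]

omit [Finite S] in
private theorem lst_mem (A : Set S) (hmul : ∀ s ∈ A, ∀ t ∈ A, s * t ∈ A) (l : List S) :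
    (∀ a ∈ l, a ∈ A) → ∀ x : S, prd l = (x : WithOne S) → x ∈ A := by
  induction l with
  | nil =>
    intro _ x hx
    exact absurd rfl (ne_nil_of_prd hx)
  | cons a l ih =>
    intro hl x hx
    by_cases h : l = []
    · subst h
      rw [prd_singleton, WithOne.coe_inj] at hx
      rw [← hx]
      exact hl a (by simp)
    · obtain ⟨s, hs⟩ := exists_prd h
      rw [prd_cons, hs, ← WithOne.coe_mul, WithOne.coe_inj] at hx
      rw [← hx]
      exact hmul _ (hl a (by simp)) _ (ih (fun c hc => hl c (by simp [hc])) s hs)

private theorem lst_b {b : S} (A : Set S) 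
    (hb : ∀ s ∈ A, s * b = b ∧ b * s = b ∧ om s = b) (l : List S) (hl : ∀ a ∈ l, a ∈ A) :
    (b : WithOne S) * prd l = (b : WithOne S) := by
  induction l with
  | nil => rw [prd_nil, mul_one]
  | cons a l ih =>
    rw [prd_cons, ← mul_assoc, ← WithOne.coe_mul, (hb a (hl a (by simp))).2.1]
    exact ih (fun c hc => hl c (by simp [hc]))

/-- the products of the initial segments are not `b` -/
private theorem lst_ne {b : S} (A : Set S) 
    (hb : ∀ s ∈ A, s * b = b ∧ b * s = b ∧ om s = b) (l : List S) (hl : ∀ a ∈ l, a ∈ A)
    (hx : prd l ≠ (b : WithOne S)) (i : ℕ) : prd (l.take i) ≠ (b : WithOne S) := by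
  intro h
  apply hx
  conv_lhs => rw [← List.take_append_drop i l, prd_append, h]
  exact lst_b A hb _ (fun a ha => hl a (List.mem_of_mem_drop ha))

omit [Finite S] in
private theorem lst_pw {p w : S} (h : p * w = p) (n : ℕ) : p * pw w n = p := by
  induction n with
  | zero => exact h
  | succ n ih => rw [pw_succ, ← mul_assoc, ih, h]

private theorem lst_inj {b : S} (A : Set S) (hmul : ∀ s ∈ A, ∀ t ∈ A, s * t ∈ A)
    (hb : ∀ s ∈ A, s * b = b ∧ b * s = b ∧ om s = b) (l : List S) (hl : ∀ a ∈ l, a ∈ A)
    (hx : prd l ≠ (b : WithOne S)) (i j : ℕ) (hi : 1 ≤ i) (hij : i < j) (hj : j ≤ l.length) :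
    prd (l.take i) ≠ prd (l.take j) := by
  intro h
  have hne : l.take i ≠ [] := by
    intro h0
    have := congrArg List.length h0
    rw [List.length_take, List.length_nil] at this
    omega
  obtain ⟨p, hp⟩ := exists_prd hne
  have hpA : p ∈ A := lst_mem A hmul _ (fun a ha => hl a (List.mem_of_mem_take ha)) p hp
  have hne2 : (l.take j).drop i ≠ [] := by
    intro h0
    have := congrArg List.length h0
    rw [List.length_drop, List.length_take, List.length_nil] at this
    omega
  obtain ⟨w, hw⟩ := exists_prd hne2
  have hwA : w ∈ A := lst_mem A hmul _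
    (fun a ha => hl a (List.mem_of_mem_take (List.mem_of_mem_drop ha))) w hw
  have h1 : prd (l.take j) = prd (l.take i) * prd ((l.take j).drop i) := by
    rw [← prd_append]
    congr 1
    conv_lhs => rw [← List.take_append_drop i (l.take j), List.take_take, min_eq_left hij.le]
  have h2 : p * w = p := by
    rw [← WithOne.coe_inj, WithOne.coe_mul, ← hp, ← hw, ← h1, h]
  apply lst_ne A hb l hl hx i
  rw [hp]
  congr 1
  obtain ⟨n, hn⟩ := om_eq_pw w
  have h3 := lst_pw h2 n
  rw [← hn, (hb w hwA).2.2, (hb p hpA).1] at h3
  exact h3.symm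

private theorem lst_len {b : S} (A : Set S) (hmul : ∀ s ∈ A, ∀ t ∈ A, s * t ∈ A)
    (hb : ∀ s ∈ A, s * b = b ∧ b * s = b ∧ om s = b) (l : List S) (hl : ∀ a ∈ l, a ∈ A)
    (hx : prd l ≠ (b : WithOne S)) : l.length ≤ Nat.card S := by
  have hex : ∀ i : Fin l.length, ∃ p : S, prd (l.take (i.1 + 1)) = (p : WithOne S) := by
    intro i
    apply exists_prd
    intro h0
    have := congrArg List.length h0
    rw [List.length_take, List.length_nil] at this
    have := i.2
    omega
  choose f hf using hex
  have hinj : Function.Injective f := by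
    intro i j hij
    by_contra hne
    have hne' : i.1 ≠ j.1 := fun h => hne (Fin.ext h)
    have h1 : prd (l.take (i.1 + 1)) = prd (l.take (j.1 + 1)) := by rw [hf, hf, hij]
    rcases lt_or_gt_of_ne hne' with h | h
    · exact lst_inj A hmul hb l hl hx (i.1 + 1) (j.1 + 1) (by omega) (by omega)
        (by have := j.2; omega) h1
    · exact lst_inj A hmul hb l hl hx (j.1 + 1) (i.1 + 1) (by omega) (by omega)
        (by have := i.2; omega) h1.symm
  have := Nat.card_le_card_of_injective f hinj
  rwa [Nat.card_eq_fintype_card, Fintype.card_fin] at this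

/-- `A` is a subsemigroup with zero `b` in which every element has a power `b`; then a product of `k` elements of
`A` different from `b` implies that there are at least `k / 2` elements `z ≠ b` of `A` with `z z = b`.
PROOF: (1) For a list `l` of elements of `A` with product `x ≠ b` the products `p_i` of the first `i` elements
(`i = 1, ..., k`) are distinct and `≠ b`: `p_i = b` implies `x = b`; if `p_i = p_j` with `i < j`, then
`p_i = p_i w` with `w ∈ A` (the product of the elements `i+1..j`), so `p_i = p_i * pw w n` for all `n`, hence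
`p_i = p_i * om w = p_i * b = b`.
(2) So `k ≤ |S|`, and there is a largest `K` such that some list of `K` elements of `A` has a product `≠ b`;
`k ≤ K`, and every product of at least `K + 1` elements of `A` is `b`.
(3) Take such a list of length `K`.  For `i` with `2 i ≥ K + 1` we have `p_i p_i = b` (a product of `2 i`
elements).  These `i ∈ {⌈(K+1)/2⌉, ..., K}` are `K - ⌈(K+1)/2⌉ + 1 = ⌈K/2⌉`-many at least `K / 2` values, giving
distinct elements `z = p_i ≠ b` with `z z = b`.  So `K ≤ 2 * #{z}`. -/
theorem nul_count {b : S} (A : Set S) (hmul : ∀ s ∈ A, ∀ t ∈ A, s * t ∈ A)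
    (hb : ∀ s ∈ A, s * b = b ∧ b * s = b ∧ om s = b) (l : List S) (hl : ∀ a ∈ l, a ∈ A) {x : S}
    (hx : prd l = (x : WithOne S)) (hxb : x ≠ b) :
    l.length ≤ 2 * Nat.card {z : S // z ∈ A ∧ z * z = b ∧ z ≠ b} := by
  classical
  set Q : ℕ → Prop := fun k => ∃ l : List S, l.length = k ∧ (∀ a ∈ l, a ∈ A) ∧
    prd l ≠ (b : WithOne S) with hQ
  have hbound : ∀ k, Q k → k ≤ Nat.card S := by
    rintro k ⟨l, rfl, h1, h2⟩
    exact lst_len A hmul hb l h1 h2
  have hQl : Q l.length := ⟨l, rfl, hl, by rw [hx]; exact fun h => hxb (WithOne.coe_inj.1 h)⟩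
  set K := Nat.findGreatest Q (Nat.card S) with hK
  have hlK : l.length ≤ K := Nat.le_findGreatest (hbound _ hQl) hQl
  have hQK : Q K := Nat.findGreatest_spec (hbound _ hQl) hQl
  have hmax : ∀ k, K < k → ¬ Q k := by
    intro k hk hq
    have := Nat.le_findGreatest (hbound _ hq) hq
    omega
  obtain ⟨l0, hl0, hA0, hb0⟩ := hQK
  have hex : ∀ t : Fin ((K + 1) / 2), ∃ p : {z : S // z ∈ A ∧ z * z = b ∧ z ≠ b},
      prd (l0.take (K - t.1)) = (p.1 : WithOne S) := by
    intro t
    have ht := t.2
    have hne : l0.take (K - t.1) ≠ [] := by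
      intro h0
      have := congrArg List.length h0
      rw [List.length_take, List.length_nil] at this
      omega
    obtain ⟨p, hp⟩ := exists_prd hne
    have hpA : p ∈ A := lst_mem A hmul _ (fun a ha => hA0 a (List.mem_of_mem_take ha)) p hp
    refine ⟨⟨p, hpA, ?_, ?_⟩, hp⟩
    · by_contra hpp
      apply hmax (2 * (K - t.1)) (by omega)
      refine ⟨l0.take (K - t.1) ++ l0.take (K - t.1), ?_, ?_, ?_⟩
      · rw [List.length_append, List.length_take]
        omega
      · intro a ha
        rw [List.mem_append] at ha
        rcases ha with ha | ha <;> exact hA0 a (List.mem_of_mem_take ha)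
      · rw [prd_append, hp, ← WithOne.coe_mul]
        exact fun h => hpp (WithOne.coe_inj.1 h)
    · intro h
      exact lst_ne A hb l0 hA0 hb0 _ (by rw [hp, h])
  choose f hf using hex
  have hinj : Function.Injective f := by
    intro i j hij
    by_contra hne
    have hne' : i.1 ≠ j.1 := fun h => hne (Fin.ext h)
    have hi := i.2
    have hj := j.2
    have h1 : prd (l0.take (K - i.1)) = prd (l0.take (K - j.1)) := by rw [hf, hf, hij]
    rcases lt_or_gt_of_ne hne' with h | h
    · exact lst_inj A hmul hb l0 hA0 hb0 (K - j.1) (K - i.1) (by omega) (by omega)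
        (by omega) h1.symm
    · exact lst_inj A hmul hb l0 hA0 hb0 (K - i.1) (K - j.1) (by omega) (by omega)
        (by omega) h1
  have h5 := Nat.card_le_card_of_injective f hinj
  rw [Nat.card_eq_fintype_card, Fintype.card_fin] at h5
  omega

end EVS
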