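import Pool.Agent.EVS.Law

/-!
# [EV-N2b] a basis of the identities of `A0`
-/

set_option autoImplicit false

namespace EVS

/-- two lists of letters have the same value in `A0` for all evaluations -/
def HL (l l' : List ℕ) : Prop := ∀ φ : ℕ → A0, prd (l.map φ) = prd (l'.map φ)

theorem la0_all {c : A0} (hc : c * c = c) (φ : ℕ → A0) (l : List ℕ) (h : ∀ y ∈ l, φ y = c) (hl : l ≠ []) :
    prd (l.map φ) = (c : WithOne A0) := by
  induction l with
  | nil => exact absurd rfl hl
  | cons y t ih =>
    rw [List.map_cons, prd_cons, h y (List.mem_cons_self)]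
    by_cases ht : t = []
    · subst ht
      rw [List.map_nil, prd_nil, mul_one]
    · rw [ih (fun z hz => h z (List.mem_cons_of_mem _ hz)) ht, ← WithOne.coe_mul, hc]

theorem la0_one {φ : ℕ → A0} {l : List ℕ} (h : prd (l.map φ) = 1) : l = [] := by
  by_contra hl
  have h1 : l.map φ ≠ [] := by simpa using hl
  obtain ⟨s, hs⟩ := exists_prd h1
  rw [h] at hs
  exact WithOne.one_ne_coe hs

theorem la0_back {c : A0} (hc : ∀ a b : A0, a * b = c → a = c ∧ b = c) (φ : ℕ → A0) (l : List ℕ)
    (h : prd (l.map φ) = (c : WithOne A0)) : ∀ y ∈ l, φ y = c := by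
  induction l with
  | nil => intro y hy; simp at hy
  | cons z t ih =>
    rw [List.map_cons, prd_cons] at h
    by_cases ht : t = []
    · subst ht
      rw [List.map_nil, prd_nil, mul_one, WithOne.coe_inj] at h
      intro y hy
      rw [List.mem_singleton] at hy
      rw [hy, h]
    · have h1 : t.map φ ≠ [] := by simpa using ht
      obtain ⟨s, hs⟩ := exists_prd h1
      rw [hs, ← WithOne.coe_mul, WithOne.coe_inj] at h
      obtain ⟨h2, h3⟩ := hc _ _ h
      intro y hy
      rcases List.mem_cons.1 hy with rfl | hy
      · exact h2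
      · exact ih (by rw [hs, h3]) y hy

theorem la0_zero (φ : ℕ → A0) (l : List ℕ) (h : ∃ y ∈ l, φ y = A0.o) :
    prd (l.map φ) = ((A0.o : A0) : WithOne A0) := by
  have ho1 : ∀ a : A0, a * A0.o = A0.o := by decide
  have ho2 : ∀ a : A0, A0.o * a = A0.o := by decide
  induction l with
  | nil => obtain ⟨y, hy, -⟩ := h; simp at hy
  | cons z t ih =>
    rw [List.map_cons, prd_cons]
    obtain ⟨y, hy, hy'⟩ := h
    rcases List.mem_cons.1 hy with rfl | hy
    · rw [hy']
      by_cases ht : t = []
      · subst ht
        rw [List.map_nil, prd_nil, mul_one]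
      · have h1 : t.map φ ≠ [] := by simpa using ht
        obtain ⟨s, hs⟩ := exists_prd h1
        rw [hs, ← WithOne.coe_mul, ho2]
    · rw [ih ⟨y, hy, hy'⟩, ← WithOne.coe_mul, ho1]

theorem la0_e : ∀ a b : A0, a * b = A0.e → a = A0.e ∧ b = A0.e := by decide

theorem la0_f : ∀ a b : A0, a * b = A0.f → a = A0.f ∧ b = A0.f := by decide

theorem HL.symm {l l' : List ℕ} (h : HL l l') : HL l' l := fun φ => (h φ).symm

theorem la0_content {l l' : List ℕ} (h : HL l l') {x : ℕ} (hx : x ∈ l) : x ∈ l' := by
  by_contra hx'
  have h1 := h (fun y => if y = x then A0.o else A0.e)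
  rw [la0_zero _ l ⟨x, hx, if_pos rfl⟩] at h1
  by_cases hl : l' = []
  · subst hl
    rw [List.map_nil, prd_nil] at h1
    exact WithOne.coe_ne_one h1
  · have h2 : ∀ y ∈ l', (if y = x then A0.o else A0.e) = A0.e := by
      intro y hy
      apply if_neg
      intro e
      rw [e] at hy
      exact hx' hy
    rw [la0_all (c := A0.e) (by decide) _ l' h2 hl, WithOne.coe_inj] at h1
    exact absurd h1 (by decide)

/-- PROOF: evaluate everything at `e` except `x ↦ o`: a nonempty list has the value `o` iff it contains `x`
(otherwise `e`; the empty list has the value `1`). -/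
theorem HL_content {l l' : List ℕ} (h : HL l l') (x : ℕ) : x ∈ l ↔ x ∈ l' :=
  ⟨la0_content h, la0_content h.symm⟩

/-- PROOF: evaluate `x ↦ ef`, `y ↦ o` for `y ≠ x`: only the list `[x]` has the value `ef`. -/
theorem HL_single {l : List ℕ} {x : ℕ} (h : HL [x] l) : l = [x] := by
  have h1 := h (fun y => if y = x then A0.ef else A0.o)
  rw [List.map_singleton, prd_singleton, if_pos rfl] at h1
  cases l with
  | nil =>
    rw [List.map_nil, prd_nil] at h1
    exact absurd h1 WithOne.coe_ne_one
  | cons a t =>
    have ha : a = x := by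
      have := (HL_content h a).2 (List.mem_cons_self)
      rwa [List.mem_singleton] at this
    subst ha
    cases t with
    | nil => rfl
    | cons b t =>
      exfalso
      have hb : b = a := by
        have := (HL_content h b).2 (List.mem_cons_of_mem _ (List.mem_cons_self))
        rwa [List.mem_singleton] at this
      subst hb
      rw [List.map_cons, prd_cons, List.map_cons, prd_cons, if_pos rfl, ← mul_assoc,
        ← WithOne.coe_mul] at h1
      have h2 : A0.ef * A0.ef = A0.o := by decide
      rw [h2] at h1
      by_cases ht : t = []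
      · subst ht
        rw [List.map_nil, prd_nil, mul_one, WithOne.coe_inj] at h1
        exact absurd h1 (by decide)
      · have h3 : t.map (fun y => if y = b then A0.ef else A0.o) ≠ [] := by simpa using ht
        obtain ⟨s, hs⟩ := exists_prd h3
        rw [hs, ← WithOne.coe_mul, WithOne.coe_inj] at h1
        clear hs
        revert s
        decide

theorem la0_ef (φ : ℕ → A0) (l : List ℕ) (hφ : ∀ y ∈ l, φ y = A0.e ∨ φ y = A0.f)
    (h : prd (l.map φ) = ((A0.ef : A0) : WithOne A0)) : ∃ a b, l = a ++ b ∧ a ≠ [] ∧ b ≠ [] ∧
      (∀ y ∈ a, φ y = A0.e) ∧ ∀ y ∈ b, φ y = A0.f := by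
  induction l with
  | nil =>
    rw [List.map_nil, prd_nil] at h
    exact absurd h WithOne.one_ne_coe
  | cons z t ih =>
    rw [List.map_cons, prd_cons] at h
    by_cases ht : t = []
    · subst ht
      rw [List.map_nil, prd_nil, mul_one, WithOne.coe_inj] at h
      have := hφ z (List.mem_cons_self)
      rw [h] at this
      exact absurd this (by decide)
    · have h3 : t.map φ ≠ [] := by simpa using ht
      obtain ⟨s, hs⟩ := exists_prd h3
      rw [hs, ← WithOne.coe_mul, WithOne.coe_inj] at h
      have hz : φ z = A0.e := by
        rcases hφ z (List.mem_cons_self) with h4 | h4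
        · exact h4
        · rw [h4] at h
          exfalso
          revert h
          clear hs
          revert s
          decide
      rw [hz] at h
      have hs2 : s = A0.f ∨ s = A0.ef := by
        revert h
        clear hs
        revert s
        decide
      rcases hs2 with rfl | rfl
      · refine ⟨[z], t, rfl, by simp, ht, ?_, la0_back la0_f φ t hs⟩
        intro y hy
        rw [List.mem_singleton] at hy
        rw [hy, hz]
      · obtain ⟨a, b, hab, ha, hb, hae, hbf⟩ := ih (fun y hy => hφ y (List.mem_cons_of_mem _ hy)) hs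
        refine ⟨z :: a, b, by rw [hab]; rfl, by simp, hb, ?_, hbf⟩
        intro y hy
        rcases List.mem_cons.1 hy with rfl | hy
        · exact hz
        · exact hae y hy

/-- If `l = a ++ b` is a cut without common letters, then `l'` has such a cut with the same letters, and the
parts are again equivalent. -/
theorem HL_cut {a b l' : List ℕ} (ha : a ≠ []) (hb : b ≠ []) (hd : ∀ x, x ∈ a → x ∉ b)
    (h : HL (a ++ b) l') : ∃ a' b', l' = a' ++ b' ∧ a' ≠ [] ∧ b' ≠ [] ∧ (∀ x, x ∈ a' → x ∉ b') ∧
      HL a a' ∧ HL b b' := by
  classical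
  obtain ⟨a', b', hl', ha', hb', hae, hbf⟩ := la0_ef (fun y => if y ∈ a then A0.e else A0.f) l'
    (fun y _ => by by_cases hy : y ∈ a <;> simp [hy]) (by
      rw [← h, List.map_append, prd_append,
        la0_all (c := A0.e) (by decide) _ a (fun y hy => if_pos hy) ha,
        la0_all (c := A0.f) (by decide) _ b (fun y hy => if_neg (fun h1 => hd y h1 hy)) hb,
        ← WithOne.coe_mul]
      rfl)
  subst hl'
  have h1 : ∀ y ∈ a', y ∈ a := by
    intro y hy
    by_contra h2
    have := hae y hy
    simp only [h2, if_false] at this
    exact absurd this (by decide)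
  have h2 : ∀ y ∈ b', y ∉ a := by
    intro y hy h3
    have := hbf y hy
    simp only [h3, if_true] at this
    exact absurd this (by decide)
  have h3 : ∀ y ∈ a, y ∈ a' := by
    intro y hy
    have := (HL_content h y).1 (List.mem_append_left _ hy)
    rcases List.mem_append.1 this with h4 | h4
    · exact h4
    · exact absurd hy (h2 y h4)
  have h4 : ∀ y ∈ b, y ∈ b' := by
    intro y hy
    have := (HL_content h y).1 (List.mem_append_right _ hy)
    rcases List.mem_append.1 this with h5 | h5
    · exact absurd hy (hd y (h1 y h5))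
    · exact h5
  have h5 : ∀ y ∈ b', y ∈ b := by
    intro y hy
    have := (HL_content h y).2 (List.mem_append_right _ hy)
    rcases List.mem_append.1 this with h6 | h6
    · exact absurd h6 (h2 y hy)
    · exact h6
  refine ⟨a', b', rfl, ha', hb', fun x hx hx' => h2 x hx' (h1 x hx), ?_, ?_⟩
  · intro φ
    by_cases hall : ∀ y ∈ a, φ y = A0.e
    · rw [la0_all (by decide) φ a hall ha, la0_all (by decide) φ a' (fun y hy => hall y (h1 y hy)) ha']
    · have h6 := h (fun y => if y ∈ a then φ y else A0.f)
      have e1 : a.map (fun y => if y ∈ a then φ y else A0.f) = a.map φ :=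
        List.map_congr_left (fun y hy => if_pos hy)
      have e2 : a'.map (fun y => if y ∈ a then φ y else A0.f) = a'.map φ :=
        List.map_congr_left (fun y hy => if_pos (h1 y hy))
      rw [List.map_append, List.map_append, prd_append, prd_append, e1, e2,
        la0_all (c := A0.f) (by decide) _ b (fun y hy => if_neg (fun h1 => hd y h1 hy)) hb,
        la0_all (c := A0.f) (by decide) _ b' (fun y hy => if_neg (h2 y hy)) hb'] at h6
      obtain ⟨s, hs⟩ := exists_prd (l := a.map φ) (by simpa using ha)
      obtain ⟨s', hs'⟩ := exists_prd (l := a'.map φ) (by simpa using ha')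
      have hse : s ≠ A0.e := by
        rintro rfl
        exact hall (la0_back la0_e φ a hs)
      have hse' : s' ≠ A0.e := by
        rintro rfl
        exact hall (fun y hy => la0_back la0_e φ a' hs' y (h3 y hy))
      rw [hs, hs', ← WithOne.coe_mul, ← WithOne.coe_mul, WithOne.coe_inj] at h6
      rw [hs, hs', WithOne.coe_inj]
      clear hs hs'
      revert s s'
      decide
  · intro φ
    by_cases hall : ∀ y ∈ b, φ y = A0.f
    · rw [la0_all (by decide) φ b hall hb, la0_all (by decide) φ b' (fun y hy => hall y (h5 y hy)) hb']
    · have h6 := h (fun y => if y ∈ a then A0.e else φ y)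
      have e1 : b.map (fun y => if y ∈ a then A0.e else φ y) = b.map φ :=
        List.map_congr_left (fun y hy => if_neg (fun h1 => hd y h1 hy))
      have e2 : b'.map (fun y => if y ∈ a then A0.e else φ y) = b'.map φ :=
        List.map_congr_left (fun y hy => if_neg (h2 y hy))
      rw [List.map_append, List.map_append, prd_append, prd_append, e1, e2,
        la0_all (c := A0.e) (by decide) _ a (fun y hy => if_pos hy) ha,
        la0_all (c := A0.e) (by decide) _ a' (fun y hy => if_pos (h1 y hy)) ha'] at h6
      obtain ⟨s, hs⟩ := exists_prd (l := b.map φ) (by simpa using hb)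
      obtain ⟨s', hs'⟩ := exists_prd (l := b'.map φ) (by simpa using hb')
      have hse : s ≠ A0.f := by
        rintro rfl
        exact hall (la0_back la0_f φ b hs)
      have hse' : s' ≠ A0.f := by
        rintro rfl
        exact hall (fun y hy => la0_back la0_f φ b' hs' y (h4 y hy))
      rw [hs, hs', ← WithOne.coe_mul, ← WithOne.coe_mul, WithOne.coe_inj] at h6
      rw [hs, hs', WithOne.coe_inj]
      clear hs hs'
      revert s s'
      decide

theorem la0_nil {l l' : List ℕ} (h : HL l l') (hl : l = []) : l' = [] := by
  subst hl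
  cases l' with
  | nil => rfl
  | cons a t => exact absurd ((HL_content h a).2 List.mem_cons_self) (by simp)

/-- PROOF: strong induction on the length of `l`, for all `l'`.  `l = []` iff `l' = []` (`HL_content`).
If `l` is not `Conn`, use `HL_cut`, induction and `prd_append`.  If `l` is `Conn`, so is `l'` (a cut of `l'`
would give a cut of `l` by `HL_cut` for the reversed equivalence).  If `l` or `l'` has length 1 use `HL_single`
(`HL` is symmetric).  Otherwise `conn_eq`. -/
theorem prd_eq_of_HL {S : Type} [Semigroup S] (hL : Law S) {l l' : List ℕ} (h : HL l l') (φ : ℕ → S) :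
    prd (l.map φ) = prd (l'.map φ) := by
  obtain ⟨n, hn⟩ : ∃ n, l.length ≤ n := ⟨_, le_rfl⟩
  induction n generalizing l l' with
  | zero =>
    have hl : l = [] := List.length_eq_zero_iff.1 (by omega)
    rw [la0_nil h hl, hl]
  | succ n ih =>
    by_cases hl : l = []
    · rw [la0_nil h hl, hl]
    have hl' : l' ≠ [] := fun h1 => hl (la0_nil h.symm h1)
    by_cases hc : Conn l
    · have hc' : Conn l' := by
        intro l1 l2 h12 h1 h2
        by_contra hno
        push Not at hno
        subst h12
        obtain ⟨a', b', hab, ha', hb', hdis, -, -⟩ := HL_cut h1 h2 hno h.symm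
        obtain ⟨x, hx, hx'⟩ := hc a' b' hab ha' hb'
        exact hdis x hx hx'
      have hpos : 0 < l.length := List.length_pos_iff.2 hl
      have hpos' : 0 < l'.length := List.length_pos_iff.2 hl'
      by_cases h1 : l.length = 1
      · obtain ⟨x, rfl⟩ := List.length_eq_one_iff.1 h1
        rw [HL_single h]
      by_cases h1' : l'.length = 1
      · obtain ⟨x, rfl⟩ := List.length_eq_one_iff.1 h1'
        rw [HL_single h.symm]
      exact conn_eq hL φ l l' (by omega) hc (by omega) hc' (HL_content h)
    · unfold Conn at hc
      push Not at hc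
      obtain ⟨l1, l2, h12, h1, h2, hno⟩ := hc
      subst h12
      obtain ⟨a', b', hab, ha', hb', hdis, hA, hB⟩ := HL_cut h1 h2 hno h
      subst hab
      have hpos1 : 0 < l1.length := List.length_pos_iff.2 h1
      have hpos2 : 0 < l2.length := List.length_pos_iff.2 h2
      rw [List.length_append] at hn
      rw [List.map_append, List.map_append, prd_append, prd_append, ih hA (by omega), ih hB (by omega)]

/-- PROOF: `coe_lift`, `prd_eq_of_HL`, `coe_inj`. -/
theorem holds_of_law {S : Type} [Semigroup S] (hL : Law S) {p : Wd × Wd} (hp : Holds A0 p) : Holds S p := by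
  intro φ
  rw [← coe_inj, coe_lift, coe_lift]
  apply prd_eq_of_HL hL
  intro ψ
  rw [← coe_lift, ← coe_lift, hp ψ]

end EVS
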