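import Pool.Agent.EVS.AF
import Pool.Agent.EVS.LawA0

/-!
# [EV-N2d] `AF m` has few endomorphisms
-/

set_option autoImplicit false

namespace EVS

/-- the relations -/
def afe_rel (h' f' g' j' : BB) : Bool :=
  decide (h' * f' = h' * g' * f') && decide (f' * g' = f' * h' * g') &&
  decide (h' * f' = h' * j' * f') && decide (g' * h' = g' * j') && decide (g' * h' = j' * h') &&
  decide (g' * h' = f' * j' * g') && decide (h' * (g' * h') = g' * h') &&
  decide ((g' * h') * f' = g' * h') && decide (f' * (g' * h') = g' * h') &&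
  decide ((g' * h') * g' = g' * h') && decide (j' * (g' * h') = g' * h') &&
  decide ((g' * h') * j' = g' * h')

/-- the conclusion -/
def afe_ok (h' f' g' j' : BB) : Bool :=
  (decide (h' = .h) && decide (f' = .f) && decide (g' = .g) && decide (j' = .j)) ||
  (decide (h' = f') && decide (f' = g')) ||
  (!(decide (h' = .h) && decide (f' = .f)) && !(decide (h' = .f) && decide (f' = .g)) &&
    !(decide (f' = .h) && decide (g' = .f)) && !(decide (f' = .f) && decide (g' = .g)) &&
    decide (∀ s : BB, h' * s * f' = .o) && decide (∀ s : BB, f' * s * g' = .o))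

set_option maxRecDepth 100000 in
theorem afe_dec : ∀ h' : BB, h' * h' = h' → ∀ f' : BB, f' * f' = f' →
    ∀ g' : BB, g' * g' = g' → ∀ j' : BB, j' * j' = j' → afe_rel h' f' g' j' = true →
    afe_ok h' f' g' j' = true := by
  decide

theorem afe_tri (h' : BB) (e1 : h' * h' = h') (f' : BB) (e2 : f' * f' = f')
    (g' : BB) (e3 : g' * g' = g') (e4 : h' * f' = h' * g' * f') (e5 : f' * g' = f' * h' * g')
    (j' : BB) (e6 : j' * j' = j') (e7 : h' * f' = h' * j' * f') (e8 : g' * h' = g' * j')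
    (e9 : g' * h' = j' * h')
    (e10 : g' * h' = f' * j' * g') (e11 : h' * (g' * h') = g' * h')
    (e12 : (g' * h') * f' = g' * h')
    (e13 : f' * (g' * h') = g' * h') (e14 : (g' * h') * g' = g' * h')
    (e15 : j' * (g' * h') = g' * h')
    (e16 : (g' * h') * j' = g' * h') :
    (h' = .h ∧ f' = .f ∧ g' = .g ∧ j' = .j) ∨ (h' = f' ∧ f' = g') ∨
      (¬ (h' = .h ∧ f' = .f) ∧ ¬ (h' = .f ∧ f' = .g) ∧ ¬ (f' = .h ∧ g' = .f) ∧
        ¬ (f' = .f ∧ g' = .g) ∧ (∀ s : BB, h' * s * f' = .o) ∧ (∀ s : BB, f' * s * g' = .o)) := by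
  have hrel : afe_rel h' f' g' j' = true := by
    unfold afe_rel
    simp only [Bool.and_eq_true, decide_eq_true_eq]
    exact ⟨⟨⟨⟨⟨⟨⟨⟨⟨⟨⟨e4, e5⟩, e7⟩, e8⟩, e9⟩, e10⟩, e11⟩, e12⟩, e13⟩, e14⟩, e15⟩, e16⟩
  have h := afe_dec h' e1 f' e2 g' e3 j' e6 hrel
  unfold afe_ok at h
  simp only [Bool.or_eq_true, Bool.and_eq_true, Bool.not_eq_true', decide_eq_true_eq,
    Bool.and_eq_false_iff, decide_eq_false_iff_not] at h
  tauto

/-- the part in `BB` -/
def afe_toBB {m : ℕ} : AF m → BB
  | .b s => s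
  | _ => .o

theorem afe_bb {m : ℕ} (s t : BB) : (AF.b s : AF m) * AF.b t = AF.b (s * t) := rfl

theorem afe_by {m : ℕ} (s : BB) (i : Fin m) :
    (AF.b s : AF m) * AF.y i = if s = .h then AF.y i else AF.b .o := rfl

theorem afe_bx {m : ℕ} (s : BB) (i : Fin m) :
    (AF.b s : AF m) * AF.x i = if s = .f then AF.x i else AF.b .o := rfl

theorem afe_yb {m : ℕ} (s : BB) (i : Fin m) :
    (AF.y i : AF m) * AF.b s = if s = .f then AF.y i else AF.b .o := rfl

theorem afe_xb {m : ℕ} (s : BB) (i : Fin m) :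
    (AF.x i : AF m) * AF.b s = if s = .g then AF.x i else AF.b .o := rfl

theorem afe_yx {m : ℕ} (i k : Fin m) :
    (AF.y i : AF m) * AF.x k = if i ≤ k then AF.b .u else AF.b .o := rfl

theorem afe_yy {m : ℕ} (i k : Fin m) : (AF.y i : AF m) * AF.y k = AF.b .o := rfl
theorem afe_xx {m : ℕ} (i k : Fin m) : (AF.x i : AF m) * AF.x k = AF.b .o := rfl
theorem afe_xy {m : ℕ} (i k : Fin m) : (AF.x i : AF m) * AF.y k = AF.b .o := rfl

/-- `a` lies in `b BB` -/
def afe_In {m : ℕ} (a : AF m) : Prop := a = AF.b (afe_toBB a)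

theorem afe_In_b {m : ℕ} (s : BB) : afe_In (AF.b s : AF m) := rfl

theorem afe_In_mul {m : ℕ} {a c : AF m} (ha : afe_In a) (hc : afe_In c) : afe_In (a * c) := by
  rw [ha, hc, afe_bb]
  exact afe_In_b _

theorem afe_In_idem {m : ℕ} {a : AF m} (h : a * a = a) : afe_In a := by
  cases a with
  | b s => exact afe_In_b s
  | y i => rw [afe_yy] at h; cases h
  | x i => rw [afe_xx] at h; cases h

theorem afe_In_map {m : ℕ} (ψ : AF m →ₙ* AF m) (s : BB) : afe_In (ψ (AF.b s)) := by
  have hid : ∀ e : BB, e * e = e → afe_In (ψ (AF.b e)) := by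
    intro e he
    apply afe_In_idem
    rw [← map_mul, afe_bb, he]
  have hmul : ∀ e t : BB, afe_In (ψ (AF.b e)) → afe_In (ψ (AF.b t)) →
      afe_In (ψ (AF.b (e * t))) := by
    intro e t he ht
    rw [← afe_bb, map_mul]
    exact afe_In_mul he ht
  have hh := hid .h rfl
  have hf := hid .f rfl
  have hg := hid .g rfl
  have hj := hid .j rfl
  cases s with
  | h => exact hh
  | f => exact hf
  | g => exact hg
  | j => exact hj
  | hg => exact hmul .h .g hh hg
  | gf => exact hmul .g .f hg hf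
  | hj => exact hmul .h .j hh hj
  | jf => exact hmul .j .f hj hf
  | fh => exact hmul .f .h hf hh
  | fj => exact hmul .f .j hf hj
  | jg => exact hmul .j .g hj hg
  | p => exact hmul .h .f hh hf
  | q => exact hmul .f .g hf hg
  | u => exact hmul .h .jg hh (hmul .j .g hj hg)
  | o => exact hid .o rfl

/-- the restriction to `BB` -/
def afe_rho {m : ℕ} (ψ : AF m →ₙ* AF m) (s : BB) : BB := afe_toBB (ψ (AF.b s))

theorem afe_rho_spec {m : ℕ} (ψ : AF m →ₙ* AF m) (s : BB) : ψ (AF.b s) = AF.b (afe_rho ψ s) :=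
  afe_In_map ψ s

theorem afe_rho_mul {m : ℕ} (ψ : AF m →ₙ* AF m) (s t : BB) :
    afe_rho ψ (s * t) = afe_rho ψ s * afe_rho ψ t := by
  have h : (AF.b (afe_rho ψ (s * t)) : AF m) = AF.b (afe_rho ψ s * afe_rho ψ t) := by
    rw [← afe_rho_spec, ← afe_bb, map_mul, afe_rho_spec, afe_rho_spec, afe_bb]
  injection h

theorem afe_y_eq {m : ℕ} (i : Fin m) : (AF.y i : AF m) = AF.b .h * AF.y i * AF.b .f := rfl
theorem afe_x_eq {m : ℕ} (i : Fin m) : (AF.x i : AF m) = AF.b .f * AF.x i * AF.b .g := rfl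

theorem afe_c {m : ℕ} (s t : BB) (a : AF m) (h1 : ¬ (s = .h ∧ t = .f)) (h2 : ¬ (s = .f ∧ t = .g))
    (h3 : ∀ r : BB, s * r * t = .o) : AF.b s * a * AF.b t = AF.b .o := by
  have ho : ∀ r : BB, BB.o * r = .o := by decide
  cases a with
  | b r => rw [afe_bb, afe_bb, h3]
  | y i =>
    rw [afe_by]
    split_ifs with h
    · rw [afe_yb]
      rw [if_neg (fun h' => h1 ⟨h, h'⟩)]
    · rw [afe_bb, ho]
  | x i =>
    rw [afe_bx]
    split_ifs with h
    · rw [afe_xb]
      rw [if_neg (fun h' => h2 ⟨h, h'⟩)]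
    · rw [afe_bb, ho]

theorem afe_mono_id {m : ℕ} {k : Fin m → Fin m} (hk : StrictMono k) (i : Fin m) : k i = i := by
  have h : k = id := by
    have h1 : Set.range k = Set.range (id : Fin m → Fin m) := by
      rw [Set.range_id]
      exact (Finite.injective_iff_surjective.mp hk.injective).range_eq
    exact (StrictMono.range_inj hk strictMono_id).mp h1
  rw [h]
  rfl

theorem afe_a {m : ℕ} (ψ : AF m →ₙ* AF m) (hρ : ∀ s, afe_rho ψ s = s) :
    (∀ i, ψ (AF.y i) = AF.y i) ∧ ∀ i, ψ (AF.x i) = AF.x i := by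
  have hb : ∀ s, ψ (AF.b s) = AF.b s := fun s => by rw [afe_rho_spec, hρ]
  have ho : ∀ r : BB, BB.o * r = .o := by decide
  have ho' : ∀ r : BB, r * BB.o = .o := by decide
  have d1 : ∀ s : BB, BB.h * s * BB.f = s → s = .p ∨ s = .o := by decide
  have d2 : ∀ s : BB, BB.f * s * BB.g = s → s = .q ∨ s = .o := by decide
  have hy : ∀ i, ψ (AF.y i) = AF.b .p ∨ ψ (AF.y i) = AF.b .o ∨ ∃ k, ψ (AF.y i) = AF.y k := by
    intro i
    have h1 : ψ (AF.y i) = AF.b .h * ψ (AF.y i) * AF.b .f := by
      conv_lhs => rw [afe_y_eq]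
      rw [map_mul, map_mul, hb, hb]
    generalize ψ (AF.y i) = a at h1 ⊢
    cases a with
    | b s =>
      rw [afe_bb, afe_bb] at h1
      have h2 : s = BB.h * s * BB.f := by injection h1
      rcases d1 s h2.symm with h | h
      · left; rw [h]
      · right; left; rw [h]
    | y k => right; right; exact ⟨k, rfl⟩
    | x k =>
      rw [afe_bx, if_neg (by decide)] at h1
      cases h1
  have hx : ∀ i, ψ (AF.x i) = AF.b .q ∨ ψ (AF.x i) = AF.b .o ∨ ∃ k, ψ (AF.x i) = AF.x k := by
    intro i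
    have h1 : ψ (AF.x i) = AF.b .f * ψ (AF.x i) * AF.b .g := by
      conv_lhs => rw [afe_x_eq]
      rw [map_mul, map_mul, hb, hb]
    generalize ψ (AF.x i) = a at h1 ⊢
    cases a with
    | b s =>
      rw [afe_bb, afe_bb] at h1
      have h2 : s = BB.f * s * BB.g := by injection h1
      rcases d2 s h2.symm with h | h
      · left; rw [h]
      · right; left; rw [h]
    | x k => right; right; exact ⟨k, rfl⟩
    | y k =>
      rw [afe_by, if_neg (by decide)] at h1
      cases h1
  have hyx : ∀ i j, ψ (AF.y i) * ψ (AF.x j) = if i ≤ j then AF.b .u else AF.b .o := by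
    intro i j
    rw [← map_mul, afe_yx]
    split_ifs <;> exact hb _
  have hyx' : ∀ i, (∃ k, ψ (AF.y i) = AF.y k) ∧ ∃ l, ψ (AF.x i) = AF.x l := by
    intro i
    have h1 := hyx i i
    rw [if_pos le_rfl] at h1
    rcases hy i with h2 | h2 | ⟨k, h2⟩
    · rcases hx i with h3 | h3 | ⟨l, h3⟩
      · rw [h2, h3, afe_bb] at h1
        cases h1
      · rw [h2, h3, afe_bb] at h1
        cases h1
      · rw [h2, h3, afe_bx, if_neg (by decide)] at h1
        cases h1
    · rcases hx i with h3 | h3 | ⟨l, h3⟩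
      · rw [h2, h3, afe_bb] at h1
        cases h1
      · rw [h2, h3, afe_bb] at h1
        cases h1
      · rw [h2, h3, afe_bx, if_neg (by decide)] at h1
        cases h1
    · rcases hx i with h3 | h3 | ⟨l, h3⟩
      · rw [h2, h3, afe_yb, if_neg (by decide)] at h1
        cases h1
      · rw [h2, h3, afe_yb, if_neg (by decide)] at h1
        cases h1
      · exact ⟨⟨k, h2⟩, ⟨l, h3⟩⟩
  choose hk hl using hyx'
  choose k hk using hk
  choose l hl using hl
  have hord : ∀ i j, i ≤ j ↔ k i ≤ l j := by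
    intro i j
    have h1 := hyx i j
    rw [hk, hl, afe_yx] at h1
    constructor
    · intro h
      rw [if_pos h] at h1
      by_contra hcon
      rw [if_neg hcon] at h1
      cases h1
    · intro h
      rw [if_pos h] at h1
      by_contra hcon
      rw [if_neg hcon] at h1
      cases h1
  have hkl : ∀ i, k i ≤ l i := fun i => (hord i i).mp le_rfl
  have hlk : ∀ j i, j < i → l j < k i := fun j i h => not_le.mp (fun h' => absurd ((hord i j).mpr h')
    (not_le.mpr h))
  have hkm : StrictMono k := fun j i h => lt_of_le_of_lt (hkl j) (hlk j i h)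
  have hlm : StrictMono l := fun j i h => lt_of_lt_of_le (hlk j i h) (hkl i)
  exact ⟨fun i => by rw [hk, afe_mono_id hkm], fun i => by rw [hl, afe_mono_id hlm]⟩

theorem afe_det {m : ℕ} (ψ : AF m →ₙ* AF m) :
    ((∀ s, afe_rho ψ s = s) ∧ (∀ i, ψ (AF.y i) = AF.y i) ∧ ∀ i, ψ (AF.x i) = AF.x i) ∨
    ((∃ s, afe_rho ψ s ≠ s) ∧ (∀ i, ψ (AF.y i) = AF.b (afe_rho ψ .o)) ∧
      ∀ i, ψ (AF.x i) = AF.b (afe_rho ψ .o)) := by
  by_cases hid : ∀ s, afe_rho ψ s = s
  · exact Or.inl ⟨hid, (afe_a ψ hid).1, (afe_a ψ hid).2⟩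
  · right
    push Not at hid
    refine ⟨hid, ?_⟩
    have M := afe_rho_mul ψ
    have hy1 : ∀ i, ψ (AF.y i) = AF.b (afe_rho ψ .h) * ψ (AF.y i) * AF.b (afe_rho ψ .f) := by
      intro i
      conv_lhs => rw [afe_y_eq]
      rw [map_mul, map_mul, afe_rho_spec, afe_rho_spec]
    have hx1 : ∀ i, ψ (AF.x i) = AF.b (afe_rho ψ .f) * ψ (AF.x i) * AF.b (afe_rho ψ .g) := by
      intro i
      conv_lhs => rw [afe_x_eq]
      rw [map_mul, map_mul, afe_rho_spec, afe_rho_spec]
    have e1 : afe_rho ψ .h * afe_rho ψ .h = afe_rho ψ .h := (M .h .h).symm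
    have e2 : afe_rho ψ .f * afe_rho ψ .f = afe_rho ψ .f := (M .f .f).symm
    have e3 : afe_rho ψ .g * afe_rho ψ .g = afe_rho ψ .g := (M .g .g).symm
    have e4 : afe_rho ψ .j * afe_rho ψ .j = afe_rho ψ .j := (M .j .j).symm
    have ep1 : afe_rho ψ .h * afe_rho ψ .f = afe_rho ψ .p := (M .h .f).symm
    have ep2 : afe_rho ψ .h * afe_rho ψ .g * afe_rho ψ .f = afe_rho ψ .p := by
      rw [← M, ← M]; rfl
    have ep3 : afe_rho ψ .h * afe_rho ψ .j * afe_rho ψ .f = afe_rho ψ .p := by
      rw [← M, ← M]; rfl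
    have eq1 : afe_rho ψ .f * afe_rho ψ .g = afe_rho ψ .q := (M .f .g).symm
    have eq2 : afe_rho ψ .f * afe_rho ψ .h * afe_rho ψ .g = afe_rho ψ .q := by
      rw [← M, ← M]; rfl
    have eo1 : afe_rho ψ .g * afe_rho ψ .h = afe_rho ψ .o := (M .g .h).symm
    have eo2 : afe_rho ψ .g * afe_rho ψ .j = afe_rho ψ .o := (M .g .j).symm
    have eo3 : afe_rho ψ .j * afe_rho ψ .h = afe_rho ψ .o := (M .j .h).symm
    have eo4 : afe_rho ψ .f * afe_rho ψ .j * afe_rho ψ .g = afe_rho ψ .o := by
      rw [← M, ← M]; rfl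
    have z1 : afe_rho ψ .h * afe_rho ψ .o = afe_rho ψ .o := (M .h .o).symm
    have z2 : afe_rho ψ .o * afe_rho ψ .f = afe_rho ψ .o := (M .o .f).symm
    have z3 : afe_rho ψ .f * afe_rho ψ .o = afe_rho ψ .o := (M .f .o).symm
    have z4 : afe_rho ψ .o * afe_rho ψ .g = afe_rho ψ .o := (M .o .g).symm
    have z5 : afe_rho ψ .j * afe_rho ψ .o = afe_rho ψ .o := (M .j .o).symm
    have z6 : afe_rho ψ .o * afe_rho ψ .j = afe_rho ψ .o := (M .o .j).symm
    have htri := afe_tri (afe_rho ψ .h) e1 (afe_rho ψ .f) e2 (afe_rho ψ .g) e3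
      (ep1.trans ep2.symm) (eq1.trans eq2.symm) (afe_rho ψ .j) e4 (ep1.trans ep3.symm)
      (eo1.trans eo2.symm) (eo1.trans eo3.symm) (eo1.trans eo4.symm) (by rw [eo1]; exact z1)
      (by rw [eo1]; exact z2) (by rw [eo1]; exact z3) (by rw [eo1]; exact z4)
      (by rw [eo1]; exact z5) (by rw [eo1]; exact z6)
    rcases htri with ⟨a1, a2, a3, a4⟩ | ⟨b1, b2⟩ | ⟨c1, c2, c3, c4, c5, c6⟩
    · exfalso
      obtain ⟨s, hs⟩ := hid
      apply hs
      cases s with
      | h => exact a1
      | f => exact a2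
      | g => exact a3
      | j => exact a4
      | hg => have := M .h .g; rw [a1, a3] at this; exact this
      | gf => have := M .g .f; rw [a3, a2] at this; exact this
      | hj => have := M .h .j; rw [a1, a4] at this; exact this
      | jf => have := M .j .f; rw [a4, a2] at this; exact this
      | fh => have := M .f .h; rw [a2, a1] at this; exact this
      | fj => have := M .f .j; rw [a2, a4] at this; exact this
      | jg => have := M .j .g; rw [a4, a3] at this; exact this
      | p => have := M .h .f; rw [a1, a2] at this; exact this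
      | q => have := M .f .g; rw [a2, a3] at this; exact this
      | u =>
        have h1 := M .j .g
        rw [a4, a3] at h1
        have h2 := M .h .jg
        have h3 : afe_rho ψ .jg = .jg := h1
        rw [a1, h3] at h2
        exact h2
      | o => have := M .g .h; rw [a3, a1] at this; exact this
    · -- constant
      have heo : afe_rho ψ .o = afe_rho ψ .f := by
        rw [← eo1, ← b2, b1, e2]
      constructor
      · intro i
        have h1 : ψ (AF.y i) * AF.b (afe_rho ψ .f) = ψ (AF.y i) := by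
          rw [← afe_rho_spec, ← map_mul]
          rfl
        have h2 : ψ (AF.y i) * AF.b (afe_rho ψ .o) = AF.b (afe_rho ψ .o) := by
          rw [← afe_rho_spec, ← map_mul]
          rfl
        rw [heo] at h2 ⊢
        rw [← h1, h2]
      · intro i
        have h1 : ψ (AF.x i) * AF.b (afe_rho ψ .g) = ψ (AF.x i) := by
          rw [← afe_rho_spec, ← map_mul]
          rfl
        have h2 : ψ (AF.x i) * AF.b (afe_rho ψ .o) = AF.b (afe_rho ψ .o) := by
          rw [← afe_rho_spec, ← map_mul]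
          rfl
        rw [heo, b2] at h2 ⊢
        rw [← h1, h2]
    · -- everything goes to `o`
      have hoo : afe_rho ψ .o = .o := by
        have h1 := c5 .h
        have h2 : afe_rho ψ .h * afe_rho ψ .o * afe_rho ψ .f = afe_rho ψ .o := by
          rw [z1, z2]
        rw [← h2]
        exact c5 _
      constructor
      · intro i
        rw [hy1 i, hoo]
        exact afe_c _ _ _ c1 c2 c5
      · intro i
        rw [hx1 i, hoo]
        exact afe_c _ _ _ c3 c4 c6

theorem afe_inj {m : ℕ} : Function.Injective (fun ψ : AF m →ₙ* AF m => afe_rho ψ) := by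
  intro ψ φ h
  have h' : afe_rho ψ = afe_rho φ := h
  apply DFunLike.ext
  intro a
  rcases afe_det ψ with ⟨p1, p2, p3⟩ | ⟨⟨s, p1⟩, p2, p3⟩ <;>
    rcases afe_det φ with ⟨q1, q2, q3⟩ | ⟨⟨t, q1⟩, q2, q3⟩
  · cases a with
    | b s => rw [afe_rho_spec, afe_rho_spec, h']
    | y i => rw [p2, q2]
    | x i => rw [p3, q3]
  · exact absurd (by rw [← h']; exact p1 t) q1
  · exact absurd (by rw [h']; exact q1 s) p1
  · cases a with
    | b s => rw [afe_rho_spec, afe_rho_spec, h']
    | y i => rw [p2, q2, h']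
    | x i => rw [p3, q3, h']

/-- The number of endomorphisms of `AF m` is at most `5^4` for all `m` (here only: bounded).
PROOF: we show that an endomorphism `ψ` is determined by the images of `b h, b f, b g, b j`; these are
idempotents, and the idempotents of `AF m` are `b h, b f, b g, b j, b o` (`y i * y i = x i * x i = b o`).  So let
`ψ (b h) = b h'`, `ψ (b f) = b f'`, `ψ (b g) = b g'`, `ψ (b j) = b j'` with `h', f', g', j' ∈ {h, f, g, j, o}`.
On `b BB` the map `ψ` is determined, because `BB` is generated by `h, f, g, j`; let `ψ (b o) = b z`.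
The relations of `BB` give: `h'f' = h'g'f' = h'j'f'`, `f'g' = f'h'g'`, `g'h' = g'j' = j'h' = f'j'g' = z`,
`z` absorbs `h', f', g', j'`.
`decide` (over the `5^4` choices): one of the following holds:
(a) `(h', f', g', j') = (h, f, g, j)`;
(b) `h' = f' = g' = j'`;
(c) `(h', f'), (f', g') ∉ {(h, f), (f, g)}` and `h' s f' = o`, `f' s g' = o` for all `s : BB`.
(Checked by computer.)
Case (c): `ψ (y i) = ψ (b h * y i * b f) = b h' * ψ (y i) * b f' = b o`: if `ψ (y i) = b s` by (c), if
`ψ (y i) = y k` since `(h', f') ≠ (h, f)`, if `ψ (y i) = x k` since `(h', f') ≠ (f, g)`.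
In the same way `ψ (x i) = b o`.
Case (b): let `e = h'`, `b e` is an idempotent, and `ψ (y i) = b e * ψ (y i) * b e`, which is `b (e s e)` or `b o`.
In `BB` we have `e s e = e` or `e s e = o` for idempotents `e` (decide).  `z = g' h' = e`.  `ψ (b o) = b e`
and `y i * b o = b o` give `ψ (y i) * b e = b e`, so `ψ (y i) = ψ (y i) * b e = b e`
(as `ψ (y i) = ψ (y i) * ψ (b f)`).  The same for `x i`.  So `ψ` is constant with value `b e`.
Case (a): `ψ` is the identity on `b BB`.  `ψ (y i) = b h * ψ (y i) * b f ∈ {b p, b o} ∪ {y k}`,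
`ψ (x i) = b f * ψ (x i) * b g ∈ {b q, b o} ∪ {x k}`, and `y i * x i = b u`, so
`ψ (y i) * ψ (x i) = b u`; since `p * q = p * (x k) = (y k) * q = o` we get `ψ (y i) = y (k i)`,
`ψ (x i) = x (l i)`, with `i ≤ j ↔ k i ≤ l j` (for all `i, j : Fin m`; `y i * x j = b u` iff `i ≤ j`).
Hence `k i ≤ l i < k (i+1)`, so `k : Fin m → Fin m` is strictly increasing, hence the identity,
and then `l i ≥ i`, `l i < k (i+1) = i + 1`, so `l` is the identity (for the last index `l i ≤ m - 1`).
So `ψ` is the identity. -/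
theorem nEnd_AF : ∃ B : ℕ, ∀ m : ℕ, nEnd (AF m) ≤ B := by
  refine ⟨Nat.card (BB → BB), fun m => ?_⟩
  exact Nat.card_le_card_of_injective _ (afe_inj (m := m))

/-- PROOF: `holds_of_law`, `AF.law`, `AF.card`, `nEnd_AF`: if `V` is endomorphic, take `n` for `B`, the member
`AF n` has at least `n` elements and at most `B` endomorphisms. -/
theorem not_endo_of_A0 {V : Set (Wd × Wd)} (hA : Mem V A0) : ¬ Endomorphic V := by
  intro hE
  obtain ⟨B, hB⟩ := nEnd_AF
  obtain ⟨n, hn⟩ := hE B
  have h1 : Mem V (AF n) := fun p hp => holds_of_law (AF.law n) (hA p hp)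
  have h2 := hn (AF n) h1 (AF.card n)
  exact absurd (hB n) (not_le.mpr h2)

end EVS
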