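import Pool.Agent.EVS.C1

/-!
# [EV-C5] moving a source to a null element
-/

set_option autoImplicit false

namespace EVS

variable {S : Type} [Semigroup S] [Finite S]

omit [Finite S] in
private theorem c5_pw_right {u e : S} (h : u * e = u) (n : ℕ) : pw u n * e = pw u n := by
  induction n with
  | zero => exact h
  | succ n ih => rw [pw_succ, mul_assoc, h]

/-- inverse of a group element -/
private theorem c5_inv {u e : S} (h1 : om u = e) (h2 : u * e = u) :
    ∃ h : S, om h = e ∧ h * e = h ∧ u * h = e ∧ h * u = e := by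
  obtain ⟨n, hn⟩ := om_eq_pw u
  have h3 : u * pw u (n + n) = e := by
    rw [mul_pw, ← pw_mul_pw, ← hn, om_idem, h1]
  refine ⟨pw u (n + n), ?_, c5_pw_right h2 _, h3, ?_⟩
  · rw [om_pw, h1]
  · rw [← mul_pw_comm, h3]

private theorem c5_gp {u e : S} (h1 : om u = e) (h2 : u * e = u) : IsGp u := by
  rw [isGp_iff, h1, h2]

private theorem c5_unit (hci : CentralIdem S) {e' : S} (he : e' * e' = e') {s : S}
    (hs : e' * om s = e') : om (e' * s) = e' ∧ (e' * s) * e' = e' * s :=
  ⟨(gp_of_above hci he hs).1, (gp_of_above hci he hs).2.1⟩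

private theorem c5_h1 (hc : CentralGp S) {b : S} {e : Option S} (he : OkE b e) {a : S}
    (ha : Src b e a) (s t : S) :
    Orb e a (s * t) ↔ (Orb e a s ∧ UU e t) ∨ (UU e s ∧ Orb e a t) := by
  have hci : CentralIdem S := central_idem hc
  obtain ⟨hab, hau, haa, hsrc⟩ := ha
  cases e with
  | none =>
    constructor
    · intro h
      rcases hsrc s t h with h' | h'
      · exact h'.elim
      · exact h'.elim
    · rintro (⟨_, h⟩ | ⟨h, _⟩)
      · exact h.elim
      · exact h.elim
  | some e' =>
    have he' : e' * e' = e' := (he e' rfl).1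
    have hmul : ∀ x y : S, e' * (x * y) = (e' * x) * (e' * y) := by
      intro x y
      rw [mul_assoc, ← mul_assoc x, ← hci e' x he', mul_assoc, ← mul_assoc e' e', he']
    have hfix : ∀ x : S, (e' * x) * e' = e' * x := by
      intro x
      rw [← hci e' (e' * x) he', ← mul_assoc, he']
    constructor
    · intro h
      obtain ⟨g, hg1, hg2, hg3⟩ := h
      rcases hsrc s t ⟨g, hg1, hg2, hg3⟩ with hu | hu
      · right
        refine ⟨hu, ?_⟩
        obtain ⟨u1, u2⟩ := c5_unit hci he' hu
        obtain ⟨k, k1, k2, k3, k4⟩ := c5_inv u1 u2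
        refine ⟨k * g, ?_, ?_, ?_⟩
        · rw [om_mul hci, k1, hg1, he']
        · rw [mul_assoc, hg2]
        · rw [mul_assoc, ← hg3, hmul, ← mul_assoc k, k4, ← mul_assoc, he']
      · left
        refine ⟨?_, hu⟩
        obtain ⟨u1, u2⟩ := c5_unit hci he' hu
        obtain ⟨k, k1, k2, k3, k4⟩ := c5_inv u1 u2
        have kc : ∀ x : S, k * x = x * k := fun x => hc k x (c5_gp k1 k2)
        refine ⟨k * g, ?_, ?_, ?_⟩
        · rw [om_mul hci, k1, hg1, he']
        · rw [mul_assoc, hg2]
        · rw [mul_assoc, ← hg3, kc, hmul, mul_assoc, k3, hfix]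
    · rintro (⟨⟨g, hg1, hg2, hg3⟩, hu⟩ | ⟨hu, ⟨g, hg1, hg2, hg3⟩⟩)
      · obtain ⟨u1, u2⟩ := c5_unit hci he' hu
        have uc : ∀ x : S, (e' * t) * x = x * (e' * t) := fun x => hc _ x (c5_gp u1 u2)
        refine ⟨(e' * t) * g, ?_, ?_, ?_⟩
        · rw [om_mul hci, u1, hg1, he']
        · rw [mul_assoc, hg2]
        · rw [hmul, hg3, ← uc, mul_assoc (e' * t)]
      · obtain ⟨u1, u2⟩ := c5_unit hci he' hu
        refine ⟨(e' * s) * g, ?_, ?_, ?_⟩
        · rw [om_mul hci, u1, hg1, he']
        · rw [mul_assoc, hg2]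
        · rw [hmul, hg3, mul_assoc (e' * s)]

private theorem c5_h2 (hc : CentralGp S) {b : S} {e : Option S} (he : OkE b e) {a : S}
    (ha : Src b e a) (s : S) (hs : Orb e a s) : ¬ UU e s := by
  have hci : CentralIdem S := central_idem hc
  obtain ⟨hab, hau, haa, hsrc⟩ := ha
  cases e with
  | none => exact fun h => h
  | some e' =>
    have he' : e' * e' = e' := (he e' rfl).1
    intro hu
    obtain ⟨g, hg1, hg2, hg3⟩ := hs
    obtain ⟨u1, u2⟩ := c5_unit hci he' hu
    obtain ⟨k, k1, k2, k3, k4⟩ := c5_inv hg1 hg2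
    apply hau
    have haa' : e' * a = a := haa
    have h1 : k * (e' * s) = a := by
      rw [hg3, ← mul_assoc, k4, haa']
    show e' * om a = e'
    rw [← h1, om_mul hci, k1, u1, he', he']

private theorem c5_above (hc : CentralGp S) {b : S} {e : Option S} (he : OkE b e) {a : S}
    (ha : Src b e a) (s : S) (hs : Orb e a s) : b * om s = b := by
  have hci : CentralIdem S := central_idem hc
  obtain ⟨hab, hau, haa, hsrc⟩ := ha
  cases e with
  | none =>
    have hs' : s = a := hs
    rw [hs', hab]
  | some e' =>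
    obtain ⟨he', heb⟩ := he e' rfl
    obtain ⟨g, hg1, hg2, hg3⟩ := hs
    have h1 : e' * om s = e' * om a := by
      have h := congrArg om hg3
      rw [om_mul hci, om_mul hci, om_of_idem he', hg1] at h
      exact h
    have hbe : b * e' = b := by rw [← hci e' b he', heb]
    rw [← hbe, mul_assoc, h1, ← mul_assoc, hbe, hab]

/-- PROOF.  Notation: `U = {s : UU e s}`, `R = {s : Orb e a s}`, `y` with `IsZ y` (the smallest idempotent).
Base endomorphism `ρ`: `ρ s = e` if `s ∈ U` (only for `e = some e'`, then `ρ s = e'`); `b` if `b * om s = b` and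
`s ∉ U`; `y` otherwise.  It is multiplicative by `UU_mul`, `above_mul`, `e b = b = b e`, `y e = y = y b`.
(Or use `base` with `F = {e, b, y}`.)
Apply `moveGen` with `ρ`, `κ s = z`, `R`, `UL = UR = U`.
h1: if `s ∈ R`, `t ∈ U`: `e s t = (e s)(e t)`, `e t` is in the group at `e`, so `e s t = (g (e t)) a ∈ R`
(`act_mul`; for `e = none` there is no such `t`); the same for `s ∈ U`, `t ∈ R`.
Conversely if `s t ∈ R`, then `s ∈ U` or `t ∈ U` since `a` is a source; if `s ∈ U`, then `e s` is a group element
with inverse `h`, so `e t = h (e s)(e t) = h (e s t) ∈ (group) a`, so `t ∈ R`; the same for `t ∈ U`.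
h2: `s ∈ R` implies `s ∉ U`: otherwise `e s = g a` is a group element, so `a = g⁻¹ (e s)` (`e a = a`) is in the
group at `e`, i.e. `UU e a`, against `Src`.
h3, h4: `z e = e z = z`.
`R` is above `b`: `e om s = om (e s) = om (g a) = e om a`, so `b om s = b e om s = b e om a = b om a = b`.
So `ρ s = b` for `s ∈ R` (`s ∉ U`).  h5, h6: `z b = b = b z` (`b` is central), `z y = z b y = b y = y`.
h7: `z z = b = b b`. -/
theorem moveZ (hc : CentralGp S) {b : S} {e : Option S} (hb : b * b = b) (he : OkE b e) {a : S}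
    (ha : Src b e a) {z : S} (hz : act e z = z) (hzz : z * z = b) (hzb : z * b = b) :
    ∃ ψ : S →ₙ* S, ψ a = z := by
  have hci : CentralIdem S := central_idem hc
  have hne : Nonempty S := ⟨b⟩
  obtain ⟨y, hy, hymin⟩ := exists_isZ (S := S) hci
  have hyb : y * b = y := hymin b hb
  have hby : b * y = y := by rw [← hci y b hy, hyb]
  -- the set of idempotents
  let F : Set S := {p | p = b ∨ p = y ∨ e = some p}
  have hFidem : ∀ p ∈ F, p * p = p := by
    rintro p (rfl | rfl | h)
    · exact hb
    · exact hy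
    · exact (he p h).1
  have hFb : ∀ p ∈ F, p * b = b ∨ p = y := by
    rintro p (rfl | rfl | h)
    · exact Or.inl hb
    · exact Or.inr rfl
    · exact Or.inl (he p h).2
  -- `p q` for `p q ∈ F`
  have hFchain : ∀ p ∈ F, ∀ q ∈ F, p * q = q ∨ p * q = p := by
    intro p hp q hq
    rcases hp with rfl | rfl | h
    · rcases hq with rfl | rfl | h'
      · exact Or.inl hb
      · exact Or.inl hby
      · right
        rw [← hci q p (he q h').1, (he q h').2]
    · right
      exact hymin q (hFidem q hq)
    · rcases hq with rfl | rfl | h'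
      · exact Or.inl (he p h).2
      · left
        rw [hci p q (he p h).1, hymin p (he p h).1]
      · left
        have : p = q := Option.some.inj (h.symm.trans h')
        rw [this, (he q h').1]
  have hFmul : ∀ p ∈ F, ∀ q ∈ F, p * q ∈ F := by
    intro p hp q hq
    rcases hFchain p hp q hq with h | h
    · rw [h]; exact hq
    · rw [h]; exact hp
  have hFr : ∀ k : S, k * k = k → ∃ p ∈ F, k * p = p ∧ ∀ q ∈ F, k * q = q → p * q = q := by
    intro k hk
    by_cases h1 : ∃ e', e = some e' ∧ k * e' = e'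
    · obtain ⟨e', he', hke⟩ := h1
      refine ⟨e', Or.inr (Or.inr he'), hke, ?_⟩
      rintro q (rfl | rfl | h') _
      · exact (he e' he').2
      · rw [hci e' q (he e' he').1, hymin e' (he e' he').1]
      · have : e' = q := Option.some.inj (he'.symm.trans h')
        rw [← this, (he e' he').1]
    · by_cases h2 : k * b = b
      · refine ⟨b, Or.inl rfl, h2, ?_⟩
        rintro q (rfl | rfl | h') hq
        · exact hb
        · exact hby
        · exact absurd ⟨q, h', hq⟩ h1
      · refine ⟨y, Or.inr (Or.inl rfl), ?_, ?_⟩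
        · rw [hci k y hk, hymin k hk]
        · rintro q (rfl | rfl | h') hq
          · exact absurd hq h2
          · exact hy
          · exact absurd ⟨q, h', hq⟩ h1
  obtain ⟨ρ, hρ⟩ := base (S := S) (fun p q hp _ => hci p q hp) (om_mul hci) F hFidem hFmul hFr
  -- values of `ρ`
  have hU : ∀ t, UU e t → ∃ e', e = some e' ∧ ρ t = e' := by
    intro t ht
    cases e with
    | none => exact ht.elim
    | some e' =>
      refine ⟨e', rfl, ?_⟩
      have ht' : e' * om t = e' := ht
      obtain ⟨r1, r2, r3⟩ := hρ t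
      have he' := (he e' rfl).1
      have h4 : ρ t * e' = e' := r3 e' (Or.inr (Or.inr rfl)) (by rw [← hci e' _ he', ht'])
      have h5 : e' * ρ t = ρ t := by
        rcases r1 with h | h | h
        · rw [h, (he e' rfl).2]
        · rw [h, hci e' y he', hymin e' he']
        · have : e' = ρ t := Option.some.inj h
          rw [← this, he']
      rw [← h5, hci e' _ he', h4]
  have hnU : ∀ t, ¬ UU e t → ρ t = b ∨ ρ t = y := by
    intro t ht
    obtain ⟨r1, r2, r3⟩ := hρ t
    rcases r1 with h | h | h
    · exact Or.inl h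
    · exact Or.inr h
    · exfalso
      apply ht
      rw [h]
      show ρ t * om t = ρ t
      rw [hci (ρ t) _ (he _ h).1, r2]
  have hR : ∀ s, Orb e a s → ρ s = b := by
    intro s hs
    have h1 := c5_above hc he ha s hs
    obtain ⟨r1, r2, r3⟩ := hρ s
    have h2 : ρ s * b = b := r3 b (Or.inl rfl) (by rw [← hci b _ hb, h1])
    rcases hnU s (c5_h2 hc he ha s hs) with h | h
    · exact h
    · rw [h] at h2 ⊢
      rw [← h2, hyb]
  have hbz : b * z = b := by rw [hci b z hb, hzb]
  have hzy : z * y = b * y := by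
    have h : z * (b * y) = b * y := by rw [← mul_assoc, hzb]
    rwa [hby] at h ⊢
  have hyz : y * z = y * b := by
    rw [hci y z hy, hzy, ← hci y b hy]
  obtain ⟨ψ, hψ, _⟩ := moveGen ρ (fun _ => z) {s | Orb e a s} {s | UU e s} {s | UU e s}
    (c5_h1 hc he ha)
    (fun s hs => ⟨c5_h2 hc he ha s hs, c5_h2 hc he ha s hs⟩)
    (by
      intro s _ t ht
      obtain ⟨e', he', hρt⟩ := hU t ht
      subst he'
      show z = z * ρ t
      rw [hρt, ← hci e' z (he e' rfl).1]
      exact hz.symm)
    (by
      intro s hs t _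
      obtain ⟨e', he', hρt⟩ := hU s hs
      subst he'
      show z = ρ s * z
      rw [hρt]
      exact hz.symm)
    (by
      intro s hs t ht
      show z * ρ t = ρ s * ρ t
      rw [hR s hs]
      rcases hnU t ht with h | h
      · rw [h, hzb, hb]
      · rw [h, hzy])
    (by
      intro s hs t ht
      show ρ s * z = ρ s * ρ t
      rw [hR t ht]
      rcases hnU s hs with h | h
      · rw [h, hbz, hb]
      · rw [h, hyz])
    (by
      intro s hs t ht
      show z * z = ρ s * ρ t
      rw [hR s hs, hR t ht, hzz, hb])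
  refine ⟨ψ, ?_⟩
  refine hψ a ?_
  show Orb e a a
  cases e with
  | none => exact rfl
  | some e' =>
    exact ⟨e', om_of_idem (he e' rfl).1, (he e' rfl).1, rfl⟩

/-- PROOF: `moveZ` and `card_le_nEnd` (`R z ψ := ψ a = z`). -/
theorem card_nul_le (hc : CentralGp S) {b : S} {e : Option S} (hb : b * b = b) (he : OkE b e)
    (ha : ∃ a : S, Src b e a) :
    Nat.card {z : S // act e z = z ∧ z * z = b ∧ z * b = b} ≤ nEnd S := by
  obtain ⟨a, ha⟩ := ha
  refine card_le_nEnd (fun z ψ => ψ a = z.1) ?_ ?_
  · rintro ⟨z, h1, h2, h3⟩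
    exact moveZ hc hb he ha h1 h2 h3
  · intro z z' ψ h h'
    exact Subtype.ext (h.symm.trans h')

end EVS
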