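import Pool.Agent.EVS.Gen

/-!
# [EV-L2] from the levels to the semigroup
-/

set_option autoImplicit false

namespace EVS

/-- If `F` is a function which bounds the size of the level `{s : om s = b}` in terms of the number of elements
above the level, then `S` is bounded in terms of `c` and `F` (`c` bounds the number of idempotents).
`G 0 = 0`, `G (k+1) = G k + F (G k)`; `|S| ≤ G c`. -/
def G (F : ℕ → ℕ) : ℕ → ℕ
  | 0 => 0
  | k + 1 => G F k + F (G F k)

theorem G_mono {F : ℕ → ℕ} {k k' : ℕ} (h : k ≤ k') : G F k ≤ G F k' := by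
  induction h with
  | refl => exact le_refl _
  | step _ ih => exact le_trans ih (Nat.le_add_right _ _)

open Classical in
theorem glob_aux {S : Type} [Semigroup S] [Finite S]
    (hcomm : ∀ e f : S, e * e = e → f * f = f → e * f = f * e) {F : ℕ → ℕ} (hF : Monotone F)
    (hlev : ∀ b : S, b * b = b → Nat.card {s : S // om s = b} ≤ F (above b)) (k : ℕ) :
    ∀ U : Finset S, (∀ p ∈ U, p * p = p) → (∀ p ∈ U, ∀ q : S, q * q = q → q * p = p → q ∈ U) →
      U.card = k → {s : S | om s ∈ U}.ncard ≤ G F k := by
  induction k with
  | zero =>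
    intro U _ _ hU
    rw [Finset.card_eq_zero] at hU
    subst hU
    simp
  | succ k ih =>
    intro U hid hup hU
    have hne : U.Nonempty := Finset.card_pos.1 (by omega)
    obtain ⟨b, hbU, hbmin⟩ := Finset.exists_min_image U
      (fun b => (U.filter (fun q => b * q = q)).card) hne
    have hbb : b * b = b := hid b hbU
    have hmin : ∀ q ∈ U, b * q = q → q = b := by
      intro q hq hbq
      by_contra hne'
      have hlt : (U.filter (fun x => q * x = x)).card < (U.filter (fun x => b * x = x)).card := by
        apply Finset.card_lt_card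
        rw [Finset.ssubset_iff_of_subset]
        · refine ⟨b, Finset.mem_filter.2 ⟨hbU, hbb⟩, ?_⟩
          intro hb
          have h1 : q * b = b := (Finset.mem_filter.1 hb).2
          apply hne'
          rw [← h1, ← hcomm b q hbb (hid q hq), hbq]
        · intro x hx
          rw [Finset.mem_filter] at hx ⊢
          refine ⟨hx.1, ?_⟩
          rw [← hx.2, ← mul_assoc, hbq]
      exact absurd (hbmin q hq) (not_le.2 hlt)
    have hU'c : (U.erase b).card = k := by
      rw [Finset.card_erase_of_mem hbU, hU]
      rfl
    have hU'id : ∀ p ∈ U.erase b, p * p = p := fun p hp => hid p (Finset.mem_of_mem_erase hp)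
    have hU'up : ∀ p ∈ U.erase b, ∀ q : S, q * q = q → q * p = p → q ∈ U.erase b := by
      intro p hp q hq hqp
      rw [Finset.mem_erase] at hp ⊢
      refine ⟨?_, hup p hp.2 q hq hqp⟩
      rintro rfl
      exact hp.1 (hmin p hp.2 hqp)
    have h1 := ih (U.erase b) hU'id hU'up hU'c
    have h2 : {s : S | om s ∈ U} ⊆ {s : S | om s ∈ U.erase b} ∪ {s : S | om s = b} := by
      intro s hs
      by_cases h : om s = b
      · exact Or.inr h
      · exact Or.inl (Finset.mem_erase.2 ⟨h, hs⟩)
    have h3 : {s : S | om s = b}.ncard ≤ F (above b) := hlev b hbb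
    have h4 : above b ≤ {s : S | om s ∈ U.erase b}.ncard := by
      show {s : S | b * om s = b ∧ om s ≠ b}.ncard ≤ _
      apply Set.ncard_le_ncard _ (Set.toFinite _)
      rintro s ⟨hs1, hs2⟩
      refine Finset.mem_erase.2 ⟨hs2, ?_⟩
      apply hup b hbU (om s) (om_idem s)
      rw [← hcomm b (om s) hbb (om_idem s)]
      exact hs1
    calc {s : S | om s ∈ U}.ncard
        ≤ ({s : S | om s ∈ U.erase b} ∪ {s : S | om s = b}).ncard :=
          Set.ncard_le_ncard h2 (Set.toFinite _)
      _ ≤ {s : S | om s ∈ U.erase b}.ncard + {s : S | om s = b}.ncard := Set.ncard_union_le _ _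
      _ ≤ G F k + F (G F k) :=
          Nat.add_le_add h1 (h3.trans (hF (h4.trans h1)))

/-- PROOF: order the idempotents by `p ≤ q` iff `q * p = p` (a partial order, as idempotents commute).
Call a set `U` of idempotents an upper set if `p ∈ U`, `q` idempotent, `q * p = p` imply `q ∈ U`.
Claim: if `U` is an upper set with `k` elements then `#{s : om s ∈ U} ≤ G F k`.  Induction on `k`: `k = 0`
clear.  Otherwise let `b` be a minimal element of `U` (`q ∈ U`, `b * q = q` imply `q = b`).  `U' = U \ {b}` is
an upper set with `k - 1` elements.  The elements strictly above the level of `b`, i.e. with `b * om s = b` and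
`om s ≠ b` satisfy `om s ∈ U'` (`om s * b = b`, upper set), so there are at most `G F (k-1)` of them, and
`#{s : om s = b} ≤ F (above b) ≤ F (G F (k-1))` (`F` is monotone).  So `#{s : om s ∈ U} ≤ G F (k-1) +
F (G F (k-1))`.
For `U` the set of all idempotents: `|S| ≤ G F |E| ≤ G F c`. -/
theorem glob {S : Type} [Semigroup S] [Finite S]
    (hcomm : ∀ e f : S, e * e = e → f * f = f → e * f = f * e) {F : ℕ → ℕ} (hF : Monotone F)
    {c : ℕ} (hc : Nat.card {e : S // e * e = e} ≤ c)
    (hlev : ∀ b : S, b * b = b → Nat.card {s : S // om s = b} ≤ F (above b)) :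
    Nat.card S ≤ G F c := by
  classical
  have hfs : Fintype S := Fintype.ofFinite S
  have h1 := glob_aux hcomm hF hlev _ (Finset.univ.filter fun e : S => e * e = e)
    (fun p hp => (Finset.mem_filter.1 hp).2)
    (fun p _ q hq _ => Finset.mem_filter.2 ⟨Finset.mem_univ _, hq⟩) rfl
  have h2 : {s : S | om s ∈ Finset.univ.filter fun e : S => e * e = e} = Set.univ := by
    ext s
    simp only [Set.mem_ofPred_eq, Finset.mem_filter, Finset.mem_univ, true_and, Set.mem_univ,
      iff_true]
    exact om_idem s
  rw [h2, Set.ncard_univ] at h1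
  refine h1.trans (G_mono ?_)
  refine le_trans (le_of_eq ?_) hc
  rw [Nat.card_eq_fintype_card, Fintype.card_subtype]

end EVS
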