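import Pool.Agent.EVS.C6
import Pool.Agent.EVS.C10
import Pool.Agent.EVS.Glob

/-!
# [EV-C11] the size of a level, and of the semigroup
-/

set_option autoImplicit false

namespace EVS

variable {S : Type} [Semigroup S] [Finite S]

omit [Finite S] in
theorem c11_comm (hc : CentralIdem S) {b : S} (hb : b * b = b) (w : WithOne S) :
    (b : WithOne S) * w = w * b := by
  rcases w with _ | s
  · exact (mul_one _).trans (one_mul _).symm
  · exact congrArg (fun t : S => (t : WithOne S)) (hc b s hb)

omit [Finite S] in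
theorem c11_fix (hc : CentralIdem S) {b x a : S} (hb : b * b = b) {l : List S}
    (hl : prd l = (x : WithOne S)) (ha : a ∈ l) (hba : b * a = a) : b * x = x := by
  obtain ⟨l1, l2, rfl⟩ := List.append_of_mem ha
  rw [← coe_inj, WithOne.coe_mul, ← hl, prd_append, prd_cons, ← mul_assoc, c11_comm hc hb, mul_assoc,
    ← mul_assoc (b : WithOne S), ← WithOne.coe_mul, hba]

/-- The elements of one type.
PROOF: let `A = {s : b * om s = b, om s ≠ b} ∪ {a : om a = b, b a ≠ a, Src b e a}`; `|A| ≤ above b + c^3`
(`card_src_le`).  Every `x` in the set on the left is the product of a list `l` of sources (`fac`), of length at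
most `L = (above b + 1) (c^2 (2c+1))` by `len_le` (`Src` contains `act e a = a` and `¬ UU e a`).  Elements `a` of
`l` are in `A`: they are above `b`; if `om a = b`, then `b a ≠ a` (otherwise `b x = x`, as `b` is central).  Now
`card_prd_le`. -/
theorem card_typ_le (hc : CentralGp S) {b : S} {e : Option S} (hb : b * b = b) (he : OkE b e) :
    Nat.card {x : S // om x = b ∧ b * x ≠ x ∧ IsTyp e x} ≤
      (above b + nEnd S ^ 3 + 1) ^ ((above b + 1) * (nEnd S ^ 2 * (2 * nEnd S + 1))) := by
  have hA : Nat.card ↥({s : S | b * om s = b ∧ om s ≠ b} ∪ {x : S | om x = b ∧ b * x ≠ x ∧ Src b e x}) ≤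
      above b + nEnd S ^ 3 := by
    have h1 : Set.ncard ({s : S | b * om s = b ∧ om s ≠ b} ∪
        {x : S | om x = b ∧ b * x ≠ x ∧ Src b e x}) ≤ Set.ncard {s : S | b * om s = b ∧ om s ≠ b} +
        Set.ncard {x : S | om x = b ∧ b * x ≠ x ∧ Src b e x} := Set.ncard_union_le _ _
    have h2 : Set.ncard {x : S | om x = b ∧ b * x ≠ x ∧ Src b e x} ≤ nEnd S ^ 3 :=
      card_src_le hc hb he
    exact h1.trans (Nat.add_le_add_left h2 _)
  refine le_trans ?_ ((card_prd_le ({s : S | b * om s = b ∧ om s ≠ b} ∪
    {x : S | om x = b ∧ b * x ≠ x ∧ Src b e x})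
    ((above b + 1) * (nEnd S ^ 2 * (2 * nEnd S + 1)))).trans
    (Nat.pow_le_pow_left (Nat.add_le_add_right hA 1) _))
  have h3 : Set.ncard {x : S | om x = b ∧ b * x ≠ x ∧ IsTyp e x} ≤
      Set.ncard {x : S | ∃ l : List S, l.length ≤ (above b + 1) * (nEnd S ^ 2 * (2 * nEnd S + 1)) ∧
        (∀ a ∈ l, a ∈ ({s : S | b * om s = b ∧ om s ≠ b} ∪
          {x : S | om x = b ∧ b * x ≠ x ∧ Src b e x})) ∧ prd l = (x : WithOne S)} := by
    apply Set.ncard_le_ncard _ (Set.toFinite _)
    rintro x ⟨hx1, hx2, hx3⟩
    obtain ⟨l, hl, -, hls⟩ := fac hc hb he hx1 hx2 hx3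
    refine ⟨l, len_le hc hb he hx1 hx2 hx3 l hl (fun a ha => ⟨(hls a ha).2.2.1, (hls a ha).2.1⟩),
      ?_, hl⟩
    intro a ha
    by_cases hab : om a = b
    · right
      exact ⟨hab, fun hba => hx2 (c11_fix (central_idem hc) hb hl ha hba), hls a ha⟩
    · left
      exact ⟨(hls a ha).1, hab⟩
  exact h3

/-- PROOF: an element `s` with `om s = b` has `b s = s` (then it is in the group at `b`, at most `c^2` elements,
`card_gp_le`), or it has a type `e` (`exists_typ`), which is `none` or `some e'` with an idempotent `e'`; at most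
`c + 1` types (`card_idem_le`). -/
theorem level (hc : CentralGp S) {b : S} (hb : b * b = b) :
    Nat.card {s : S // om s = b} ≤ Psi (above b) (nEnd S) := by
  classical
  have hci := central_idem hc
  have : Fintype S := Fintype.ofFinite S
  -- the types
  have hT : (Finset.univ.filter (fun e : Option S => OkE b e)).card ≤ nEnd S + 1 := by
    have h1 : (Finset.univ.filter (fun e : Option S => OkE b e)) ⊆
        insert none ((Finset.univ.filter (fun e : S => e * e = e)).image some) := by
      intro e he
      rw [Finset.mem_filter] at he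
      rcases e with _ | e'
      · exact Finset.mem_insert_self _ _
      · apply Finset.mem_insert_of_mem
        rw [Finset.mem_image]
        exact ⟨e', Finset.mem_filter.2 ⟨Finset.mem_univ _, (he.2 e' rfl).1⟩, rfl⟩
    refine (Finset.card_le_card h1).trans ((Finset.card_insert_le _ _).trans ?_)
    apply Nat.add_le_add_right
    refine Finset.card_image_le.trans ?_
    have h2 := card_idem_le (S := S)
    rw [Nat.card_eq_fintype_card, Fintype.card_subtype] at h2
    exact h2
  have hU : (Finset.univ.filter (fun s : S => om s = b)) ⊆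
      (Finset.univ.filter (fun s : S => om s = b ∧ s * b = s)) ∪
      (Finset.univ.filter (fun e : Option S => OkE b e)).biUnion
        (fun e => Finset.univ.filter (fun x : S => om x = b ∧ b * x ≠ x ∧ IsTyp e x)) := by
    intro s hs
    rw [Finset.mem_filter] at hs
    rw [Finset.mem_union]
    by_cases h1 : b * s = s
    · left
      rw [Finset.mem_filter]
      exact ⟨Finset.mem_univ _, hs.2, by rw [← hci b s hb]; exact h1⟩
    · right
      obtain ⟨e, he1, he2⟩ := exists_typ hci s
      rw [hs.2] at he1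
      rw [Finset.mem_biUnion]
      exact ⟨e, Finset.mem_filter.2 ⟨Finset.mem_univ _, he1⟩,
        Finset.mem_filter.2 ⟨Finset.mem_univ _, hs.2, h1, he2⟩⟩
  have hG : (Finset.univ.filter (fun s : S => om s = b ∧ s * b = s)).card ≤ nEnd S ^ 2 := by
    have h2 := card_gp_le hc hb
    rw [Nat.card_eq_fintype_card, Fintype.card_subtype] at h2
    exact h2
  have hN : ∀ e ∈ Finset.univ.filter (fun e : Option S => OkE b e),
      (Finset.univ.filter (fun x : S => om x = b ∧ b * x ≠ x ∧ IsTyp e x)).card ≤
      (above b + nEnd S ^ 3 + 1) ^ ((above b + 1) * (nEnd S ^ 2 * (2 * nEnd S + 1))) := by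
    intro e he
    rw [Finset.mem_filter] at he
    have h2 := card_typ_le hc hb he.2
    rw [Nat.card_eq_fintype_card, Fintype.card_subtype] at h2
    exact h2
  rw [Nat.card_eq_fintype_card, Fintype.card_subtype]
  refine (Finset.card_le_card hU).trans ((Finset.card_union_le _ _).trans ?_)
  unfold Psi
  apply Nat.add_le_add hG
  refine Finset.card_biUnion_le.trans ((Finset.sum_le_card_nsmul _ _ _ hN).trans ?_)
  rw [smul_eq_mul]
  exact Nat.mul_le_mul_right _ hT

theorem Psi_mono (c : ℕ) : Monotone fun m => Psi m c := by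
  intro m m' h
  show Psi m c ≤ Psi m' c
  unfold Psi
  apply Nat.add_le_add_left
  apply Nat.mul_le_mul_left
  refine (Nat.pow_le_pow_left (show m + c ^ 3 + 1 ≤ m' + c ^ 3 + 1 by omega) _).trans ?_
  exact Nat.pow_le_pow_right (by omega) (Nat.mul_le_mul_right _ (by omega))

/-- PROOF: let `n` be larger than `G (fun m => Psi m c) c` for all `c ≤ B`.  If `S` satisfies the hypothesis and
`c = nEnd S ≤ B`, then `|S| ≤ G (fun m => Psi m c) c < n` by `glob` (`card_idem_le`, `level`). -/
theorem suff1 (B : ℕ) : ∃ n : ℕ, ∀ (S : Type) [Semigroup S] [Finite S], CentralGp S →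
    n ≤ Nat.card S → B < nEnd S := by
  refine ⟨(∑ c ∈ Finset.range (B + 1), G (fun m => Psi m c) c) + 1, ?_⟩
  intro S _ _ hc hn
  by_contra hB
  have hB' : nEnd S ∈ Finset.range (B + 1) := Finset.mem_range.2 (by omega)
  have hci := central_idem hc
  have h1 : Nat.card S ≤ G (fun m => Psi m (nEnd S)) (nEnd S) :=
    glob (fun e f he _ => hci e f he) (Psi_mono (nEnd S)) card_idem_le (fun b hb => level hc hb)
  have h2 : G (fun m => Psi m (nEnd S)) (nEnd S) ≤
      ∑ c ∈ Finset.range (B + 1), G (fun m => Psi m c) c :=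
    Finset.single_le_sum (f := fun c => G (fun m => Psi m c) c) (fun _ _ => Nat.zero_le _) hB'
  omega

end EVS
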