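import Pool.Agent.EVS.D1

/-!
# [EV-D5] generation by letters
-/

set_option autoImplicit false

namespace EVS

variable {S : Type} [Semigroup S] [Finite S]

omit [Finite S] in
theorem d5_jle_trans {x y z : S} (h1 : JLe x y) (h2 : JLe y z) : JLe x z := by
  obtain ⟨p, q, hpq⟩ := h1
  obtain ⟨r, s, hrs⟩ := h2
  refine ⟨p * r, s * q, ?_⟩
  rw [hpq, hrs]
  simp only [mul_assoc]

omit [Finite S] in
theorem d5_jle_left (p q : S) : JLe (p * q) p := ⟨1, (q : WithOne S), by rw [one_mul, WithOne.coe_mul]⟩

omit [Finite S] in
theorem d5_jle_right (p q : S) : JLe (p * q) q := ⟨(p : WithOne S), 1, by rw [mul_one, WithOne.coe_mul]⟩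

/-- the number of elements J-above `x` -/
noncomputable def d5_mu (x : S) : ℕ := Nat.card {y : S // JLe x y}

theorem d5_mu_lt (h : Good2 S) {x p : S} (hxp : JLe x p) (hne : p ≠ x) : d5_mu p < d5_mu x := by
  have h1 : Set.ncard {y : S | JLe p y} < Set.ncard {y : S | JLe x y} := by
    apply Set.ncard_lt_ncard
    · refine ⟨fun y hy => d5_jle_trans hxp hy, fun hsub => ?_⟩
      have hx : JLe p x := hsub (show JLe x x from ⟨1, 1, by rw [one_mul, mul_one]⟩)
      exact hne (h.1 p x hx hxp)
    · exact Set.toFinite _
  exact h1

/-- Every element above `b` and different from `b` is a product of letters.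
PROOF: induction on the (well-founded, since `S` is finite and `JTriv`) relation strictly J-above: if `x = p q`
with `p ≠ x` and `q ≠ x` then `p` and `q` are strictly J-above `x` (`jeq`).  For instance strong induction on the
number of elements `y` with `JLe x y`.
Let `x` be above `b`, `x ≠ b`.  If `x = p q` with `p, q ≠ x`: `p`, `q` are above `b` (`above_mul2`) and
`≠ b` if `x ≠ b` (`b q = b`, `p b = b` by `mul_b`), so by induction both are products of letters.  So
assume that `x = p q` implies `p = x` or `q = x`.  Then `x` is a letter: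
`om x = b → Irr x`: if `p q = x` then `p = x`, so `x q = x`; or `q = x`, so `p x = x`.
`Fixed x ∨ Indec x`: if `x` is not indecomposable, `x = p q`, so `x = x q` or `x = p x`, so `x * om q = x` or
`om p * x = x` (`right_fix`, `left_fix`), so `Fixed x`. -/
theorem gen_letters (h : Good2 S) {b : S} (hb : b * b = b) {x : S} (hx : b * om x = b) (hxb : x ≠ b) :
    ∃ l : List S, prd l = (x : WithOne S) ∧ ∀ a ∈ l, Ltr b a := by
  obtain ⟨n, hn⟩ : ∃ n, d5_mu x = n := ⟨_, rfl⟩
  induction n using Nat.strong_induction_on generalizing x with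
  | _ n ih =>
    by_cases hdec : ∃ p q : S, p * q = x ∧ p ≠ x ∧ q ≠ x
    · obtain ⟨p, q, hpq, hp, hq⟩ := hdec
      have hab := (above_mul2 h hb p q).1 (by rw [hpq]; exact hx)
      have hpb : p ≠ b := by
        rintro rfl
        exact hxb (by rw [← hpq]; exact (mul_b h hb hab.2).2)
      have hqb : q ≠ b := by
        rintro rfl
        exact hxb (by rw [← hpq]; exact (mul_b h hb hab.1).1)
      obtain ⟨l1, h1, h1'⟩ := ih (d5_mu p)
        (by rw [← hn]; exact d5_mu_lt h (hpq ▸ d5_jle_left p q) hp) hab.1 hpb rfl
      obtain ⟨l2, h2, h2'⟩ := ih (d5_mu q)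
        (by rw [← hn]; exact d5_mu_lt h (hpq ▸ d5_jle_right p q) hq) hab.2 hqb rfl
      refine ⟨l1 ++ l2, ?_, ?_⟩
      · rw [prd_append, h1, h2, ← WithOne.coe_mul, hpq]
      · intro a ha
        rcases List.mem_append.1 ha with ha | ha
        · exact h1' a ha
        · exact h2' a ha
    · have hdec' : ∀ p q : S, p * q = x → p = x ∨ q = x := by
        intro p q hpq
        by_contra hcon
        rw [not_or] at hcon
        exact hdec ⟨p, q, hpq, hcon.1, hcon.2⟩
      refine ⟨[x], prd_singleton x, ?_⟩
      intro a ha
      rw [List.mem_singleton] at ha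
      subst ha
      refine ⟨hx, fun _ => ⟨hxb, ?_⟩, ?_⟩
      · intro p q hpq
        rcases hdec' p q hpq with h1 | h1
        · right
          rw [h1] at hpq
          exact hpq
        · left
          rw [h1] at hpq
          exact hpq
      · by_cases hi : Indec a
        · exact Or.inr hi
        · left
          unfold Indec at hi
          push Not at hi
          obtain ⟨p, q, hpq⟩ := hi
          rcases hdec' p q hpq with h1 | h1
          · rw [h1] at hpq
            exact ⟨om q, om_idem q, Or.inr ((right_fix h q a).1 hpq)⟩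
          · rw [h1] at hpq
            exact ⟨om p, om_idem p, Or.inl ((left_fix h p a).1 hpq)⟩

/-- If all elements above `b` are decomposable, the letters are fixed by idempotents -/
theorem fixed_of_letter {b a : S} (ha : Ltr b a) (hn : ∀ g : S, b * om g = b → ¬ Indec g) : Fixed a :=
  ha.2.2.resolve_right (hn a ha.1)

end EVS
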