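import Pool.Agent.EVS.D2
import Pool.Agent.EVS.D5

/-!
# [EV-D6] the length of a shortest product of letters
-/

set_option autoImplicit false

namespace EVS

variable {S : Type} [Semigroup S] [Finite S]

/-- PROOF: let `e a = a` (`e` idempotent).  `e om a = om a` (`om_mul2`).
`a a = a (e a) = (a e) a = (e a e) a = (e om a) a = om a * a = om a` (`local_eq`, `om_mul_self`).
`a v a = a v (e a) = (e (a v) e) a = e om (a v) a`, with `k = om (a v) = om a om v`: `e k = k`,
`k a = k` by `absorb` (`k om a = k`).  So `a v a = k`.  The case `a e = a` is dual. -/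
theorem ava (h : Good2 S) {a : S} (ha : Fixed a) : a * a = om a ∧ ∀ v, a * v * a = om a * om v := by
  obtain ⟨e, he, hea | hae⟩ := ha
  · have e1 : e * om a = om a := by
      conv_rhs => rw [← hea]
      rw [om_mul2 h, om_of_idem he]
    constructor
    · have h1 : a * e = om a := by
        conv_lhs => rw [← hea]
        rw [local_eq h he, e1]
      conv_lhs => rw [← hea]
      rw [hea, ← hea, ← mul_assoc (e * a) e a, hea, h1, (om_mul_self h a).1]
    · intro v
      have hk : (om a * om v) * a = om a * om v := by
        refine (absorb h (h.2.1 _ _ (om_idem a) (om_idem v)) ?_).1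
        rw [mul_assoc, comm_idem h (om_idem v) (om_idem a), ← mul_assoc, om_idem]
      have h1 : a * v * e = om a * om v := by
        have h2 : a * v = e * (a * v) := by rw [← mul_assoc, hea]
        rw [h2, local_eq h he, om_mul2 h, ← mul_assoc, e1]
      calc a * v * a = a * v * (e * a) := by rw [hea]
        _ = (a * v * e) * a := by rw [← mul_assoc]
        _ = om a * om v := by rw [h1, hk]
  · have e1 : e * om a = om a := by
      have h1 : om a = om a * e := by
        conv_lhs => rw [← hae]
        rw [om_mul2 h, om_of_idem he]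
      rw [comm_idem h he (om_idem a), ← h1]
    constructor
    · have h1 : e * a = om a := by
        conv_lhs => rw [← hae]
        rw [← mul_assoc, local_eq h he, e1]
      calc a * a = (a * e) * a := by rw [hae]
        _ = a * (e * a) := by rw [mul_assoc]
        _ = om a := by rw [h1, (om_mul_self h a).2]
    · intro v
      have hk : a * (om a * om v) = om a * om v := by
        rw [← mul_assoc, (om_mul_self h a).2]
      have h1 : e * (v * a) = om a * om v := by
        have h2 : v * a = v * a * e := by rw [mul_assoc, hae]
        rw [h2, ← mul_assoc, local_eq h he, om_mul2 h, comm_idem h (om_idem v) (om_idem a),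
          ← mul_assoc, e1]
      calc a * v * a = (a * e) * v * a := by rw [hae]
        _ = a * (e * (v * a)) := by simp only [mul_assoc]
        _ = om a * om v := by rw [h1, hk]

/-- The middle occurrence of a letter fixed by an idempotent can be deleted.
PROOF: by cases `v = 1` or `v ∈ S`, `w = 1` or `w ∈ S`, from `ava`: both sides are `om a` times `om v` and `om w`
(if present): e.g. `a v a w a = a (v a w) a = om a om (v a w) = om a om v om w` (`om_mul2`, idempotents
commute), and `a v w a = om a om (v w)`; `a a a = om a * a = om a = a a`. -/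
theorem mid (h : Good2 S) {a : S} (ha : Fixed a) (v w : WithOne S) :
    (a : WithOne S) * v * a * w * a = a * v * w * a := by
  obtain ⟨h1, h2⟩ := ava h ha
  have h3 : ∀ v : S, om a * (om v * om a) = om a * om v := by
    intro v
    rw [comm_idem h (om_idem v) (om_idem a), ← mul_assoc, om_idem]
  induction v using WithOne.recOneCoe with
  | one =>
    induction w using WithOne.recOneCoe with
    | one =>
      rw [mul_one, mul_one, mul_one, ← WithOne.coe_mul, ← WithOne.coe_mul, coe_inj, h1,
        (om_mul_self h a).1]
    | coe w =>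
      rw [mul_one, ← WithOne.coe_mul, ← WithOne.coe_mul, ← WithOne.coe_mul, ← WithOne.coe_mul,
        ← WithOne.coe_mul, coe_inj, h2 w, mul_assoc a a w, h2 (a * w), om_mul2 h, ← mul_assoc, om_idem]
  | coe v =>
    induction w using WithOne.recOneCoe with
    | one =>
      rw [mul_one, mul_one, ← WithOne.coe_mul, ← WithOne.coe_mul, ← WithOne.coe_mul, coe_inj, h2 v]
      refine (absorb h (h.2.1 _ _ (om_idem a) (om_idem v)) ?_).1
      rw [mul_assoc, h3]
    | coe w =>
      rw [← WithOne.coe_mul, ← WithOne.coe_mul, ← WithOne.coe_mul, ← WithOne.coe_mul,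
        ← WithOne.coe_mul, ← WithOne.coe_mul, coe_inj]
      have e1 : a * v * a * w * a = a * (v * a * w) * a := by simp only [mul_assoc]
      have e2 : a * v * w * a = a * (v * w) * a := by simp only [mul_assoc]
      rw [e1, e2, h2, h2, om_mul2 h, om_mul2 h, om_mul2 h, ← mul_assoc, ← mul_assoc, mul_assoc (om a),
        h3, mul_assoc]

omit [Semigroup S] [Finite S] in
/-- a list with three occurrences of `a` -/
theorem d6_three {a : S} {l : List S} [DecidableEq S] (hc : 3 ≤ l.count a) :
    ∃ l1 l2 l3 l4 : List S, l = l1 ++ a :: (l2 ++ a :: (l3 ++ a :: l4)) := by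
  have key : ∀ (m : List S), 1 ≤ m.count a → ∃ u v : List S, m = u ++ a :: v ∧ v.count a = m.count a - 1 := by
    intro m hm
    have hmem : a ∈ m := List.count_pos_iff.1 hm
    obtain ⟨u, v, huv, hu⟩ := List.eq_append_cons_of_mem hmem
    refine ⟨u, v, huv, ?_⟩
    rw [huv, List.count_append, List.count_cons_self, List.count_eq_zero_of_not_mem hu]
    omega
  obtain ⟨l1, m1, h1, c1⟩ := key l (by omega)
  obtain ⟨l2, m2, h2, c2⟩ := key m1 (by omega)
  obtain ⟨l3, m3, h3, c3⟩ := key m2 (by omega)
  exact ⟨l1, l2, l3, m3, by rw [h1, h2, h3]⟩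

/-- PROOF: in a shortest list `l` with product `x` every letter occurs at most twice: if it occurs three times,
`l = l1 ++ a :: l2 ++ a :: l3 ++ a :: l4`, and the middle `a` can be deleted by `mid` (`prd_append`).  So the
length is at most `2 * |l.toFinset|`, and `|l.toFinset|` is at most the number of letters in `A`. -/
theorem short_fixed (h : Good2 S) (A : Set S) (hA : ∀ a ∈ A, Fixed a) (l : List S) (hl : ∀ a ∈ l, a ∈ A)
    (hmin : ∀ l' : List S, (∀ a ∈ l', a ∈ A) → prd l' = prd l → l.length ≤ l'.length) :
    l.length ≤ 2 * Nat.card A := by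
  classical
  have hcount : ∀ a ∈ l.toFinset, l.count a ≤ 2 := by
    intro a ha
    rw [List.mem_toFinset] at ha
    by_contra hcon
    push Not at hcon
    obtain ⟨l1, l2, l3, l4, e⟩ := d6_three hcon
    have hprd : prd (l1 ++ a :: (l2 ++ (l3 ++ a :: l4))) = prd l := by
      rw [e]
      simp only [prd_append, prd_cons]
      have h1 := mid h (hA a (hl a ha)) (prd l2) (prd l3)
      have e1 : (a : WithOne S) * (prd l2 * ((a : WithOne S) * (prd l3 * ((a : WithOne S) * prd l4)))) =
          (a : WithOne S) * prd l2 * a * prd l3 * a * prd l4 := by simp only [mul_assoc]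
      have e2 : (a : WithOne S) * (prd l2 * (prd l3 * ((a : WithOne S) * prd l4))) =
          (a : WithOne S) * prd l2 * prd l3 * a * prd l4 := by simp only [mul_assoc]
      rw [e1, e2, h1]
    have hlen := hmin (l1 ++ a :: (l2 ++ (l3 ++ a :: l4))) (by
      intro c hc
      apply hl c
      rw [e]
      simp only [List.mem_append, List.mem_cons] at hc ⊢
      tauto) hprd
    have hlen2 := congrArg List.length e
    simp only [List.length_append, List.length_cons] at hlen hlen2
    omega
  have h1 : l.length = ∑ a ∈ l.toFinset, l.count a := (List.sum_toFinset_count_eq_length l).symm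
  have h2 : ∑ a ∈ l.toFinset, l.count a ≤ l.toFinset.card * 2 := by
    calc ∑ a ∈ l.toFinset, l.count a ≤ ∑ _a ∈ l.toFinset, 2 := Finset.sum_le_sum hcount
      _ = l.toFinset.card * 2 := by rw [Finset.sum_const, smul_eq_mul]
  have h3 : l.toFinset.card ≤ Nat.card A := by
    rw [Nat.card_coe_set_eq, ← Set.ncard_coe_finset]
    apply Set.ncard_le_ncard _ (Set.toFinite A)
    intro a ha
    rw [Finset.mem_coe, List.mem_toFinset] at ha
    exact hl a ha
  omega

/-- a factor of an element at the level of `b` is above `b` -/
theorem d6_fac (h : Good2 S) {b x y : S} (hb : b * b = b) (hx : om x = b) (P Q : WithOne S)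
    (e : (x : WithOne S) = P * y * Q) : b * om y = b := by
  have hx' : b * om x = b := by rw [hx, hb]
  induction P using WithOne.recOneCoe with
  | one =>
    rw [one_mul] at e
    induction Q using WithOne.recOneCoe with
    | one =>
      rw [mul_one, coe_inj] at e
      rw [← e]; exact hx'
    | coe q =>
      rw [← WithOne.coe_mul, coe_inj] at e
      rw [e] at hx'
      exact ((above_mul2 h hb y q).1 hx').1
  | coe p =>
    induction Q using WithOne.recOneCoe with
    | one =>
      rw [mul_one, ← WithOne.coe_mul, coe_inj] at e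
      rw [e] at hx'
      exact ((above_mul2 h hb p y).1 hx').2
    | coe q =>
      rw [← WithOne.coe_mul, ← WithOne.coe_mul, coe_inj] at e
      rw [e] at hx'
      exact ((above_mul2 h hb p y).1 ((above_mul2 h hb (p * y) q).1 hx').1).2

/-- a segment of length `above b + 1` of a shortest list has a product at the level of `b` -/
theorem d6_seg (h : Good2 S) {b : S} (hb : b * b = b)
    (A : Set S) (l : List S) (hl : ∀ a ∈ l, a ∈ A) {x : S} (hx : prd l = (x : WithOne S))
    (hxb : om x = b)
    (hmin : ∀ l' : List S, (∀ a ∈ l', a ∈ A) → prd l' = prd l → l.length ≤ l'.length)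
    (u w v : List S) (hlw : l = u ++ (w ++ v)) (hw : w.length = above b + 1) :
    ∃ y : S, prd w = (y : WithOne S) ∧ om y = b := by
  classical
  have hne : ∀ i : Fin (above b + 1), w.take (i + 1) ≠ [] := by
    intro i hi
    have := congrArg List.length hi
    rw [List.length_take, List.length_nil] at this
    omega
  choose p hp using fun i : Fin (above b + 1) => exists_prd (hne i)
  have hfac : ∀ i, b * om (p i) = b := by
    intro i
    refine d6_fac h hb hxb (prd u) (prd (w.drop (i + 1)) * prd v) ?_
    rw [← hx, hlw, ← hp i, prd_append, prd_append]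
    conv_lhs => rw [← List.take_append_drop (i + 1) w, prd_append]
    simp only [mul_assoc]
  have hinj : Function.Injective p := by
    have key : ∀ i j : Fin (above b + 1), i < j → p i ≠ p j := by
      intro i j hij hpp
      have hprd : prd (u ++ (w.take (i + 1) ++ w.drop (j + 1) ++ v)) = prd l := by
        rw [hlw, prd_append, prd_append, prd_append, hp i, hpp, ← hp j, prd_append u, prd_append w,
          ← prd_append (w.take (j + 1)), List.take_append_drop]
      have hlen := hmin _ (by
        intro c hc
        apply hl c
        rw [hlw]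
        simp only [List.mem_append] at hc ⊢
        rcases hc with hc | (hc | hc) | hc
        · exact Or.inl hc
        · exact Or.inr (Or.inl (List.mem_of_mem_take hc))
        · exact Or.inr (Or.inl (List.mem_of_mem_drop hc))
        · exact Or.inr (Or.inr hc)) hprd
      rw [hlw] at hlen
      simp only [List.length_append, List.length_take, List.length_drop] at hlen
      have hi := i.2
      have hj := j.2
      have hij' : (i : ℕ) < j := hij
      omega
    intro i j hpp
    rcases lt_trichotomy i j with h1 | h1 | h1
    · exact absurd hpp (key i j h1)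
    · exact h1
    · exact absurd hpp.symm (key j i h1)
  have hex : ∃ i, om (p i) = b := by
    by_contra hcon
    push Not at hcon
    have h1 := Nat.card_le_card_of_injective
      (fun i : Fin (above b + 1) => (⟨p i, hfac i, hcon i⟩ : {s : S // b * om s = b ∧ om s ≠ b}))
      (fun i j hij => hinj (congrArg Subtype.val hij))
    rw [Nat.card_eq_fintype_card, Fintype.card_fin] at h1
    have h2 : Nat.card {s : S // b * om s = b ∧ om s ≠ b} = above b := rfl
    omega
  obtain ⟨i, hi⟩ := hex
  have hsplit : prd w = (p i : WithOne S) * prd (w.drop (i + 1)) := by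
    conv_lhs => rw [← List.take_append_drop (i + 1) w, prd_append, hp i]
  by_cases hd : w.drop (i + 1) = []
  · refine ⟨p i, ?_, hi⟩
    rw [hsplit, hd, prd_nil, mul_one]
  · obtain ⟨q, hq⟩ := exists_prd hd
    refine ⟨p i * q, by rw [hsplit, hq, WithOne.coe_mul], ?_⟩
    have hqb : b * om q = b := by
      refine d6_fac h hb hxb (prd u * (p i : WithOne S)) (prd v) ?_
      rw [← hx, hlw, prd_append, prd_append, hsplit, hq]
      simp only [mul_assoc]
    rw [om_mul2 h, hi, hqb]

/-- cutting off segments -/
theorem d6_cut (h : Good2 S) {b : S} (hb : b * b = b)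
    (A : Set S) (l : List S) (hl : ∀ a ∈ l, a ∈ A) {x : S} (hx : prd l = (x : WithOne S))
    (hxb : om x = b)
    (hmin : ∀ l' : List S, (∀ a ∈ l', a ∈ A) → prd l' = prd l → l.length ≤ l'.length) (k : ℕ) :
    ∀ u l' : List S, l = u ++ l' → (above b + 1) * k ≤ l'.length →
      ∃ L r : List S, L.length = k ∧ (∀ y ∈ L, om y = b) ∧ prd l' = prd L * prd r ∧
        ∃ w, l' = w ++ r := by
  induction k with
  | zero =>
    intro u l' _ _
    exact ⟨[], l', rfl, fun y hy => absurd hy List.not_mem_nil, by rw [prd_nil, one_mul], [], rfl⟩
  | succ k ih =>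
    intro u l' hul hlen
    have hlen' : (above b + 1) * k + (above b + 1) ≤ l'.length := by
      rw [mul_add, mul_one] at hlen
      exact hlen
    have hw : (l'.take (above b + 1)).length = above b + 1 := by
      rw [List.length_take]
      omega
    have hsp : l' = l'.take (above b + 1) ++ l'.drop (above b + 1) :=
      (List.take_append_drop _ _).symm
    obtain ⟨y, hy, hyb⟩ := d6_seg h hb A l hl hx hxb hmin u (l'.take (above b + 1))
      (l'.drop (above b + 1)) (by rw [← hsp]; exact hul) hw
    obtain ⟨L, r, hL1, hL2, hL3, w, hw2⟩ := ih (u ++ l'.take (above b + 1))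
      (l'.drop (above b + 1)) (by rw [List.append_assoc, ← hsp]; exact hul)
      (by rw [List.length_drop]; omega)
    refine ⟨y :: L, r, by rw [List.length_cons, hL1], ?_, ?_, l'.take (above b + 1) ++ w, ?_⟩
    · intro z hz
      rcases List.mem_cons.1 hz with rfl | hz
      · exact hyb
      · exact hL2 z hz
    · conv_lhs => rw [hsp, prd_append, hy, hL3]
      rw [prd_cons, mul_assoc]
    · rw [List.append_assoc, ← hw2, ← hsp]

/-- PROOF: let `c = nEnd S`, `m = above b`, and suppose `l.length ≥ (m+1)(2c+1)`.  Cut off `2c + 1` segments of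
length `m + 1` at the beginning of `l`.  Each segment `w` has a product `y` with `om y = b`: the products `p_i` of
the first `i` elements of `w` (`i = 1..m+1`) are pairwise different: `p_i = p_j` with `i < j` would allow
to delete the elements `i+1..j` from `l`, against minimality.  They are above `b` (`above_mul2`, `b * om x = b`).  So
some `p_i` is at the level of `b` (only `m` elements above `b` are not), and then `om y = om (p_i) * om (rest)` is
`b`.  So `x = prd (y_1, ..., y_{2c+1}) * r`, and `prd (y_1, ..., y_{2c+1}) ≠ b` (otherwise `x = b r = b`, `mul_b`).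
By `nul_count` for `A = {s : om s = b}` (`mul_b`): `2c + 1 ≤ 2 * #{z : om z = b, z z = b, z ≠ b} ≤ 2 c`
(`card_nul2_le`), contradiction. -/
theorem short_indec (h : Good2 S) {b g : S} (hb : b * b = b) (hg : b * om g = b) (hi : Indec g)
    (A : Set S) (l : List S) (hl : ∀ a ∈ l, a ∈ A) {x : S} (hx : prd l = (x : WithOne S))
    (hxb : om x = b) (hxn : x ≠ b)
    (hmin : ∀ l' : List S, (∀ a ∈ l', a ∈ A) → prd l' = prd l → l.length ≤ l'.length) :
    l.length ≤ (above b + 1) * (2 * nEnd S + 1) := by
  classical
  by_contra hcon
  push Not at hcon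
  obtain ⟨L, r, hL1, hL2, hL3, w, hw⟩ := d6_cut h hb A l hl hx hxb hmin (2 * nEnd S + 1) [] l
    (by rw [List.nil_append]) hcon.le
  have hLne : L ≠ [] := by
    intro h0
    rw [h0, List.length_nil] at hL1
    omega
  obtain ⟨z, hz⟩ := exists_prd hLne
  have hzx : (x : WithOne S) = (z : WithOne S) * prd r := by rw [← hx, hL3, hz]
  have hzb : z ≠ b := by
    intro h0
    apply hxn
    by_cases hr : r = []
    · rw [hr, prd_nil, mul_one, coe_inj] at hzx
      rw [hzx, h0]
    · obtain ⟨t, ht⟩ := exists_prd hr
      rw [ht, ← WithOne.coe_mul, coe_inj] at hzx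
      have htb : b * om t = b := by
        refine d6_fac h hb hxb (z : WithOne S) 1 ?_
        rw [mul_one, ← WithOne.coe_mul, coe_inj]
        exact hzx
      rw [hzx, h0, (mul_b h hb htb).2]
  have hA1 : ∀ s ∈ {s : S | om s = b}, ∀ t ∈ {s : S | om s = b}, s * t ∈ {s : S | om s = b} := by
    intro s hs t ht
    change om s = b at hs
    change om t = b at ht
    change om (s * t) = b
    rw [om_mul2 h, hs, ht, hb]
  have hA2 : ∀ s ∈ {s : S | om s = b}, s * b = b ∧ b * s = b ∧ om s = b := by
    intro s hs
    change om s = b at hs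
    have h1 := mul_b h hb (s := s) (by rw [hs, hb])
    exact ⟨h1.1, h1.2, hs⟩
  have hn := nul_count {s : S | om s = b} hA1 hA2 L hL2 hz hzb
  have hle : Nat.card {z : S // z ∈ {s : S | om s = b} ∧ z * z = b ∧ z ≠ b} ≤ nEnd S := by
    refine le_trans ?_ (card_nul2_le h hb hg hi)
    exact Nat.card_le_card_of_injective
      (fun z : {z : S // z ∈ {s : S | om s = b} ∧ z * z = b ∧ z ≠ b} =>
        (⟨z.1, z.2.2.1⟩ : {z : S // z * z = b}))
      (fun z z' hzz => by
        have h1 := Subtype.ext_iff.1 hzz
        exact Subtype.ext h1)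
  omega

end EVS
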