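import Pool.Agent.EVS.D4
import Pool.Agent.EVS.D6
import Pool.Agent.EVS.Glob

/-!
# [EV-D7] the size of a level, and of the semigroup
-/

set_option autoImplicit false

namespace EVS

variable {S : Type} [Semigroup S] [Finite S]

/-- PROOF: letters are elements with `b * om a = b`, `om a ≠ b`, or elements with `om a = b`, `a ≠ b`, `Irr a`;
`card_irr_le`. -/
theorem card_letters_le (h : Good2 S) {b : S} (hb : b * b = b) :
    Nat.card {a : S // Ltr b a} ≤ above b + nEnd S * (nEnd S + 1) ^ 2 := by
  classical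
  have h1 := card_irr_le h hb
  have h2 : Nat.card {a : S // Ltr b a} ≤
      Nat.card ({s : S // b * om s = b ∧ om s ≠ b} ⊕ {x : S // om x = b ∧ x ≠ b ∧ Irr x}) := by
    refine Nat.card_le_card_of_injective
      (fun a : {a : S // Ltr b a} => if ha : om a.1 = b then
        (Sum.inr ⟨a.1, ha, a.2.2.1 ha⟩ :
          {s : S // b * om s = b ∧ om s ≠ b} ⊕ {x : S // om x = b ∧ x ≠ b ∧ Irr x})
        else Sum.inl ⟨a.1, a.2.1, ha⟩) ?_
    intro a a' haa
    by_cases ha : om a.1 = b
    · by_cases ha' : om a'.1 = b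
      · simp only [ha, ha', dite_true, Sum.inr.injEq, Subtype.mk.injEq] at haa
        exact Subtype.ext haa
      · simp only [ha, ha', dite_true, dite_false, reduceCtorEq] at haa
    · by_cases ha' : om a'.1 = b
      · simp only [ha, ha', dite_true, dite_false, reduceCtorEq] at haa
      · simp only [ha, ha', dite_false, Sum.inl.injEq, Subtype.mk.injEq] at haa
        exact Subtype.ext haa
  rw [Nat.card_sum] at h2
  have h3 : Nat.card {s : S // b * om s = b ∧ om s ≠ b} = above b := rfl
  omega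

/-- PROOF: let `q` be the number of letters, `c = nEnd S`, `m = above b`.  Every `x ≠ b` with `om x = b` is the
product of a list of letters (`gen_letters`); take a shortest one.  If there is an indecomposable `g` above `b`,
its length is at most `(m+1)(2c+1)` (`short_indec`), otherwise at most `2 q` (`short_fixed`, `fixed_of_letter`).
So by `card_prd_le` there are at most `(q+1)^(2q + (m+1)(2c+1))` such `x`; use `card_letters_le` and monotonicity
(`Psi2` has `m + c (c+1)^2 + 1` in place of `q`). -/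
theorem level2 (h : Good2 S) {b : S} (hb : b * b = b) :
    Nat.card {s : S // om s = b} ≤ Psi2 (above b) (nEnd S) := by
  classical
  have hq := card_letters_le h hb
  obtain ⟨q, hqe⟩ : ∃ q, q = Nat.card {a : S // Ltr b a} := ⟨_, rfl⟩
  rw [← hqe] at hq
  obtain ⟨M, hM⟩ : ∃ M, M = 2 * q + (above b + 1) * (2 * nEnd S + 1) := ⟨_, rfl⟩
  -- every element is a short product
  have hshort : ∀ x : S, om x = b → x ≠ b → ∃ l : List S, l.length ≤ M ∧
      (∀ a ∈ l, a ∈ {a : S | Ltr b a}) ∧ prd l = (x : WithOne S) := by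
    intro x hxb hxn
    obtain ⟨l0, hl0, hl0'⟩ := gen_letters h hb (x := x) (by rw [hxb, hb]) hxn
    -- a shortest list
    have hex : ∃ n : ℕ, ∃ l : List S, l.length = n ∧ prd l = (x : WithOne S) ∧ ∀ a ∈ l, Ltr b a :=
      ⟨_, l0, rfl, hl0, hl0'⟩
    obtain ⟨l, hln, hlx, hll⟩ := Nat.find_spec hex
    have hmin : ∀ l' : List S, (∀ a ∈ l', a ∈ {a : S | Ltr b a}) → prd l' = prd l →
        l.length ≤ l'.length := by
      intro l' h1 h2
      rw [hln]
      exact Nat.find_min' hex ⟨l', rfl, by rw [h2, hlx], h1⟩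
    refine ⟨l, ?_, hll, hlx⟩
    by_cases hg : ∃ g : S, b * om g = b ∧ Indec g
    · obtain ⟨g, hg1, hg2⟩ := hg
      have h3 := short_indec h hb hg1 hg2 {a : S | Ltr b a} l hll hlx hxb hxn hmin
      omega
    · push Not at hg
      have h3 := short_fixed h {a : S | Ltr b a}
        (fun a ha => fixed_of_letter ha hg) l hll hmin
      have h4 : Nat.card {a : S | Ltr b a} = q := by rw [hqe]; rfl
      rw [h4] at h3
      omega
  have hcard := card_prd_le {a : S | Ltr b a} M
  have h4 : Nat.card {a : S | Ltr b a} = q := by rw [hqe]; rfl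
  rw [h4] at hcard
  have hle : Nat.card {s : S // om s = b} ≤ Nat.card (Unit ⊕ {x : S // ∃ l : List S, l.length ≤ M ∧
      (∀ a ∈ l, a ∈ {a : S | Ltr b a}) ∧ prd l = (x : WithOne S)}) := by
    refine Nat.card_le_card_of_injective
      (fun s : {s : S // om s = b} => if hs : s.1 = b then
        (Sum.inl () : Unit ⊕ {x : S // ∃ l : List S, l.length ≤ M ∧
      (∀ a ∈ l, a ∈ {a : S | Ltr b a}) ∧ prd l = (x : WithOne S)})
        else Sum.inr ⟨s.1, hshort s.1 s.2 hs⟩) ?_
    intro a a' haa
    by_cases ha : a.1 = b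
    · by_cases ha' : a'.1 = b
      · exact Subtype.ext (by rw [ha, ha'])
      · simp only [ha, ha', dite_true, dite_false, reduceCtorEq] at haa
    · by_cases ha' : a'.1 = b
      · simp only [ha, ha', dite_true, dite_false, reduceCtorEq] at haa
      · simp only [ha, ha', dite_false, Sum.inr.injEq, Subtype.mk.injEq] at haa
        exact Subtype.ext haa
  rw [Nat.card_sum] at hle
  have hu : Nat.card Unit = 1 := by simp
  rw [hu] at hle
  refine hle.trans ?_
  unfold Psi2
  have h5 : (q + 1) ^ M ≤ (above b + nEnd S * (nEnd S + 1) ^ 2 + 1 + 1) ^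
      (2 * (above b + nEnd S * (nEnd S + 1) ^ 2 + 1) + (above b + 1) * (2 * nEnd S + 1)) := by
    refine (Nat.pow_le_pow_left (by omega) M).trans (Nat.pow_le_pow_right (by omega) ?_)
    rw [hM]
    omega
  omega

theorem Psi2_mono (c : ℕ) : Monotone fun m => Psi2 m c := by
  intro m m' hm
  show Psi2 m c ≤ Psi2 m' c
  unfold Psi2
  have h1 : (m + 1) * (2 * c + 1) ≤ (m' + 1) * (2 * c + 1) := Nat.mul_le_mul_right _ (by omega)
  have h2 : (m + c * (c + 1) ^ 2 + 1 + 1) ^
      (2 * (m + c * (c + 1) ^ 2 + 1) + (m + 1) * (2 * c + 1)) ≤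
      (m' + c * (c + 1) ^ 2 + 1 + 1) ^
      (2 * (m' + c * (c + 1) ^ 2 + 1) + (m' + 1) * (2 * c + 1)) :=
    (Nat.pow_le_pow_left (by omega) _).trans (Nat.pow_le_pow_right (by omega) (by omega))
  omega

/-- PROOF: let `n` be larger than `G (fun m => Psi2 m c) c` for all `c ≤ B`.  If `S` satisfies the hypothesis and
`c = nEnd S ≤ B`, then `|S| ≤ G (fun m => Psi2 m c) c < n` by `glob` (`card_idem_le`, `level2`). -/
theorem suff2 (B : ℕ) : ∃ n : ℕ, ∀ (S : Type) [Semigroup S] [Finite S], Good2 S →
    n ≤ Nat.card S → B < nEnd S := by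
  refine ⟨(∑ c ∈ Finset.range (B + 1), G (fun m => Psi2 m c) c) + 1, ?_⟩
  intro S _ _ h hn
  by_contra hcon
  push Not at hcon
  have h1 := glob (fun e f he hf => comm_idem h he hf) (Psi2_mono (nEnd S)) card_idem_le
    (fun b hb => level2 h hb)
  have h2 : G (fun m => Psi2 m (nEnd S)) (nEnd S) ≤
      ∑ c ∈ Finset.range (B + 1), G (fun m => Psi2 m c) c :=
    Finset.single_le_sum (f := fun c => G (fun m => Psi2 m c) c) (fun _ _ => Nat.zero_le _)
      (Finset.mem_range.2 (by omega))
  omega

end EVS
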