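import Pool.Agent.EVS.E0

/-!
# [EV-E5] moving a source to a null element, noncommutative case
-/

set_option autoImplicit false

namespace EVS

variable {S : Type} [Semigroup S] [Finite S]

/-- PROOF.  As `moveZ` in C5.lean (team-store EV_C5.lean), with two-sided orbits.  Notation:
`U = {s : UU e s}`, `R = {s : Orb2 e a s}`, `y` with `IsZ y`.
Base endomorphism `ρ`: `ρ s = e` if `s ∈ U` (only for `e = some e'`, then `ρ s = e'`); `b` if `b * om s = b` and
`s ∉ U`; `y` otherwise.  It is multiplicative by `UU_mul`, `above_mul`, `e b = b = b e`, `y e = y = y b`.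
(Or use `base` with `F = {e, b, y}`.)
Apply `moveGen` with `ρ`, `κ s = z`, `R`, `UL = UR = U`.  h1: `orb2_mul`, h2: `orb2_not_unit`.
h3, h4: `z e = e z = z`.  `R` is above `b` (`orb2_above`), so `ρ s = b` for `s ∈ R`.
h5, h6: `z b = b = b z` (`b` is central), `z y = z b y = b y = y`.  h7: `z z = b = b b`. -/
theorem moveZ2 (hc : CentralIdem S) {b : S} {e : Option S} (hb : b * b = b) (he : OkE b e) {a : S}
    (ha : Src2 b e a) {z : S} (hz : act e z = z) (hzz : z * z = b) (hzb : z * b = b) :
    ∃ ψ : S →ₙ* S, ψ a = z := by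
  have hci : CentralIdem S := hc
  have hne : Nonempty S := ⟨b⟩
  obtain ⟨y, hy, hymin⟩ := exists_isZ (S := S) hci
  have hyb : y * b = y := hymin b hb
  have hby : b * y = y := by rw [← hci y b hy, hyb]
  -- the set of idempotents
  let F : Set S := {p | p = b ∨ p = y ∨ e = some p}
  have hFidem : ∀ p ∈ F, p * p = p := by
    rintro p (rfl | rfl | h)
    · exact hb
    · exact hy
    · exact (he p h).1
  have hFb : ∀ p ∈ F, p * b = b ∨ p = y := by
    rintro p (rfl | rfl | h)
    · exact Or.inl hb
    · exact Or.inr rfl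
    · exact Or.inl (he p h).2
  -- `p q` for `p q ∈ F`
  have hFchain : ∀ p ∈ F, ∀ q ∈ F, p * q = q ∨ p * q = p := by
    intro p hp q hq
    rcases hp with rfl | rfl | h
    · rcases hq with rfl | rfl | h'
      · exact Or.inl hb
      · exact Or.inl hby
      · right
        rw [← hci q p (he q h').1, (he q h').2]
    · right
      exact hymin q (hFidem q hq)
    · rcases hq with rfl | rfl | h'
      · exact Or.inl (he p h).2
      · left
        rw [hci p q (he p h).1, hymin p (he p h).1]
      · left
        have : p = q := Option.some.inj (h.symm.trans h')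
        rw [this, (he q h').1]
  have hFmul : ∀ p ∈ F, ∀ q ∈ F, p * q ∈ F := by
    intro p hp q hq
    rcases hFchain p hp q hq with h | h
    · rw [h]; exact hq
    · rw [h]; exact hp
  have hFr : ∀ k : S, k * k = k → ∃ p ∈ F, k * p = p ∧ ∀ q ∈ F, k * q = q → p * q = q := by
    intro k hk
    by_cases h1 : ∃ e', e = some e' ∧ k * e' = e'
    · obtain ⟨e', he', hke⟩ := h1
      refine ⟨e', Or.inr (Or.inr he'), hke, ?_⟩
      rintro q (rfl | rfl | h') _
      · exact (he e' he').2
      · rw [hci e' q (he e' he').1, hymin e' (he e' he').1]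
      · have : e' = q := Option.some.inj (he'.symm.trans h')
        rw [← this, (he e' he').1]
    · by_cases h2 : k * b = b
      · refine ⟨b, Or.inl rfl, h2, ?_⟩
        rintro q (rfl | rfl | h') hq
        · exact hb
        · exact hby
        · exact absurd ⟨q, h', hq⟩ h1
      · refine ⟨y, Or.inr (Or.inl rfl), ?_, ?_⟩
        · rw [hci k y hk, hymin k hk]
        · rintro q (rfl | rfl | h') hq
          · exact absurd hq h2
          · exact hy
          · exact absurd ⟨q, h', hq⟩ h1
  obtain ⟨ρ, hρ⟩ := base (S := S) (fun p q hp _ => hci p q hp) (om_mul hci) F hFidem hFmul hFr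
  -- values of `ρ`
  have hU : ∀ t, UU e t → ∃ e', e = some e' ∧ ρ t = e' := by
    intro t ht
    cases e with
    | none => exact ht.elim
    | some e' =>
      refine ⟨e', rfl, ?_⟩
      have ht' : e' * om t = e' := ht
      obtain ⟨r1, r2, r3⟩ := hρ t
      have he' := (he e' rfl).1
      have h4 : ρ t * e' = e' := r3 e' (Or.inr (Or.inr rfl)) (by rw [← hci e' _ he', ht'])
      have h5 : e' * ρ t = ρ t := by
        rcases r1 with h | h | h
        · rw [h, (he e' rfl).2]
        · rw [h, hci e' y he', hymin e' he']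
        · have : e' = ρ t := Option.some.inj h
          rw [← this, he']
      rw [← h5, hci e' _ he', h4]
  have hnU : ∀ t, ¬ UU e t → ρ t = b ∨ ρ t = y := by
    intro t ht
    obtain ⟨r1, r2, r3⟩ := hρ t
    rcases r1 with h | h | h
    · exact Or.inl h
    · exact Or.inr h
    · exfalso
      apply ht
      rw [h]
      show ρ t * om t = ρ t
      rw [hci (ρ t) _ (he _ h).1, r2]
  have hR : ∀ s, Orb2 e a s → ρ s = b := by
    intro s hs
    have h1 := orb2_above hc hb he ha hs
    obtain ⟨r1, r2, r3⟩ := hρ s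
    have h2 : ρ s * b = b := r3 b (Or.inl rfl) (by rw [← hci b _ hb, h1])
    rcases hnU s (orb2_not_unit hc he ha hs) with h | h
    · exact h
    · rw [h] at h2 ⊢
      rw [← h2, hyb]
  have hbz : b * z = b := by rw [hci b z hb, hzb]
  have hzy : z * y = b * y := by
    have h : z * (b * y) = b * y := by rw [← mul_assoc, hzb]
    rwa [hby] at h ⊢
  have hyz : y * z = y * b := by
    rw [hci y z hy, hzy, ← hci y b hy]
  obtain ⟨ψ, hψ, _⟩ := moveGen ρ (fun _ => z) {s | Orb2 e a s} {s | UU e s} {s | UU e s}
    (orb2_mul hc he ha)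
    (fun s hs => ⟨orb2_not_unit hc he ha hs, orb2_not_unit hc he ha hs⟩)
    (by
      intro s _ t ht
      obtain ⟨e', he', hρt⟩ := hU t ht
      subst he'
      show z = z * ρ t
      rw [hρt, ← hci e' z (he e' rfl).1]
      exact hz.symm)
    (by
      intro s hs t _
      obtain ⟨e', he', hρt⟩ := hU s hs
      subst he'
      show z = ρ s * z
      rw [hρt]
      exact hz.symm)
    (by
      intro s hs t ht
      show z * ρ t = ρ s * ρ t
      rw [hR s hs]
      rcases hnU t ht with h | h
      · rw [h, hzb, hb]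
      · rw [h, hzy])
    (by
      intro s hs t ht
      show ρ s * z = ρ s * ρ t
      rw [hR t ht]
      rcases hnU s hs with h | h
      · rw [h, hbz, hb]
      · rw [h, hyz])
    (by
      intro s hs t ht
      show z * z = ρ s * ρ t
      rw [hR s hs, hR t ht, hzz, hb])
  refine ⟨ψ, ?_⟩
  refine hψ a ?_
  exact orb2_self hc he ha

/-- PROOF: `moveZ2` and `card_le_nEnd` (`R z ψ := ψ a = z`). -/
theorem card_nul_le2 (hc : CentralIdem S) {b : S} {e : Option S} (hb : b * b = b) (he : OkE b e)
    (ha : ∃ a : S, Src2 b e a) :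
    Nat.card {z : S // act e z = z ∧ z * z = b ∧ z * b = b} ≤ nEnd S := by
  obtain ⟨a, ha⟩ := ha
  refine card_le_nEnd (fun z ψ => ψ a = z.1) ?_ ?_
  · rintro ⟨z, h1, h2, h3⟩
    exact moveZ2 hc hb he ha h1 h2 h3
  · intro z z' ψ h h'
    exact Subtype.ext (h.symm.trans h')

end EVS
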