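import Pool.Agent.EVS.E0
import Pool.Agent.EVS.C9

/-!
# [EV-E9] factorization into sources, noncommutative case
-/

set_option autoImplicit false

namespace EVS

variable {S : Type} [Semigroup S] [Finite S]

/-- In a factorization of `x` of type `e` into non-units no two different prefixes of a segment have the same
product. -/
theorem seg_ne2 (hci : CentralIdem S) {e : Option S} (he : ∀ e', e = some e' → e' * e' = e') {x : S}
    (ht : IsTyp e x) (p r : WithOne S) (w1 w2 w3 : List S) (hw : ∀ a ∈ w1 ++ w2 ++ w3, ¬ UU e a)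
    (h1 : w1 ≠ []) (h2 : w2 ≠ []) (hx : p * prd (w1 ++ w2 ++ w3) * r = (x : WithOne S)) :
    prd w1 ≠ prd (w1 ++ w2) := by
  intro heq
  obtain ⟨P, hP⟩ := exists_prd h1
  obtain ⟨Q, hQ⟩ := exists_prd h2
  have h3 : P * Q = P := by
    rw [prd_append, hP, hQ, ← WithOne.coe_mul, WithOne.coe_inj] at heq
    exact heq.symm
  have h4 : ∀ n, P * pw Q n = P := by
    intro n
    induction n with
    | zero => exact h3
    | succ n ih => rw [pw_succ, ← mul_assoc, ih, h3]
  have h5 : P * om Q = P := by
    obtain ⟨n, hn⟩ := om_eq_pw Q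
    rw [hn]
    exact h4 n
  have h6 : om Q * x = x := by
    rw [← WithOne.coe_inj, WithOne.coe_mul, ← hx, prd_append, prd_append, hP, ← mul_assoc, ← mul_assoc, ← mul_assoc,
      ← mul_assoc, ← mul_assoc, c9_cent hci (om_idem Q) p, mul_assoc p, ← WithOne.coe_mul,
      hci (om Q) P (om_idem Q), h5]
    simp only [mul_assoc]
  have h7 := c9_UU_om (ht.2 (om Q) (om_idem Q) h6)
  obtain ⟨a, ha, hU⟩ := c9_UU_prd hci he h2 hQ h7
  exact hw a (List.mem_append_left _ (List.mem_append_right _ ha)) hU

/-- the products of the prefixes are different -/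
theorem e9_take (hci : CentralIdem S) {e : Option S} (he : ∀ e', e = some e' → e' * e' = e') {x : S}
    (ht : IsTyp e x) (p r : WithOne S) (w : List S) (hw : ∀ a ∈ w, ¬ UU e a)
    (hx : p * prd w * r = (x : WithOne S)) {i j : ℕ} (hi : 0 < i) (hij : i < j) (hj : j ≤ w.length) :
    prd (w.take i) ≠ prd (w.take j) := by
  have e1 : w.take i ++ (w.drop i).take (j - i) = w.take j := by
    have h1 : j = i + (j - i) := by omega
    conv_rhs => rw [h1, List.take_add]
  have e2 : w.take i ++ (w.drop i).take (j - i) ++ w.drop j = w := by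
    rw [e1, List.take_append_drop]
  have h1 : w.take i ≠ [] := by
    rw [← List.length_pos_iff, List.length_take]
    omega
  have h2 : (w.drop i).take (j - i) ≠ [] := by
    rw [← List.length_pos_iff, List.length_take, List.length_drop]
    omega
  have h3 := seg_ne2 hci he ht p r (w.take i) ((w.drop i).take (j - i)) (w.drop j)
    (by rw [e2]; exact hw) h1 h2 (by rw [e2]; exact hx)
  rwa [e1] at h3

/-- Consequence: a segment of length at least `above b + 1` has its product in the level of `b`. -/
theorem seg_level2 (hci : CentralIdem S) {b : S} {e : Option S} (he : ∀ e', e = some e' → e' * e' = e')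
    {x : S} (hxb : om x = b) (ht : IsTyp e x) (p r : WithOne S) (w : List S)
    (hw : ∀ a ∈ w, ¬ UU e a) (hlen : above b + 1 ≤ w.length)
    (hx : p * prd w * r = (x : WithOne S)) : ∃ y : S, prd w = (y : WithOne S) ∧ om y = b := by
  classical
  have hb : b * b = b := by rw [← hxb]; exact om_idem x
  have hbx : b * om x = b := by rw [hxb, hb]
  have hval : ∀ i : Fin (above b + 1), ∃ s : S, prd (w.take (i + 1)) = (s : WithOne S) := by
    intro i
    apply exists_prd
    rw [← List.length_pos_iff, List.length_take]
    omega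
  choose P hP using hval
  have hsplit : ∀ i : Fin (above b + 1), p * (P i : WithOne S) * (prd (w.drop (i + 1)) * r) = (x : WithOne S) := by
    intro i
    rw [← hx, ← hP i]
    conv_rhs => rw [← List.take_append_drop (i + 1) w, prd_append]
    simp only [mul_assoc]
  have habove : ∀ i, b * om (P i) = b := fun i => c9_above hci hb hbx p _ (hsplit i)
  have hinj : Function.Injective P := by
    intro i j hij
    by_contra hne
    rcases lt_or_gt_of_ne hne with h | h
    · exact e9_take hci he ht p r w hw hx (Nat.succ_pos i) (Nat.succ_lt_succ (Fin.lt_def.1 h)) (by omega)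
        (by rw [hP i, hP j, hij])
    · exact e9_take hci he ht p r w hw hx (Nat.succ_pos j) (Nat.succ_lt_succ (Fin.lt_def.1 h)) (by omega)
        (by rw [hP i, hP j, hij])
  obtain ⟨i, hi⟩ : ∃ i, om (P i) = b := by
    by_contra hno
    push Not at hno
    have h1 := Nat.card_le_card_of_injective
      (fun i => (⟨P i, habove i, hno i⟩ : {s : S // b * om s = b ∧ om s ≠ b}))
      (fun i j hij => hinj (congrArg Subtype.val hij))
    rw [Nat.card_fin] at h1
    unfold above at h1
    omega
  have hw2 : prd w = (P i : WithOne S) * prd (w.drop (i + 1)) := by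
    rw [← hP i, ← prd_append, List.take_append_drop]
  by_cases hd : w.drop (i + 1) = []
  · refine ⟨P i, ?_, hi⟩
    rw [hw2, hd, prd_nil, mul_one]
  · obtain ⟨q, hq⟩ := exists_prd hd
    refine ⟨P i * q, ?_, ?_⟩
    · rw [hw2, hq, WithOne.coe_mul]
    · rw [om_mul hci, hi]
      apply c9_above hci hb hbx (p * (P i : WithOne S)) r
      rw [← hq, ← hsplit i]
      simp only [mul_assoc]

/-- factorization into sources -/
theorem fac2 (hci : CentralIdem S) {b : S} {e : Option S} (hb : b * b = b) (he : OkE b e) {x : S}
    (hxb : om x = b) (hxn : b * x ≠ x) (ht : IsTyp e x) :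
    ∃ l : List S, prd l = (x : WithOne S) ∧ l ≠ [] ∧ ∀ a ∈ l, Src2 b e a := by
  classical
  have he' : ∀ e', e = some e' → e' * e' = e' := fun e' h => (he e' h).1
  have hbx : b * om x = b := by rw [hxb, hb]
  have hbound : ∀ l : List S, prd l = (x : WithOne S) → (∀ a ∈ l, ¬ UU e a) → l.length ≤ Nat.card S := by
    intro l hl hU
    have hval : ∀ i : Fin l.length, ∃ s : S, prd (l.take (i + 1)) = (s : WithOne S) := by
      intro i
      apply exists_prd
      rw [← List.length_pos_iff, List.length_take]
      omega
    choose P hP using hval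
    have hx1 : (1 : WithOne S) * prd l * 1 = (x : WithOne S) := by rw [one_mul, mul_one, hl]
    have hinj : Function.Injective P := by
      intro i j hij
      by_contra hne
      rcases lt_or_gt_of_ne hne with h | h
      · exact e9_take hci he' ht 1 1 l hU hx1 (Nat.succ_pos i) (Nat.succ_lt_succ (Fin.lt_def.1 h)) (by omega)
          (by rw [hP i, hP j, hij])
      · exact e9_take hci he' ht 1 1 l hU hx1 (Nat.succ_pos j) (Nat.succ_lt_succ (Fin.lt_def.1 h)) (by omega)
          (by rw [hP i, hP j, hij])
    have := Nat.card_le_card_of_injective P hinj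
    rwa [Nat.card_fin] at this
  let G : List S → Prop := fun l => prd l = (x : WithOne S) ∧ ∀ a ∈ l, act e a = a ∧ ¬ UU e a
  have hG0 : G [x] := by
    refine ⟨prd_singleton x, ?_⟩
    intro a ha
    rw [List.mem_singleton] at ha
    subst ha
    refine ⟨ht.1, ?_⟩
    intro hU
    cases e with
    | none => exact hU
    | some e' =>
      have h1 : e' * om a = e' := hU
      rw [hxb, (he e' rfl).2] at h1
      have h2 : e' * a = a := ht.1
      rw [← h1] at h2
      exact hxn h2
  obtain ⟨l, hl, hmax⟩ : ∃ l, G l ∧ ∀ l', G l' → l'.length ≤ l.length := by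
    by_contra hno
    push Not at hno
    have hall : ∀ n, ∃ l, G l ∧ n ≤ l.length := by
      intro n
      induction n with
      | zero => exact ⟨[x], hG0, Nat.zero_le _⟩
      | succ n ih =>
        obtain ⟨l, hl, hn⟩ := ih
        obtain ⟨l', hl', hn'⟩ := hno l hl
        exact ⟨l', hl', by omega⟩
    obtain ⟨l, hl, hn⟩ := hall (Nat.card S + 1)
    have := hbound l hl.1 (fun a ha => (hl.2 a ha).2)
    omega
  refine ⟨l, hl.1, ne_nil_of_prd hl.1, ?_⟩
  intro a ha
  obtain ⟨l1, l2, rfl⟩ := List.append_of_mem ha
  have hxl : prd l1 * (a : WithOne S) * prd l2 = (x : WithOne S) := by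
    rw [← hl.1, prd_append, prd_cons, mul_assoc]
  refine ⟨c9_above hci hb hbx _ _ hxl, (hl.2 a ha).2, (hl.2 a ha).1, ?_⟩
  -- a longer list
  have key : ∀ s t : S, s * t = a → act e s = s → act e t = t → ¬ UU e s → ¬ UU e t → False := by
    intro s t hst h1 h2 h3 h4
    have hG : G (l1 ++ s :: t :: l2) := by
      refine ⟨?_, ?_⟩
      · rw [← hxl, prd_append, prd_cons, prd_cons, ← mul_assoc (s : WithOne S), ← WithOne.coe_mul, hst, mul_assoc]
      · intro c hcm
        rw [List.mem_append, List.mem_cons, List.mem_cons] at hcm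
        rcases hcm with hcm | rfl | rfl | hcm
        · exact hl.2 c (List.mem_append_left _ hcm)
        · exact ⟨h1, h3⟩
        · exact ⟨h2, h4⟩
        · exact hl.2 c (List.mem_append_right _ (List.mem_cons_of_mem _ hcm))
    have := hmax _ hG
    simp only [List.length_append, List.length_cons] at this
    omega
  intro s t hst
  by_contra hno
  push Not at hno
  obtain ⟨hs, htt⟩ := hno
  cases e with
  | none =>
    have hst' : s * t = a := hst
    exact key s t hst' rfl rfl hs htt
  | some e' =>
    obtain ⟨g, h, hg1, hg2, hh1, hh2, hg3⟩ := hst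
    have hee := (he e' rfl).1
    have haa : e' * a = a := (hl.2 a ha).1
    obtain ⟨g', hg'1, hg'2, _, hg'4⟩ := gh_inv hg1 hg2
    obtain ⟨h', hh'1, hh'2, hh'3, _⟩ := gh_inv hh1 hh2
    have hg'5 : e' * g' = g' := by rw [hci e' _ hee, hg'2]
    have hh'5 : e' * h' = h' := by rw [hci e' _ hee, hh'2]
    apply key (g' * s) (t * h')
    · have e1 : g' * s * (t * h') = g' * (e' * (s * t)) * h' := by
        rw [← mul_assoc g' e', hg'2]
        simp only [mul_assoc]
      rw [e1, hg3]
      have e2 : g' * (g * a * h) * h' = (g' * g) * a * (h * h') := by simp only [mul_assoc]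
      rw [e2, hg'4, hh'3, haa, ← hci e' a hee, haa]
    · change e' * (g' * s) = g' * s
      rw [← mul_assoc, hg'5]
    · change e' * (t * h') = t * h'
      rw [← mul_assoc, hci e' t hee, mul_assoc, hh'5]
    · intro hU
      exact hs ((UU_mul hci he' _ _).1 hU).2
    · intro hU
      exact htt ((UU_mul hci he' _ _).1 hU).1

end EVS
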