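import Pool.Agent.EVS.C10
import Pool.Agent.EVS.E5
import Pool.Agent.EVS.E9

/-!
# [EV-E10] the length of a factorization into non-units, noncommutative case
-/

set_option autoImplicit false

namespace EVS

variable {S : Type} [Semigroup S] [Finite S]

theorem e10_blocks_aux (hci : CentralIdem S) {b : S} {e : Option S} (hb : b * b = b) (he : OkE b e)
    (l : List S) (hl : ∀ a ∈ l, om a = b ∧ act e a = a) (γ : S) (hγ : om γ = b) (k : ℕ) :
    ∀ (s : Finset ℕ) (_ : s.card = k + 1),
      (∀ i ∈ s, i ≤ l.length ∧ (b : WithOne S) * prd (l.take i) = (γ : WithOne S)) →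
      ∃ w : List S, w.length = k ∧ (∀ a ∈ w, om a = b ∧ act e a = a ∧ a * b = b) ∧
        ∃ p : WithOne S, ∃ M ∈ s, (∀ i ∈ s, i ≤ M) ∧ prd (l.take M) = p * prd w := by
  have heo : ∀ e', e = some e' → e' * e' = e' := fun e' h => (he e' h).1
  induction k with
  | zero =>
    intro s hs hs2
    obtain ⟨M, hM⟩ := Finset.card_eq_one.1 hs
    refine ⟨[], rfl, by simp, prd (l.take M), M, by simp [hM], ?_, by rw [prd_nil, mul_one]⟩
    intro i hi
    rw [hM, Finset.mem_singleton] at hi
    exact hi.le
  | succ k ih =>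
    intro s hs hs2
    have hne : s.Nonempty := by
      rw [← Finset.card_pos]
      omega
    have hMs := s.max'_mem hne
    have hMmax : ∀ i ∈ s, i ≤ s.max' hne := fun i hi => s.le_max' i hi
    generalize s.max' hne = M at hMs hMmax
    obtain ⟨w, hw1, hw2, p, M', hM's, hM'max, hM'⟩ := ih (s.erase M)
      (by rw [Finset.card_erase_of_mem hMs, hs]; rfl)
      (fun i hi => hs2 i (Finset.mem_of_mem_erase hi))
    have hlt : M' < M := lt_of_le_of_ne (hMmax M' (Finset.mem_of_mem_erase hM's))
      (Finset.ne_of_mem_erase hM's)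
    have hMl := (hs2 M hMs).1
    have hseg : (l.take M).drop M' ≠ [] := by
      intro h
      have h1 := congrArg List.length h
      rw [List.length_drop, List.length_take, List.length_nil] at h1
      omega
    obtain ⟨y, hy⟩ := exists_prd hseg
    have hyA : y ∈ {s : S | om s = b ∧ act e s = s} := by
      refine c10_closed _ ?_ _ ?_ hy
      · rintro s ⟨h1, h2⟩ t ⟨h3, h4⟩
        refine ⟨by rw [om_mul hci, h1, h3, hb], ?_⟩
        rw [(act_mul hci heo s t).1, h2, h4]
      · intro a ha
        exact hl a (List.mem_of_mem_take (List.mem_of_mem_drop ha))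
    have hyb : y * b = b := by
      have h1 := (hs2 M hMs).2
      rw [c10_take_drop l M' M hlt.le, hy, ← mul_assoc, (hs2 M' (Finset.mem_of_mem_erase hM's)).2,
        ← WithOne.coe_mul, coe_inj] at h1
      obtain ⟨h, hh⟩ := c10_inv hγ
      rw [← hci b y hb]
      calc b * y = h * γ * y := by rw [hh]
        _ = h * (γ * y) := mul_assoc _ _ _
        _ = b := by rw [h1, hh]
    refine ⟨w ++ [y], by rw [List.length_append, hw1]; rfl, ?_, p, M, hMs, hMmax, ?_⟩
    · intro a ha
      rcases List.mem_append.1 ha with h | h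
      · exact hw2 a h
      · rw [List.mem_singleton] at h
        rw [h]
        exact ⟨hyA.1, hyA.2, hyb⟩
    · rw [c10_take_drop l M' M hlt.le, hM', hy, prd_append, prd_singleton, mul_assoc]

/-- Blocks with trivial group part.
PROOF: for a list `l = [a_1, ..., a_n]` of elements with `om a_i = b` let `γ_i = b a_1 ... a_i` (`γ_0 = b`), an
element of the group at `b` (`gp_of_above`; `om_mul`).  There are `n + 1 ≥ q k + 1` indices and `q = |G_b|`
values (`GG S b`), so some value is taken by at least `k + 1` indices `i_0 < i_1 < ... < i_k` (pigeonhole).  Let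
`w_j = a_{i_{j-1} + 1} ... a_{i_j}`.  From `γ_{i_j} = γ_{i_{j-1}} w_j` we get `γ = γ w_j`, so `b w_j = b`
(multiply by the inverse of `γ` in the group; `b w_j = w_j b`), `om w_j = b`, `act e w_j = w_j` (`act_mul`). -/
theorem blocks2 (hci : CentralIdem S) {b : S} {e : Option S} (hb : b * b = b) (he : OkE b e) (k : ℕ)
    (l : List S) (hl : ∀ a ∈ l, om a = b ∧ act e a = a) (hlen : Nat.card (GG S b) * k ≤ l.length) :
    ∃ w : List S, w.length = k ∧ (∀ a ∈ w, om a = b ∧ act e a = a ∧ a * b = b) ∧
      ∃ p r : WithOne S, prd l = p * prd w * r := by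
  classical
  let G : ℕ → S := fun i => (l.take i).foldl (fun u v => u * v) b
  have hG : ∀ i, ((G i : S) : WithOne S) = (b : WithOne S) * prd (l.take i) := fun i =>
    c10_foldl _ _
  have hGom : ∀ i, om (G i) = b := by
    intro i
    have h1 : prd (b :: l.take i) = ((G i : S) : WithOne S) := by
      rw [hG, prd_cons]
    have h2 : G i ∈ {s : S | om s = b} := by
      refine c10_closed _ ?_ _ ?_ h1
      · intro s h1 t h2
        show om (s * t) = b
        rw [om_mul hci, h1, h2, hb]
      · intro a ha
        rcases List.mem_cons.1 ha with h | h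
        · rw [h]
          exact om_of_idem hb
        · exact (hl a (List.mem_of_mem_take h)).1
    exact h2
  have hGb : ∀ i, G i * b = G i := by
    intro i
    rw [← coe_inj, WithOne.coe_mul, ← c10_central hci hb, hG, ← mul_assoc, ← WithOne.coe_mul, hb]
  let F : ℕ → GG S b := fun i => ⟨G i, hGom i, hGb i⟩
  have : Fintype (GG S b) := Fintype.ofFinite _
  obtain ⟨γ, _, hγ⟩ := Finset.exists_lt_card_fiber_of_mul_lt_card_of_maps_to
    (s := Finset.range (l.length + 1)) (t := (Finset.univ : Finset (GG S b))) (f := F) (n := k)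
    (fun _ _ => Finset.mem_univ _)
    (by
      rw [Finset.card_range, Finset.card_univ, ← Nat.card_eq_fintype_card]
      omega)
  obtain ⟨s, hs1, hs2⟩ := Finset.exists_subset_card_eq (Nat.succ_le_of_lt hγ)
  obtain ⟨w, hw1, hw2, p, M, hM, _, hM2⟩ := e10_blocks_aux hci hb he l hl (γ : S) γ.2.1 k s hs2
    (by
      intro i hi
      have h1 := Finset.mem_filter.1 (hs1 hi)
      have h2 := Finset.mem_range.1 h1.1
      refine ⟨by omega, ?_⟩
      rw [← hG, ← h1.2])
  refine ⟨w, hw1, hw2, p, prd (l.drop M), ?_⟩
  rw [← hM2, ← prd_append, List.take_append_drop]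

/-- PROOF: let `c = nEnd S`, `m = above b`, `K = c^2 (2c+1)` and suppose `l.length > (m+1) K`.  Cut the first
`(m+1) K` elements of `l` into `K` segments of length `m + 1`; their products `y_1, ..., y_K` satisfy `om y_i = b`
(`seg_level`) and `act e y_i = y_i` (`act_mul`).  So `x = prd [y_1, ..., y_K] * r0`.  By `blocks` with
`k = 2c + 1` (`|G_b| ≤ c^2`, `card_gp_le`) there is a list `w` of length `2c + 1` of elements of
`A = {s : om s = b, act e s = s, s b = b}` with `x = p * prd w * r`.  `prd w ≠ b`, otherwise `b x = x`.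
`A` is closed under products (`om_mul`, `act_mul`), so `nul_count` (for `A` and `w`) gives
`2c + 1 ≤ 2 * #{z ∈ A : z z = b, z ≠ b}`, and this set is contained in the set of `card_nul_le`, so it has at
most `c` elements (a source exists by `fac`).  Contradiction: `2c + 1 ≤ 2c`. -/
theorem len_le2 (hci : CentralIdem S) {b : S} {e : Option S} (hb : b * b = b) (he : OkE b e) {L : ℕ}
    (hL : Nat.card (GG S b) ≤ L) {x : S}
    (hxb : om x = b) (hxn : b * x ≠ x) (ht : IsTyp e x) (l : List S)
    (hl : prd l = (x : WithOne S)) (hl2 : ∀ a ∈ l, act e a = a ∧ ¬ UU e a) :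
    l.length ≤ (above b + 1) * (L * (2 * nEnd S + 1)) := by
  classical
  have heo : ∀ e', e = some e' → e' * e' = e' := fun e' h => (he e' h).1
  by_contra hcon
  rw [not_le] at hcon
  set c := nEnd S with hcdef
  set m := above b with hm
  set K := L * (2 * c + 1) with hK
  -- the products of the segments
  have hys : ∀ n, n ≤ K → ∃ ys : List S, ys.length = n ∧ (∀ y ∈ ys, om y = b ∧ act e y = y) ∧
      prd (l.take (n * (m + 1))) = prd ys := by
    intro n
    induction n with
    | zero => exact fun _ => ⟨[], rfl, by simp, by simp⟩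
    | succ n ih =>
      intro hn
      obtain ⟨ys, h1, h2, h3⟩ := ih (by omega)
      have hle : (n + 1) * (m + 1) ≤ l.length := by
        calc (n + 1) * (m + 1) ≤ K * (m + 1) := Nat.mul_le_mul_right _ hn
          _ = (m + 1) * K := mul_comm _ _
          _ ≤ l.length := hcon.le
      have hle2 : n * (m + 1) ≤ (n + 1) * (m + 1) := Nat.mul_le_mul_right _ (by omega)
      have hd : (n + 1) * (m + 1) - n * (m + 1) = m + 1 := by
        rw [← Nat.sub_mul, Nat.add_sub_cancel_left, one_mul]
      set seg := (l.take ((n + 1) * (m + 1))).drop (n * (m + 1)) with hseg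
      have hseglen : seg.length = m + 1 := by
        rw [hseg, List.length_drop, List.length_take, min_eq_left hle, hd]
      have hsplit : prd (l.take ((n + 1) * (m + 1))) = prd (l.take (n * (m + 1))) * prd seg :=
        c10_take_drop l _ _ hle2
      have hsegmem : ∀ a ∈ seg, a ∈ l := fun a ha =>
        List.mem_of_mem_take (List.mem_of_mem_drop ha)
      obtain ⟨y, hy1, hy2⟩ := seg_level2 hci heo hxb ht (prd (l.take (n * (m + 1))))
        (prd (l.drop ((n + 1) * (m + 1)))) seg (fun a ha => (hl2 a (hsegmem a ha)).2)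
        (by rw [hseglen]) (by
          rw [← hsplit, ← prd_append, List.take_append_drop, hl])
      have hy3 : y ∈ {s : S | act e s = s} := by
        refine c10_closed _ ?_ seg ?_ hy1
        · intro s h1 t h2
          show act e (s * t) = s * t
          rw [(act_mul hci heo s t).1]
          have h1' : act e s = s := h1
          have h2' : act e t = t := h2
          rw [h1', h2']
        · intro a ha
          exact (hl2 a (hsegmem a ha)).1
      refine ⟨ys ++ [y], by rw [List.length_append, h1]; rfl, ?_, ?_⟩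
      · intro a ha
        rcases List.mem_append.1 ha with h | h
        · exact h2 a h
        · rw [List.mem_singleton] at h
          rw [h]
          exact ⟨hy2, hy3⟩
      · rw [hsplit, h3, hy1, prd_append, prd_singleton]
  obtain ⟨ys, hy1, hy2, hy3⟩ := hys K le_rfl
  obtain ⟨w, hw1, hw2, p, r, hpr⟩ := blocks2 hci hb he (2 * c + 1) ys hy2 (by
    rw [hy1, hK]
    exact Nat.mul_le_mul_right _ hL)
  have hwne : w ≠ [] := by
    intro h
    rw [h, List.length_nil] at hw1
    omega
  obtain ⟨v, hv⟩ := exists_prd hwne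
  have hxeq : (x : WithOne S) = p * (v : WithOne S) * r * prd (l.drop (K * (m + 1))) := by
    rw [← hv, ← hpr, ← hy3, ← prd_append, List.take_append_drop, hl]
  have hvb : v ≠ b := by
    intro h
    apply hxn
    rw [← coe_inj, WithOne.coe_mul, hxeq, h, ← mul_assoc, ← mul_assoc, ← mul_assoc,
      c10_central hci hb p, mul_assoc p, ← WithOne.coe_mul, hb]
  obtain ⟨l', _, hl'1, hl'2⟩ := fac2 hci hb he hxb hxn ht
  obtain ⟨a, ha⟩ := List.exists_mem_of_ne_nil l' hl'1
  have hcard := card_nul_le2 hci hb he ⟨a, hl'2 a ha⟩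
  have hcount := nul_count (b := b) {s : S | om s = b ∧ act e s = s ∧ s * b = b}
    (by
      rintro s ⟨h1, h2, h3⟩ t ⟨h4, h5, h6⟩
      refine ⟨by rw [om_mul hci, h1, h4, hb], ?_, by rw [mul_assoc, h6, h3]⟩
      rw [(act_mul hci heo s t).1, h2, h5])
    (by
      rintro s ⟨h1, h2, h3⟩
      exact ⟨h3, by rw [hci b s hb, h3], h1⟩)
    w hw2 hv hvb
  have hle : Nat.card {z : S // z ∈ {s : S | om s = b ∧ act e s = s ∧ s * b = b} ∧ z * z = b ∧
      z ≠ b} ≤ Nat.card {z : S // act e z = z ∧ z * z = b ∧ z * b = b} := by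
    refine Nat.card_le_card_of_injective
      (fun z => (⟨z.1, z.2.1.2.1, z.2.2.1, z.2.1.2.2⟩ :
        {z : S // act e z = z ∧ z * z = b ∧ z * b = b})) ?_
    intro z z' h
    exact Subtype.ext (congrArg (fun u : {z : S // act e z = z ∧ z * z = b ∧ z * b = b} => u.1) h)
  rw [hw1] at hcount
  have : Nat.card {z : S // act e z = z ∧ z * z = b ∧ z * b = b} ≤ c := hcard
  omega

end EVS
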