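import Pool.Agent.EVS.LNA

/-!
# [EV-LN] finite groups with few homomorphisms into a central subgroup of small index
-/

set_option autoImplicit false

namespace EVS

theorem ln_comm {G : Type} [Group G] (g h z w : G) (hz : z ∈ Subgroup.center G)
    (hw : w ∈ Subgroup.center G) : (g * z) * (h * w) * (g * z)⁻¹ * (h * w)⁻¹ = g * h * g⁻¹ * h⁻¹ := by
  have h1 : ∀ x : G, z * x = x * z := fun x => (Subgroup.mem_center_iff.mp hz x).symm
  have h2 : ∀ x : G, w * x = x * w := fun x => (Subgroup.mem_center_iff.mp hw x).symm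
  have e1 : g * z * (h * w) * (g * z)⁻¹ * (h * w)⁻¹ = g * (z * (h * w)) * z⁻¹ * (g⁻¹ * w⁻¹) * h⁻¹ := by
    group
  have e2 : g⁻¹ * w⁻¹ = w⁻¹ * g⁻¹ := by
    rw [← mul_inv_rev, ← mul_inv_rev, h2]
  rw [e1, h1, e2]
  group

theorem ln_card_commSet {G : Type} [Group G] [Finite G] :
    Nat.card (commutatorSet G) ≤ (Subgroup.center G).index ^ 2 := by
  let f : (G ⧸ Subgroup.center G) × (G ⧸ Subgroup.center G) → commutatorSet G :=
    fun x => ⟨x.1.out * x.2.out * x.1.out⁻¹ * x.2.out⁻¹, ⟨x.1.out, x.2.out, rfl⟩⟩
  have hf : Function.Surjective f := by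
    rintro ⟨_, g, h, rfl⟩
    refine ⟨(QuotientGroup.mk g, QuotientGroup.mk h), ?_⟩
    apply Subtype.ext
    change (QuotientGroup.mk g : G ⧸ Subgroup.center G).out * (QuotientGroup.mk h : G ⧸ Subgroup.center G).out *
      (QuotientGroup.mk g : G ⧸ Subgroup.center G).out⁻¹ *
      (QuotientGroup.mk h : G ⧸ Subgroup.center G).out⁻¹ = g * h * g⁻¹ * h⁻¹
    obtain ⟨z, hz⟩ := QuotientGroup.mk_out_eq_mul (Subgroup.center G) g
    obtain ⟨w, hw⟩ := QuotientGroup.mk_out_eq_mul (Subgroup.center G) h
    rw [hz, hw]
    exact ln_comm g h z w z.2 w.2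
  have h1 := Nat.card_le_card_of_surjective f hf
  rw [Nat.card_prod] at h1
  calc Nat.card (commutatorSet G) ≤ _ := h1
    _ = (Subgroup.center G).index ^ 2 := by rw [sq]; rfl

/-- PROOF: `Subgroup.card_commutator_dvd_index_center_pow` (Schur, in Mathlib's Schreier.lean), together with the
bound `|commutatorSet G| ≤ (center G).index ^ 2` (the commutator of `g, h` depends only on the cosets of `g` and `h`
modulo the centre), and `(center G).index ≤ A.index ≤ m` for `A ≤ center G`.  (Or
`card_commutator_le_of_finite_commutatorSet`.) -/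
theorem schur (m : ℕ) : ∃ s : ℕ, ∀ (G : Type) [Group G] [Finite G] (A : Subgroup G),
    A ≤ Subgroup.center G → A.index ≤ m → Nat.card (commutator G) ≤ s := by
  refine ⟨m ^ (m * m ^ 2 + 1), ?_⟩
  intro G _ _ A hA hm
  have h0 : (Subgroup.center G).index ≠ 0 := Subgroup.index_ne_zero_of_finite
  have h1 : (Subgroup.center G).index ≤ m :=
    le_trans (Nat.le_of_dvd (Nat.pos_of_ne_zero Subgroup.index_ne_zero_of_finite)
      (Subgroup.index_dvd_of_le hA)) hm
  have h2 := Subgroup.card_commutator_dvd_index_center_pow G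
  have h3 : Nat.card (commutator G) ≤ _ := Nat.le_of_dvd (pow_pos (Nat.pos_of_ne_zero h0) _) h2
  refine le_trans h3 ?_
  have h4 : (Subgroup.center G).index * Nat.card (commutatorSet G) + 1 ≤ m * m ^ 2 + 1 := by
    apply Nat.add_le_add_right
    exact Nat.mul_le_mul h1 (le_trans ln_card_commSet (Nat.pow_le_pow_left h1 2))
  calc (Subgroup.center G).index ^ ((Subgroup.center G).index * Nat.card (commutatorSet G) + 1)
      ≤ m ^ ((Subgroup.center G).index * Nat.card (commutatorSet G) + 1) := Nat.pow_le_pow_left h1 _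
    _ ≤ m ^ (m * m ^ 2 + 1) := Nat.pow_le_pow_right (le_trans (Nat.pos_of_ne_zero h0) h1) h4

/-- For a central subgroup `A` of index `n` the map `g ↦ g ^ n` is a homomorphism to `A`.
PROOF: `MonoidHom.transferCenterPow` gives the homomorphism `g ↦ g ^ (center G).index` to the centre; compose with
`z ↦ z ^ k`, `k` the index of `A` in the centre (`Subgroup.pow_index_mem` for `A.subgroupOf (center G)`), and
`(center G).index * k = A.index` (`Subgroup.relIndex_mul_index`). -/
theorem exists_pow_hom {G : Type} [Group G] [Finite G] (A : Subgroup G) (hA : A ≤ Subgroup.center G) :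
    ∃ τ : G →* A, ∀ g : G, ((τ g : A) : G) = g ^ A.index := by
  let k : ℕ := (A.subgroupOf (Subgroup.center G)).index
  have hk : (Subgroup.center G).index * k = A.index := by
    rw [mul_comm]
    exact Subgroup.relIndex_mul_index hA
  have : IsMulCommutative (Subgroup.center G) := inferInstance
  have hn : (A.subgroupOf (Subgroup.center G)).Normal := inferInstance
  have hz : ∀ z : Subgroup.center G, (z : G) ^ k ∈ A := by
    intro z
    have h := Subgroup.pow_index_mem (A.subgroupOf (Subgroup.center G)) z
    exact h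
  have hmem : ∀ g : G, g ^ A.index ∈ A := by
    intro g
    rw [← hk, pow_mul]
    exact hz (MonoidHom.transferCenterPow G g)
  refine ⟨{ toFun := fun g => ⟨g ^ A.index, hmem g⟩
            map_one' := Subtype.ext (one_pow _)
            map_mul' := ?_ }, fun g => rfl⟩
  intro g h
  apply Subtype.ext
  change (g * h) ^ A.index = g ^ A.index * h ^ A.index
  have h1 := congrArg (fun z : Subgroup.center G => (z : G)) (map_mul (MonoidHom.transferCenterPow G) g h)
  have h2 : (g * h) ^ (Subgroup.center G).index =
      g ^ (Subgroup.center G).index * h ^ (Subgroup.center G).index := h1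
  have h3 : Commute (g ^ (Subgroup.center G).index) (h ^ (Subgroup.center G).index) :=
    (Subgroup.mem_center_iff.mp (MonoidHom.transferCenterPow G g).2 _).symm
  rw [← hk, pow_mul, h2, h3.mul_pow, ← pow_mul, ← pow_mul]

open scoped IsMulCommutative in
theorem ln_exp {G : Type} [Group G] [Finite G] (A : Subgroup G) (hA : A ≤ Subgroup.center G)
    [IsMulCommutative A] (m c : ℕ) (hm : A.index ≤ m) (hc : Nat.card (G →* A) ≤ c) (a : A) :
    a ^ (Nat.factorial (m * c)) = 1 := by
  obtain ⟨τ, hτ⟩ := exists_pow_hom A hA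
  have hfin : Finite (G →* A) := Finite.of_injective (fun g : G →* A => (g : G → A)) DFunLike.coe_injective
  have hτa : τ (a : G) = a ^ A.index := Subtype.ext (hτ a)
  have ho : orderOf (τ (a : G)) ≤ c := by
    let f : Fin (orderOf (τ (a : G))) → (G →* A) := fun k => τ ^ (k : ℕ)
    have hf : Function.Injective f := by
      intro k k' h
      have h2 : (τ (a : G)) ^ (k : ℕ) = (τ (a : G)) ^ (k' : ℕ) := DFunLike.congr_fun h (a : G)
      have h5 := pow_injOn_Iio_orderOf (x := τ (a : G)) k.2 k'.2 h2
      exact Fin.ext h5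
    have h1 := Nat.card_le_card_of_injective f hf
    rw [Nat.card_fin] at h1
    exact le_trans h1 hc
  have h1 : a ^ (A.index * orderOf (τ (a : G))) = 1 := by
    rw [pow_mul, ← hτa]
    exact pow_orderOf_eq_one _
  have hpos : 0 < A.index * orderOf (τ (a : G)) :=
    Nat.mul_pos (Nat.pos_of_ne_zero Subgroup.index_ne_zero_of_finite) (orderOf_pos _)
  have hle : A.index * orderOf (τ (a : G)) ≤ m * c := Nat.mul_le_mul hm ho
  obtain ⟨t, ht⟩ := Nat.dvd_factorial hpos hle
  rw [ht, pow_mul, h1, one_pow]

theorem ln_inj {G : Type} [Group G] [Finite G] (A : Subgroup G) (A1 : Subgroup A)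
    (h : A1 ⊓ (commutator G).subgroupOf A = ⊥) : Nat.card A1 ≤ Nat.card (G →* A) := by
  have hfin : Finite (G →* A) := Finite.of_injective (fun g : G →* A => (g : G → A)) DFunLike.coe_injective
  let φ : A1 →* Abelianization G := (Abelianization.of.comp A.subtype).comp A1.subtype
  have hφ : Function.Injective φ := by
    rw [injective_iff_map_eq_one]
    intro x hx
    have h1 : Abelianization.of (((x : A) : G)) = 1 := hx
    have h2 : (((x : A) : G)) ∈ commutator G := by
      rw [← Abelianization.ker_of G]
      exact h1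
    have h3 : (x : A) ∈ A1 ⊓ (commutator G).subgroupOf A :=
      Subgroup.mem_inf.mpr ⟨x.2, Subgroup.mem_subgroupOf.mpr h2⟩
    rw [h] at h3
    exact Subtype.ext (Subgroup.mem_bot.mp h3)
  let e : A1 ≃* φ.range := MonoidHom.ofInjective hφ
  have hfinQ : Finite (Abelianization G) := Finite.of_surjective _ (QuotientGroup.mk_surjective (s := commutator G))
  have h1 : Nat.card A1 = Nat.card φ.range := Nat.card_congr e.toEquiv
  have h2 : Nat.card φ.range ≤ Nat.card (Abelianization G →* φ.range) := hom_count φ.range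
  have h3 : Nat.card (Abelianization G →* φ.range) ≤ Nat.card (G →* A) := by
    let F : (Abelianization G →* φ.range) → (G →* A) := fun β =>
      (A1.subtype.comp e.symm.toMonoidHom).comp (β.comp Abelianization.of)
    apply Nat.card_le_card_of_injective F
    intro β β' hb
    apply MonoidHom.ext
    intro y
    obtain ⟨g, rfl⟩ : ∃ g : G, Abelianization.of g = y := QuotientGroup.mk_surjective y
    have h4 : ((e.symm (β (Abelianization.of g)) : A1) : A) = ((e.symm (β' (Abelianization.of g)) : A1) : A) :=
      DFunLike.congr_fun hb g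
    exact e.symm.injective (Subtype.ext h4)
  exact h1.le.trans (h2.trans h3)

open scoped IsMulCommutative in
/-- PROOF: let `n = A.index ≤ m` (`n ≥ 1`), `τ` from `exists_pow_hom`.
(1) For `a ∈ A` the element `τ a = a^n` has order at most `c`: the homomorphisms `g ↦ (τ g)^k`, `k < orderOf (a^n)`,
are different (look at `a`), and there are at most `c` homomorphisms `G → A` (`A` is commutative).  So `a^(n l) = 1`
for some `1 ≤ l ≤ c`, and with `E = (m c)!` we have `a^E = 1` for all `a ∈ A` (`n l ≤ m c` divides `E`).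
(2) Let `T = A ⊓ commutator G` inside `A` (as a subgroup of the commutative group `A`), `|T| ≤ s` with `s` from
`schur m`.  By `exists_compl` there is `A1 ≤ A` with `A1 ⊓ T = ⊥` and index at most `s^E` in `A`.
(3) `|A1| ≤ c`: the map `G → Q = Abelianization G` is injective on `A1` (`A1 ⊓ commutator G = 1`); let `B` be the image of
`A1` in `Q`, so `B ≃* A1`.  `hom_count`: `|A1| = |B| ≤ |Hom(Q, B)|`; composing with `G → Q` (surjective) and
`B ≃* A1 ≤ A` gives different homomorphisms `G → A`, so `|A1| ≤ c`.
(4) `|G| = n |A| ≤ m * s^E * c`. -/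
theorem LN (m c : ℕ) : ∃ L : ℕ, ∀ (G : Type) [Group G] [Finite G] (A : Subgroup G),
    A ≤ Subgroup.center G → A.index ≤ m → Nat.card (G →* A) ≤ c → Nat.card G ≤ L := by
  obtain ⟨s, hs⟩ := schur m
  refine ⟨(c * s ^ (Nat.factorial (m * c))) * m, ?_⟩
  intro G _ _ A hA hm hc
  have : IsMulCommutative A := .of_comm (fun a b => Subtype.ext
    (Subgroup.mem_center_iff.mp (hA b.2) (a : G)))
  have hE := ln_exp A hA m c hm hc
  obtain ⟨A1, h1, h2⟩ := exists_compl ((commutator G).subgroupOf A) (Nat.factorial (m * c))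
    (Nat.factorial_pos _) hE
  have hT : Nat.card ((commutator G).subgroupOf A) ≤ s := by
    refine le_trans ?_ (hs G A hA hm)
    let f : (commutator G).subgroupOf A → commutator G := fun x => ⟨((x : A) : G), x.2⟩
    apply Nat.card_le_card_of_injective f
    intro x y h
    have h' := congrArg (fun y : commutator G => (y : G)) h
    exact Subtype.ext (Subtype.ext h')
  have hA1 : Nat.card A1 ≤ c := le_trans (ln_inj A A1 h1) hc
  have hcardA : Nat.card A ≤ c * s ^ (Nat.factorial (m * c)) := by
    rw [← Subgroup.card_mul_index A1]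
    exact Nat.mul_le_mul hA1 (le_trans h2 (Nat.pow_le_pow_left hT _))
  rw [← Subgroup.card_mul_index A]
  exact Nat.mul_le_mul hcardA hm

end EVS
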