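import Pool.Agent.EVS.E0
import Pool.Agent.EVS.LN

/-!
# [EV-E3] the sizes of the subgroups, noncommutative case
-/

set_option autoImplicit false

namespace EVS

variable {S : Type} [Semigroup S] [Finite S]

/-- the group at `d` is a group (compare `exists_group` in C3.lean) -/
theorem exists_group2 (hc : CentralIdem S) {d : S} (hd : d * d = d) :
    ∃ G : Group (GH S d), ∀ a b : GH S d, ((a * b : GH S d) : S) = (a : S) * (b : S) := by
  let m : Mul (GH S d) := ⟨fun a b => ⟨a.1 * b.1, gh_mul hc hd a.2.1 a.2.2 b.2.1 b.2.2⟩⟩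
  let o : One (GH S d) := ⟨⟨d, om_of_idem hd, hd⟩⟩
  let i : Inv (GH S d) := ⟨fun a => ⟨(gh_inv a.2.1 a.2.2).choose,
    (gh_inv a.2.1 a.2.2).choose_spec.1, (gh_inv a.2.1 a.2.2).choose_spec.2.1⟩⟩
  refine ⟨Group.ofLeftAxioms ?_ ?_ ?_, ?_⟩
  · intro a b c
    exact Subtype.ext (mul_assoc a.1 b.1 c.1)
  · intro a
    apply Subtype.ext
    show d * a.1 = a.1
    rw [hc d a.1 hd, a.2.2]
  · intro a
    apply Subtype.ext
    exact (gh_inv a.2.1 a.2.2).choose_spec.2.2.2
  · intro a b
    rfl

/-- the image of an element above `d` in the group at `d` -/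
private def e3_u (hc : CentralIdem S) {d : S} (hd : d * d = d) (s : S) (hs : d * om s = d) : GH S d :=
  ⟨d * s, gh_unit hc hd hs⟩

private theorem e3_one {d : S} (G : Group (GH S d))
    (hG : ∀ a b : GH S d, ((a * b : GH S d) : S) = (a : S) * (b : S)) :
    ((1 : GH S d) : S) = d := by
  have h : ((1 : GH S d) : S) * ((1 : GH S d) : S) = ((1 : GH S d) : S) := by
    rw [← hG, one_mul]
  rw [← om_of_idem h]
  exact (1 : GH S d).2.1

private theorem e3_self (hc : CentralIdem S) {d : S} (hd : d * d = d) (g : GH S d) :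
    ∃ h : d * om (g : S) = d, e3_u hc hd (g : S) h = g := by
  refine ⟨by rw [g.2.1, hd], Subtype.ext ?_⟩
  show d * g.1 = g.1
  rw [hc d g.1 hd, g.2.2]

private theorem e3_u_mul (hc : CentralIdem S) {d : S} (hd : d * d = d) (G : Group (GH S d))
    (hG : ∀ a b : GH S d, ((a * b : GH S d) : S) = (a : S) * (b : S)) {s t : S}
    (hs : d * om s = d) (ht : d * om t = d) (hst : d * om (s * t) = d) :
    e3_u hc hd (s * t) hst = e3_u hc hd s hs * e3_u hc hd t ht := by
  apply Subtype.ext
  rw [hG]
  show d * (s * t) = (d * s) * (d * t)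
  rw [mul_assoc, ← mul_assoc s, ← hc d s hd, mul_assoc, ← mul_assoc d d, hd]

private theorem e3_mk (hc : CentralIdem S) {d : S} (hd : d * d = d) (G : Group (GH S d))
    (hG : ∀ a b : GH S d, ((a * b : GH S d) : S) = (a : S) * (b : S))
    (θ : GH S d → GH S d) (τ : S → S) (h1 : ∀ a b, θ (a * b) = θ a * θ b)
    (h2 : ∀ s t, (hs : d * om s = d) → ¬ (d * om t = d) →
      (θ (e3_u hc hd s hs) : S) * τ t = τ (s * t))
    (h3 : ∀ s t, ¬ (d * om s = d) → (ht : d * om t = d) →
      τ s * (θ (e3_u hc hd t ht) : S) = τ (s * t))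
    (h4 : ∀ s t, ¬ (d * om s = d) → ¬ (d * om t = d) → τ s * τ t = τ (s * t)) :
    ∃ ψ : S →ₙ* S, ∀ g : GH S d, ψ g = (θ g : S) := by
  classical
  refine ⟨⟨fun s => if hs : d * om s = d then (θ (e3_u hc hd s hs) : S) else τ s, ?_⟩, ?_⟩
  · intro s t
    by_cases hs : d * om s = d
    · by_cases ht : d * om t = d
      · have hst : d * om (s * t) = d := (above_mul hc hd s t).2 ⟨hs, ht⟩
        simp only [hs, ht, hst, dif_pos]
        rw [← hG, ← h1, ← e3_u_mul hc hd G hG hs ht hst]
      · have hst : ¬ d * om (s * t) = d := fun h => ht ((above_mul hc hd s t).1 h).2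
        simp only [hs, ht, hst, dif_pos, dif_neg, not_false_eq_true]
        exact (h2 s t hs ht).symm
    · by_cases ht : d * om t = d
      · have hst : ¬ d * om (s * t) = d := fun h => hs ((above_mul hc hd s t).1 h).1
        simp only [hs, ht, hst, dif_pos, dif_neg, not_false_eq_true]
        exact (h3 s t hs ht).symm
      · have hst : ¬ d * om (s * t) = d := fun h => hs ((above_mul hc hd s t).1 h).1
        simp only [hs, ht, hst, dif_neg, not_false_eq_true]
        exact (h4 s t hs ht).symm
  · intro g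
    obtain ⟨h, hg⟩ := e3_self hc hd g
    show (if hs : d * om (g : S) = d then (θ (e3_u hc hd g hs) : S) else τ g) = (θ g : S)
    rw [dif_pos h, hg]

private theorem e3_key (c κ : ℕ) : ∃ L : ℕ, ∀ (S : Type) [Semigroup S] [Finite S],
    CentralIdem S → nEnd S ≤ c → ∀ (z d : S), IsZ z → d * d = d → ∀ (G : Group (GH S d)),
    (∀ a b : GH S d, ((a * b : GH S d) : S) = (a : S) * (b : S)) → ∀ (K : Subgroup (GH S d)),
    K.index ≤ κ → ((∀ s : S, d * om s = d) ∨ ∀ k ∈ K, z * (k : S) = z) →
    Nat.card (GH S d) ≤ L := by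
  obtain ⟨L, hL⟩ := LN (c * κ) c
  refine ⟨L, ?_⟩
  intro S _ _ hc hn z d hz hd G hG K hK H
  have hzd : z * d = z := hz.2 d hd
  have hzc : ∀ s : S, z * s = s * z := fun s => hc z s hz.1
  refine hL (GH S d) (K ⊓ Subgroup.center (GH S d)) inf_le_right ?_ ?_
  · -- the index
    have h1 : (K ⊓ Subgroup.center (GH S d)).relIndex K ≤ nEnd S := by
      show Nat.card (K ⧸ (K ⊓ Subgroup.center (GH S d)).subgroupOf K) ≤ nEnd S
      refine card_le_nEnd (fun q ψ => ∃ k : K, (k : K ⧸ (K ⊓ Subgroup.center (GH S d)).subgroupOf K) = q ∧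
        ∀ g : GH S d, ψ g = (((k : GH S d) * g * (k : GH S d)⁻¹ : GH S d) : S)) ?_ ?_
      · intro q
        obtain ⟨k, rfl⟩ := QuotientGroup.mk_surjective q
        have hk1 : ∀ s t : S, d * om s = d ∨ True → ¬ (d * om t = d) →
            z * ((k : GH S d) : S) = z ∧ z * (((k : GH S d)⁻¹ : GH S d) : S) = z := by
          intro s t _ ht
          rcases H with H | H
          · exact absurd (H t) ht
          · exact ⟨H _ k.2, H _ (K.inv_mem k.2)⟩
        obtain ⟨ψ, hψ⟩ := e3_mk hc hd G hG (fun g => (k : GH S d) * g * (k : GH S d)⁻¹)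
          (fun s => z * s) (by intro a b; group) (by
            intro s t hs ht
            obtain ⟨e1, e2⟩ := hk1 s t (Or.inr trivial) ht
            show (((k : GH S d) * e3_u hc hd s hs * (k : GH S d)⁻¹ : GH S d) : S) * (z * t) =
              z * (s * t)
            rw [hG, hG]
            show ((k : GH S d) : S) * (d * s) * (((k : GH S d)⁻¹ : GH S d) : S) * (z * t) =
              z * (s * t)
            rw [← mul_assoc, ← hzc, ← mul_assoc, ← mul_assoc, e1, ← mul_assoc, hzd, hzc s,
              mul_assoc s, e2, ← hzc, mul_assoc]) (by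
            intro s t hs ht
            obtain ⟨e1, e2⟩ := hk1 t s (Or.inr trivial) hs
            show (z * s) * (((k : GH S d) * e3_u hc hd t ht * (k : GH S d)⁻¹ : GH S d) : S) =
              z * (s * t)
            rw [hG, hG]
            show (z * s) * (((k : GH S d) : S) * (d * t) * (((k : GH S d)⁻¹ : GH S d) : S)) =
              z * (s * t)
            rw [hzc s, mul_assoc s, ← mul_assoc z, ← mul_assoc z, e1, ← mul_assoc z, hzd, hzc t,
              mul_assoc t, e2, ← hzc, ← mul_assoc, ← hzc, mul_assoc]) (by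
            intro s t _ _
            show (z * s) * (z * t) = z * (s * t)
            rw [hzc s, mul_assoc, ← mul_assoc z, hz.1, ← mul_assoc, ← hzc, mul_assoc])
        exact ⟨ψ, k, rfl, hψ⟩
      · rintro q q' ψ ⟨k, rfl, hk⟩ ⟨k', rfl, hk'⟩
        rw [QuotientGroup.eq, Subgroup.mem_subgroupOf]
        refine ⟨(k⁻¹ * k').2, ?_⟩
        show ((k⁻¹ * k' : K) : GH S d) ∈ Subgroup.center (GH S d)
        rw [Subgroup.mem_center_iff]
        intro g
        have h : (k : GH S d) * g * (k : GH S d)⁻¹ = (k' : GH S d) * g * (k' : GH S d)⁻¹ := by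
          apply Subtype.ext
          rw [← hk g, ← hk' g]
        have h' : g = (k : GH S d)⁻¹ * ((k' : GH S d) * g * (k' : GH S d)⁻¹) * (k : GH S d) := by
          rw [← h]
          group
        show g * ((k : GH S d)⁻¹ * (k' : GH S d)) = ((k : GH S d)⁻¹ * (k' : GH S d)) * g
        conv_lhs => rw [h']
        group
    have h2 := Subgroup.relIndex_mul_index (H := K ⊓ Subgroup.center (GH S d)) (K := K) inf_le_left
    rw [← h2]
    exact Nat.mul_le_mul (h1.trans hn) hK
  · -- the homomorphisms
    refine le_trans ?_ hn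
    refine card_le_nEnd (fun f ψ => ∀ g : GH S d,
      ψ g = (((f g : ↥(K ⊓ Subgroup.center (GH S d))) : GH S d) : S)) ?_ ?_
    · intro f
      have hz1 : ∀ (g : GH S d) (t : S), ¬ (d * om t = d) →
          z * (((f g : ↥(K ⊓ Subgroup.center (GH S d))) : GH S d) : S) = z := by
        intro g t ht
        rcases H with H | H
        · exact absurd (H t) ht
        · exact H _ (f g).2.1
      refine e3_mk hc hd G hG (fun g => ((f g : ↥(K ⊓ Subgroup.center (GH S d))) : GH S d))
        (fun _ => z) ?_ ?_ ?_ ?_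
      · intro a b
        show ((f (a * b) : ↥(K ⊓ Subgroup.center (GH S d))) : GH S d) = _
        rw [map_mul]
        rfl
      · intro s t hs ht
        show _ * z = z
        rw [← hzc]
        exact hz1 _ t ht
      · intro s t hs ht
        exact hz1 _ s hs
      · intro s t _ _
        exact hz.1
    · intro f f' ψ h h'
      ext g
      rw [← h g, ← h' g]

/-- A homomorphism `θ` from the group at `d` to itself with `z θ(g) = z` for all `g` (`z` the smallest idempotent)
extends to the endomorphism `s ↦ θ (d s)` (`s` above `d`), `s ↦ z` (otherwise); an element `k` of the group at `d` with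
`z k = z` gives the endomorphism `s ↦ k (d s) k⁻¹` (`s` above `d`), `s ↦ z s` (otherwise).  Consequences:
(1) For the smallest idempotent `z` and `G = GH S z`: `#Hom(G, A) ≤ nEnd S` for every subgroup `A` and
`(center G).index ≤ nEnd S`.  (`s ↦ z s` is a homomorphism of `S` onto `G`; compose with endomorphisms of `G`, in
particular with the conjugations `g ↦ k g k⁻¹`; two conjugations are equal iff `k⁻¹ k'` is central.)  So
`|GH S z| ≤ L1` with `LN c c` and `A = center G` (`c = nEnd S`; use `∀ c' ≤ c` or monotonicity: `A.index ≤ c`).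
(2) For an idempotent `d`, `G = GH S d`: let `K` be the kernel of `π : G → GH S z`, `g ↦ z g`, so `K.index ≤ L1`.
Let `A = K ⊓ center G`.  `#Hom(G, A) ≤ nEnd S` by the first kind of endomorphisms (`z a = z` for `a ∈ K`), and
the index of `A` in `K` is at most `nEnd S` by the second kind (`k, k' ∈ K` give the same endomorphism iff
`k⁻¹ k' ∈ center G`, restrict to `G`; multiplicativity: `s` above `d`, `t` not above: `k (d s) k⁻¹ z t = z s t`
as `z k = z` and `z k⁻¹ = z`).  So `A.index ≤ c L1`, and `|G| ≤ L` with `L` from `LN (c L1) c`. -/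
theorem card_gp_le2 (c : ℕ) : ∃ L : ℕ, ∀ (S : Type) [Semigroup S] [Finite S], CentralIdem S →
    nEnd S ≤ c → ∀ d : S, d * d = d → Nat.card (GH S d) ≤ L := by
  obtain ⟨L1, hL1⟩ := e3_key c 1
  obtain ⟨L2, hL2⟩ := e3_key c L1
  refine ⟨L2, ?_⟩
  intro S _ _ hc hn d hd
  have hne : Nonempty S := ⟨d⟩
  obtain ⟨z, hz⟩ := exists_isZ (S := S) hc
  obtain ⟨Gz, hGz⟩ := exists_group2 hc hz.1
  obtain ⟨Gd, hGd⟩ := exists_group2 hc hd
  have hcz : Nat.card (GH S z) ≤ L1 := hL1 S hc hn z z hz hz.1 Gz hGz ⊤ (by simp)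
    (Or.inl fun s => hz.2 _ (om_idem s))
  let π : GH S d →* GH S z := MonoidHom.mk'
    (fun g => e3_u hc hz.1 (g : S) (hz.2 _ (om_idem _))) (by
      intro a b
      rw [← e3_u_mul hc hz.1 Gz hGz _ _ (hz.2 _ (om_idem _))]
      apply Subtype.ext
      show z * ((a * b : GH S d) : S) = z * (a.1 * b.1)
      rw [hGd])
  refine hL2 S hc hn z d hz hd Gd hGd π.ker ?_ (Or.inr ?_)
  · rw [Subgroup.index_ker]
    exact (Nat.card_le_card_of_injective _ Subtype.val_injective).trans hcz
  · intro k hk
    have h1 : π k = 1 := hk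
    have h2 := congrArg Subtype.val h1
    rw [e3_one Gz hGz] at h2
    exact h2

end EVS
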