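import Pool.Agent.EVS.E0

/-!
# [EV-E4] moving a source, noncommutative case with group squares
-/

set_option autoImplicit false

namespace EVS

variable {S : Type} [Semigroup S] [Finite S]

/-- the product of two elements of an orbit is in the group at `b` -/
theorem e4_sq (hc : CentralIdem S) (hs : SqGp S) {b : S} {e : Option S} (hb : b * b = b)
    (he : OkE b e) {x : S} (hx : Src2 b e x) (hxb : om x = b) {s t : S} (hS : Orb2 e x s)
    (hT : Orb2 e x t) : b * (act e s * act e t) = act e s * act e t := by
  have hgp : ∀ w : S, om w = b → b * (w * w) = w * w := by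
    intro w hw
    have h1 := isGp_iff.1 (hs w)
    rw [om_mul hc, hw, hb] at h1
    rw [hc b _ hb, h1]
  cases e with
  | none =>
    have h1 : s = x := hS
    have h2 : t = x := hT
    subst h1
    subst h2
    exact hgp t hxb
  | some e =>
    obtain ⟨hee, heb⟩ := he e rfl
    have hex : e * x = x := hx.2.2.1
    obtain ⟨g, h, g1, g2, h1, h2, hgh⟩ := hS
    obtain ⟨g', h', g1', g2', h1', h2', hgh'⟩ := hT
    obtain ⟨k1, k2⟩ := gh_mul hc hee h1 h2 g1' g2'
    -- `k = h g'`, `x k x` is fixed by `b`
    obtain ⟨v, v1, v2, _, v4⟩ := gh_inv k1 k2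
    have hkx : b * ((h * g' * x) * (h * g' * x)) = (h * g' * x) * (h * g' * x) := by
      apply hgp
      rw [om_mul hc, k1, hxb, heb]
    have hxkx : b * (x * (h * g') * x) = x * (h * g') * x := by
      have e1 : v * ((h * g' * x) * (h * g' * x)) = x * (h * g') * x := by
        have e2 : v * ((h * g' * x) * (h * g' * x)) = (v * (h * g')) * x * (h * g') * x := by
          simp only [mul_assoc]
        rw [e2, v4, hex]
      rw [← e1, ← mul_assoc b v, hc b v hb, mul_assoc v b, hkx]
    show b * ((e * s) * (e * t)) = (e * s) * (e * t)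
    rw [hgh, hgh']
    have e3 : g * x * h * (g' * x * h') = g * (x * (h * g') * x) * h' := by
      simp only [mul_assoc]
    rw [e3, ← mul_assoc b (g * _) h', ← mul_assoc b g, hc b g hb, mul_assoc g b, hxkx]

/-- PROOF.  Notation: `U = {s : UU e s}`, `R = {s : Orb2 e x s}`, `z` with `IsZ z`.  Idempotents are central.
Base endomorphism `ρ`: `ρ s = act e s` if `s ∈ U`; `b s` if `b * om s = b`, `s ∉ U`; `z s` otherwise.
It is multiplicative: for `s, t ∈ U`: `s t ∈ U` (`UU_mul`), `act_mul`.
`s ∈ U`, `t ∉ U` above `b`: `s t` is above `b`, not in `U`; `(e s)(b t) = b s t` (`b e = b`).  One of `s, t` not above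
`b`: then `s t` is not above `b` (`above_mul`), and `(z s)(? t) = z s t` since `z ? = z` for `? ∈ {e, b, z}`.
Apply `moveGen` with this `ρ`, `κ s = act e s`, `R`, `UL = UR = U`.  h1: `orb2_mul`, h2: `orb2_not_unit`.
h3, h4: `act_mul`.  `R` is above `b` (`orb2_above`), so `ρ s = b s` for `s ∈ R`.
h5: `s ∈ R`, `t ∉ U`: `(e s)(b t) = b s t = (b s)(b t)`, or `(e s)(z t) = z s t = (b s)(z t)`.  h6: the same.
h7: `s, t ∈ R`: we need `(e s)(e t) = (b s)(b t)`, i.e. that `y = (e s)(e t)` satisfies `b y = y`.
Conclusion: `ψ x = act e x = x` (`orb2_self`), so `b * ψ x = b x ≠ x`.  For `y` as in the statement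
`y ∉ R`, `y ∉ U`, `y` is above `b`, so `ψ y = b y`. -/
theorem moveP2 (hc : CentralIdem S) (hs : SqGp S) {b : S} {e : Option S} (hb : b * b = b)
    (he : OkE b e) {x : S} (hx : Src2 b e x) (hxb : om x = b) (hxn : b * x ≠ x) :
    ∃ ψ : S →ₙ* S, b * ψ x ≠ ψ x ∧
      ∀ y, om y = b → Src2 b e y → ¬ Orb2 e x y → b * ψ y = ψ y := by
  classical
  have : Nonempty S := ⟨b⟩
  obtain ⟨z, hz, hz'⟩ := exists_isZ (S := S) hc
  have heo : ∀ e', e = some e' → e' * e' = e' := fun e' h => (he e' h).1
  have hzb : z * b = z := hz' b hb
  have hbz : b * z = z := by rw [hc b z hb, hzb]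
  -- products with central idempotents
  have P : ∀ p q r : S, p * p = p → q * q = q → p * q = r → ∀ s t : S, (p * s) * (q * t) = r * (s * t) := by
    intro p q r hp hq hr s t
    rw [mul_assoc, ← mul_assoc s, ← hc q s hq, mul_assoc q s t, ← mul_assoc p q, hr]
  -- `act e` and multiplication by `b` or `z`
  have A1 : ∀ q : S, q * q = q → (∀ e', e = some e' → e' * q = q) → ∀ s t : S,
      act e s * (q * t) = q * (s * t) := by
    intro q hq h s t
    cases e with
    | none =>
      show s * (q * t) = q * (s * t)
      rw [← mul_assoc, ← hc q s hq, mul_assoc]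
    | some e => exact P e q q (heo e rfl) hq (h e rfl) s t
  have A2 : ∀ q : S, q * q = q → (∀ e', e = some e' → e' * q = q) → ∀ s t : S,
      (q * s) * act e t = q * (s * t) := by
    intro q hq h s t
    cases e with
    | none => exact mul_assoc _ _ _
    | some e => exact P q e q hq (heo e rfl) (by rw [hc q e hq]; exact h e rfl) s t
  have heb : ∀ e', e = some e' → e' * b = b := fun e' h => (he e' h).2
  have hez : ∀ e', e = some e' → e' * z = z := by
    intro e' h
    rw [hc e' z (heo e' h)]
    exact hz' e' (heo e' h)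
  let f : S → S := fun s => if UU e s then act e s else if b * om s = b then b * s else z * s
  have f1 : ∀ s, UU e s → f s = act e s := fun s h => by simp only [f, if_pos h]
  have f2 : ∀ s, ¬ UU e s → b * om s = b → f s = b * s := fun s h h' => by
    simp only [f, if_neg h, if_pos h']
  have f3 : ∀ s, ¬ b * om s = b → f s = z * s := fun s h => by
    have : ¬ UU e s := fun h' => h (above_of_UU hc hb he h')
    simp only [f, if_neg h, if_neg this]
  have fmul : ∀ s t, f (s * t) = f s * f t := by
    intro s t
    by_cases hU : UU e (s * t)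
    · obtain ⟨hUs, hUt⟩ := (UU_mul hc heo s t).1 hU
      rw [f1 _ hU, f1 _ hUs, f1 _ hUt]
      exact (act_mul hc heo s t).1
    · by_cases hB : b * om (s * t) = b
      · obtain ⟨hs1, ht1⟩ := (above_mul hc hb s t).1 hB
        rw [f2 _ hU hB]
        by_cases hUs : UU e s
        · by_cases hUt : UU e t
          · exact absurd ((UU_mul hc heo s t).2 ⟨hUs, hUt⟩) hU
          · rw [f1 _ hUs, f2 _ hUt ht1]
            exact (A1 b hb heb s t).symm
        · by_cases hUt : UU e t
          · rw [f2 _ hUs hs1, f1 _ hUt]
            exact (A2 b hb heb s t).symm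
          · rw [f2 _ hUs hs1, f2 _ hUt ht1]
            exact (P b b b hb hb hb s t).symm
      · rw [f3 _ hB]
        by_cases hs1 : b * om s = b
        · by_cases ht1 : b * om t = b
          · exact absurd ((above_mul hc hb s t).2 ⟨hs1, ht1⟩) hB
          · rw [f3 t ht1]
            by_cases hUs : UU e s
            · rw [f1 _ hUs]
              exact (A1 z hz hez s t).symm
            · rw [f2 _ hUs hs1]
              exact (P b z z hb hz hbz s t).symm
        · rw [f3 s hs1]
          by_cases ht1 : b * om t = b
          · by_cases hUt : UU e t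
            · rw [f1 _ hUt]
              exact (A2 z hz hez s t).symm
            · rw [f2 _ hUt ht1]
              exact (P z b z hz hb hzb s t).symm
          · rw [f3 t ht1]
            exact (P z z z hz hz hz s t).symm
  obtain ⟨ψ, hψ1, hψ2⟩ := moveGen (⟨f, fmul⟩ : S →ₙ* S) (act e) {s | Orb2 e x s} {s | UU e s}
    {s | UU e s}
    (fun s t => orb2_mul hc he hx s t)
    (fun s h => ⟨orb2_not_unit hc he hx h, orb2_not_unit hc he hx h⟩)
    (by
      intro s _ t ht
      show act e (s * t) = act e s * f t
      rw [f1 t ht]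
      exact (act_mul hc heo s t).1)
    (by
      intro s hs' t _
      show act e (s * t) = f s * act e t
      rw [f1 s hs']
      exact (act_mul hc heo s t).1)
    (by
      intro s hs' t ht
      show act e s * f t = f s * f t
      have hsU : ¬ UU e s := orb2_not_unit hc he hx hs'
      have hsb := orb2_above hc hb he hx hs'
      have htU : ¬ UU e t := ht
      by_cases htb : b * om t = b
      · rw [f2 t htU htb, f2 s hsU hsb, A1 b hb heb s t, P b b b hb hb hb s t]
      · rw [f3 t htb, f2 s hsU hsb, A1 z hz hez s t, P b z z hb hz hbz s t])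
    (by
      intro s hs' t ht
      show f s * act e t = f s * f t
      have htU : ¬ UU e t := orb2_not_unit hc he hx ht
      have htb := orb2_above hc hb he hx ht
      have hsU : ¬ UU e s := hs'
      by_cases hsb : b * om s = b
      · rw [f2 t htU htb, f2 s hsU hsb, A2 b hb heb s t, P b b b hb hb hb s t]
      · rw [f3 s hsb, f2 t htU htb, A2 z hz hez s t, P z b z hz hb hzb s t])
    (by
      intro s hs' t ht
      show act e s * act e t = f s * f t
      rw [f2 s (orb2_not_unit hc he hx hs') (orb2_above hc hb he hx hs'),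
        f2 t (orb2_not_unit hc he hx ht) (orb2_above hc hb he hx ht), P b b b hb hb hb s t,
        ← e4_sq hc hs hb he hx hxb hs' ht]
      cases e with
      | none => rfl
      | some e =>
        show b * ((e * s) * (e * t)) = b * (s * t)
        rw [P e e e (heo e rfl) (heo e rfl) (heo e rfl) s t, ← mul_assoc, hc b e hb, heb e rfl])
  refine ⟨ψ, ?_, ?_⟩
  · rw [hψ1 x (orb2_self hc he hx)]
    have hact : act e x = x := hx.2.2.1
    rw [hact]
    exact hxn
  · intro y hyb hy hno
    rw [hψ2 y hno]
    show b * f y = f y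
    rw [f2 y hy.2.1 hy.1, ← mul_assoc, hb]

end EVS
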