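import Pool.Agent.EVS.C3
import Pool.Agent.EVS.E4

/-!
# [EV-E6] the number of sources, noncommutative case
-/

set_option autoImplicit false

namespace EVS

variable {S : Type} [Semigroup S] [Finite S]

/-- an orbit has at most `L ^ 2` elements -/
theorem e6_orb_card {b : S} {e : Option S} (he : OkE b e) {L : ℕ}
    (hL : ∀ d : S, d * d = d → Nat.card (GG S d) ≤ L) (x : S) :
    Nat.card {y : S // act e y = y ∧ Orb2 e x y} ≤ L ^ 2 + 1 := by
  cases e with
  | none =>
    have h1 : Nat.card {y : S // act none y = y ∧ Orb2 none x y} ≤ Nat.card Unit := by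
      refine Nat.card_le_card_of_injective (fun _ => ()) ?_
      intro y y' _
      have h1 : y.1 = x := y.2.2
      have h2 : y'.1 = x := y'.2.2
      exact Subtype.ext (h1.trans h2.symm)
    have h2 : Nat.card Unit = 1 := by simp
    omega
  | some e =>
    have hLe := hL e (he e rfl).1
    choose g h hg1 hg2 hh1 hh2 hg3 using
      fun y : {y : S // act (some e) y = y ∧ Orb2 (some e) x y} => y.2.2
    have h1 : Nat.card {y : S // act (some e) y = y ∧ Orb2 (some e) x y} ≤
        Nat.card (GG S e × GG S e) := by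
      refine Nat.card_le_card_of_injective
        (fun y => ((⟨g y, hg1 y, hg2 y⟩, ⟨h y, hh1 y, hh2 y⟩) : GG S e × GG S e)) ?_
      intro y y' h
      have hgg : g y = g y' := congrArg (fun u : GG S e × GG S e => u.1.1) h
      have hhh := congrArg (fun u : GG S e × GG S e => u.2.1) h
      have h1 : e * y.1 = y.1 := y.2.1
      have h2 : e * y'.1 = y'.1 := y'.2.1
      apply Subtype.ext
      rw [← h1, ← h2, hg3 y, hg3 y', hgg]
      congr 1
    rw [Nat.card_prod] at h1
    have h2 : Nat.card (GG S e) * Nat.card (GG S e) ≤ L ^ 2 := by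
      rw [sq]
      exact Nat.mul_le_mul hLe hLe
    omega

/-- PROOF: let `X` be the set on the left.  Choose for every `x ∈ X` an endomorphism `ψ_x` as in `moveP`.  If
`ψ_x = ψ_y` for `x, y ∈ X`, then `b * ψ_x y = b * ψ_y y ≠ ψ_y y = ψ_x y`, so `Orb2 e x y`: for `e = none`
`y = x`, for `e = some e'`: `y = e' y = g x` with `g` in the group at `e'`.  So the fibre of `x ↦ ψ_x` over
`ψ_x` has at most `|G_{e'}| ≤ c^2` elements (`card_gp_le`; 1 for `e = none`, and `1 ≤ c^2` by `nEnd_pos`), and
`|X| ≤ c * c^2` (`Finset.card_le_mul_card_image` or a similar lemma). -/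
theorem card_src_le2 (hci : CentralIdem S) (hs : SqGp S) {b : S} {e : Option S} (hb : b * b = b)
    (he : OkE b e) {L : ℕ} (hL : ∀ d : S, d * d = d → Nat.card (GG S d) ≤ L) :
    Nat.card {x : S // om x = b ∧ b * x ≠ x ∧ Src2 b e x} ≤ nEnd S * (L ^ 2 + 1) := by
  classical
  have hfe := finite_end (S := S)
  have : Fintype S := Fintype.ofFinite S
  have : Fintype (S →ₙ* S) := Fintype.ofFinite _
  choose ψ h1 h2 using fun x : {x : S // om x = b ∧ b * x ≠ x ∧ Src2 b e x} =>
    moveP2 hci hs hb he x.2.2.2 x.2.1 x.2.2.1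
  have key : ∀ φ : S →ₙ* S,
      (Finset.univ.filter fun x : {x : S // om x = b ∧ b * x ≠ x ∧ Src2 b e x} => ψ x = φ).card ≤
        L ^ 2 + 1 := by
    intro φ
    by_cases hne : (Finset.univ.filter
        fun x : {x : S // om x = b ∧ b * x ≠ x ∧ Src2 b e x} => ψ x = φ).Nonempty
    · obtain ⟨x, hx⟩ := hne
      rw [Finset.mem_filter] at hx
      refine le_trans ?_ (e6_orb_card he hL x.1)
      rw [← Fintype.card_coe, ← Nat.card_eq_fintype_card]
      have inj : ∀ y : {x : {x : S // om x = b ∧ b * x ≠ x ∧ Src2 b e x} //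
          x ∈ (Finset.univ.filter fun x : {x : S // om x = b ∧ b * x ≠ x ∧ Src2 b e x} => ψ x = φ)},
          act e y.1.1 = y.1.1 ∧ Orb2 e x.1 y.1.1 := by
        intro y
        have hy := y.2
        rw [Finset.mem_filter] at hy
        refine ⟨y.1.2.2.2.2.2.1, ?_⟩
        by_contra hno
        have h3 := h2 x y.1.1 y.1.2.1 y.1.2.2.2 hno
        have h4 : ψ x = ψ y.1 := hx.2.trans hy.2.symm
        rw [h4] at h3
        exact h1 y.1 h3
      refine Nat.card_le_card_of_injective (fun y => (⟨y.1.1, inj y⟩ :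
        {y : S // act e y = y ∧ Orb2 e x.1 y})) ?_
      intro y y' h
      apply Subtype.ext
      apply Subtype.ext
      have h5 := congrArg (fun w : {y : S // act e y = y ∧ Orb2 e x.1 y} => w.1) h
      exact h5
    · rw [Finset.not_nonempty_iff_eq_empty] at hne
      rw [hne]
      exact Nat.zero_le _
  have h3 := Finset.card_eq_sum_card_fiberwise (f := ψ)
    (s := (Finset.univ : Finset {x : S // om x = b ∧ b * x ≠ x ∧ Src2 b e x})) (t := Finset.univ)
    (fun _ _ => Finset.mem_coe.2 (Finset.mem_univ _))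
  rw [Nat.card_eq_fintype_card, ← Finset.card_univ, h3]
  refine le_trans (Finset.sum_le_card_nsmul _ _ _ fun φ _ => key φ) ?_
  rw [Finset.card_univ, smul_eq_mul, ← Nat.card_eq_fintype_card]
  exact le_refl _

end EVS
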