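import Pool.Agent.EVS.C11
import Pool.Agent.EVS.E3
import Pool.Agent.EVS.E6
import Pool.Agent.EVS.E10

/-!
# [EV-E11] the size of a level, and of the semigroup
-/

set_option autoImplicit false

namespace EVS

variable {S : Type} [Semigroup S] [Finite S]

/-- the bound for the size of a level, noncommutative case -/
def Psi3 (L m c : ℕ) : ℕ :=
  L + (c + 1) * (m + c * (L ^ 2 + 1) + 1) ^ ((m + 1) * (L * (2 * c + 1)))

/-- The elements of one type.
PROOF: let `A = {s : b * om s = b, om s ≠ b} ∪ {a : om a = b, b a ≠ a, Src2 b e a}`; `|A| ≤ above b + c^3`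
(`card_src_le`).  Every `x` in the set on the left is the product of a list `l` of sources (`fac`), of length at
most `L = (above b + 1) (c^2 (2c+1))` by `len_le` (`Src` contains `act e a = a` and `¬ UU e a`).  Elements `a` of
`l` are in `A`: they are above `b`; if `om a = b`, then `b a ≠ a` (otherwise `b x = x`, as `b` is central).  Now
`card_prd_le`. -/
theorem card_typ_le2 (hci : CentralIdem S) (hs : SqGp S) {b : S} {e : Option S} (hb : b * b = b)
    (he : OkE b e) {L : ℕ} (hL : ∀ d : S, d * d = d → Nat.card (GG S d) ≤ L) :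
    Nat.card {x : S // om x = b ∧ b * x ≠ x ∧ IsTyp e x} ≤
      (above b + nEnd S * (L ^ 2 + 1) + 1) ^ ((above b + 1) * (L * (2 * nEnd S + 1))) := by
  have hA : Nat.card ↥({s : S | b * om s = b ∧ om s ≠ b} ∪ {x : S | om x = b ∧ b * x ≠ x ∧ Src2 b e x}) ≤
      above b + nEnd S * (L ^ 2 + 1) := by
    have h1 : Set.ncard ({s : S | b * om s = b ∧ om s ≠ b} ∪
        {x : S | om x = b ∧ b * x ≠ x ∧ Src2 b e x}) ≤ Set.ncard {s : S | b * om s = b ∧ om s ≠ b} +
        Set.ncard {x : S | om x = b ∧ b * x ≠ x ∧ Src2 b e x} := Set.ncard_union_le _ _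
    have h2 : Set.ncard {x : S | om x = b ∧ b * x ≠ x ∧ Src2 b e x} ≤ nEnd S * (L ^ 2 + 1) :=
      card_src_le2 hci hs hb he hL
    exact h1.trans (Nat.add_le_add_left h2 _)
  refine le_trans ?_ ((card_prd_le ({s : S | b * om s = b ∧ om s ≠ b} ∪
    {x : S | om x = b ∧ b * x ≠ x ∧ Src2 b e x})
    ((above b + 1) * (L * (2 * nEnd S + 1)))).trans
    (Nat.pow_le_pow_left (Nat.add_le_add_right hA 1) _))
  have h3 : Set.ncard {x : S | om x = b ∧ b * x ≠ x ∧ IsTyp e x} ≤
      Set.ncard {x : S | ∃ l : List S, l.length ≤ (above b + 1) * (L * (2 * nEnd S + 1)) ∧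
        (∀ a ∈ l, a ∈ ({s : S | b * om s = b ∧ om s ≠ b} ∪
          {x : S | om x = b ∧ b * x ≠ x ∧ Src2 b e x})) ∧ prd l = (x : WithOne S)} := by
    apply Set.ncard_le_ncard _ (Set.toFinite _)
    rintro x ⟨hx1, hx2, hx3⟩
    obtain ⟨l, hl, -, hls⟩ := fac2 hci hb he hx1 hx2 hx3
    refine ⟨l, len_le2 hci hb he (hL b hb) hx1 hx2 hx3 l hl (fun a ha => ⟨(hls a ha).2.2.1, (hls a ha).2.1⟩),
      ?_, hl⟩
    intro a ha
    by_cases hab : om a = b
    · right
      exact ⟨hab, fun hba => hx2 (c11_fix (hci) hb hl ha hba), hls a ha⟩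
    · left
      exact ⟨(hls a ha).1, hab⟩
  exact h3

/-- PROOF: an element `s` with `om s = b` has `b s = s` (then it is in the group at `b`, at most `c^2` elements,
`card_gp_le`), or it has a type `e` (`exists_typ`), which is `none` or `some e'` with an idempotent `e'`; at most
`c + 1` types (`card_idem_le`). -/
theorem level3 (hci : CentralIdem S) (hs : SqGp S) {b : S} (hb : b * b = b) {L : ℕ}
    (hL : ∀ d : S, d * d = d → Nat.card (GG S d) ≤ L) :
    Nat.card {s : S // om s = b} ≤ Psi3 L (above b) (nEnd S) := by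
  classical
  have : Fintype S := Fintype.ofFinite S
  -- the types
  have hT : (Finset.univ.filter (fun e : Option S => OkE b e)).card ≤ nEnd S + 1 := by
    have h1 : (Finset.univ.filter (fun e : Option S => OkE b e)) ⊆
        insert none ((Finset.univ.filter (fun e : S => e * e = e)).image some) := by
      intro e he
      rw [Finset.mem_filter] at he
      rcases e with _ | e'
      · exact Finset.mem_insert_self _ _
      · apply Finset.mem_insert_of_mem
        rw [Finset.mem_image]
        exact ⟨e', Finset.mem_filter.2 ⟨Finset.mem_univ _, (he.2 e' rfl).1⟩, rfl⟩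
    refine (Finset.card_le_card h1).trans ((Finset.card_insert_le _ _).trans ?_)
    apply Nat.add_le_add_right
    refine Finset.card_image_le.trans ?_
    have h2 := card_idem_le (S := S)
    rw [Nat.card_eq_fintype_card, Fintype.card_subtype] at h2
    exact h2
  have hU : (Finset.univ.filter (fun s : S => om s = b)) ⊆
      (Finset.univ.filter (fun s : S => om s = b ∧ s * b = s)) ∪
      (Finset.univ.filter (fun e : Option S => OkE b e)).biUnion
        (fun e => Finset.univ.filter (fun x : S => om x = b ∧ b * x ≠ x ∧ IsTyp e x)) := by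
    intro s hs
    rw [Finset.mem_filter] at hs
    rw [Finset.mem_union]
    by_cases h1 : b * s = s
    · left
      rw [Finset.mem_filter]
      exact ⟨Finset.mem_univ _, hs.2, by rw [← hci b s hb]; exact h1⟩
    · right
      obtain ⟨e, he1, he2⟩ := exists_typ hci s
      rw [hs.2] at he1
      rw [Finset.mem_biUnion]
      exact ⟨e, Finset.mem_filter.2 ⟨Finset.mem_univ _, he1⟩,
        Finset.mem_filter.2 ⟨Finset.mem_univ _, hs.2, h1, he2⟩⟩
  have hG : (Finset.univ.filter (fun s : S => om s = b ∧ s * b = s)).card ≤ L := by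
    have h2 := hL b hb
    rw [Nat.card_eq_fintype_card, Fintype.card_subtype] at h2
    exact h2
  have hN : ∀ e ∈ Finset.univ.filter (fun e : Option S => OkE b e),
      (Finset.univ.filter (fun x : S => om x = b ∧ b * x ≠ x ∧ IsTyp e x)).card ≤
      (above b + nEnd S * (L ^ 2 + 1) + 1) ^ ((above b + 1) * (L * (2 * nEnd S + 1))) := by
    intro e he
    rw [Finset.mem_filter] at he
    have h2 := card_typ_le2 hci hs hb he.2 hL
    rw [Nat.card_eq_fintype_card, Fintype.card_subtype] at h2
    exact h2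
  rw [Nat.card_eq_fintype_card, Fintype.card_subtype]
  refine (Finset.card_le_card hU).trans ((Finset.card_union_le _ _).trans ?_)
  unfold Psi3
  apply Nat.add_le_add hG
  refine Finset.card_biUnion_le.trans ((Finset.sum_le_card_nsmul _ _ _ hN).trans ?_)
  rw [smul_eq_mul]
  exact Nat.mul_le_mul_right _ hT

theorem Psi3_mono (L c : ℕ) : Monotone fun m => Psi3 L m c := by
  intro m m' h
  show Psi3 L m c ≤ Psi3 L m' c
  unfold Psi3
  apply Nat.add_le_add_left
  apply Nat.mul_le_mul_left
  refine (Nat.pow_le_pow_left (show m + c * (L ^ 2 + 1) + 1 ≤ m' + c * (L ^ 2 + 1) + 1 by omega) _).trans ?_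
  exact Nat.pow_le_pow_right (by omega) (Nat.mul_le_mul_right _ (by omega))

/-- PROOF: as `suff1`. -/
theorem suff3 (B : ℕ) : ∃ n : ℕ, ∀ (S : Type) [Semigroup S] [Finite S], CentralIdem S → SqGp S →
    n ≤ Nat.card S → B < nEnd S := by
  obtain ⟨L, hL⟩ := card_gp_le2 B
  refine ⟨(∑ c ∈ Finset.range (B + 1), G (fun m => Psi3 L m c) c) + 1, ?_⟩
  intro S _ _ hci hs hn
  by_contra hB
  have hB' : nEnd S ∈ Finset.range (B + 1) := Finset.mem_range.2 (by omega)
  have h1 : Nat.card S ≤ G (fun m => Psi3 L m (nEnd S)) (nEnd S) :=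
    glob (fun e f he _ => hci e f he) (Psi3_mono L (nEnd S)) card_idem_le
      (fun b hb => level3 hci hs hb (hL S hci (by omega)))
  have h2 : G (fun m => Psi3 L m (nEnd S)) (nEnd S) ≤
      ∑ c ∈ Finset.range (B + 1), G (fun m => Psi3 L m c) c :=
    Finset.single_le_sum (f := fun c => G (fun m => Psi3 L m c) c) (fun _ _ => Nat.zero_le _) hB'
  omega

end EVS
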