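import Pool.Agent.EVS.H1

/-!
# [EV-H2b] J-trivial members of varieties without `C2`, without `A0`
-/

set_option autoImplicit false

namespace EVS

/-- `JLe` is a preorder, and products are below their factors (easy, in `WithOne S`; `1` is allowed for the
factors `x`, `y` of the definition of `JLe`). -/
theorem jle_refl {S : Type} [Semigroup S] (a : S) : JLe a a :=
  ⟨1, 1, by rw [one_mul, mul_one]⟩

theorem jle_trans {S : Type} [Semigroup S] {a b c : S} (h : JLe a b) (h' : JLe b c) : JLe a c := by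
  obtain ⟨x, y, h1⟩ := h
  obtain ⟨x', y', h2⟩ := h'
  refine ⟨x * x', y' * y, ?_⟩
  rw [h1, h2]
  simp only [mul_assoc]

theorem jle_mul_left {S : Type} [Semigroup S] (a b : S) : JLe (a * b) a :=
  ⟨1, b, by rw [one_mul, WithOne.coe_mul]⟩

theorem jle_mul_right {S : Type} [Semigroup S] (a b : S) : JLe (a * b) b :=
  ⟨a, 1, by rw [mul_one, WithOne.coe_mul]⟩

theorem h2b_jle_pw {S : Type} [Semigroup S] (t : S) (k : ℕ) : JLe (pw t k) t := by
  cases k with
  | zero => exact jle_refl t
  | succ k => exact jle_mul_right _ _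

theorem h2b_jle_pw_sq {S : Type} [Semigroup S] (t : S) (k : ℕ) : JLe (pw t (k + 1)) (t * t) := by
  induction k with
  | zero => exact jle_refl (t * t)
  | succ k ih => exact jle_trans (jle_mul_left _ _) ih

theorem h2b_C2_one_mul (x : C2) : C2.one * x = x := by cases x <;> rfl

theorem h2b_C2_mul_one (x : C2) : x * C2.one = x := by cases x <;> rfl

theorem h2b_A0_o_mul (x : A0) : A0.o * x = A0.o := by cases x <;> rfl

theorem h2b_A0_mul_o (x : A0) : x * A0.o = A0.o := by cases x <;> rfl

/-- Suppose `C2 ∉ V`, `S ∈ V` is J-trivial and `e = e²`.  Then `e s e` is idempotent.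
PROOF: let `t = e s e`, suppose `t t ≠ t`.  `e t = t = t e`.  Then
(1) `t ≠ pw t k` for `k ≥ 1` (otherwise `t` and `t t` are J-below each other, hence `t = t t`; note that
`pw t k` for `k ≥ 1` is `t t` or has the factor `t t`);
(2) `e ≠ pw t k` for all `k` (otherwise `e` is J-below `t` and `t = e s e` is J-below `e`, so `t = e` and
`t t = t`).
Apply `mem_of_div` with `T = S`, `D = {e} ∪ {pw t k : k}`, `g x = one` if `x = e`, `c` if `x = t`, `o`
otherwise: `D` is closed (`pw_mul_pw`, `e * pw t k = pw t k = pw t k * e`), `g` is multiplicative on `D`, onto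
`C2` (`g (t t) = o`).  So `C2 ∈ V`, contradiction. -/
theorem local_of_C2 {V : Set (Wd × Wd)} (hC : ¬ Mem V C2) {S : Type} [Semigroup S]
    (hJ : JTriv S) (hS : Mem V S) {e : S} (he : e * e = e) (s : S) :
    (e * s * e) * (e * s * e) = e * s * e := by
  classical
  by_contra hne
  apply hC
  set t : S := e * s * e with ht
  have h1 : e * t = t := by
    rw [ht, ← mul_assoc, ← mul_assoc, he]
  have h2 : t * e = t := by
    rw [ht, mul_assoc, he]
  have h1' : ∀ k, e * pw t k = pw t k := by
    intro k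
    induction k with
    | zero => exact h1
    | succ k ih => rw [pw_succ, ← mul_assoc, ih]
  have h2' : ∀ k, pw t k * e = pw t k := by
    intro k
    cases k with
    | zero => exact h2
    | succ k => rw [pw_succ, mul_assoc, h2]
  have n1 : ∀ k, pw t (k + 1) ≠ t := by
    intro k h
    apply hne
    have h3 : JLe t (t * t) := by
      have := h2b_jle_pw_sq t k
      rwa [h] at this
    exact (hJ _ _ h3 (jle_mul_left _ _)).symm
  have n2 : ∀ k, pw t k ≠ e := by
    intro k h
    apply hne
    have h3 : JLe e t := by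
      have := h2b_jle_pw t k
      rwa [h] at this
    have h4 : JLe t e := by
      rw [← h1]
      exact jle_mul_left _ _
    rw [← hJ _ _ h3 h4, he]
  let g : S → C2 := fun x => if x = e then C2.one else if x = t then C2.c else C2.o
  have ge : g e = C2.one := if_pos rfl
  have gt : g t = C2.c := by
    show (if t = e then C2.one else if t = t then C2.c else C2.o) = C2.c
    rw [if_neg (show t ≠ e from n2 0), if_pos rfl]
  have gp : ∀ k, g (pw t (k + 1)) = C2.o := by
    intro k
    show (if pw t (k + 1) = e then C2.one else if pw t (k + 1) = t then C2.c else C2.o) = C2.o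
    rw [if_neg (n2 _), if_neg (n1 k)]
  have gp' : ∀ j k, g (pw t j) * g (pw t k) = C2.o := by
    intro j k
    cases j with
    | zero =>
      cases k with
      | zero => rw [pw_zero, gt]; rfl
      | succ k => rw [pw_zero, gt, gp]; rfl
    | succ j =>
      cases k with
      | zero => rw [pw_zero, gt, gp]; rfl
      | succ k => rw [gp, gp]; rfl
  refine mem_of_div {x | x = e ∨ ∃ k, x = pw t k} g ?_ ?_ ?_ hS
  · rintro a (rfl | ⟨j, rfl⟩) b (rfl | ⟨k, rfl⟩)
    · exact Or.inl he
    · exact Or.inr ⟨k, h1' k⟩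
    · exact Or.inr ⟨j, h2' j⟩
    · exact Or.inr ⟨_, pw_mul_pw t j k⟩
  · rintro a (rfl | ⟨j, rfl⟩) b (rfl | ⟨k, rfl⟩)
    · rw [he, ge]; rfl
    · rw [h1', ge, h2b_C2_one_mul]
    · rw [h2', ge, h2b_C2_mul_one]
    · rw [pw_mul_pw, gp, gp']
  · intro x
    cases x with
    | one => exact ⟨e, Or.inl rfl, ge⟩
    | c => exact ⟨t, Or.inr ⟨0, rfl⟩, gt⟩
    | o => exact ⟨pw t 1, Or.inr ⟨1, rfl⟩, gp 0⟩

/-- Suppose `A0 ∉ V`, `S ∈ V` is J-trivial, `e = e²`, `f = f²`.  Then `e f` is idempotent.
PROOF: suppose `e f` is not idempotent.  Let `I = {fe} ∪ {x : JLe x (e f e)} ∪ {x : JLe x (f e f)}` and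
`D = {e, f, ef} ∪ I`.  `D` is closed under products (`I` is closed under left and right multiplication by `e`
and by `f`, and under products; `f e = fe ∈ I`).
Each of the following assumptions implies that `e f` is idempotent, so none of them holds:
`e = f`; `e = ef` (`efef = ee = e = ef`); `f = ef`; `e = fe` (`efef = e(fe)f = eef`);
`f = fe` (`efef = e (fe) f = e f f`); `ef = fe`; `ef = efe` (`efef = (efe) f = (ef) f`);
`ef = fef` (`efef = e (fef) = e (ef)`); `e = efe` (`efef = (efe)f = ef`); `e = fef` (`fe = fef = e`, then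
as before); `f = efe` (`ef = efe = f`); `f = fef` (`efef = e (fef) = ef`);
`JLe e (efe)` (then `e = efe` by J-triviality), `JLe e (fef)` (`fef` is J-below `e`, so `e = fef`),
`JLe f (efe)`, `JLe f (fef)`, `JLe (ef) (efe)`, `JLe (ef) (fef)` (same arguments).
So `e, f, ef` are three distinct elements outside `I`, and `g x = e, f, ef` for `x = e, f, ef`, `g x = o` on
`I` (`mem_of_div` with `T = S`) shows `A0 ∈ V`: `e·e=e, e·f=ef, e·ef=ef, f·f=f, ef·f=ef`, and the products
`f·e = fe`, `f·ef = fef`, `ef·e = efe`, `ef·ef = efef` are in `I`. -/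
theorem idem_of_A0 {V : Set (Wd × Wd)} (hA : ¬ Mem V A0) {S : Type} [Semigroup S]
    (hJ : JTriv S) (hS : Mem V S) {e f : S} (he : e * e = e) (hf : f * f = f) :
    (e * f) * (e * f) = e * f := by
  classical
  by_contra hne
  apply hA
  -- `efef = (efe) f = e (fef)`
  have q1 : (e * f) * (e * f) = (e * f * e) * f := by simp only [mul_assoc]
  have q2 : (e * f) * (e * f) = e * (f * e * f) := by simp only [mul_assoc]
  have q3 : (e * f) * (e * f) = e * (f * e) * f := by simp only [mul_assoc]
  have eef : e * (e * f) = e * f := by rw [← mul_assoc, he]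
  have eff : e * f * f = e * f := by rw [mul_assoc, hf]
  have n1 : f ≠ e := by
    intro h
    apply hne
    rw [h, he, he]
  have n2 : e * f ≠ e := by
    intro h
    apply hne
    rw [h, he]
  have n3 : e * f ≠ f := by
    intro h
    apply hne
    rw [h, hf]
  let I : Set S := {x | x = f * e ∨ JLe x (e * f * e) ∨ JLe x (f * e * f)}
  have m1 : f * e ≠ e := by
    intro h
    apply hne
    rw [q3, h, he]
  have m2 : f * e ≠ f := by
    intro h
    apply hne
    rw [q3, h, eff]
  have m3 : f * e ≠ e * f := by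
    intro h
    apply hne
    rw [q3, h, eef, eff]
  have j1 : JLe (e * f * e) e := jle_mul_right _ _
  have j2 : JLe (e * f * e) (e * f) := jle_mul_left _ _
  have j3 : JLe (e * f * e) f := jle_trans j2 (jle_mul_right _ _)
  have j4 : JLe (f * e * f) f := jle_mul_right _ _
  have j5 : JLe (f * e * f) (e * f) := by
    rw [mul_assoc]
    exact jle_mul_right _ _
  have j6 : JLe (f * e * f) e := jle_trans j5 (jle_mul_left _ _)
  have i1 : ∀ x ∈ I, x ≠ e := by
    rintro x (rfl | h | h)
    · exact m1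
    · rintro rfl
      apply hne
      rw [q1, ← hJ _ _ h j1]
    · rintro rfl
      have h2 := hJ _ _ h j6
      apply m1
      conv_lhs => rw [h2, ← mul_assoc, ← mul_assoc, hf]
      exact h2.symm
  have i2 : ∀ x ∈ I, x ≠ f := by
    rintro x (rfl | h | h)
    · exact m2
    · rintro rfl
      have h2 := hJ _ _ h j3
      apply n3
      conv_lhs => rw [h2, ← mul_assoc, ← mul_assoc, he]
      exact h2.symm
    · rintro rfl
      apply hne
      rw [q2, ← hJ _ _ h j4]
  have i3 : ∀ x ∈ I, x ≠ e * f := by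
    rintro x (rfl | h | h)
    · exact m3
    · rintro rfl
      apply hne
      rw [q1, ← hJ _ _ h j2, eff]
    · rintro rfl
      apply hne
      rw [q2, ← hJ _ _ h j5, eef]
  -- products in `I`
  have c_fe : f * e ∈ I := Or.inl rfl
  have c_efe : e * f * e ∈ I := Or.inr (Or.inl (jle_refl _))
  have c_fef : f * e * f ∈ I := Or.inr (Or.inr (jle_refl _))
  have L : ∀ a x : S, JLe x (e * f * e) ∨ JLe x (f * e * f) → a * x ∈ I := by
    rintro a x (h | h)
    · exact Or.inr (Or.inl (jle_trans (jle_mul_right _ _) h))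
    · exact Or.inr (Or.inr (jle_trans (jle_mul_right _ _) h))
  have R : ∀ a x : S, JLe x (e * f * e) ∨ JLe x (f * e * f) → x * a ∈ I := by
    rintro a x (h | h)
    · exact Or.inr (Or.inl (jle_trans (jle_mul_left _ _) h))
    · exact Or.inr (Or.inr (jle_trans (jle_mul_left _ _) h))
  have Le : ∀ x ∈ I, e * x ∈ I := by
    rintro x (rfl | h)
    · rw [← mul_assoc]; exact c_efe
    · exact L e x h
  have Lf : ∀ x ∈ I, f * x ∈ I := by
    rintro x (rfl | h)
    · rw [← mul_assoc, hf]; exact c_fe
    · exact L f x h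
  have Re : ∀ x ∈ I, x * e ∈ I := by
    rintro x (rfl | h)
    · rw [mul_assoc, he]; exact c_fe
    · exact R e x h
  have Rf : ∀ x ∈ I, x * f ∈ I := by
    rintro x (rfl | h)
    · exact c_fef
    · exact R f x h
  have LL : ∀ x ∈ I, ∀ y ∈ I, x * y ∈ I := by
    rintro x (rfl | h) y hy
    · rw [mul_assoc]
      exact Lf _ (Le _ hy)
    · exact R y x h
  have Lef : ∀ x ∈ I, e * f * x ∈ I := by
    intro x hx
    rw [mul_assoc]
    exact Le _ (Lf _ hx)
  have Ref : ∀ x ∈ I, x * (e * f) ∈ I := by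
    intro x hx
    rw [← mul_assoc]
    exact Rf _ (Re _ hx)
  have c_fef' : f * (e * f) ∈ I := by rw [← mul_assoc]; exact c_fef
  have c_efef : (e * f) * (e * f) ∈ I := by rw [q1]; exact Rf _ c_efe
  let g : S → A0 := fun x => if x = e then A0.e else if x = f then A0.f else if x = e * f then A0.ef
    else A0.o
  have ge : g e = A0.e := if_pos rfl
  have gf : g f = A0.f := by
    show (if f = e then A0.e else if f = f then A0.f else if f = e * f then A0.ef else A0.o) = A0.f
    rw [if_neg n1, if_pos rfl]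
  have gef : g (e * f) = A0.ef := by
    show (if e * f = e then A0.e else if e * f = f then A0.f else if e * f = e * f then A0.ef
      else A0.o) = A0.ef
    rw [if_neg n2, if_neg n3, if_pos rfl]
  have gI : ∀ x ∈ I, g x = A0.o := by
    intro x hx
    show (if x = e then A0.e else if x = f then A0.f else if x = e * f then A0.ef else A0.o) = A0.o
    rw [if_neg (i1 x hx), if_neg (i2 x hx), if_neg (i3 x hx)]
  refine mem_of_div {x | x = e ∨ x = f ∨ x = e * f ∨ x ∈ I} g ?_ ?_ ?_ hS
  · rintro a (rfl | rfl | rfl | ha) b (rfl | rfl | rfl | hb)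
    · exact Or.inl he
    · exact Or.inr (Or.inr (Or.inl rfl))
    · exact Or.inr (Or.inr (Or.inl eef))
    · exact Or.inr (Or.inr (Or.inr (Le _ hb)))
    · exact Or.inr (Or.inr (Or.inr c_fe))
    · exact Or.inr (Or.inl hf)
    · exact Or.inr (Or.inr (Or.inr c_fef'))
    · exact Or.inr (Or.inr (Or.inr (Lf _ hb)))
    · exact Or.inr (Or.inr (Or.inr c_efe))
    · exact Or.inr (Or.inr (Or.inl eff))
    · exact Or.inr (Or.inr (Or.inr c_efef))
    · exact Or.inr (Or.inr (Or.inr (Lef _ hb)))
    · exact Or.inr (Or.inr (Or.inr (Re _ ha)))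
    · exact Or.inr (Or.inr (Or.inr (Rf _ ha)))
    · exact Or.inr (Or.inr (Or.inr (Ref _ ha)))
    · exact Or.inr (Or.inr (Or.inr (LL _ ha _ hb)))
  · rintro a (rfl | rfl | rfl | ha) b (rfl | rfl | rfl | hb)
    · rw [he, ge]; rfl
    · rw [gef, ge, gf]; rfl
    · rw [eef, gef, ge]; rfl
    · rw [gI _ (Le _ hb), gI _ hb, h2b_A0_mul_o]
    · rw [gI _ c_fe, gf, ge]; rfl
    · rw [hf, gf]; rfl
    · rw [gI _ c_fef', gf, gef]; rfl
    · rw [gI _ (Lf _ hb), gI _ hb, h2b_A0_mul_o]
    · rw [gI _ c_efe, gef, ge]; rfl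
    · rw [eff, gef, gf]; rfl
    · rw [gI _ c_efef, gef]; rfl
    · rw [gI _ (Lef _ hb), gI _ hb, h2b_A0_mul_o]
    · rw [gI _ (Re _ ha), gI _ ha, h2b_A0_o_mul]
    · rw [gI _ (Rf _ ha), gI _ ha, h2b_A0_o_mul]
    · rw [gI _ (Ref _ ha), gI _ ha, h2b_A0_o_mul]
    · rw [gI _ (LL _ ha _ hb), gI _ ha, h2b_A0_o_mul]
  · intro x
    cases x with
    | e => exact ⟨e, Or.inl rfl, ge⟩
    | f => exact ⟨f, Or.inr (Or.inl rfl), gf⟩
    | ef => exact ⟨e * f, Or.inr (Or.inr (Or.inl rfl)), gef⟩
    | o => exact ⟨f * e, Or.inr (Or.inr (Or.inr c_fe)), gI _ c_fe⟩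

/-- Groups in finite J-trivial semigroups are trivial.  PROOF: `g` and `om g` (the identity of its group, see
`isGp_iff`) are J-below each other: `g = g * om g`, and `om g = pw g n` is `g` or has the factor `g`
(`om_eq_pw`).  So `g = om g`. -/
theorem aper_of_jtriv {S : Type} [Semigroup S] [Finite S] (hJ : JTriv S) : Aper S := by
  intro g hg
  have h1 : g * om g = g := isGp_iff.1 hg
  obtain ⟨n, hn⟩ := om_eq_pw g
  have h2 : JLe (om g) g := by rw [hn]; exact h2b_jle_pw g n
  have h3 : JLe g (om g) := by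
    have := jle_mul_right g (om g)
    rwa [h1] at this
  have h4 := hJ _ _ h2 h3
  rw [h4] at h1
  exact h1

theorem good2_of {V : Set (Wd × Wd)} (hC : ¬ Mem V C2) (hA : ¬ Mem V A0) {S : Type} [Semigroup S]
    (hJ : JTriv S) (hS : Mem V S) : Good2 S :=
  ⟨hJ, fun _ _ he hf => idem_of_A0 hA hJ hS he hf, fun _ s he => local_of_C2 hC hJ hS he s⟩

end EVS
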