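import Pool.Agent.EVS.H2a
import Pool.Agent.EVS.H2b
import Pool.Agent.EVS.Rev
import Pool.Agent.EVS.AFE
import Pool.Agent.EVS.C11
import Pool.Agent.EVS.E11
import Pool.Agent.EVS.D7

/-!
# [EV] final assembly
-/

set_option autoImplicit false

namespace EVS

theorem centralGp_of_aper {S : Type} [Semigroup S] [Finite S] (ha : Aper S) (hc : CentralIdem S) :
    CentralGp S := fun g s hg => hc g s (ha g hg)

theorem endo_of_centralGp {V : Set (Wd × Wd)}
    (h : ∀ (S : Type) [Semigroup S] [Finite S], Mem V S → CentralGp S) : Endomorphic V := by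
  intro B
  obtain ⟨n, hn⟩ := suff1 B
  exact ⟨n, fun S _ _ hS hcard => hn S (h S hS) hcard⟩

theorem endo_of_good2 {V : Set (Wd × Wd)}
    (h : ∀ (S : Type) [Semigroup S] [Finite S], Mem V S → Good2 S) : Endomorphic V := by
  intro B
  obtain ⟨n, hn⟩ := suff2 B
  exact ⟨n, fun S _ _ hS hcard => hn S (h S hS) hcard⟩

/-- the classification for varieties with J-trivial finite members -/
theorem classification_jtriv (V : Set (Wd × Wd))
    (hJ : ∀ (S : Type) [Semigroup S] [Finite S], Mem V S → JTriv S) :
    Endomorphic V ↔ ¬ Mem V A0 ∧ (Mem V C2 → ¬ Mem V P ∧ ¬ Mem V Pᵐᵒᵖ) := by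
  constructor
  · intro h
    refine ⟨fun hA => not_endo_of_A0 hA h, fun hC => ⟨fun hP => not_endo_of_P hC hP h,
      fun hP => not_endo_of_P' hC hP h⟩⟩
  · rintro ⟨hA, hCP⟩
    by_cases hC : Mem V C2
    · obtain ⟨h1, h2⟩ := hCP hC
      refine endo_of_centralGp fun S _ _ hS => ?_
      exact centralGp_of_aper (aper_of_jtriv (hJ S hS)) (central_of_P hC h1 h2 hS)
    · exact endo_of_good2 fun S _ _ hS => good2_of hC hA (hJ S hS) hS

/-- permutation identities: `S` satisfies `x_0 ⋯ x_{n-1} = x_{σ 0} ⋯ x_{σ (n-1)}` -/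
def PermId (S : Type) [Semigroup S] {n : ℕ} (σ : Equiv.Perm (Fin n)) : Prop :=
  ∀ a : Fin n → S, prd (List.ofFn a) = prd (List.ofFn fun i => a (σ i))

theorem prd_const {S : Type} [Semigroup S] {e : S} (he : e * e = e) (l : List S) (hl : ∀ a ∈ l, a = e) :
    (prd l : WithOne S) = 1 ∨ prd l = (e : WithOne S) := by
  induction l with
  | nil => exact Or.inl rfl
  | cons a l ih =>
    right
    rw [prd_cons, hl a (List.mem_cons_self ..)]
    rcases ih (fun a ha => hl a (List.mem_cons_of_mem _ ha)) with h | h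
    · rw [h, mul_one]
    · rw [h, ← WithOne.coe_mul, he]

/-- a list with exactly two places different from `e`, in the order `g`, `s` -/
theorem prd_two {S : Type} [Semigroup S] {e g s : S} (he : e * e = e)
    (hec : ∀ t, e * t = t * e) (hg : g * e = g ∨ s * e = s) :
    ∀ l1 l2 l3 : List S, (∀ a ∈ l1, a = e) → (∀ a ∈ l2, a = e) → (∀ a ∈ l3, a = e) →
      prd (l1 ++ g :: l2 ++ s :: l3) = ((g * s : S) : WithOne S) := by
  intro l1 l2 l3 h1 h2 h3
  have hes : (e : WithOne S) * ((g * s : S) : WithOne S) = ((g * s : S) : WithOne S) := by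
    rw [← WithOne.coe_mul]
    congr 1
    rcases hg with h | h
    · rw [← mul_assoc, hec g, h]
    · rw [hec, mul_assoc, h]
  have hse : ((g * s : S) : WithOne S) * (e : WithOne S) = ((g * s : S) : WithOne S) := by
    rw [← hes]
    rw [← WithOne.coe_mul, ← WithOne.coe_mul, hec (g * s), mul_assoc, he]
  have hges : (g : WithOne S) * (e : WithOne S) * (s : WithOne S) = ((g * s : S) : WithOne S) := by
    rw [← WithOne.coe_mul, ← WithOne.coe_mul]
    congr 1
    rcases hg with h | h
    · rw [h]
    · rw [mul_assoc, hec s, h]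
  have e0 : prd (l1 ++ g :: l2 ++ s :: l3) =
      prd l1 * ((g : WithOne S) * prd l2 * (s : WithOne S)) * prd l3 := by
    rw [prd_append, prd_append, prd_cons, prd_cons]
    simp only [mul_assoc]
  have e2 : (g : WithOne S) * prd l2 * (s : WithOne S) = ((g * s : S) : WithOne S) := by
    rcases prd_const he l2 h2 with e2 | e2
    · rw [e2, mul_one, WithOne.coe_mul]
    · rw [e2]; exact hges
  rw [e0, e2]
  have e1 : prd l1 * ((g * s : S) : WithOne S) = ((g * s : S) : WithOne S) := by
    rcases prd_const he l1 h1 with e1 | e1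
    · rw [e1, one_mul]
    · rw [e1]; exact hes
  rw [e1]
  rcases prd_const he l3 h3 with e3 | e3
  · rw [e3, mul_one]
  · rw [e3]; exact hse

/-- a list with exactly two entries different from `e` -/
theorem prd_two_getElem {S : Type} [Semigroup S] {e g s : S} (he : e * e = e)
    (hec : ∀ t, e * t = t * e) (hg : g * e = g ∨ s * e = s) (l : List S) {p q : ℕ} (hpq : p < q)
    (hq : q < l.length) (h1 : l[p]'(by omega) = g) (h2 : l[q] = s)
    (h3 : ∀ (k : ℕ) (hk : k < l.length), k ≠ p → k ≠ q → l[k] = e) :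
    prd l = ((g * s : S) : WithOne S) := by
  have hp : p < l.length := by omega
  have d1 : l = l.take p ++ g :: l.drop (p + 1) := by
    conv_lhs => rw [← List.take_append_drop p l, List.drop_eq_getElem_cons hp, h1]
  have hq2 : q - (p + 1) < (l.drop (p + 1)).length := by
    rw [List.length_drop]; omega
  have hq3 : (l.drop (p + 1))[q - (p + 1)] = s := by
    rw [List.getElem_drop]
    rw [← h2]
    congr 1
    omega
  have d2 : l.drop (p + 1) = (l.drop (p + 1)).take (q - (p + 1)) ++
      s :: (l.drop (p + 1)).drop (q - (p + 1) + 1) := by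
    conv_lhs => rw [← List.take_append_drop (q - (p + 1)) (l.drop (p + 1)),
      List.drop_eq_getElem_cons hq2, hq3]
  have d3 : l = l.take p ++ g :: (l.drop (p + 1)).take (q - (p + 1)) ++
      s :: (l.drop (p + 1)).drop (q - (p + 1) + 1) := by
    conv_lhs => rw [d1, d2]
    simp
  rw [d3]
  refine prd_two he hec hg _ _ _ ?_ ?_ ?_
  · intro a ha
    obtain ⟨k, hk, rfl⟩ := List.getElem_of_mem ha
    rw [List.length_take] at hk
    rw [List.getElem_take]
    exact h3 k (by omega) (by omega) (by omega)
  · intro a ha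
    obtain ⟨k, hk, rfl⟩ := List.getElem_of_mem ha
    rw [List.length_take, List.length_drop] at hk
    rw [List.getElem_take, List.getElem_drop]
    exact h3 _ (by omega) (by omega) (by omega)
  · intro a ha
    obtain ⟨k, hk, rfl⟩ := List.getElem_of_mem ha
    rw [List.length_drop, List.length_drop] at hk
    rw [List.getElem_drop, List.getElem_drop]
    exact h3 _ (by omega) (by omega) (by omega)

/-- In a finite semigroup with central idempotents satisfying a nontrivial permutation identity all group
elements are central. -/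
theorem centralGp_of_perm {S : Type} [Semigroup S] [Finite S] (hc : CentralIdem S) {n : ℕ}
    {σ : Equiv.Perm (Fin n)} (hσ : σ ≠ 1) (h : PermId S σ) : CentralGp S := by
  classical
  intro g s hg
  have he := om_idem g
  have hge : g * om g = g := isGp_iff.1 hg
  set e := om g with hedef
  have hec : ∀ t, e * t = t * e := fun t => hc e t he
  -- an inversion
  obtain ⟨i, j, hij, hji⟩ : ∃ i j : Fin n, i < j ∧ σ j < σ i := by
    by_contra hne
    push Not at hne
    apply hσ
    have hmono : StrictMono σ := by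
      intro i j hij
      exact lt_of_le_of_ne (hne i j hij) fun h => (ne_of_lt hij) (σ.injective h)
    have hs : StrictMono.orderIsoOfSurjective σ hmono σ.surjective = OrderIso.refl (Fin n) :=
      Subsingleton.elim _ _
    ext k
    have := congrArg (fun f : Fin n ≃o Fin n => ((f k : Fin n) : ℕ)) hs
    simpa using this
  -- the evaluation `σ i ↦ g`, `σ j ↦ s`, all others `↦ e`
  have hne : σ j ≠ σ i := ne_of_lt hji
  let a : Fin n → S := fun k => if k = σ i then g else if k = σ j then s else e
  have ha1 : a (σ i) = g := by simp [a]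
  have ha2 : a (σ j) = s := by simp [a, hne]
  have ha3 : ∀ k, k ≠ σ i → k ≠ σ j → a k = e := by
    intro k h1 h2
    simp [a, h1, h2]
  have key := h a
  have L : prd (List.ofFn a) = ((s * g : S) : WithOne S) := by
    refine prd_two_getElem (p := (σ j : ℕ)) (q := (σ i : ℕ)) he hec (Or.inr hge) _ hji
      (by rw [List.length_ofFn]; exact (σ i).2) ?_ ?_ ?_
    · simpa using ha2
    · simpa using ha1
    · intro k hk h1 h2
      rw [List.getElem_ofFn]
      apply ha3
      · intro h; exact h2 (by rw [← h])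
      · intro h; exact h1 (by rw [← h])
  have R : prd (List.ofFn fun k => a (σ k)) = ((g * s : S) : WithOne S) := by
    refine prd_two_getElem (p := (i : ℕ)) (q := (j : ℕ)) he hec (Or.inl hge) _ hij
      (by rw [List.length_ofFn]; exact j.2) ?_ ?_ ?_
    · simpa using ha1
    · simpa using ha2
    · intro k hk h1 h2
      rw [List.getElem_ofFn]
      apply ha3
      · intro h; exact h1 (by rw [← σ.injective h])
      · intro h; exact h2 (by rw [← σ.injective h])
  rw [L, R] at key
  exact (coe_inj.1 key).symm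

theorem endo_of_sqGp {V : Set (Wd × Wd)}
    (h : ∀ (S : Type) [Semigroup S] [Finite S], Mem V S → CentralGp S ∨ (CentralIdem S ∧ SqGp S)) :
    Endomorphic V := by
  intro B
  obtain ⟨n, hn⟩ := suff1 B
  obtain ⟨n', hn'⟩ := suff3 B
  refine ⟨n + n', fun S _ _ hS hcard => ?_⟩
  rcases h S hS with h1 | ⟨h1, h2⟩
  · exact hn S h1 (by omega)
  · exact hn' S h1 h2 (by omega)

/-- `x ^ 2 = x ^ (k + 2)` makes squares elements of subgroups -/
theorem sqGp_of_id {S : Type} [Semigroup S] [Finite S] {k : ℕ} (hk : 0 < k)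
    (h : ∀ x : S, pw x 1 = pw x (k + 1)) : SqGp S := by
  intro x
  rw [isGp_iff]
  have hxx : x * x = pw x 1 := rfl
  have h1 : ∀ j : ℕ, pw x 1 = pw x (1 + k * j) := by
    intro j
    induction j with
    | zero => rfl
    | succ j ih =>
      have e1 : 1 + k * (j + 1) = (k + 1) + (k * j - 1) + 1 ∨ k * j = 0 := by
        rcases Nat.eq_zero_or_pos (k * j) with h0 | h0
        · exact Or.inr h0
        · left
          rw [Nat.mul_add]
          omega
      rcases e1 with e1 | e1
      · rw [e1, ← pw_mul_pw, ← h x, pw_mul_pw, ih]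
        congr 1
        have : 0 < k * j := by
          by_contra h0
          rw [Nat.mul_add] at e1
          omega
        omega
      · have e2 : 1 + k * (j + 1) = k + 1 := by
          rw [Nat.mul_add, e1]
          omega
        rw [e2]
        exact h x
  obtain ⟨N, hN⟩ := om_eq_pw x
  have e3 : om (x * x) = om x := by rw [hxx, om_pw]
  rw [e3, hxx]
  -- `om x = x ^ (k (N + 1))`
  have e4 : om x = pw x (k * (N + 1) - 1) := by
    have h2 : pw (pw x N) (k - 1) = pw x (k * (N + 1) - 1) := by
      rw [pw_pw]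
      congr 2
      have : k - 1 + 1 = k := by omega
      rw [this, mul_comm]
    rw [← h2, ← hN, pw_of_idem (om_idem x)]
  rw [e4, pw_mul_pw]
  have hpos : 0 < k * (N + 1) := Nat.mul_pos hk (Nat.succ_pos N)
  have e5 : 1 + (k * (N + 1) - 1) + 1 = 1 + k * (N + 1) := by omega
  rw [e5, ← h1]

/-- the classification for varieties containing `C2` under a condition on the subgroups or squares of the finite
members -/
theorem classification_C2 (V : Set (Wd × Wd)) (hC : Mem V C2)
    (h : (∀ (S : Type) [Semigroup S] [Finite S], Mem V S → Aper S) ∨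
      (∃ (n : ℕ) (σ : Equiv.Perm (Fin n)), σ ≠ 1 ∧
        ∀ (S : Type) [Semigroup S] [Finite S], Mem V S → PermId S σ) ∨
      (∃ k : ℕ, 0 < k ∧ ∀ (S : Type) [Semigroup S] [Finite S], Mem V S →
        ∀ x : S, pw x 1 = pw x (k + 1)) ∨
      (∀ (S : Type) [Semigroup S] [Finite S], Mem V S → CentralIdem S → CentralGp S ∨ SqGp S)) :
    Endomorphic V ↔ ¬ Mem V P ∧ ¬ Mem V Pᵐᵒᵖ := by
  constructor
  · exact fun h => ⟨fun hP => not_endo_of_P hC hP h, fun hP => not_endo_of_P' hC hP h⟩
  · rintro ⟨h1, h2⟩
    refine endo_of_sqGp fun S _ _ hS => ?_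
    have hcen := central_of_P hC h1 h2 hS
    rcases h with h | ⟨n, σ, hσ, h⟩ | ⟨k, hk, h⟩ | h
    · exact Or.inl (centralGp_of_aper (h S hS) hcen)
    · exact Or.inl (centralGp_of_perm hcen hσ (h S hS))
    · exact Or.inr ⟨hcen, sqGp_of_id hk (h S hS)⟩
    · rcases h S hS hcen with h | h
      · exact Or.inl h
      · exact Or.inr ⟨hcen, h⟩

/-- the necessary condition -/
theorem necessary (V : Set (Wd × Wd)) (h : Endomorphic V) :
    ¬ Mem V A0 ∧ (Mem V C2 → ¬ Mem V P ∧ ¬ Mem V Pᵐᵒᵖ) :=
  ⟨fun hA => not_endo_of_A0 hA h, fun hC => ⟨fun hP => not_endo_of_P hC hP h,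
    fun hP => not_endo_of_P' hC hP h⟩⟩

end EVS
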