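import Pool.Agent.EVS.Defs2

/-!
# [EV-G] general constructions of endomorphisms
-/

set_option autoImplicit false

namespace EVS

variable {S : Type} [Semigroup S]

/-- Changing an endomorphism `ρ` on a set `R`. -/
theorem moveGen (ρ : S →ₙ* S) (κ : S → S) (R UL UR : Set S)
    (h1 : ∀ s t, s * t ∈ R ↔ (s ∈ R ∧ t ∈ UR) ∨ (s ∈ UL ∧ t ∈ R))
    (h2 : ∀ s ∈ R, s ∉ UL ∧ s ∉ UR)
    (h3 : ∀ s ∈ R, ∀ t ∈ UR, κ (s * t) = κ s * ρ t)
    (h4 : ∀ s ∈ UL, ∀ t ∈ R, κ (s * t) = ρ s * κ t)
    (h5 : ∀ s ∈ R, ∀ t, t ∉ UR → κ s * ρ t = ρ s * ρ t)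
    (h6 : ∀ s, s ∉ UL → ∀ t ∈ R, ρ s * κ t = ρ s * ρ t)
    (h7 : ∀ s ∈ R, ∀ t ∈ R, κ s * κ t = ρ s * ρ t) :
    ∃ ψ : S →ₙ* S, (∀ s ∈ R, ψ s = κ s) ∧ (∀ s, s ∉ R → ψ s = ρ s) := by
  classical
  refine ⟨⟨fun s => if s ∈ R then κ s else ρ s, ?_⟩, ?_, ?_⟩
  · intro s t
    by_cases hs : s ∈ R
    · by_cases ht : t ∈ R
      · have hst : s * t ∉ R := by
          rw [h1]
          rintro (⟨_, h⟩ | ⟨h, _⟩)
          · exact (h2 t ht).2 h
          · exact (h2 s hs).1 h
        simp only [hs, ht, hst, if_true, if_false]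
        rw [map_mul, h7 s hs t ht]
      · by_cases hu : t ∈ UR
        · have hst : s * t ∈ R := (h1 s t).2 (Or.inl ⟨hs, hu⟩)
          simp only [hs, ht, hst, if_true, if_false]
          exact h3 s hs t hu
        · have hst : s * t ∉ R := by
            rw [h1]
            rintro (⟨_, h⟩ | ⟨_, h⟩)
            · exact hu h
            · exact ht h
          simp only [hs, ht, hst, if_true, if_false]
          rw [map_mul, h5 s hs t hu]
    · by_cases ht : t ∈ R
      · by_cases hu : s ∈ UL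
        · have hst : s * t ∈ R := (h1 s t).2 (Or.inr ⟨hu, ht⟩)
          simp only [hs, ht, hst, if_true, if_false]
          exact h4 s hu t ht
        · have hst : s * t ∉ R := by
            rw [h1]
            rintro (⟨h, _⟩ | ⟨h, _⟩)
            · exact hs h
            · exact hu h
          simp only [hs, ht, hst, if_true, if_false]
          rw [map_mul, h6 s hu t ht]
      · have hst : s * t ∉ R := by
          rw [h1]
          rintro (⟨h, _⟩ | ⟨_, h⟩)
          · exact hs h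
          · exact ht h
        simp only [hs, ht, hst, if_false]
        exact map_mul ρ s t
  · intro s hs
    show (if s ∈ R then κ s else ρ s) = κ s
    rw [if_pos hs]
  · intro s hs
    show (if s ∈ R then κ s else ρ s) = ρ s
    rw [if_neg hs]

/-- Projection onto a set `F` of idempotents. -/
theorem base [Finite S] (hcomm : ∀ e f : S, e * e = e → f * f = f → e * f = f * e)
    (hom : ∀ s t : S, om (s * t) = om s * om t) (F : Set S) (hF : ∀ p ∈ F, p * p = p)
    (hmul : ∀ p ∈ F, ∀ q ∈ F, p * q ∈ F)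
    (hr : ∀ k : S, k * k = k → ∃ p ∈ F, k * p = p ∧ ∀ q ∈ F, k * q = q → p * q = q) :
    ∃ ρ : S →ₙ* S, ∀ s, ρ s ∈ F ∧ om s * ρ s = ρ s ∧ ∀ q ∈ F, om s * q = q → ρ s * q = q := by
  choose r hr1 hr2 hr3 using fun s : S => hr (om s) (om_idem s)
  refine ⟨⟨r, ?_⟩, fun s => ⟨hr1 s, hr2 s, hr3 s⟩⟩
  intro s t
  have e1 := hF _ (hr1 s)
  have e2 := hF _ (hr1 t)
  have e3 := hF _ (hr1 (s * t))
  have c1 := hcomm _ _ e1 e2
  have cs := om_idem s
  have ct := om_idem t
  -- `r s * r t` is below `om (s t)`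
  have a1 : om (s * t) * (r s * r t) = r s * r t := by
    rw [hom, mul_assoc, ← mul_assoc (om t), hcomm (om t) (r s) ct e1, mul_assoc (r s), hr2 t,
      ← mul_assoc, hr2 s]
  have a2 : r (s * t) * (r s * r t) = r s * r t := hr3 _ _ (hmul _ (hr1 s) _ (hr1 t)) a1
  have b0 := hr2 (s * t)
  have b1 : om s * r (s * t) = r (s * t) := by
    conv_lhs => rw [← b0, hom, ← mul_assoc, ← mul_assoc, cs]
    rw [← hom, b0]
  have b2 : om t * r (s * t) = r (s * t) := by
    conv_lhs => rw [← b0, hom, hcomm _ _ cs ct, ← mul_assoc, ← mul_assoc, ct]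
    rw [← hcomm _ _ cs ct, ← hom, b0]
  have a3 : r s * r (s * t) = r (s * t) := hr3 s _ (hr1 _) b1
  have a4 : r t * r (s * t) = r (s * t) := hr3 t _ (hr1 _) b2
  show r (s * t) = r s * r t
  rw [← a2, hcomm _ _ e3 (hF _ (hmul _ (hr1 s) _ (hr1 t))), mul_assoc, a4, a3]

/-- constant endomorphisms -/
theorem card_idem_le [Finite S] : Nat.card {e : S // e * e = e} ≤ nEnd S := by
  unfold nEnd
  have : Finite (S →ₙ* S) := Finite.of_injective (fun f : S →ₙ* S => (f : S → S)) DFunLike.coe_injective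
  by_cases hne : Nonempty S
  · obtain ⟨s⟩ := hne
    refine Nat.card_le_card_of_injective
      (fun e : {e : S // e * e = e} => (⟨fun _ => e.1, fun _ _ => e.2.symm⟩ : S →ₙ* S)) ?_
    intro e f h
    have := DFunLike.congr_fun h s
    exact Subtype.ext this
  · rw [not_nonempty_iff] at hne
    have : IsEmpty {e : S // e * e = e} := ⟨fun e => hne.false e.1⟩
    rw [Nat.card_of_isEmpty]
    exact Nat.zero_le _

theorem finite_end [Finite S] : Finite (S →ₙ* S) :=
  Finite.of_injective (fun f : S →ₙ* S => (f : S → S)) DFunLike.coe_injective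

theorem nEnd_pos [Finite S] : 0 < nEnd S := by
  have := finite_end (S := S)
  have : Nonempty (S →ₙ* S) := ⟨MulHom.id S⟩
  exact Nat.card_pos

/-- injections into the set of endomorphisms -/
theorem card_le_nEnd [Finite S] {α : Type} (R : α → (S →ₙ* S) → Prop) (h1 : ∀ a, ∃ ψ, R a ψ)
    (h2 : ∀ a a' ψ, R a ψ → R a' ψ → a = a') : Nat.card α ≤ nEnd S := by
  have := finite_end (S := S)
  choose f hf using h1
  refine Nat.card_le_card_of_injective f ?_
  intro a a' h
  exact h2 a a' (f a) (hf a) (h ▸ hf a')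

end EVS
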