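import Pool.Agent.EVS.Basic

/-!
# [EV-H1] identities pass to divisors and products
-/

set_option autoImplicit false

namespace EVS

/-- evaluation of words commutes with homomorphisms -/
theorem map_lift {S T : Type} [Semigroup S] [Semigroup T] (f : S →ₙ* T) (φ : ℕ → S) (w : Wd) :
    f (FreeSemigroup.lift φ w) = FreeSemigroup.lift (fun i => f (φ i)) w := by
  have h : f.comp (FreeSemigroup.lift φ) = FreeSemigroup.lift (fun i => f (φ i)) := by
    apply FreeSemigroup.hom_ext
    funext i
    simp
  rw [← h]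
  rfl

/-- If a subset `D` of `T`, closed under products, is mapped multiplicatively onto `S`, then the identities
of `T` hold in `S`. -/
theorem holds_of_div {T S : Type} [Semigroup T] [Semigroup S] {p : Wd × Wd} (D : Set T) (g : T → S)
    (hD : ∀ a ∈ D, ∀ b ∈ D, a * b ∈ D) (hg : ∀ a ∈ D, ∀ b ∈ D, g (a * b) = g a * g b)
    (hs : ∀ s : S, ∃ a ∈ D, g a = s) (h : Holds T p) : Holds S p := by
  intro φ
  choose ψ hψ1 hψ2 using fun i => hs (φ i)
  have key : ∀ w : Wd, FreeSemigroup.lift ψ w ∈ D ∧
      g (FreeSemigroup.lift ψ w) = FreeSemigroup.lift φ w := by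
    intro w
    induction w using FreeSemigroup.recOnMul with
    | ih1 x => simpa using ⟨hψ1 x, hψ2 x⟩
    | ih2 x y hx hy =>
      rw [map_mul, map_mul, FreeSemigroup.lift_of, FreeSemigroup.lift_of]
      rw [FreeSemigroup.lift_of, FreeSemigroup.lift_of] at hx
      exact ⟨hD _ hx.1 _ hy.1, by rw [hg _ hx.1 _ hy.1, hx.2, hy.2]⟩
  rw [← (key p.1).2, ← (key p.2).2, h ψ]

theorem holds_prod {S T : Type} [Semigroup S] [Semigroup T] {p : Wd × Wd} (hS : Holds S p)
    (hT : Holds T p) : Holds (S × T) p := by
  intro φ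
  apply Prod.ext
  · have h := hS (fun i => (φ i).1)
    have := map_lift (MulHom.fst S T) φ
    simp only [MulHom.coe_fst] at this
    rw [this, this, h]
  · have h := hT (fun i => (φ i).2)
    have := map_lift (MulHom.snd S T) φ
    simp only [MulHom.coe_snd] at this
    rw [this, this, h]

theorem mem_of_div {V : Set (Wd × Wd)} {T S : Type} [Semigroup T] [Semigroup S] (D : Set T)
    (g : T → S) (hD : ∀ a ∈ D, ∀ b ∈ D, a * b ∈ D) (hg : ∀ a ∈ D, ∀ b ∈ D, g (a * b) = g a * g b)
    (hs : ∀ s : S, ∃ a ∈ D, g a = s) (h : Mem V T) : Mem V S :=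
  fun p hp => holds_of_div D g hD hg hs (h p hp)

theorem mem_prod {V : Set (Wd × Wd)} {S T : Type} [Semigroup S] [Semigroup T] (hS : Mem V S)
    (hT : Mem V T) : Mem V (S × T) := fun p hp => holds_prod (hS p hp) (hT p hp)

/-- the letters of a word -/
def toL (w : Wd) : List ℕ := w.head :: w.tail

/-- number of occurrences of a letter -/
def cnt (x : ℕ) (w : Wd) : ℕ := (toL w).count x

theorem toL_of (x : ℕ) : toL (FreeSemigroup.of x) = [x] := rfl

theorem toL_mul (u w : Wd) : toL (u * w) = toL u ++ toL w := rfl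

theorem toL_ne_nil (w : Wd) : toL w ≠ [] := List.cons_ne_nil _ _

/-- the value of a word is the product of the values of its letters -/
theorem coe_lift {S : Type} [Semigroup S] (φ : ℕ → S) (w : Wd) :
    ((FreeSemigroup.lift φ w : S) : WithOne S) = prd ((toL w).map φ) := by
  induction w using FreeSemigroup.recOnMul with
  | ih1 x => rw [toL_of, FreeSemigroup.lift_of, List.map_singleton, prd_singleton]
  | ih2 x y hx hy => rw [map_mul, WithOne.coe_mul, hx, hy, toL_mul, List.map_append, prd_append]

end EVS
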