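import Pool.Agent.EVS.Law

/-!
# [EV-N2c] the semigroups `AF m`
-/

set_option autoImplicit false

namespace EVS

/-- elements of a semigroup generated by the idempotents `h, f, g, j`;
`p = hf = hgf = hjf`, `q = fg = fhg`, `u = hjg`, `gh = gj = jh = 0`, `fjg = 0` -/
inductive BB : Type
  | h | f | g | j | hg | gf | hj | jf | fh | fj | jg | p | q | u | o
  deriving DecidableEq, Fintype

/-- multiplication of `BB` -/
def BB.mul : BB → BB → BB
  | .h, .h => .h
  | .h, .f => .p
  | .h, .g => .hg
  | .h, .j => .hj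
  | .h, .hg => .hg
  | .h, .gf => .p
  | .h, .hj => .hj
  | .h, .jf => .p
  | .h, .jg => .u
  | .h, .p => .p
  | .h, .u => .u
  | .f, .h => .fh
  | .f, .f => .f
  | .f, .g => .q
  | .f, .j => .fj
  | .f, .hg => .q
  | .f, .fh => .fh
  | .f, .fj => .fj
  | .f, .q => .q
  | .g, .f => .gf
  | .g, .g => .g
  | .g, .gf => .gf
  | .j, .f => .jf
  | .j, .g => .jg
  | .j, .j => .j
  | .j, .jf => .jf
  | .j, .jg => .jg
  | .hg, .f => .p
  | .hg, .g => .hg
  | .hg, .gf => .p
  | .gf, .f => .gf
  | .hj, .f => .p
  | .hj, .g => .u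
  | .hj, .j => .hj
  | .hj, .jf => .p
  | .hj, .jg => .u
  | .jf, .f => .jf
  | .fh, .h => .fh
  | .fh, .g => .q
  | .fh, .hg => .q
  | .fj, .j => .fj
  | .jg, .g => .jg
  | .p, .f => .p
  | .q, .g => .q
  | .u, .g => .u
  | _, _ => .o

instance : Semigroup BB where
  mul := BB.mul
  mul_assoc := by decide

/-- the elements of `AF m`: `BB` and new elements `y i` (from `h` to `f`) and `x i` (from `f` to `g`) -/
inductive AF (m : ℕ) : Type
  | b (s : BB)
  | y (i : Fin m)
  | x (i : Fin m)
  deriving DecidableEq, Fintype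

/-- multiplication of `AF m` -/
def AF.mul {m : ℕ} : AF m → AF m → AF m
  | .b s, .b s' => .b (s * s')
  | .b s, .y i => if s = .h then .y i else .b .o
  | .b s, .x i => if s = .f then .x i else .b .o
  | .y i, .b s => if s = .f then .y i else .b .o
  | .x i, .b s => if s = .g then .x i else .b .o
  | .y i, .x k => if i ≤ k then .b .u else .b .o
  | _, _ => .b .o

theorem af_o_mul : ∀ s : BB, (BB.o : BB) * s = BB.o := by decide
theorem af_mul_o : ∀ s : BB, s * (BB.o : BB) = BB.o := by decide
theorem af_mul_h : ∀ s t : BB, s * t = BB.h ↔ s = BB.h ∧ t = BB.h := by decide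
theorem af_mul_f : ∀ s t : BB, s * t = BB.f ↔ s = BB.f ∧ t = BB.f := by decide
theorem af_mul_g : ∀ s t : BB, s * t = BB.g ↔ s = BB.g ∧ t = BB.g := by decide
theorem af_mul_u : ∀ s : BB, s * BB.u = if s = BB.h then BB.u else BB.o := by decide
theorem af_u_mul : ∀ s : BB, BB.u * s = if s = BB.g then BB.u else BB.o := by decide

/-- PROOF: 27 cases on the constructors.  Facts on `BB` (by `decide`): `s * s' = h` iff `s = s' = h`, the same
for `f` and `g`; `s * u = u` if `s = h` and `o` otherwise; `u * s = u` if `s = g` and `o` otherwise;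
`o` is a zero.  Checked by computer for small `m`. -/
theorem AF.mul_assoc' {m : ℕ} (a b c : AF m) :
    AF.mul (AF.mul a b) c = AF.mul a (AF.mul b c) := by
  rcases a with s | i | i <;> rcases b with t | j | j <;> rcases c with r | k | k <;>
    simp only [AF.mul, mul_assoc, af_mul_h, af_mul_f, af_mul_g] <;> split_ifs <;>
    simp_all [af_o_mul, af_mul_o, af_mul_u, af_u_mul]

instance (m : ℕ) : Semigroup (AF m) where
  mul := AF.mul
  mul_assoc := AF.mul_assoc'

theorem af_mul_def {m : ℕ} (a b : AF m) : a * b = AF.mul a b := rfl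
theorem af_law1 : ∀ s : BB, s * s * s = s * s := by decide
theorem af_law2 : ∀ s t : BB, s * t * s = s * t * (s * t) ∧ s * t * s = t * s * (t * s) := by decide
theorem af_ne : (BB.o : BB) ≠ BB.h ∧ (BB.o : BB) ≠ BB.f ∧ (BB.o : BB) ≠ BB.g ∧ (BB.u : BB) ≠ BB.h ∧
    (BB.u : BB) ≠ BB.f ∧ (BB.u : BB) ≠ BB.g := by decide

/-- PROOF: `decide` for `BB`; for `AF m` cases: all squares of `y i`, `x i` are `b o`; `a * c * a` for `a = y i` or
`x i` is `b o` (also `a * c * (a * c)` and `c * a * (c * a)`), and for `a = b s`, `c = y i` or `x i` as well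
(`s y s ≠ o` would need `s = h` and `s = f`). -/
theorem AF.law (m : ℕ) : Law (AF m) := by
  constructor
  · intro x
    rcases x with s | i | i
    · simp only [af_mul_def, AF.mul, af_law1]
    · simp only [af_mul_def, AF.mul]
      simp
    · simp only [af_mul_def, AF.mul]
      simp
  · intro x y
    rcases x with s | i | i <;> rcases y with t | j | j
    · have h := af_law2 s t
      simp only [af_mul_def, AF.mul]
      exact ⟨congrArg AF.b h.1, congrArg AF.b h.2⟩
    all_goals
      simp only [af_mul_def, AF.mul]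
      split_ifs <;> simp_all [AF.mul, af_o_mul, af_mul_o, af_mul_u, af_u_mul, af_ne]

theorem AF.card (m : ℕ) : m ≤ Nat.card (AF m) := by
  have h : Function.Injective (fun i : Fin m => (AF.y i : AF m)) := by
    intro i j hij
    simpa using hij
  have h2 := Nat.card_le_card_of_injective _ h
  rwa [Nat.card_fin] at h2

end EVS
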