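import Pool.Agent.EVS.Defs

/-!
# [EV] powers, idempotent powers
-/

set_option autoImplicit false

namespace EVS

variable {S : Type} [Semigroup S]

theorem pw_zero (s : S) : pw s 0 = s := rfl

theorem pw_succ (s : S) (n : ℕ) : pw s (n + 1) = pw s n * s := rfl

/-- in `S` with a new identity `pw` is the power -/
theorem coe_pw (s : S) (n : ℕ) : ((pw s n : S) : WithOne S) = (s : WithOne S) ^ (n + 1) := by
  induction n with
  | zero => simp [pw]
  | succ n ih => rw [pw_succ, WithOne.coe_mul, ih, ← pow_succ]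

omit [Semigroup S] in
theorem coe_inj {s t : S} : (s : WithOne S) = (t : WithOne S) ↔ s = t := WithOne.coe_inj

theorem pw_mul_pw (s : S) (m n : ℕ) : pw s m * pw s n = pw s (m + n + 1) := by
  rw [← coe_inj, WithOne.coe_mul, coe_pw, coe_pw, coe_pw, ← pow_add]
  have : m + 1 + (n + 1) = m + n + 1 + 1 := by omega
  rw [this]

theorem pw_pw (s : S) (m n : ℕ) : pw (pw s m) n = pw s ((m + 1) * (n + 1) - 1) := by
  rw [← coe_inj, coe_pw, coe_pw, coe_pw, ← pow_mul]
  have : 1 ≤ (m + 1) * (n + 1) := Nat.one_le_iff_ne_zero.2 (by positivity)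
  have h : (m + 1) * (n + 1) = (m + 1) * (n + 1) - 1 + 1 := by omega
  rw [← h]

theorem mul_pw (s : S) (n : ℕ) : s * pw s n = pw s (n + 1) := by
  have := pw_mul_pw s 0 n
  rw [pw_zero] at this
  rw [this]
  have h : 0 + n + 1 = n + 1 := by omega
  rw [h]

theorem pw_comm (s : S) (m n : ℕ) : pw s m * pw s n = pw s n * pw s m := by
  rw [pw_mul_pw, pw_mul_pw, add_comm m n]

theorem mul_pw_comm (s : S) (n : ℕ) : s * pw s n = pw s n * s := by
  rw [mul_pw, pw_succ]

theorem map_pw {T : Type} [Semigroup T] (f : S →ₙ* T) (s : S) (n : ℕ) :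
    f (pw s n) = pw (f s) n := by
  induction n with
  | zero => rfl
  | succ n ih => rw [pw_succ, map_mul, ih, pw_succ]

theorem pw_of_idem {e : S} (he : e * e = e) (n : ℕ) : pw e n = e := by
  induction n with
  | zero => rfl
  | succ n ih => rw [pw_succ, ih, he]

/-- powers of commuting elements -/
theorem pw_mul {s t : S} (h : s * t = t * s) (n : ℕ) : pw (s * t) n = pw s n * pw t n := by
  have h' : Commute (s : WithOne S) (t : WithOne S) := by
    show (s : WithOne S) * t = t * s
    rw [← WithOne.coe_mul, h, WithOne.coe_mul]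
  rw [← coe_inj, WithOne.coe_mul, coe_pw, coe_pw, coe_pw, WithOne.coe_mul, h'.mul_pow]

theorem pw_commute {s t : S} (h : s * t = t * s) (n : ℕ) : pw s n * t = t * pw s n := by
  have h' : Commute (s : WithOne S) (t : WithOne S) := by
    show (s : WithOne S) * t = t * s
    rw [← WithOne.coe_mul, h, WithOne.coe_mul]
  rw [← coe_inj, WithOne.coe_mul, WithOne.coe_mul, coe_pw, (h'.pow_left (n + 1)).eq]

/-- every element of a finite semigroup has an idempotent power -/
theorem exists_idem_pw [Finite S] (s : S) : ∃ n, pw s n * pw s n = pw s n := by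
  obtain ⟨i, j, hij, h⟩ := Finite.exists_ne_map_eq_of_infinite (fun n : ℕ => pw s n)
  wlog hlt : i < j generalizing i j
  · exact this j i hij.symm h.symm (lt_of_le_of_ne (not_lt.1 hlt) hij.symm)
  -- `s^(i+1) = s^(j+1)`, `d = j - i`; `s^(k+1) = s^(k+1+d m)` for `k ≥ i`
  have h1 : ∀ k, i ≤ k → pw s (k + (j - i)) = pw s k := by
    intro k hk
    rcases eq_or_lt_of_le hk with rfl | hk
    · rw [Nat.add_sub_cancel' hlt.le]
      exact h.symm
    · have e1 : k = i + (k - i - 1) + 1 := by omega
      have e2 : k + (j - i) = j + (k - i - 1) + 1 := by omega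
      rw [e2, ← pw_mul_pw]
      conv_rhs => rw [e1, ← pw_mul_pw]
      rw [h]
  have h2 : ∀ m k, i ≤ k → pw s (k + m * (j - i)) = pw s k := by
    intro m
    induction m with
    | zero => intro k _; simp
    | succ m ih =>
      intro k hk
      have : k + (m + 1) * (j - i) = (k + m * (j - i)) + (j - i) := by ring
      rw [this, h1 _ (le_trans hk (Nat.le_add_right _ _)), ih k hk]
  -- take `n + 1 = (i + 1) (j - i)`
  refine ⟨(i + 1) * (j - i) - 1, ?_⟩
  have hd : 1 ≤ j - i := by omega
  have hle : i + 1 ≤ (i + 1) * (j - i) := Nat.le_mul_of_pos_right _ (by omega)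
  rw [pw_mul_pw]
  have e : (i + 1) * (j - i) - 1 + ((i + 1) * (j - i) - 1) + 1 =
      ((i + 1) * (j - i) - 1) + (i + 1) * (j - i) := by omega
  rw [e]
  exact h2 (i + 1) _ (by omega)

theorem idem_pw_unique {s : S} {m n : ℕ} (hm : pw s m * pw s m = pw s m)
    (hn : pw s n * pw s n = pw s n) : pw s m = pw s n := by
  have h1 : pw (pw s m) n = pw s m := pw_of_idem hm n
  have h2 : pw (pw s n) m = pw s n := pw_of_idem hn m
  rw [pw_pw] at h1 h2
  rw [← h1, ← h2, mul_comm]

/-- the idempotent power of `s` -/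
noncomputable def om [Finite S] (s : S) : S := pw s (exists_idem_pw s).choose

variable [Finite S]

theorem om_idem (s : S) : om s * om s = om s := (exists_idem_pw s).choose_spec

theorem om_eq_pw (s : S) : ∃ n, om s = pw s n := ⟨_, rfl⟩

theorem om_eq {s : S} {n : ℕ} (h : pw s n * pw s n = pw s n) : om s = pw s n :=
  idem_pw_unique (om_idem s) h

theorem om_of_idem {e : S} (he : e * e = e) : om e = e := by
  have := om_eq (s := e) (n := 0) he
  rw [this]
  rfl

theorem om_comm (s : S) : om s * s = s * om s := by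
  obtain ⟨n, h⟩ := om_eq_pw s
  rw [h, mul_pw_comm]

theorem om_om (s : S) : om (om s) = om s := om_of_idem (om_idem s)

theorem om_pw (s : S) (n : ℕ) : om (pw s n) = om s := by
  obtain ⟨m, hm⟩ := om_eq_pw (pw s n)
  have h := om_idem (pw s n)
  rw [hm, pw_pw] at h ⊢
  exact (om_eq h).symm

theorem map_om {T : Type} [Semigroup T] [Finite T] (f : S →ₙ* T) (s : S) : f (om s) = om (f s) := by
  obtain ⟨n, h⟩ := om_eq_pw s
  have h1 := om_idem s
  rw [h] at h1 ⊢
  have h2 : pw (f s) n * pw (f s) n = pw (f s) n := by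
    rw [← map_pw, ← map_mul, h1]
  rw [om_eq h2, map_pw]

/-- there is a uniform exponent -/
theorem exists_expo (S : Type) [Semigroup S] [Finite S] : ∃ N : ℕ, ∀ s : S, om s = pw s N := by
  have : Fintype S := Fintype.ofFinite S
  choose f hf using fun s : S => om_eq_pw s
  refine ⟨(∏ s : S, (f s + 1)) - 1, fun s => ?_⟩
  have hpos : 0 < ∏ s : S, (f s + 1) := Finset.prod_pos fun _ _ => Nat.succ_pos _
  obtain ⟨k, hk⟩ : (f s + 1) ∣ ∏ s : S, (f s + 1) := Finset.dvd_prod_of_mem _ (Finset.mem_univ s)
  have hk0 : 0 < k := by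
    rcases Nat.eq_zero_or_pos k with h | h
    · rw [h] at hk; omega
    · exact h
  have h1 : pw (pw s (f s)) (k - 1) = pw s ((∏ s : S, (f s + 1)) - 1) := by
    rw [pw_pw, hk]
    congr 2
    have : k - 1 + 1 = k := by omega
    rw [this]
  rw [← h1, ← hf s, pw_of_idem (om_idem s)]

/-- an element of a subgroup -/
theorem isGp_iff {g : S} : IsGp g ↔ g * om g = g := by
  constructor
  · rintro ⟨e, h, he, h1, h2, h3, h4⟩
    obtain ⟨n, hn⟩ := om_eq_pw g
    -- `g^(n+1)` idempotent and invertible in the group at `e`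
    have key : ∀ n, pw g n * pw h n = e := by
      intro n
      induction n with
      | zero => exact h3
      | succ n ih =>
        rw [pw_succ, ← mul_pw h n, mul_assoc, ← mul_assoc g h, h3, ← mul_assoc, pw_comm_right he h2 h n]
        exact ih
    have h5 : om g * pw h n = e := by rw [hn]; exact key n
    have h6 : om g * e = e := by
      rw [← h5, ← mul_assoc, om_idem]
    have h7 : om g * e = om g := by
      rw [hn]
      exact pw_right h2 n
    have h8 : om g = e := by rw [← h7, h6]
    rw [h8, h2]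
  · intro h
    obtain ⟨n, hn⟩ := om_eq_pw g
    have hg : om g * g = g := by rw [om_comm, h]
    refine ⟨om g, pw g (n + n), om_idem g, hg, h, ?_, ?_⟩
    · rw [mul_pw, ← pw_mul_pw, ← hn, om_idem]
    · rw [← mul_pw_comm, mul_pw, ← pw_mul_pw, ← hn, om_idem]
where
  pw_right {g e : S} (h2 : g * e = g) (n : ℕ) : pw g n * e = pw g n := by
    induction n with
    | zero => exact h2
    | succ n ih => rw [pw_succ, mul_assoc, h2]
  pw_comm_right {g e : S} (he : e * e = e) (h2 : g * e = g) (h : S) (n : ℕ) :
      pw g n * e * pw h n = pw g n * pw h n := by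
    rw [pw_right h2 n]

/-! ## the product of a list -/

omit [Finite S]

theorem prd_nil : prd ([] : List S) = 1 := rfl

theorem prd_cons (a : S) (l : List S) : prd (a :: l) = (a : WithOne S) * prd l := by
  simp [prd]

theorem prd_append (l l' : List S) : prd (l ++ l') = prd l * prd l' := by
  simp [prd]

theorem prd_singleton (a : S) : prd [a] = (a : WithOne S) := by
  simp [prd]

/-- the product of a nonempty list is in `S` -/
theorem exists_prd {l : List S} (hl : l ≠ []) : ∃ s : S, prd l = (s : WithOne S) := by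
  induction l with
  | nil => exact absurd rfl hl
  | cons a l ih =>
    by_cases h : l = []
    · subst h
      exact ⟨a, prd_singleton a⟩
    · obtain ⟨s, hs⟩ := ih h
      exact ⟨a * s, by rw [prd_cons, hs, WithOne.coe_mul]⟩

theorem ne_nil_of_prd {l : List S} {s : S} (h : prd l = (s : WithOne S)) : l ≠ [] := by
  rintro rfl
  rw [prd_nil] at h
  exact WithOne.one_ne_coe h

end EVS
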