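import Pool.Agent.EVS.Lst

/-!
# [EV-C1] facts on finite semigroups with central group elements
-/

set_option autoImplicit false

namespace EVS

variable {S : Type} [Semigroup S] [Finite S]

/-- idempotents are group elements -/
theorem central_idem (hc : CentralGp S) : CentralIdem S := by
  intro e s he
  exact hc e s ⟨e, e, he, he, he, he, he⟩

omit [Finite S] in
theorem c1_left {g W : S} (h : g * W = W) (n : ℕ) : g * pw W n = pw W n := by
  induction n with
  | zero => exact h
  | succ n ih => rw [pw_succ, ← mul_assoc, ih]

omit [Finite S] in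
theorem c1_right {g W : S} (h : W * g = W) (n : ℕ) : pw W n * g = pw W n := by
  induction n with
  | zero => exact h
  | succ n ih => rw [pw_succ, mul_assoc, h]

/-- PROOF: `pw_succ`, induction on `n`; `pw a (n+1) * pw W (n+1) = pw a n * (a * W) * pw W n` and
`a * W = g` is an identity for `pw W n` on the left (`g W = W`). -/
theorem pw_inv {a W g : S} (h : a * W = g) (hW : g * W = W) (hg : g * g = g) (n : ℕ) :
    pw a n * pw W n = g := by
  induction n with
  | zero => exact h
  | succ n ih =>
    rw [pw_succ a, ← mul_pw W n, mul_assoc, ← mul_assoc a W, h, c1_left hW]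
    exact ih

omit [Finite S] in
theorem c1_inv' {a W g : S} (h : W * a = g) (hW : W * g = W) (n : ℕ) :
    pw W n * pw a n = g := by
  induction n with
  | zero => exact h
  | succ n ih =>
    rw [pw_succ W, ← mul_pw a n, mul_assoc, ← mul_assoc W a, h, ← mul_assoc, c1_right hW]
    exact ih

theorem c1_R {a W g : S} (hg : g * g = g) (h : a * W = g) (hW : g * W = W)
    (ha : a * g = a) : om a = g := by
  obtain ⟨n, hn⟩ := om_eq_pw a
  have h1 : om a * pw W n = g := by rw [hn]; exact pw_inv h hW hg n
  have h2 : om a * g = om a := by rw [hn]; exact c1_right ha n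
  calc om a = om a * g := h2.symm
    _ = om a * (om a * pw W n) := by rw [h1]
    _ = om a * pw W n := by rw [← mul_assoc, om_idem]
    _ = g := h1

theorem c1_R' {a W g : S} (h : W * a = g) (hW : W * g = W)
    (ha : g * a = a) : om a = g := by
  obtain ⟨n, hn⟩ := om_eq_pw a
  have h1 : pw W n * om a = g := by rw [hn]; exact c1_inv' h hW n
  have h2 : g * om a = om a := by rw [hn]; exact c1_left ha n
  calc om a = g * om a := h2.symm
    _ = (pw W n * om a) * om a := by rw [h1]
    _ = pw W n * om a := by rw [mul_assoc, om_idem]
    _ = g := h1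

/-- for a central idempotent `g`: `om (g s) = g om s` -/
theorem c1_om_left {g : S} (hg : g * g = g) (hc : ∀ s : S, g * s = s * g) (s : S) :
    om (g * s) = g * om s := by
  obtain ⟨n, hn⟩ := om_eq_pw s
  have h1 : pw (g * s) n = g * om s := by
    rw [pw_mul (hc s), pw_of_idem hg, hn]
  rw [← h1]
  apply om_eq
  rw [h1, mul_assoc, ← mul_assoc (om s), ← hc (om s), mul_assoc g (om s) (om s), om_idem,
    ← mul_assoc, hg]

/-- With central idempotents `om` is multiplicative.
PROOF: let `e = om s`, `f = om t`, `g = om (s t)`, `h = e f = f e` (idempotent).  By `exists_expo` there is one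
exponent `N` with `om x = pw x N` for all `x`.
General remark (R): if `g` is idempotent, `a W = g`, `g W = W`, and `k = pw a N` is idempotent with `k g = k`,
then `k = g`: with `W' = pw W N` we have `k W' = g` (`pw_inv`), so `k = k g = k k W' = k W' = g`.
(1) `h g = h`: let `a = h s`, `b = h t`.  `pw a N = h * pw s N = h e = h` (`pw_mul`, `pw_of_idem`, `h` central),
in the same way `pw b N = h`.  If `N = 0` then `a = b = h` and `h s t = h`, so `h g = pw (h (s t)) N = h`.
Otherwise `a X = h` and `b Y = h` with `X = pw a (N-1)`, `Y = pw b (N-1)`, `h X = X`, `h Y = Y`.  So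
`(a b) (Y X) = a (b Y) X = a h X = a X = h`, and (R) for `a b` in place of `a`, `h` in place of `g`:
`pw (a b) N = h`.  But `a b = h (s t)`, so `pw (a b) N = h * pw (s t) N = h g`.
(2) `g e = g`: `g = pw (s t) N = s w` for some `w` (as `pw (x y) n` starts with `x`), so
`(g s)(g w) = g s w = g g = g`.  (R) for `a = g s`, `W = g w`: `pw (g s) N = g`, and
`pw (g s) N = g * pw s N = g e`.
(3) `g f = g`: dually `g = w' t`; by centrality `g = g w' t = w' (g t)`, so `(g w')(g t) = g`; use the dual of (R):
`k' = pw (g t) N = g f`, `pw (g w') N * k' = g`, so `k' = g k' = ... = g`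
(`g = W'' k'` gives `g k' = W'' k' k' = W'' k' = g` and `g k' = k'`).
So `g = g e f = g h = h g = h`. -/
theorem om_mul (hc : CentralIdem S) (s t : S) : om (s * t) = om s * om t := by
  have he := om_idem s
  have hf := om_idem t
  have hg := om_idem (s * t)
  have hec : ∀ x : S, om s * x = x * om s := fun x => hc _ x he
  have hfc : ∀ x : S, om t * x = x * om t := fun x => hc _ x hf
  have hgc : ∀ x : S, om (s * t) * x = x * om (s * t) := fun x => hc _ x hg
  set e := om s with hedef
  set f := om t with hfdef
  set g := om (s * t) with hgdef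
  have hh : (e * f) * (e * f) = e * f := by
    rw [mul_assoc, ← mul_assoc f, hfc e, mul_assoc e f f, hf, ← mul_assoc, he]
  have hhc : ∀ x : S, (e * f) * x = x * (e * f) := fun x => hc _ x hh
  -- (1) `h g = h`
  have h1 : (e * f) * g = e * f := by
    set h := e * f with hhdef
    have hhe : h * e = h := by
      rw [hhdef, mul_assoc, hfc e, ← mul_assoc, he]
    have hhf : h * f = h := by rw [hhdef, mul_assoc, hf]
    have key : ∀ x : S, h * om x = h → ∃ X : S, (h * x) * X = h ∧ h * X = X := by
      intro x hx
      obtain ⟨n, hn⟩ := om_eq_pw x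
      have e1 : pw (h * x) n = h := by
        rw [pw_mul (hhc x), pw_of_idem hh, ← hn, hx]
      refine ⟨pw (h * x) (n + n), ?_, ?_⟩
      · rw [mul_pw, ← pw_mul_pw, e1, hh]
      · apply c1_left
        rw [← mul_assoc, hh]
    obtain ⟨X, hX1, hX2⟩ := key s hhe
    obtain ⟨Y, hY1, hY2⟩ := key t hhf
    have hab : (h * s) * (h * t) = h * (s * t) := by
      rw [mul_assoc, ← mul_assoc s, ← hhc s, mul_assoc h s t, ← mul_assoc, hh]
    have h2 : om ((h * s) * (h * t)) = h := by
      apply c1_R (W := Y * X) hh
      · rw [mul_assoc (h * s), ← mul_assoc (h * t), hY1, hX2, hX1]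
      · rw [← mul_assoc, hY2]
      · rw [hab, ← hhc, ← mul_assoc, hh]
    rw [hab, c1_om_left hh hhc] at h2
    exact h2
  obtain ⟨n, hn⟩ := om_eq_pw (s * t)
  have hn' : g = pw (s * t) n := hn
  -- (2) `g e = g`
  have h2 : g * e = g := by
    have e1 : s * (t * pw (s * t) (n + n)) = g := by
      rw [← mul_assoc, mul_pw, ← pw_mul_pw, ← hn', hg]
    have h3 : om (g * s) = g := by
      apply c1_R (W := g * (t * pw (s * t) (n + n))) hg
      · rw [mul_assoc, ← mul_assoc s, ← hgc s, mul_assoc g s, e1, hg, hg]
      · rw [← mul_assoc, hg]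
      · rw [mul_assoc, ← hgc s, ← mul_assoc, hg]
    rw [c1_om_left hg hgc] at h3
    exact h3
  -- (3) `g f = g`
  have h3 : g * f = g := by
    have e1 : (pw (s * t) (n + n) * s) * t = g := by
      rw [mul_assoc, ← pw_succ, ← pw_mul_pw, ← hn', hg]
    have h4 : om (g * t) = g := by
      apply c1_R' (W := g * (pw (s * t) (n + n) * s))
      · rw [hgc t, mul_assoc g, ← mul_assoc _ t g, e1, hg, hg]
      · rw [mul_assoc, ← hgc, ← mul_assoc, hg]
      · rw [← mul_assoc, hg]
    rw [c1_om_left hg hgc] at h4
    exact h4
  calc g = g * (e * f) := by rw [← mul_assoc, h2, h3]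
    _ = (e * f) * g := (hhc g).symm
    _ = e * f := h1

/-- PROOF: the product of all idempotents (finitely many, commuting); or: choose an idempotent `z` for which
`{e : e idempotent, z e = z}` has maximal size; if `z e ≠ z` for some idempotent `e`, then `z e` is an
idempotent with a larger set. -/
theorem exists_isZ (hc : CentralIdem S) [Nonempty S] : ∃ z : S, IsZ z := by
  classical
  have : Fintype S := Fintype.ofFinite S
  have key : ∀ F : Finset S, ∃ z : S, z * z = z ∧ ∀ e ∈ F, e * e = e → z * e = z := by
    intro F
    induction F using Finset.induction_on with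
    | empty =>
      obtain ⟨s⟩ := ‹Nonempty S›
      exact ⟨om s, om_idem s, fun e he => absurd he (Finset.notMem_empty e)⟩
    | insert a F ha ih =>
      obtain ⟨z, hz, hz2⟩ := ih
      by_cases haa : a * a = a
      · refine ⟨z * a, ?_, ?_⟩
        · rw [mul_assoc, ← mul_assoc a, hc a z haa, mul_assoc z a a, haa, ← mul_assoc, hz]
        · intro e he hee
          rcases Finset.mem_insert.mp he with rfl | he
          · rw [mul_assoc, hee]
          · rw [mul_assoc, hc a e haa, ← mul_assoc, hz2 e he hee]
      · refine ⟨z, hz, ?_⟩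
        intro e he hee
        rcases Finset.mem_insert.mp he with rfl | he
        · exact absurd hee haa
        · exact hz2 e he hee
  obtain ⟨z, hz, hz2⟩ := key Finset.univ
  exact ⟨z, hz, fun e he => hz2 e (Finset.mem_univ e) he⟩

/-- `b s` is a group element if `s` is above `b` -/
theorem gp_of_above (hc : CentralIdem S) {b s : S} (hb : b * b = b) (hs : b * om s = b) :
    om (b * s) = b ∧ (b * s) * b = b * s ∧ IsGp (b * s) := by
  have h1 : om (b * s) = b := by rw [om_mul hc, om_of_idem hb, hs]
  have h2 : (b * s) * b = b * s := by rw [mul_assoc, ← hc b s hb, ← mul_assoc, hb]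
  exact ⟨h1, h2, isGp_iff.2 (by rw [h1, h2])⟩

theorem gp_central (hc : CentralGp S) {g : S} (hg : g * om g = g) (s : S) : g * s = s * g :=
  hc g s (isGp_iff.2 hg)

/-- PROOF: `om_mul`; for `e = none` both sides are false.  `→`: `e om s om t = e` implies
`e om s = e` (multiply by `om s`, idempotents commute). -/
theorem UU_mul (hc : CentralIdem S) {e : Option S} (he : ∀ e', e = some e' → e' * e' = e')
    (s t : S) : UU e (s * t) ↔ UU e s ∧ UU e t := by
  cases e with
  | none => simp [UU]
  | some e =>
    show e * om (s * t) = e ↔ e * om s = e ∧ e * om t = e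
    rw [om_mul hc]
    constructor
    · intro h
      have hs : om s * om t = om t * om s := hc _ _ (om_idem s)
      constructor
      · calc e * om s = (e * (om s * om t)) * om s := by rw [h]
          _ = e * (om s * om t) := by
            rw [mul_assoc, mul_assoc, ← hs, ← mul_assoc (om s), om_idem]
          _ = e := h
      · calc e * om t = (e * (om s * om t)) * om t := by rw [h]
          _ = e * (om s * om t) := by rw [mul_assoc, mul_assoc, om_idem]
          _ = e := h
    · rintro ⟨h1, h2⟩
      rw [← mul_assoc, h1, h2]

/-- PROOF: as `UU_mul`. -/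
theorem above_mul (hc : CentralIdem S) {b : S} (hb : b * b = b) (s t : S) :
    b * om (s * t) = b ↔ b * om s = b ∧ b * om t = b :=
  UU_mul hc (e := some b) (fun e' h => by
    injection h with h
    rw [← h, hb]) s t

/-- units are above `b` (`b = b e = b e om s`) -/
theorem above_of_UU (hc : CentralIdem S) {b : S} {e : Option S} (hb : b * b = b) (he : OkE b e)
    {s : S} (hs : UU e s) : b * om s = b := by
  cases e with
  | none => exact absurd hs (by simp [UU])
  | some e =>
    obtain ⟨h1, h2⟩ := he e rfl
    have h3 : e * om s = e := hs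
    have h4 : b * e = b := by rw [← hc e b h1, h2]
    calc b * om s = (b * e) * om s := by rw [h4]
      _ = b := by rw [mul_assoc, h3, h4]

/-- PROOF: if no idempotent fixes `x`, take `none`.  Otherwise take the product `e` of all idempotents `f` with
`f x = x` (or: one such `e` for which `{f : f f = f, e f = e}` is maximal; if `f x = x` then `e f x = x`, and
`e f` has a larger set unless `e f = e`).  `e x = x` implies `e om x = om x`
(`om x = pw x n = pw (e x) n = e * pw x n`, or `om_mul`). -/
theorem exists_typ (hc : CentralIdem S) (x : S) : ∃ e : Option S, OkE (om x) e ∧ IsTyp e x := by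
  classical
  have : Fintype S := Fintype.ofFinite S
  by_cases hex : ∃ e0 : S, e0 * e0 = e0 ∧ e0 * x = x
  · obtain ⟨e0, he0, he0x⟩ := hex
    have key : ∀ F : Finset S, ∃ z : S, z * z = z ∧ z * x = x ∧
        ∀ e ∈ F, e * e = e → e * x = x → z * e = z := by
      intro F
      induction F using Finset.induction_on with
      | empty => exact ⟨e0, he0, he0x, fun e he => absurd he (Finset.notMem_empty e)⟩
      | insert a F ha ih =>
        obtain ⟨z, hz, hzx, hz2⟩ := ih
        by_cases haa : a * a = a ∧ a * x = x
        · refine ⟨z * a, ?_, ?_, ?_⟩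
          · rw [mul_assoc, ← mul_assoc a, hc a z haa.1, mul_assoc z a a, haa.1, ← mul_assoc, hz]
          · rw [mul_assoc, haa.2, hzx]
          · intro e he hee hex
            rcases Finset.mem_insert.mp he with rfl | he
            · rw [mul_assoc, hee]
            · rw [mul_assoc, hc a e haa.1, ← mul_assoc, hz2 e he hee hex]
        · refine ⟨z, hz, hzx, ?_⟩
          intro e he hee hex
          rcases Finset.mem_insert.mp he with rfl | he
          · exact absurd ⟨hee, hex⟩ haa
          · exact hz2 e he hee hex
    obtain ⟨z, hz, hzx, hz2⟩ := key Finset.univ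
    refine ⟨some z, ?_, hzx, ?_⟩
    · intro e' he'
      injection he' with he'
      subst he'
      refine ⟨hz, ?_⟩
      obtain ⟨n, hn⟩ := om_eq_pw x
      rw [hn]
      exact c1_left hzx n
    · intro f hf hfx
      show z * om f = z
      rw [om_of_idem hf]
      exact hz2 f (Finset.mem_univ f) hf hfx
  · refine ⟨none, ?_, rfl, ?_⟩
    · intro e' he'
      exact absurd he' (by simp)
    · intro f hf hfx
      exact absurd ⟨f, hf, hfx⟩ hex

/-- `act e` commutes with products: `act e (s t) = act e s * t = s * act e t = act e s * act e t` -/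
theorem act_mul (hc : CentralIdem S) {e : Option S} (he : ∀ e', e = some e' → e' * e' = e')
    (s t : S) : act e (s * t) = act e s * act e t ∧ act e (s * t) = act e s * t ∧
      act e (s * t) = s * act e t ∧ act e (act e s) = act e s := by
  cases e with
  | none => exact ⟨rfl, rfl, rfl, rfl⟩
  | some e =>
    have hee := he e rfl
    refine ⟨?_, ?_, ?_, ?_⟩
    · show e * (s * t) = (e * s) * (e * t)
      rw [mul_assoc, ← mul_assoc s, ← hc e s hee, mul_assoc e s t, ← mul_assoc e e, hee]
    · exact (mul_assoc _ _ _).symm
    · show e * (s * t) = s * (e * t)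
      rw [← mul_assoc, hc e s hee, mul_assoc]
    · show e * (e * s) = e * s
      rw [← mul_assoc, hee]

end EVS
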