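import Pool.Agent.EVS.Gen

/-!
# [EV-C2] homomorphisms of finite commutative groups
-/

set_option autoImplicit false

namespace EVS

theorem C2_cyc {A : Type} [CommGroup A] [Finite A] {m : ℕ} (hm : 0 < m) (a : A) (ha : orderOf a = m) :
    m ≤ Nat.card (A →* Multiplicative (ZMod m)) := by
  have : NeZero m := ⟨hm.ne'⟩
  obtain ⟨e⟩ := CommGroup.monoidHom_mulEquiv_of_hasEnoughRootsOfUnity A ℂ
  let χ : A →* ℂˣ := e.symm a
  have hχ : orderOf χ = m := by
    rw [← ha]
    exact MulEquiv.orderOf_eq e.symm a
  have hχm : χ ^ m = 1 := by rw [← hχ]; exact pow_orderOf_eq_one χ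
  have hmem : ∀ (k : ℕ) (x : A), (χ ^ k) x ∈ rootsOfUnity m ℂ := by
    intro k x
    rw [mem_rootsOfUnity, ← MonoidHom.pow_apply, ← pow_mul, mul_comm, pow_mul, hχm, one_pow,
      MonoidHom.one_apply]
  let ε : rootsOfUnity m ℂ ≃* Multiplicative (ZMod m) := mulEquivOfCyclicCardEq (by
    rw [Complex.card_rootsOfUnity]
    rw [Nat.card_congr (Multiplicative.toAdd), Nat.card_zmod])
  let f : Fin m → (A →* Multiplicative (ZMod m)) := fun k =>
    ε.toMonoidHom.comp ((χ ^ (k : ℕ)).codRestrict (rootsOfUnity m ℂ) (hmem k))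
  have hf : Function.Injective f := by
    intro k k' h
    have h1 : ∀ x, (χ ^ (k : ℕ)) x = (χ ^ (k' : ℕ)) x := by
      intro x
      have h2 := DFunLike.congr_fun h x
      have h3 := ε.injective h2
      exact congrArg Subtype.val h3
    have h4 : χ ^ (k : ℕ) = χ ^ (k' : ℕ) := MonoidHom.ext h1
    have h5 := pow_injOn_Iio_orderOf (x := χ) (by rw [hχ]; exact k.2) (by rw [hχ]; exact k'.2) h4
    exact Fin.ext h5
  have : Finite (A →* Multiplicative (ZMod m)) :=
    Finite.of_injective (fun g : A →* Multiplicative (ZMod m) => (g : A → Multiplicative (ZMod m)))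
      DFunLike.coe_injective
  have := Nat.card_le_card_of_injective f hf
  rwa [Nat.card_fin] at this

/-- For a subgroup `B` of a finite commutative group `A` there are at least `|B|` homomorphisms `A → B`. -/
theorem hom_count {A : Type} [CommGroup A] [Finite A] (B : Subgroup A) :
    Nat.card B ≤ Nat.card (A →* B) := by
  classical
  obtain ⟨ι, hι, n, hn, ⟨e⟩⟩ := CommGroup.equiv_prod_multiplicative_zmod_of_finite B
  have hcard : Nat.card B = ∏ i, n i := by
    rw [Nat.card_congr e.toEquiv, Nat.card_pi]
    apply Finset.prod_congr rfl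
    intro i _
    rw [Nat.card_congr (Multiplicative.toAdd), Nat.card_zmod]
  let E : (A →* B) ≃ ((i : ι) → (A →* Multiplicative (ZMod (n i)))) :=
    { toFun := fun g i => (Pi.evalMonoidHom _ i).comp (e.toMonoidHom.comp g)
      invFun := fun g => e.symm.toMonoidHom.comp (MonoidHom.pi g)
      left_inv := by
        intro g
        apply MonoidHom.ext
        intro x
        exact e.symm_apply_apply (g x)
      right_inv := by
        intro g
        funext i
        apply MonoidHom.ext
        intro x
        have h1 : e (e.symm (MonoidHom.pi g x)) = MonoidHom.pi g x := e.apply_symm_apply _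
        exact congrFun h1 i }
  rw [hcard, Nat.card_congr E, Nat.card_pi]
  apply Finset.prod_le_prod'
  intro i _
  have hord : orderOf ((e.symm (Pi.mulSingle i (Multiplicative.ofAdd (1 : ZMod (n i)))) : B) : A) = n i := by
    rw [Subgroup.orderOf_coe, MulEquiv.orderOf_eq]
    have h1 : orderOf (Pi.mulSingle i (Multiplicative.ofAdd (1 : ZMod (n i))) :
        (i : ι) → Multiplicative (ZMod (n i))) = orderOf (Multiplicative.ofAdd (1 : ZMod (n i))) := by
      exact orderOf_injective (MonoidHom.mulSingle (fun i => Multiplicative (ZMod (n i))) i)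
        (Pi.mulSingle_injective (M := fun i => Multiplicative (ZMod (n i))) i) _
    rw [h1, orderOf_ofAdd_eq_addOrderOf, ZMod.addOrderOf_one]
  exact C2_cyc (lt_trans one_pos (hn i)) _ hord

end EVS
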