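import Pool.Agent.EVS.C1
import Pool.Agent.EVS.C2

/-!
# [EV-C3] the sizes of the subgroups
-/

set_option autoImplicit false

namespace EVS

variable {S : Type} [Semigroup S] [Finite S]

/-- the elements of the group at the idempotent `d` -/
abbrev GG (S : Type) [Semigroup S] [Finite S] (d : S) : Type := {g : S // om g = d ∧ g * d = g}

theorem c3_comm (hc : CentralGp S) {d : S} (a : GG S d) (s : S) : (a : S) * s = s * a := by
  apply gp_central hc
  rw [a.2.1, a.2.2]

omit [Finite S] in
theorem c3_pw_right {g e : S} (h2 : g * e = g) (n : ℕ) : pw g n * e = pw g n := by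
  induction n with
  | zero => exact h2
  | succ n ih => rw [pw_succ, mul_assoc, h2]

/-- the group at `d` is a commutative group (define the structure; `g ↦ pw g n` gives the inverse) -/
theorem exists_group (hc : CentralGp S) {d : S} (hd : d * d = d) :
    ∃ G : CommGroup (GG S d), ∀ a b : GG S d, ((a * b : GG S d) : S) = (a : S) * (b : S) := by
  have hinv : ∀ a : GG S d, ∃ b : GG S d, (b : S) * (a : S) = d := by
    intro a
    obtain ⟨n, hn⟩ := om_eq_pw (a : S)
    refine ⟨⟨pw (a : S) (n + n), ?_, ?_⟩, ?_⟩
    · rw [om_pw, a.2.1]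
    · exact c3_pw_right a.2.2 _
    · change pw (a : S) (n + n) * (a : S) = d
      rw [← pw_succ, ← pw_mul_pw, ← hn, om_idem, a.2.1]
  choose inv hinv' using hinv
  let G : CommGroup (GG S d) :=
    { mul := fun a b => ⟨(a : S) * (b : S), by
        rw [om_mul (central_idem hc), a.2.1, b.2.1, hd], by rw [mul_assoc, b.2.2]⟩
      mul_assoc := fun a b c => Subtype.ext (mul_assoc (a : S) b c)
      one := ⟨d, om_of_idem hd, hd⟩
      one_mul := fun a => Subtype.ext (by
        change d * (a : S) = a
        rw [← c3_comm hc a d]; exact a.2.2)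
      mul_one := fun a => Subtype.ext a.2.2
      inv := inv
      inv_mul_cancel := fun a => Subtype.ext (hinv' a)
      mul_comm := fun a b => Subtype.ext (c3_comm hc a b) }
  exact ⟨G, fun a b => rfl⟩

theorem c3_L (hc : CentralGp S) {d z : S} (hd : d * d = d) (hz : z * z = z) [G : CommGroup (GG S d)]
    (hG : ∀ a b : GG S d, ((a * b : GG S d) : S) = (a : S) * (b : S)) (K : Subgroup (GG S d))
    (H : ∀ k ∈ K, ∀ s : S, ¬ (d * om s = d) → z * (k : S) = z) : Nat.card K ≤ nEnd S := by
  classical
  have hci := central_idem hc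
  have hmem : ∀ s : S, d * om s = d → om (d * s) = d ∧ (d * s) * d = d * s := fun s hs =>
    ⟨(gp_of_above hci hd hs).1, (gp_of_above hci hd hs).2.1⟩
  refine (hom_count K).trans ?_
  have := finite_end (S := S)
  have habove := fun s t => above_mul hci (b := d) hd s t
  let F : (GG S d →* K) → (S →ₙ* S) := fun θ =>
    { toFun := fun s => if h : d * om s = d then ((θ ⟨d * s, hmem s h⟩ : K) : GG S d).1 else z
      map_mul' := by
        intro s t
        by_cases hs : d * om s = d
        · by_cases ht : d * om t = d
          · have hst : d * om (s * t) = d := (habove s t).2 ⟨hs, ht⟩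
            simp only [hs, ht, hst, dif_pos]
            have e : (⟨d * (s * t), hmem _ hst⟩ : GG S d) = ⟨d * s, hmem _ hs⟩ * ⟨d * t, hmem _ ht⟩ := by
              apply Subtype.ext
              rw [hG]
              change d * (s * t) = d * s * (d * t)
              rw [mul_assoc, ← mul_assoc s d t, ← hci d s hd, ← mul_assoc, ← mul_assoc, ← mul_assoc, hd]
            rw [← hG, ← Subgroup.coe_mul, ← map_mul, e]
          · have hst : ¬ d * om (s * t) = d := fun h => ht ((habove s t).1 h).2
            simp only [hs, ht, hst, dif_pos, dif_neg, not_false_eq_true]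
            rw [c3_comm hc, H _ (SetLike.coe_mem _) t ht]
        · have hst : ¬ d * om (s * t) = d := fun h => hs ((habove s t).1 h).1
          by_cases ht : d * om t = d
          · simp only [hs, ht, hst, dif_pos, dif_neg, not_false_eq_true]
            rw [H _ (SetLike.coe_mem _) s hs]
          · simp only [hs, ht, hst, dif_neg, not_false_eq_true]
            exact hz.symm }
  refine Nat.card_le_card_of_injective F ?_
  intro θ θ' h
  apply MonoidHom.ext
  intro g
  have h1 : d * om (g : S) = d := by rw [g.2.1, hd]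
  have h2 := DFunLike.congr_fun h (g : S)
  have h3 : (⟨d * (g : S), hmem g h1⟩ : GG S d) = g := by
    apply Subtype.ext
    change d * (g : S) = g
    rw [← c3_comm hc g d]
    exact g.2.2
  have h4 : ∀ η : GG S d →* K, F η (g : S) = ((η g : K) : GG S d).1 := by
    intro η
    change (if h : d * om (g : S) = d then ((η ⟨d * (g : S), hmem g h⟩ : K) : GG S d).1 else z) = _
    rw [dif_pos h1, h3]
  rw [h4, h4] at h2
  exact Subtype.ext (Subtype.ext h2)

/-- the sizes of the subgroups -/
theorem card_gp_le (hc : CentralGp S) {d : S} (hd : d * d = d) :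
    Nat.card (GG S d) ≤ nEnd S ^ 2 := by
  have : Nonempty S := ⟨d⟩
  have hci := central_idem hc
  obtain ⟨z, hz, hz'⟩ := exists_isZ (S := S) hci
  obtain ⟨Gd, hGd⟩ := exists_group hc hd
  obtain ⟨Gz, hGz⟩ := exists_group hc hz
  have h1 : Nat.card (GG S z) ≤ nEnd S := by
    have := c3_L hc hz hz hGz ⊤ (fun k _ s hs => absurd (hz' _ (om_idem s)) hs)
    rwa [Nat.card_congr Subgroup.topEquiv.toEquiv] at this
  have hmem : ∀ s : S, om (z * s) = z ∧ (z * s) * z = z * s := fun s =>
    ⟨(gp_of_above hci hz (hz' _ (om_idem s))).1, (gp_of_above hci hz (hz' _ (om_idem s))).2.1⟩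
  let π : GG S d →* GG S z := MonoidHom.mk' (fun g => ⟨z * (g : S), hmem g⟩) (by
    intro a b
    apply Subtype.ext
    rw [hGz, hGd]
    change z * ((a : S) * b) = z * a * (z * b)
    rw [mul_assoc, ← mul_assoc (a : S) z b, ← hci z a hz, ← mul_assoc, ← mul_assoc, ← mul_assoc, hz])
  have hone : ((1 : GG S z) : S) = z := by
    have h2 : ((1 : GG S z) : S) * ((1 : GG S z) : S) = (1 : GG S z) := by rw [← hGz, one_mul]
    have h3 := om_of_idem h2
    rw [← h3]
    exact (1 : GG S z).2.1
  have h2 : Nat.card π.ker ≤ nEnd S := by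
    refine c3_L hc hd hz hGd π.ker (fun k hk s _ => ?_)
    rw [MonoidHom.mem_ker] at hk
    have := congrArg Subtype.val hk
    rw [hone] at this
    exact this
  have h3 : Nat.card π.ker * Nat.card π.range = Nat.card (GG S d) := by
    rw [← Subgroup.index_ker, Subgroup.card_mul_index]
  have h4 : Nat.card π.range ≤ Nat.card (GG S z) :=
    Nat.card_le_card_of_injective _ Subtype.val_injective
  rw [← h3, sq]
  exact Nat.mul_le_mul h2 (h4.trans h1)

end EVS
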