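import Pool.Agent.EVS.C1

/-!
# [EV-C4] moving a source to a power
-/

set_option autoImplicit false

namespace EVS

variable {S : Type} [Semigroup S] [Finite S]

omit [Finite S] in
theorem c4_pw_fix {g e : S} (h : g * e = g) (n : ℕ) : pw g n * e = pw g n := by
  cases n with
  | zero => exact h
  | succ n => rw [pw_succ, mul_assoc, h]

theorem c4_inv {g e : S} (hg : om g = e) (hge : g * e = g) :
    ∃ h : S, om h = e ∧ h * e = h ∧ h * g = e ∧ g * h = e := by
  obtain ⟨n, hn⟩ := om_eq_pw g
  refine ⟨pw g (n + n), ?_, c4_pw_fix hge _, ?_, ?_⟩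
  · rw [om_pw, hg]
  · rw [← mul_pw_comm, mul_pw, ← pw_mul_pw, ← hn, om_idem, hg]
  · rw [mul_pw, ← pw_mul_pw, ← hn, om_idem, hg]

omit [Finite S] in
theorem c4_pw_idem (hc : CentralIdem S) {f : S} (hf : f * f = f) (s : S) (n : ℕ) :
    pw (f * s) n = f * pw s n := by
  rw [pw_mul (hc f s hf), pw_of_idem hf]

/-- units become group elements -/
theorem c4_unit (hc : CentralIdem S) {e s : S} (he : e * e = e) (hu : e * om s = e) :
    om (e * s) = e ∧ (e * s) * e = e * s := by
  constructor
  · rw [om_mul hc, om_of_idem he, hu]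
  · rw [mul_assoc, ← hc e s he, ← mul_assoc, he]

omit [Finite S] in
theorem c4_act_mul (hc : CentralIdem S) {e : S} (he : e * e = e) (s t : S) :
    e * (s * t) = (e * s) * (e * t) := by
  rw [mul_assoc, ← mul_assoc s e t, ← hc e s he, mul_assoc e s t, ← mul_assoc e e (s * t), he]

/-- the orbit of a source under products -/
theorem c4_h1 (hc : CentralGp S) {b : S} {e : Option S} (he : OkE b e) {x : S} (hx : Src b e x)
    (s t : S) : Orb e x (s * t) ↔ (Orb e x s ∧ UU e t) ∨ (UU e s ∧ Orb e x t) := by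
  have hci := central_idem hc
  cases e with
  | none =>
    constructor
    · intro h
      rcases hx.2.2.2 s t h with h1 | h1
      · exact h1.elim
      · exact h1.elim
    · rintro (⟨_, h⟩ | ⟨h, _⟩)
      · exact h.elim
      · exact h.elim
  | some e =>
    obtain ⟨hee, heb⟩ := he e rfl
    constructor
    · intro h
      rcases hx.2.2.2 s t h with h1 | h1
      · right
        refine ⟨h1, ?_⟩
        obtain ⟨g, hg1, hg2, hg3⟩ := h
        obtain ⟨u1, u2⟩ := c4_unit hci hee h1
        obtain ⟨k, hk1, hk2, hk3, hk4⟩ := c4_inv u1 u2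
        refine ⟨k * g, ?_, ?_, ?_⟩
        · rw [om_mul hci, hk1, hg1, hee]
        · rw [mul_assoc, hg2]
        · rw [mul_assoc, ← hg3, c4_act_mul hci hee, ← mul_assoc, hk3, ← mul_assoc, hee]
      · left
        refine ⟨?_, h1⟩
        obtain ⟨g, hg1, hg2, hg3⟩ := h
        obtain ⟨u1, u2⟩ := c4_unit hci hee h1
        obtain ⟨k, hk1, hk2, hk3, hk4⟩ := c4_inv u1 u2
        have hkc : k * x = x * k := gp_central hc (by rw [hk1, hk2]) x
        refine ⟨g * k, ?_, ?_, ?_⟩
        · rw [om_mul hci, hk1, hg1, hee]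
        · rw [mul_assoc, hk2]
        · rw [mul_assoc, hkc, ← mul_assoc, ← hg3, c4_act_mul hci hee, mul_assoc, hk4,
            ← hci e (e * s) hee, ← mul_assoc, hee]
    · rintro (⟨⟨g, hg1, hg2, hg3⟩, h1⟩ | ⟨h1, ⟨g, hg1, hg2, hg3⟩⟩)
      · obtain ⟨u1, u2⟩ := c4_unit hci hee h1
        have huc : (e * t) * x = x * (e * t) := gp_central hc (by rw [u1, u2]) x
        refine ⟨g * (e * t), ?_, ?_, ?_⟩
        · rw [om_mul hci, hg1, u1, hee]
        · rw [mul_assoc, u2]
        · rw [c4_act_mul hci hee, hg3, mul_assoc, mul_assoc, huc]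
      · obtain ⟨u1, u2⟩ := c4_unit hci hee h1
        refine ⟨(e * s) * g, ?_, ?_, ?_⟩
        · rw [om_mul hci, hg1, u1, hee]
        · rw [mul_assoc, hg2]
        · rw [c4_act_mul hci hee, hg3, mul_assoc (e * s) g x]

theorem c4_h2 (hc : CentralGp S) {b : S} {e : Option S} (he : OkE b e) {x : S} (hx : Src b e x)
    (s : S) (hs : Orb e x s) : ¬ UU e s := by
  have hci := central_idem hc
  cases e with
  | none => exact fun h => h
  | some e =>
    obtain ⟨hee, heb⟩ := he e rfl
    intro h1
    apply hx.2.1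
    obtain ⟨u1, u2⟩ := c4_unit hci hee h1
    obtain ⟨g, hg1, hg2, hg3⟩ := hs
    obtain ⟨k, hk1, hk2, hk3, hk4⟩ := c4_inv hg1 hg2
    have hxe : e * x = x := hx.2.2.1
    have h2 : x = k * (e * s) := by
      rw [hg3, ← mul_assoc, hk3, hxe]
    show e * om x = e
    rw [h2, om_mul hci, hk1, u1, hee, hee]

/-- the orbit is above `b` -/
theorem c4_orb_above (hc : CentralGp S) {b : S} {e : Option S} (hb : b * b = b) (he : OkE b e)
    {x : S} (hxb : om x = b) (s : S) (hs : Orb e x s) : b * om s = b := by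
  have hci := central_idem hc
  cases e with
  | none =>
    have : s = x := hs
    rw [this, hxb, hb]
  | some e =>
    obtain ⟨hee, heb⟩ := he e rfl
    obtain ⟨g, hg1, hg2, hg3⟩ := hs
    have h1 : om (e * s) = e * om s := by rw [om_mul hci, om_of_idem hee]
    have h2 : om (e * s) = b := by rw [hg3, om_mul hci, hg1, hxb, heb]
    have hbe : b * e = b := by rw [← hci e b hee, heb]
    calc b * om s = b * (e * om s) := by rw [← mul_assoc, hbe]
      _ = b * b := by rw [← h1, h2]
      _ = b := hb

/-- PROOF.  Notation: `U = {s : UU e s}`, `R = {s : Orb e x s}`, `z` with `IsZ z`.  For `s ∈ R` write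
`e s = g x` (`g` in the group at `e`; for `e = none` read `e s = s`, `g = 1`, so `s = x`); use `act e s`.
All elements of groups are central (`gp_central`), idempotents are central.
Let `j` be the largest number (a power `x^j`, `j ≥ 1`, write it as `pw x n`, `j = n+1`) with
`b * x^j ≠ x^j`; it exists since `b x ≠ x` and `x^k = om x = b` for some `k`, and `b x^k = x^k` implies
`b x^(k+1) = x^(k+1)` (so `b x^k = x^k` for all `k > j`).  In particular `b * x^(2j) = x^(2j)`.
Base endomorphism `ρ`: `ρ s = (act e s)^j` if `s ∈ U`; `(b s)^j` if `b * om s = b`, `s ∉ U`; `(z s)^j` otherwise.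
(All these are group elements.)  It is multiplicative: for `s, t ∈ U`: `s t ∈ U` (`UU_mul`), group elements
commute (`pw_mul`).  `s ∈ U`, `t ∉ U` above `b`: `s t` is above `b`, not in `U`;
`(e s)^j (b t)^j = b (e s)^j (b t)^j = (b s)^j (b t)^j = (b s t)^j` (`b e = b`).  One of `s, t` not above `b`:
then `s t` is not above `b` (`above_mul`), and `(z s)^j (? t)^j = (z s)^j (z t)^j = (z s t)^j` since `z ? = z`.
Now apply `moveGen` with this `ρ`, `κ s = (act e s)^j`, `R`, `UL = UR = U`.
h1: if `s ∈ R`, `t ∈ U`: `e s t = (e s)(e t)`, `e t` is in the group at `e`, so `e s t = (g (e t)) x ∈ R`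
(`act_mul`; for `e = none` there is no such `t`); the same for `s ∈ U`, `t ∈ R`.
Conversely if `s t ∈ R`, then `s ∈ U` or `t ∈ U` since `x` is a source; if `s ∈ U`, then `e s` is a group element
with inverse `h`, so `e t = h (e s)(e t) = h (e s t) ∈ (group) x`, so `t ∈ R`; the same for `t ∈ U`.
h2: `s ∈ R` implies `s ∉ U`: otherwise `e s = g x` is a group element, so `x = g⁻¹ (e s)` (`e x = x`) is in the
group at `e`, i.e. `UU e x`, against `Src`.
h3, h4: for `s ∈ R`, `t ∈ U`: `(e (s t))^j = ((e s)(e t))^j = (e s)^j (e t)^j` (`e t` central, `pw_mul`).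
h5: `s ∈ R`, `t ∉ U`.  First, `s ∈ R` is above `b`: `om (e s) = e om s` and `om (g x) = e b = b`, so
`b om s = b e om s = b b = b` (`om_mul`).  So `ρ s = (b s)^j`.  If `t` is above `b`, then
`(e s)^j (b t)^j = b (e s)^j (b t)^j = (b s)^j (b t)^j`.  If not: `(e s)^j (z t)^j = z (e s)^j (z t)^j =
z (b s)^j (z t)^j` as `z b = z = z e`.
h6: the same.  h7: `s = .., t ∈ R`: `(e s)^j (e t)^j = g^j x^j g'^j x^j = g^j g'^j x^(2j)`, and
`x^(2j) = b x^(2j)`, so it is `b (e s)^j (e t)^j = (b s)^j (b t)^j`.
Conclusion: `ψ x = κ x = x^j` (`x ∈ R` with `g = e`), so `b * ψ x ≠ ψ x`.  For `y` as in the statement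
`y ∉ R`, `y ∉ U`, `y` is above `b`, so `ψ y = ρ y = (b y)^j` and `b * ψ y = ψ y`. -/
theorem moveP (hc : CentralGp S) {b : S} {e : Option S} (hb : b * b = b) (he : OkE b e) {x : S}
    (hx : Src b e x) (hxb : om x = b) (hxn : b * x ≠ x) :
    ∃ ψ : S →ₙ* S, b * ψ x ≠ ψ x ∧
      ∀ y, om y = b → Src b e y → ¬ Orb e x y → b * ψ y = ψ y := by
  classical
  have hci := central_idem hc
  have : Nonempty S := ⟨x⟩
  obtain ⟨z, hz, hzmin⟩ := exists_isZ hci
  -- the exponent
  obtain ⟨n, hn1, hn2⟩ : ∃ n : ℕ, b * pw x n ≠ pw x n ∧ ∀ m, n < m → b * pw x m = pw x m := by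
    obtain ⟨k, hk⟩ := om_eq_pw x
    have hex : ∃ N, ∀ m, N ≤ m → b * pw x m = pw x m := by
      refine ⟨k + 1, fun m hm => ?_⟩
      have e1 : m = k + (m - k - 1) + 1 := by omega
      rw [e1, ← pw_mul_pw, ← hk, hxb, ← mul_assoc, hb]
    have hN0 : Nat.find hex ≠ 0 := by
      intro h0
      apply hxn
      exact Nat.find_spec hex 0 (by omega)
    refine ⟨Nat.find hex - 1, ?_, ?_⟩
    · intro h
      have h1 : ∀ m, Nat.find hex - 1 ≤ m → b * pw x m = pw x m := by
        intro m hm
        rcases eq_or_lt_of_le hm with h2 | h2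
        · rw [← h2]
          exact h
        · exact Nat.find_spec hex m (by omega)
      have h3 := Nat.find_min' hex h1
      omega
    · intro m hm
      exact Nat.find_spec hex m (by omega)
  have heo : ∀ e', e = some e' → e' * e' = e' := fun e' h => (he e' h).1
  -- absorption
  have hbc : ∀ s, b * s = s * b := fun s => hci b s hb
  have hzc : ∀ s, z * s = s * z := fun s => hci z s hz
  have hzb : z * b = z := hzmin b hb
  have hbact : ∀ w, b * act e w = b * w := by
    intro w
    cases e with
    | none => rfl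
    | some e =>
      obtain ⟨hee, heb⟩ := he e rfl
      show b * (e * w) = b * w
      rw [← mul_assoc, ← hci e b hee, heb]
  have hzact : ∀ w, z * act e w = z * w := by
    intro w
    rw [← hzb, mul_assoc, hbact, mul_assoc]
  have hactm : ∀ s t, act e (s * t) = act e s * act e t := fun s t => (act_mul hci heo s t).1
  have hactl : ∀ s t, act e (s * t) = act e s * t := fun s t => (act_mul hci heo s t).2.1
  have hactr : ∀ s t, act e (s * t) = s * act e t := fun s t => (act_mul hci heo s t).2.2.1
  have hactp : ∀ s, pw (act e s) n = act e (pw s n) := by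
    intro s
    cases e with
    | none => rfl
    | some e => exact c4_pw_idem hci (he e rfl).1 s n
  -- powers of products
  have hunit : ∀ s, UU e s → ∀ t, act e s * t = t * act e s := by
    intro s hs t
    cases e with
    | none => exact hs.elim
    | some e =>
      obtain ⟨u1, u2⟩ := c4_unit hci (he e rfl).1 hs
      exact gp_central hc (g := e * s) (by rw [u1, u2]) t
  have hG1 : ∀ s t, b * om s = b → b * pw (s * t) n = b * (pw s n * pw t n) := by
    intro s t hs
    obtain ⟨a1, a2, a3⟩ := gp_of_above hci hb hs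
    rw [← c4_pw_idem hci hb, c4_act_mul hci hb, pw_mul, c4_pw_idem hci hb, c4_pw_idem hci hb,
      ← c4_act_mul hci hb]
    exact hc _ _ a3
  have hG1' : ∀ s t, b * om t = b → b * pw (s * t) n = b * (pw s n * pw t n) := by
    intro s t ht
    obtain ⟨a1, a2, a3⟩ := gp_of_above hci hb ht
    rw [← c4_pw_idem hci hb, c4_act_mul hci hb, pw_mul, c4_pw_idem hci hb, c4_pw_idem hci hb,
      ← c4_act_mul hci hb]
    exact (hc _ _ a3).symm
  have hG2 : ∀ s t, z * pw (s * t) n = z * (pw s n * pw t n) := by
    intro s t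
    obtain ⟨a1, a2, a3⟩ := gp_of_above hci hz (hzmin (om s) (om_idem s))
    rw [← c4_pw_idem hci hz, c4_act_mul hci hz, pw_mul, c4_pw_idem hci hz, c4_pw_idem hci hz,
      ← c4_act_mul hci hz]
    exact hc _ _ a3
  have hG3 : ∀ s t, UU e s → act e (pw (s * t) n) = act e (pw s n) * act e (pw t n) := by
    intro s t hs
    rw [← hactp, hactm, pw_mul (hunit s hs _), hactp, hactp]
  have hG3' : ∀ s t, UU e t → act e (pw (s * t) n) = act e (pw s n) * act e (pw t n) := by
    intro s t ht
    rw [← hactp, hactm, pw_mul (hunit t ht _).symm, hactp, hactp]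
  -- the base endomorphism
  let r : S → S := fun s => if UU e s then act e (pw s n) else
    if b * om s = b then b * pw s n else z * pw s n
  have r1 : ∀ s, UU e s → r s = act e (pw s n) := fun s h => if_pos h
  have r2 : ∀ s, ¬ UU e s → b * om s = b → r s = b * pw s n := fun s h h' => by
    show (if UU e s then act e (pw s n) else if b * om s = b then b * pw s n else z * pw s n) = _
    rw [if_neg h, if_pos h']
  have r3 : ∀ s, ¬ (b * om s = b) → r s = z * pw s n := fun s h' => by
    have h : ¬ UU e s := fun h => h' (above_of_UU hci hb he h)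
    show (if UU e s then act e (pw s n) else if b * om s = b then b * pw s n else z * pw s n) = _
    rw [if_neg h, if_neg h']
  -- `z * r s = z * pw s n`, `b * r s = b * pw s n` if above
  have hzr : ∀ s, z * r s = z * pw s n := by
    intro s
    by_cases h' : b * om s = b
    · by_cases h : UU e s
      · rw [r1 s h, hzact]
      · rw [r2 s h h', ← mul_assoc, hzb]
    · rw [r3 s h', ← mul_assoc, hz]
  have hbr : ∀ s, b * om s = b → b * r s = b * pw s n := by
    intro s h'
    by_cases h : UU e s
    · rw [r1 s h, hbact]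
    · rw [r2 s h h', ← mul_assoc, hb]
  have hzidem : ∀ s t, z * (s * t) = (z * s) * (z * t) := fun s t => c4_act_mul hci hz s t
  have hbidem : ∀ s t, b * (s * t) = (b * s) * (b * t) := fun s t => c4_act_mul hci hb s t
  -- if one factor is `z * _` then the product is `z * _`
  have hzl : ∀ s t, (z * s) * t = z * (s * t) := fun s t => mul_assoc z s t
  have hzr2 : ∀ s t, s * (z * t) = z * (s * t) := fun s t => by
    rw [← mul_assoc, ← hzc s, mul_assoc]
  have hbl : ∀ s t, (b * s) * t = b * (s * t) := fun s t => mul_assoc b s t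
  have hbr2 : ∀ s t, s * (b * t) = b * (s * t) := fun s t => by
    rw [← mul_assoc, ← hbc s, mul_assoc]
  have hmul : ∀ s t, r (s * t) = r s * r t := by
    intro s t
    by_cases hst : b * om (s * t) = b
    · obtain ⟨hs', ht'⟩ := (above_mul hci hb s t).1 hst
      by_cases hs : UU e s
      · by_cases ht : UU e t
        · rw [r1 s hs, r1 t ht, r1 (s * t) ((UU_mul hci heo s t).2 ⟨hs, ht⟩), hG3 s t hs]
        · have hn : ¬ UU e (s * t) := fun h => ht ((UU_mul hci heo s t).1 h).2
          rw [r2 _ hn hst, hG1 s t hs', r2 t ht ht', hbr2, hbidem (r s), hbr s hs', ← hbidem]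
      · have hn : ¬ UU e (s * t) := fun h => hs ((UU_mul hci heo s t).1 h).1
        rw [r2 _ hn hst, hG1 s t hs', r2 s hs hs', hbl, hbidem _ (r t), hbr t ht', ← hbidem]
    · rw [r3 _ hst, hG2]
      by_cases hs' : b * om s = b
      · have ht' : ¬ (b * om t = b) := fun h => hst ((above_mul hci hb s t).2 ⟨hs', h⟩)
        rw [r3 t ht', hzr2, hzidem (r s), hzr s, ← hzidem]
      · rw [r3 s hs', hzl, hzidem _ (r t), hzr t, ← hzidem]
  let ρ : S →ₙ* S := ⟨r, hmul⟩
  have hρ : ∀ s, ρ s = r s := fun s => rfl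
  -- powers on the orbit
  have horb : ∀ s, Orb e x s → act e (pw s n) = pw x n ∨
      ∃ w : S, (∀ y, w * y = y * w) ∧ act e (pw s n) = w * pw x n := by
    intro s hs
    cases e with
    | none =>
      have h : s = x := hs
      left
      rw [h]
      rfl
    | some e =>
      obtain ⟨g, hg1, hg2, hg3⟩ := hs
      right
      refine ⟨pw g n, ?_, ?_⟩
      · intro y
        have hgc := gp_central hc (g := g) (by rw [hg1, hg2]) y
        exact pw_commute hgc n
      · rw [← hactp]
        show pw (e * s) n = _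
        rw [hg3, pw_mul (gp_central hc (by rw [hg1, hg2]) x)]
  have hsq : b * (pw x n * pw x n) = pw x n * pw x n := by
    rw [pw_mul_pw]
    exact hn2 _ (by omega)
  have hfix : ∀ w, b * (w * (pw x n * pw x n)) = w * (pw x n * pw x n) := by
    intro w
    rw [← mul_assoc, hbc w, mul_assoc, hsq]
  have h7 : ∀ s, Orb e x s → ∀ t, Orb e x t →
      b * (act e (pw s n) * act e (pw t n)) = act e (pw s n) * act e (pw t n) := by
    intro s hs t ht
    rcases horb s hs with hw | ⟨w, hwc, hw⟩
    · rcases horb t ht with hv | ⟨v, hvc, hv⟩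
      · rw [hw, hv, hsq]
      · have h8 : act e (pw s n) * act e (pw t n) = v * (pw x n * pw x n) := by
          rw [hw, hv, ← mul_assoc, ← hvc, mul_assoc]
        rw [h8, hfix]
    · rcases horb t ht with hv | ⟨v, hvc, hv⟩
      · have h8 : act e (pw s n) * act e (pw t n) = w * (pw x n * pw x n) := by
          rw [hw, hv, mul_assoc]
        rw [h8, hfix]
      · have h8 : act e (pw s n) * act e (pw t n) = (w * v) * (pw x n * pw x n) := by
          rw [hw, hv, mul_assoc, ← mul_assoc (pw x n) v, ← hvc, mul_assoc v, ← mul_assoc w v]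
        rw [h8, hfix]
  have habove : ∀ s, Orb e x s → b * om s = b := fun s hs => c4_orb_above hc hb he hxb s hs
  have hh2 : ∀ s, Orb e x s → ¬ UU e s := fun s hs => c4_h2 hc he hx s hs
  have hA : ∀ s, Orb e x s → ∀ t, ¬ UU e t → act e (pw s n) * r t = r s * r t := by
    intro s hs t ht
    rw [r2 s (hh2 s hs) (habove s hs)]
    by_cases ht' : b * om t = b
    · rw [r2 t ht ht', hbr2, hbl, hbr2, ← mul_assoc b b, hb, hbidem (act e _), hbact, ← hbidem]
    · rw [r3 t ht', hzr2, hzr2, hzidem (act e _), hzact, ← hzidem, mul_assoc b, ← mul_assoc z b,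
        hzb]
  have hB : ∀ s, ¬ UU e s → ∀ t, Orb e x t → r s * act e (pw t n) = r s * r t := by
    intro s hs t ht
    rw [r2 t (hh2 t ht) (habove t ht)]
    by_cases hs' : b * om s = b
    · rw [r2 s hs hs', hbl, hbl, hbr2, ← mul_assoc b b, hb, hbidem _ (act e _), hbact, ← hbidem]
    · rw [r3 s hs', hzl, hzl, hzidem _ (act e _), hzact, ← hzidem, hbr2, ← mul_assoc z b, hzb]
  obtain ⟨ψ, hψ1, hψ2⟩ := moveGen ρ (fun s => act e (pw s n)) {s | Orb e x s} {s | UU e s}
    {s | UU e s} (fun s t => c4_h1 hc he hx s t) (fun s hs => ⟨hh2 s hs, hh2 s hs⟩)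
    (by
      intro s _ t ht
      show act e (pw (s * t) n) = act e (pw s n) * r t
      rw [r1 t ht, hG3' s t ht])
    (by
      intro s hs t _
      show act e (pw (s * t) n) = r s * act e (pw t n)
      rw [r1 s hs, hG3 s t hs])
    (fun s hs t ht => hA s hs t ht)
    (fun s hs t ht => hB s hs t ht)
    (by
      intro s hs t ht
      show act e (pw s n) * act e (pw t n) = r s * r t
      rw [← h7 s hs t ht, r2 s (hh2 s hs) (habove s hs), r2 t (hh2 t ht) (habove t ht),
        hbidem (act e _), hbact, hbact])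
  have hxR : Orb e x x := by
    cases e with
    | none => rfl
    | some e =>
      obtain ⟨hee, heb⟩ := he e rfl
      exact ⟨e, om_of_idem hee, hee, rfl⟩
  refine ⟨ψ, ?_, ?_⟩
  · have h10 : ψ x = pw x n := by
      rw [hψ1 x hxR]
      show act e (pw x n) = pw x n
      rw [← hactp, hx.2.2.1]
    rw [h10]
    exact hn1
  · intro y hy1 hy2 hy3
    have h11 : ψ y = b * pw y n := by
      rw [hψ2 y hy3]
      exact r2 y hy2.2.1 (by rw [hy1, hb])
    rw [h11, ← mul_assoc, hb]

end EVS
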