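import Pool.Agent.EVS.C3
import Pool.Agent.EVS.C4

/-!
# [EV-C6] the number of sources
-/

set_option autoImplicit false

namespace EVS

variable {S : Type} [Semigroup S] [Finite S]

/-- `1 ≤ c ^ 2` -/
theorem c6_orb_card (hc : CentralGp S) {b : S} {e : Option S} (he : OkE b e) (x : S) :
    Nat.card {y : S // act e y = y ∧ Orb e x y} ≤ nEnd S ^ 2 := by
  cases e with
  | none =>
    have h1 : Nat.card {y : S // act none y = y ∧ Orb none x y} ≤ Nat.card Unit := by
      refine Nat.card_le_card_of_injective (fun _ => ()) ?_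
      intro y y' _
      have h1 : y.1 = x := y.2.2
      have h2 : y'.1 = x := y'.2.2
      exact Subtype.ext (h1.trans h2.symm)
    have h2 : Nat.card Unit = 1 := by simp
    have h3 : 0 < nEnd S ^ 2 := pow_pos nEnd_pos 2
    omega
  | some e =>
    refine le_trans ?_ (card_gp_le hc (he e rfl).1)
    choose g hg1 hg2 hg3 using fun y : {y : S // act (some e) y = y ∧ Orb (some e) x y} => y.2.2
    refine Nat.card_le_card_of_injective (fun y => (⟨g y, hg1 y, hg2 y⟩ : GG S e)) ?_
    intro y y' h
    have hgg : g y = g y' := congrArg Subtype.val h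
    have h1 : e * y.1 = y.1 := y.2.1
    have h2 : e * y'.1 = y'.1 := y'.2.1
    apply Subtype.ext
    rw [← h1, ← h2, hg3 y, hg3 y', hgg]

/-- PROOF: let `X` be the set on the left.  Choose for every `x ∈ X` an endomorphism `ψ_x` as in `moveP`.  If
`ψ_x = ψ_y` for `x, y ∈ X`, then `b * ψ_x y = b * ψ_y y ≠ ψ_y y = ψ_x y`, so `Orb e x y`: for `e = none`
`y = x`, for `e = some e'`: `y = e' y = g x` with `g` in the group at `e'`.  So the fibre of `x ↦ ψ_x` over
`ψ_x` has at most `|G_{e'}| ≤ c^2` elements (`card_gp_le`; 1 for `e = none`, and `1 ≤ c^2` by `nEnd_pos`), and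
`|X| ≤ c * c^2` (`Finset.card_le_mul_card_image` or a similar lemma). -/
theorem card_src_le (hc : CentralGp S) {b : S} {e : Option S} (hb : b * b = b) (he : OkE b e) :
    Nat.card {x : S // om x = b ∧ b * x ≠ x ∧ Src b e x} ≤ nEnd S ^ 3 := by
  classical
  have hfe := finite_end (S := S)
  have : Fintype S := Fintype.ofFinite S
  have : Fintype (S →ₙ* S) := Fintype.ofFinite _
  choose ψ h1 h2 using fun x : {x : S // om x = b ∧ b * x ≠ x ∧ Src b e x} =>
    moveP hc hb he x.2.2.2 x.2.1 x.2.2.1
  have key : ∀ φ : S →ₙ* S,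
      (Finset.univ.filter fun x : {x : S // om x = b ∧ b * x ≠ x ∧ Src b e x} => ψ x = φ).card ≤
        nEnd S ^ 2 := by
    intro φ
    by_cases hne : (Finset.univ.filter
        fun x : {x : S // om x = b ∧ b * x ≠ x ∧ Src b e x} => ψ x = φ).Nonempty
    · obtain ⟨x, hx⟩ := hne
      rw [Finset.mem_filter] at hx
      refine le_trans ?_ (c6_orb_card hc he x.1)
      rw [← Fintype.card_coe, ← Nat.card_eq_fintype_card]
      have inj : ∀ y : {x : {x : S // om x = b ∧ b * x ≠ x ∧ Src b e x} //
          x ∈ (Finset.univ.filter fun x : {x : S // om x = b ∧ b * x ≠ x ∧ Src b e x} => ψ x = φ)},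
          act e y.1.1 = y.1.1 ∧ Orb e x.1 y.1.1 := by
        intro y
        have hy := y.2
        rw [Finset.mem_filter] at hy
        refine ⟨y.1.2.2.2.2.2.1, ?_⟩
        by_contra hno
        have h3 := h2 x y.1.1 y.1.2.1 y.1.2.2.2 hno
        have h4 : ψ x = ψ y.1 := hx.2.trans hy.2.symm
        rw [h4] at h3
        exact h1 y.1 h3
      refine Nat.card_le_card_of_injective (fun y => (⟨y.1.1, inj y⟩ :
        {y : S // act e y = y ∧ Orb e x.1 y})) ?_
      intro y y' h
      apply Subtype.ext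
      apply Subtype.ext
      have h5 := congrArg (fun w : {y : S // act e y = y ∧ Orb e x.1 y} => w.1) h
      exact h5
    · rw [Finset.not_nonempty_iff_eq_empty] at hne
      rw [hne]
      exact Nat.zero_le _
  have h3 := Finset.card_eq_sum_card_fiberwise (f := ψ)
    (s := (Finset.univ : Finset {x : S // om x = b ∧ b * x ≠ x ∧ Src b e x})) (t := Finset.univ)
    (fun _ _ => Finset.mem_coe.2 (Finset.mem_univ _))
  rw [Nat.card_eq_fintype_card, ← Finset.card_univ, h3]
  refine le_trans (Finset.sum_le_card_nsmul _ _ _ fun φ _ => key φ) ?_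
  rw [Finset.card_univ, smul_eq_mul, ← Nat.card_eq_fintype_card]
  show nEnd S * nEnd S ^ 2 ≤ nEnd S ^ 3
  rw [pow_succ' (nEnd S) 2]

end EVS
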