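import Pool.Agent.EVS.Lst

/-!
# [EV-D1] facts on finite semigroups with `Good2`
-/

set_option autoImplicit false

namespace EVS

variable {S : Type} [Semigroup S] [Finite S]

/-- `a` is a product containing `b`, and `b` a product containing `a`: then `a = b` (several forms) -/
theorem jeq (h : Good2 S) {a b : S} (p q p' q' : WithOne S)
    (h1 : (a : WithOne S) = p * b * q) (h2 : (b : WithOne S) = p' * a * q') : a = b :=
  h.1 a b ⟨p, q, h1⟩ ⟨p', q', h2⟩

omit [Finite S] in
theorem d1_right {a s : S} (ha : a * s = a) (n : ℕ) : a * pw s n = a := by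
  induction n with
  | zero => exact ha
  | succ n ih => rw [pw_succ, ← mul_assoc, ih, ha]

omit [Finite S] in
theorem d1_left {a s : S} (ha : s * a = a) (n : ℕ) : pw s n * a = a := by
  induction n with
  | zero => exact ha
  | succ n ih => rw [pw_succ, mul_assoc, ha, ih]

/-- PROOF: `e f = (e f)(e f) = e (f e) f` and `f e = (f e)(f e) = f (e f) e`, so `e f = f e` by `jeq`. -/
theorem comm_idem (h : Good2 S) {e f : S} (he : e * e = e) (hf : f * f = f) : e * f = f * e := by
  refine jeq h (e : WithOne S) (f : WithOne S) (f : WithOne S) (e : WithOne S) ?_ ?_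
  · rw [← WithOne.coe_mul, ← WithOne.coe_mul, coe_inj]
    conv_lhs => rw [← h.2.1 e f he hf]
    simp only [mul_assoc]
  · rw [← WithOne.coe_mul, ← WithOne.coe_mul, coe_inj]
    conv_lhs => rw [← h.2.1 f e hf he]
    simp only [mul_assoc]

/-- PROOF: `om s = pw s n`; `om s * s` is J-below `om s`, and `om s = om s * om s = (om s * s) * ...`
(`om s * pw s n = (om s * s) * (...)`, if `n = 0` then `s = om s` is idempotent), so they are equal by `jeq`. -/
theorem om_mul_self (h : Good2 S) (s : S) : om s * s = om s ∧ s * om s = om s := by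
  have key : om s * s = om s := by
    obtain ⟨n, hn⟩ := om_eq_pw s
    have h1 : om s = om s * s * pw s (n + n) := by
      have h2 : om s * om s = s * pw s (n + n) := by rw [hn, pw_mul_pw, mul_pw]
      rw [mul_assoc, ← h2, om_idem, om_idem]
    refine jeq h 1 (s : WithOne S) 1 ((pw s (n + n) : S) : WithOne S) ?_ ?_
    · rw [one_mul, WithOne.coe_mul]
    · rw [one_mul, ← WithOne.coe_mul, coe_inj]
      exact h1
  exact ⟨key, by rw [← om_comm, key]⟩

/-- PROOF: let `e = om s`, `f = om t`, `k = e f = f e` (idempotent), `g = om (s t) = pw (s t) n`.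
(1) `k g = k`: `k s = f (e s) = f e = k`, `k t = e (f t) = e f = k` (`om_mul_self`), so `k (s t) = k`,
`k * pw (s t) n = k`.
(2) `g (s t) = g` (`om_mul_self`), so `g` and `g s` are J-equivalent (`g = (g s) t`), so `g s = g`;
then `g t = (g s) t = g`.  So `g * pw s n = g`, `g e = g`, `g f = g`, so `g k = g`.
By `comm_idem` `g = g k = k g = k`. -/
theorem om_mul2 (h : Good2 S) (s t : S) : om (s * t) = om s * om t := by
  have hk : (om s * om t) * (om s * om t) = om s * om t := h.2.1 _ _ (om_idem s) (om_idem t)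
  obtain ⟨n, hn⟩ := om_eq_pw (s * t)
  -- `k g = k`
  have k1 : (om s * om t) * s = om s * om t := by
    rw [comm_idem h (om_idem s) (om_idem t), mul_assoc, (om_mul_self h s).1]
  have k2 : (om s * om t) * t = om s * om t := by
    rw [mul_assoc, (om_mul_self h t).1]
  have k3 : (om s * om t) * (s * t) = om s * om t := by
    rw [← mul_assoc, k1, k2]
  have k4 : (om s * om t) * om (s * t) = om s * om t := by
    rw [hn]
    exact d1_right k3 n
  -- `g k = g`
  have g0 : om (s * t) * (s * t) = om (s * t) := (om_mul_self h (s * t)).1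
  have g1 : om (s * t) * s = om (s * t) := by
    refine jeq h 1 (s : WithOne S) 1 (t : WithOne S) ?_ ?_
    · rw [one_mul, WithOne.coe_mul]
    · rw [one_mul, ← WithOne.coe_mul, coe_inj, mul_assoc, g0]
  have g2 : om (s * t) * t = om (s * t) := by
    conv_lhs => rw [← g1]
    rw [mul_assoc, g0]
  obtain ⟨n1, hn1⟩ := om_eq_pw s
  obtain ⟨n2, hn2⟩ := om_eq_pw t
  have g3 : om (s * t) * om s = om (s * t) := by
    rw [hn1]; exact d1_right g1 n1
  have g4 : om (s * t) * om t = om (s * t) := by
    rw [hn2]; exact d1_right g2 n2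
  have g5 : om (s * t) * (om s * om t) = om (s * t) := by
    rw [← mul_assoc, g3, g4]
  rw [← g5, comm_idem h (om_idem _) hk, k4]

/-- PROOF: `e s = (e om s) s = e (om s * s) = e om s = e`, and `s e = s (om s e) = (s om s) e = om s e = e`
(`e om s = om s e`). -/
theorem absorb (h : Good2 S) {e s : S} (he : e * e = e) (hs : e * om s = e) :
    e * s = e ∧ s * e = e := by
  constructor
  · conv_lhs => rw [← hs]
    rw [mul_assoc, (om_mul_self h s).1, hs]
  · have h1 : om s * e = e := by rw [comm_idem h (om_idem s) he, hs]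
    conv_lhs => rw [← h1]
    rw [← mul_assoc, (om_mul_self h s).2, h1]

/-- PROOF: `e s e` is idempotent (`Good2`), so `e s e = om (e s e) = e om s e = e om s`. -/
theorem local_eq (h : Good2 S) {e : S} (he : e * e = e) (s : S) : e * s * e = e * om s := by
  rw [← om_of_idem (h.2.2 e s he), om_mul2 h, om_mul2 h, om_of_idem he, mul_assoc,
    comm_idem h (om_idem s) he, ← mul_assoc, he]

/-- a smallest idempotent with a multiplicative property -/
theorem d1_inf (h : Good2 S) (Q : S → Prop) (hQ : ∀ a b, Q a → Q b → Q (a * b)) (z0 : S)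
    (hz0 : z0 * z0 = z0) (hQ0 : Q z0) (F : Finset S) (hF : ∀ f ∈ F, f * f = f ∧ Q f) :
    ∃ z, z * z = z ∧ Q z ∧ ∀ f ∈ F, z * f = z := by
  classical
  induction F using Finset.induction_on with
  | empty => exact ⟨z0, hz0, hQ0, fun f hf => absurd hf (Finset.notMem_empty f)⟩
  | insert a F _ ih =>
    obtain ⟨z, h1, h2, h3⟩ := ih fun f hf => hF f (Finset.mem_insert_of_mem hf)
    obtain ⟨ha, hqa⟩ := hF a (Finset.mem_insert_self a F)
    refine ⟨z * a, h.2.1 z a h1 ha, hQ z a h2 hqa, ?_⟩
    intro f hf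
    rcases Finset.mem_insert.1 hf with rfl | hf'
    · rw [mul_assoc, ha]
    · rw [mul_assoc, comm_idem h ha (hF f hf).1, ← mul_assoc, h3 f hf']

theorem d1_inf' (h : Good2 S) (Q : S → Prop) (hQ : ∀ a b, Q a → Q b → Q (a * b)) (z0 : S)
    (hz0 : z0 * z0 = z0) (hQ0 : Q z0) :
    ∃ z, z * z = z ∧ Q z ∧ ∀ f, f * f = f → Q f → z * f = z := by
  classical
  have : Fintype S := Fintype.ofFinite S
  obtain ⟨z, h1, h2, h3⟩ := d1_inf h Q hQ z0 hz0 hQ0
    (Finset.univ.filter fun f => f * f = f ∧ Q f) (fun f hf => (Finset.mem_filter.1 hf).2)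
  exact ⟨z, h1, h2, fun f hf hq => h3 f (Finset.mem_filter.2 ⟨Finset.mem_univ f, hf, hq⟩)⟩

/-- PROOF: take the product of all idempotents (or an idempotent `z` with `{f : z f = z}` of maximal size); it
satisfies `z * om s = z` for all `s`, so it is a zero by `absorb`. -/
theorem exists_zero2 (h : Good2 S) [Nonempty S] : ∃ z : S, z * z = z ∧ ∀ s, z * s = z ∧ s * z = z := by
  obtain ⟨s0⟩ := ‹Nonempty S›
  obtain ⟨z, h1, -, h3⟩ := d1_inf' h (fun _ => True) (fun _ _ _ _ => trivial) (om s0) (om_idem s0)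
    trivial
  exact ⟨z, h1, fun s => absorb h h1 (h3 _ (om_idem s) trivial)⟩

/-- PROOF: `om_mul2`, commuting idempotents. -/
theorem above_mul2 (h : Good2 S) {b : S} (hb : b * b = b) (s t : S) :
    b * om (s * t) = b ↔ b * om s = b ∧ b * om t = b := by
  rw [om_mul2 h]
  constructor
  · intro h1
    constructor
    · conv_lhs => rw [← h1]
      rw [mul_assoc, mul_assoc, comm_idem h (om_idem t) (om_idem s), ← mul_assoc (om s), om_idem, h1]
    · conv_lhs => rw [← h1]
      rw [mul_assoc, mul_assoc, om_idem, h1]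
  · rintro ⟨h1, h2⟩
    rw [← mul_assoc, h1, h2]

/-- PROOF: if no idempotent `k` satisfies `k x = x` take `none`, otherwise the product of all such `k`. -/
theorem exists_ltyp (h : Good2 S) (x : S) : ∃ e : Option S, LTyp e x := by
  by_cases hex : ∃ k : S, k * k = k ∧ k * x = x
  · obtain ⟨k, hk, hkx⟩ := hex
    obtain ⟨z, h1, h2, h3⟩ := d1_inf' h (fun z => z * x = x)
      (fun a b ha hb => by rw [mul_assoc, hb, ha]) k hk hkx
    exact ⟨some z, h1, h2, h3⟩
  · push Not at hex
    exact ⟨none, hex⟩

theorem exists_rtyp (h : Good2 S) (x : S) : ∃ f : Option S, RTyp f x := by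
  by_cases hex : ∃ k : S, k * k = k ∧ x * k = x
  · obtain ⟨k, hk, hkx⟩ := hex
    obtain ⟨z, h1, h2, h3⟩ := d1_inf' h (fun z => x * z = x)
      (fun a b ha hb => by rw [← mul_assoc, ha, hb]) k hk hkx
    exact ⟨some z, h1, h2, h3⟩
  · push Not at hex
    exact ⟨none, hex⟩

/-- `p x = x` implies `om p * x = x`, and conversely (`p * om p = om p`). -/
theorem left_fix (h : Good2 S) (p x : S) : p * x = x ↔ om p * x = x := by
  constructor
  · intro h1
    obtain ⟨n, hn⟩ := om_eq_pw p
    rw [hn]
    exact d1_left h1 n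
  · intro h1
    conv_lhs => rw [← h1]
    rw [← mul_assoc, (om_mul_self h p).2, h1]

theorem right_fix (h : Good2 S) (q x : S) : x * q = x ↔ x * om q = x := by
  constructor
  · intro h1
    obtain ⟨n, hn⟩ := om_eq_pw q
    rw [hn]
    exact d1_right h1 n
  · intro h1
    conv_lhs => rw [← h1]
    rw [mul_assoc, (om_mul_self h q).1, h1]

/-- Elements at the level of `b` absorb: `s b = b = b s`. -/
theorem mul_b (h : Good2 S) {b s : S} (hb : b * b = b) (hs : b * om s = b) :
    s * b = b ∧ b * s = b := ⟨(absorb h hb hs).2, (absorb h hb hs).1⟩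

end EVS
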