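import Pool.Agent.EVS.D1

/-!
# [EV-D2] moving an indecomposable element to a null element
-/

set_option autoImplicit false

namespace EVS

variable {S : Type} [Semigroup S] [Finite S]

/-- PROOF: let `y` be the zero of `S` (`exists_zero2`).  Define `ψ g = z`, `ψ s = b` if `b * om s = b`, `s ≠ g`, and
`ψ s = y` otherwise.  A product is never `g`, and `s t` is above `b` iff `s` and `t` are (`above_mul2`).  `z b = b = b z`
(`mul_b`, `om z = b` since `z z = b` is idempotent), `z z = b`, `y` is a zero.
(Or `moveGen` with `R = {g}`, `UL = UR = ∅` and `base` with `F = {b, y}`.) -/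
theorem move0 (h : Good2 S) {b g z : S} (hb : b * b = b) (hg : b * om g = b) (hi : Indec g)
    (hz : z * z = b) : ∃ ψ : S →ₙ* S, ψ g = z ∧ ∀ s, s ≠ g → ψ s * ψ s = ψ s := by
  classical
  have : Nonempty S := ⟨b⟩
  obtain ⟨y, hy, hy0⟩ := exists_zero2 h
  have homz : om z = b := by
    have e : pw z 1 = b := hz
    have := om_eq (s := z) (n := 1) (by rw [e, hb])
    rw [this, e]
  obtain ⟨hzb, hbz⟩ := mul_b h (s := z) hb (by rw [homz, hb])
  refine ⟨⟨fun s => if s = g then z else if b * om s = b then b else y, ?_⟩, ?_, ?_⟩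
  · intro s t
    have hst : s * t ≠ g := hi s t
    have hab := above_mul2 h hb s t
    simp only [hst, if_false]
    by_cases hs : b * om s = b
    · by_cases ht : b * om t = b
      · rw [if_pos (hab.2 ⟨hs, ht⟩), if_pos hs, if_pos ht]
        split_ifs
        · exact hz.symm
        · exact hzb.symm
        · exact hbz.symm
        · exact hb.symm
      · have htg : t ≠ g := fun e => ht (by rw [e]; exact hg)
        rw [if_neg (fun e => ht (hab.1 e).2), if_neg htg, if_neg ht]
        exact ((hy0 _).2).symm
    · have hsg : s ≠ g := fun e => hs (by rw [e]; exact hg)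
      rw [if_neg (fun e => hs (hab.1 e).1), if_neg hsg, if_neg hs]
      exact ((hy0 _).1).symm
  · show (if g = g then z else if b * om g = b then b else y) = z
    rw [if_pos rfl]
  · intro s hs
    show (if s = g then z else if b * om s = b then b else y) *
      (if s = g then z else if b * om s = b then b else y) =
      (if s = g then z else if b * om s = b then b else y)
    rw [if_neg hs]
    split_ifs
    · exact hb
    · exact hy

/-- PROOF: `move0`, `card_le_nEnd`. -/
theorem card_nul2_le (h : Good2 S) {b g : S} (hb : b * b = b) (hg : b * om g = b) (hi : Indec g) :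
    Nat.card {z : S // z * z = b} ≤ nEnd S := by
  refine card_le_nEnd (fun (z : {z : S // z * z = b}) ψ => ψ g = z.1) ?_ ?_
  · intro z
    obtain ⟨ψ, h1, _⟩ := move0 h hb hg hi z.2
    exact ⟨ψ, h1⟩
  · intro z z' ψ h1 h2
    exact Subtype.ext (h1.symm.trans h2)

/-- PROOF: if the set is empty, nothing to do.  Otherwise let `x` be in it; the last power of `x` different from
`b` is an element `z ≠ b` with `z z = b` (`om x = b` is a power of `x`, and `b x = b` by `mul_b`).  For `g` in the
set let `ψ_g` be the endomorphism of `move0` for `g` and this `z`: `ψ_g g = z` is not idempotent, `ψ_g g'` is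
idempotent for `g' ≠ g`.  `card_le_nEnd`. -/
theorem card_indec_le (h : Good2 S) {b : S} (hb : b * b = b) :
    Nat.card {x : S // om x = b ∧ x ≠ b ∧ Indec x} ≤ nEnd S := by
  classical
  rcases isEmpty_or_nonempty {x : S // om x = b ∧ x ≠ b ∧ Indec x} with he | ⟨⟨x, hx, hxb, hxi⟩⟩
  · rw [Nat.card_of_isEmpty]
    exact Nat.zero_le _
  · obtain ⟨hxb1, hbx⟩ := mul_b h (s := x) hb (by rw [hx, hb])
    have hex : ∃ n, pw x n = b := by
      obtain ⟨n, hn⟩ := om_eq_pw x
      exact ⟨n, by rw [← hn, hx]⟩
    obtain ⟨k, hk, hmin⟩ : ∃ k, pw x k = b ∧ ∀ m, m < k → pw x m ≠ b :=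
      ⟨Nat.find hex, Nat.find_spec hex, fun m hm => Nat.find_min hex hm⟩
    have hk0 : k ≠ 0 := by
      rintro rfl
      exact hxb hk
    obtain ⟨j, rfl⟩ := Nat.exists_eq_succ_of_ne_zero hk0
    have hstab : ∀ i, pw x (j + 1 + i) = b := by
      intro i
      induction i with
      | zero => exact hk
      | succ i ih => rw [← add_assoc, pw_succ, ih, hbx]
    obtain ⟨z, hzdef⟩ : ∃ z, z = pw x j := ⟨_, rfl⟩
    have hzb : z ≠ b := by
      rw [hzdef]
      exact hmin j (Nat.lt_succ_self j)
    have hzz : z * z = b := by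
      rw [hzdef, pw_mul_pw]
      have : j + j + 1 = j + 1 + j := by omega
      rw [this]
      exact hstab j
    refine card_le_nEnd (fun (g : {x : S // om x = b ∧ x ≠ b ∧ Indec x}) ψ =>
      ψ g.1 = z ∧ ∀ s, s ≠ g.1 → ψ s * ψ s = ψ s) ?_ ?_
    · intro g
      exact move0 h hb (by rw [g.2.1, hb]) g.2.2.2 hzz
    · intro g g' ψ h1 h2
      by_contra hne
      have hne' : g.1 ≠ g'.1 := fun e => hne (Subtype.ext e)
      have := h2.2 g.1 hne'
      rw [h1.1, hzz] at this
      exact hzb this.symm

end EVS
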