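import Pool.Agent.EVS.D1

/-!
# [EV-D3a] moving an irreducible element with a left and a right identity
-/

set_option autoImplicit false

namespace EVS

variable {S : Type} [Semigroup S] [Finite S]

/-- the smallest idempotent above `e` and `f` -/
theorem d3a_least (h : Good2 S) {e f k : S} (hk : k * k = k) (hke : k * e = e) (hkf : k * f = f) :
    ∃ p : S, p * p = p ∧ p * e = e ∧ p * f = f ∧
      ∀ k : S, k * k = k → k * e = e → k * f = f → k * p = p := by
  classical
  have key : ∀ A : Finset S, (∀ a ∈ A, a * a = a ∧ a * e = e ∧ a * f = f) →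
      ∃ p : S, (p * p = p ∧ p * e = e ∧ p * f = f) ∧ ∀ a ∈ A, a * p = p := by
    intro A
    induction A using Finset.induction_on with
    | empty => intro _; exact ⟨k, ⟨hk, hke, hkf⟩, fun a ha => absurd ha (Finset.notMem_empty a)⟩
    | insert a A _ ih =>
      intro hA
      obtain ⟨p, ⟨p1, p2, p3⟩, hp⟩ := ih (fun a' ha' => hA a' (Finset.mem_insert_of_mem ha'))
      obtain ⟨a1, a2, a3⟩ := hA a (Finset.mem_insert_self _ _)
      refine ⟨a * p, ⟨h.2.1 a p a1 p1, ?_, ?_⟩, ?_⟩
      · rw [mul_assoc, p2, a2]
      · rw [mul_assoc, p3, a3]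
      · intro a' ha'
        rcases Finset.mem_insert.mp ha' with rfl | ha''
        · rw [← mul_assoc, a1]
        · have c := comm_idem h (hA a' ha').1 a1
          rw [← mul_assoc, c, mul_assoc, hp a' ha'']
  have : Fintype S := Fintype.ofFinite S
  obtain ⟨p, ⟨p1, p2, p3⟩, hp⟩ := key (Finset.univ.filter fun a => a * a = a ∧ a * e = e ∧ a * f = f)
    (fun a ha => (Finset.mem_filter.mp ha).2)
  exact ⟨p, p1, p2, p3, fun k k1 k2 k3 => hp k (Finset.mem_filter.mpr ⟨Finset.mem_univ _, k1, k2, k3⟩)⟩

/-- PROOF.  `e b = b = b e`, `f b = b = b f` (`e x = x` gives `e om x = om x` by `om_mul2`).  Let `y` be the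
zero of `S`.  Base endomorphism `ρ`: `base` with
`F = {e, f, ef, b, y} ∪ {p : p p = p, p e = e, p f = f, and k p = p for every idempotent k with k e = e, k f = f}`
(the last set has at most one element, called `p` below; it is the product of all idempotents `k` with
`k e = e`, `k f = f` if there are such `k`).
`hr`: for an idempotent `k` take `p` if `k e = e` and `k f = f`; otherwise `e` if `k e = e`; otherwise `f` if
`k f = f`; otherwise `ef` if `k ef = ef`; otherwise `b` if `k b = b`; otherwise `y`.  (If `q ∈ F` and `k q = q`: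
for `q = p` also `k e = k p e = e`, `k f = f`; for `q = e`: `k e = e`, and so on; `p`, `e`, `f`, `ef`, `b`, `y`
absorb the elements further right, `e f` is below `e` and `f`.  If `e = f` or `ef = b` etc. this is still fine.)
So `ρ s ∈ F`, `om s * ρ s = ρ s`, and `ρ s * q = q` if `q ∈ F`, `om s * q = q`.
Local facts: `x e = e x e = e om x = e b = b` (`local_eq`, `e x = x`), `f x = f x f = b`; the same for `x'`:
`x' e = b`, `f x' = b`.  So `x' x' = x' e x' = b x' = b`.
Apply `moveGen` with `κ s = x'`, `R = {s : e s f = x}`, `UL = {s : e * om s = e}`, `UR = {s : f * om s = f}`.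
h1, `→`: `e s t f = x`, `x = (e s)(t f)`, so by `Irr`: `(e s) x = x` or `x (t f) = x`.  In the first case
`om (e s) x = x` (`left_fix`), `om (e s) = e om s`, so `om s x = x` (`om s x = om s e om s x = e om s x = x`,
idempotents commute), so `e om s = e` by `LTyp`; so `s ∈ UL`, `e s = e` (`absorb`), and `e t f = e s t f = x`, so
`t ∈ R`.  The second case is symmetric.
`←`: `t ∈ UR` gives `t f = f`, so `e (s t) f = e s f`.  Symmetric for `s ∈ UL`.
h2: if `e s f = x` and `e s = e` then `x = e f` is idempotent, so `x = om x = b`, excluded; symmetric.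
h3: `κ (s t) = x'` and `x' ρ t = x' f ρ t = x' f = x'` (`om t * f = f` as `f om t = f`, so `ρ t * f = f`,
and idempotents commute).  h4 symmetric.
For `s ∈ R`: `ρ s = b`: `e om s f = om (e s f) = om x = b`; so `om s * b = b`, `ρ s * b = b`.
`ρ s = p` or `e` would give `om s e = e`, i.e. `s ∈ UL`, excluded by h2; `ρ s = f` similarly; `ρ s = ef` gives
`ef = om s ef = b`; `ρ s = y` gives `b = y b = y`.
h5: `s ∈ R`, `t ∉ UR`: `ρ t` is not `p`, not `f` (otherwise `om t f = f`); `x' e = b = b e`; `x' ef = b f = b`;
`x' b = b`; `x' y = y = b y`.  h6 symmetric.  h7: `x' x' = b = b b`.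
The values outside `R` are in `F`, hence idempotent. -/
theorem move2 (h : Good2 S) {b e f x x' : S} (hb : b * b = b) (hx : om x = b) (hxb : x ≠ b)
    (hl : LTyp (some e) x) (hr : RTyp (some f) x) (hirr : Irr x)
    (hx' : om x' = b) (he' : e * x' = x') (hf' : x' * f = x') :
    ∃ ψ : S →ₙ* S, (∀ s, e * s * f = x → ψ s = x') ∧ ∀ s, e * s * f ≠ x → ψ s * ψ s = ψ s := by
  obtain ⟨he, hex, hle⟩ := hl
  obtain ⟨hf, hxf, hrf⟩ := hr
  have : Nonempty S := ⟨b⟩
  have omI : ∀ s : S, om s * om s = om s := om_idem
  have ci : ∀ {p q : S}, p * p = p → q * q = q → p * q = q * p := fun hp hq => comm_idem h hp hq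
  -- b is below e and f
  have heb : e * b = b := by
    have := om_mul2 h e x
    rw [hex, hx, om_of_idem he] at this
    exact this.symm
  have hbf : b * f = b := by
    have := om_mul2 h x f
    rw [hxf, hx, om_of_idem hf] at this
    exact this.symm
  have hbe : b * e = b := by rw [← ci he hb]; exact heb
  have hfb : f * b = b := by rw [ci hf hb]; exact hbf
  have hefI : (e * f) * (e * f) = e * f := h.2.1 e f he hf
  have hefb : (e * f) * b = b := by rw [mul_assoc, hfb, heb]
  have hbef : b * (e * f) = b := by rw [← mul_assoc, hbe, hbf]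
  have hfe : f * e = e * f := ci hf he
  obtain ⟨y, hy, hyz⟩ := exists_zero2 h
  have yl : ∀ s : S, y * s = y := fun s => (hyz s).1
  have yr : ∀ s : S, s * y = y := fun s => (hyz s).2
  let Q : S → Prop := fun p => p * p = p ∧ p * e = e ∧ p * f = f ∧
    ∀ k : S, k * k = k → k * e = e → k * f = f → k * p = p
  let F : Set S := {p | p = e ∨ p = f ∨ p = e * f ∨ p = b ∨ p = y ∨ Q p}
  have hFe : e ∈ F := Or.inl rfl
  have hFf : f ∈ F := Or.inr (Or.inl rfl)
  have hFef : e * f ∈ F := Or.inr (Or.inr (Or.inl rfl))
  have hFb : b ∈ F := Or.inr (Or.inr (Or.inr (Or.inl rfl)))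
  have hFy : y ∈ F := Or.inr (Or.inr (Or.inr (Or.inr (Or.inl rfl))))
  have hFQ : ∀ p, Q p → p ∈ F := fun p hp => Or.inr (Or.inr (Or.inr (Or.inr (Or.inr hp))))
  have hFI : ∀ p ∈ F, p * p = p := by
    rintro p (rfl | rfl | rfl | rfl | rfl | hp)
    · exact he
    · exact hf
    · exact hefI
    · exact hb
    · exact hy
    · exact hp.1
  -- a `Q` element is above everything in `F`
  have hQ : ∀ p, Q p → ∀ q ∈ F, p * q = q := by
    rintro p ⟨p1, p2, p3, p4⟩ q (rfl | rfl | rfl | rfl | rfl | hq)
    · exact p2
    · exact p3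
    · rw [← mul_assoc, p2]
    · rw [← heb, ← mul_assoc, p2]
    · exact yr p
    · exact hq.2.2.2 p p1 p2 p3
  have hQr : ∀ p, Q p → ∀ q ∈ F, q * p = q := fun p hp q hq => by
    rw [ci (hFI q hq) hp.1]; exact hQ p hp q hq
  have hmul : ∀ p ∈ F, ∀ q ∈ F, p * q ∈ F := by
    intro p hp q hq
    rcases hp with rfl | rfl | rfl | rfl | rfl | hp
    · rcases hq with rfl | rfl | rfl | rfl | rfl | hq
      · rw [he]; exact hFe
      · exact hFef
      · rw [← mul_assoc, he]; exact hFef
      · rw [heb]; exact hFb
      · rw [yr]; exact hFy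
      · rw [hQr _ hq _ hFe]; exact hFe
    · rcases hq with rfl | rfl | rfl | rfl | rfl | hq
      · rw [hfe]; exact hFef
      · rw [hf]; exact hFf
      · rw [← mul_assoc, hfe, mul_assoc, hf]; exact hFef
      · rw [hfb]; exact hFb
      · rw [yr]; exact hFy
      · rw [hQr _ hq _ hFf]; exact hFf
    · rcases hq with rfl | rfl | rfl | rfl | rfl | hq
      · rw [mul_assoc, hfe, ← mul_assoc, he]; exact hFef
      · rw [mul_assoc, hf]; exact hFef
      · rw [hefI]; exact hFef
      · rw [hefb]; exact hFb
      · rw [yr]; exact hFy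
      · rw [hQr _ hq _ hFef]; exact hFef
    · rcases hq with rfl | rfl | rfl | rfl | rfl | hq
      · rw [hbe]; exact hFb
      · rw [hbf]; exact hFb
      · rw [hbef]; exact hFb
      · rw [hb]; exact hFb
      · rw [yr]; exact hFy
      · rw [hQr _ hq _ hFb]; exact hFb
    · rw [yl]; exact hFy
    · rw [hQ _ hp _ hq]; exact hq
  have hrr : ∀ k : S, k * k = k → ∃ p ∈ F, k * p = p ∧ ∀ q ∈ F, k * q = q → p * q = q := by
    intro k hk
    by_cases k1 : k * e = e
    · by_cases k2 : k * f = f
      · obtain ⟨p, hp⟩ := d3a_least h hk k1 k2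
        exact ⟨p, hFQ p hp, hp.2.2.2 k hk k1 k2, fun q hq _ => hQ p hp q hq⟩
      · refine ⟨e, hFe, k1, ?_⟩
        rintro q (rfl | rfl | rfl | rfl | rfl | hq) hkq
        · exact he
        · exact absurd hkq k2
        · rw [← mul_assoc, he]
        · exact heb
        · exact yr _
        · exfalso; apply k2; rw [← hq.2.2.1, ← mul_assoc, hkq]
    · by_cases k2 : k * f = f
      · refine ⟨f, hFf, k2, ?_⟩
        rintro q (rfl | rfl | rfl | rfl | rfl | hq) hkq
        · exact absurd hkq k1
        · exact hf
        · rw [← mul_assoc, hfe, mul_assoc, hf]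
        · exact hfb
        · exact yr _
        · exfalso; apply k1; rw [← hq.2.1, ← mul_assoc, hkq]
      · by_cases k3 : k * (e * f) = e * f
        · refine ⟨e * f, hFef, k3, ?_⟩
          rintro q (rfl | rfl | rfl | rfl | rfl | hq) hkq
          · exact absurd hkq k1
          · exact absurd hkq k2
          · exact hefI
          · exact hefb
          · exact yr _
          · exfalso; apply k1; rw [← hq.2.1, ← mul_assoc, hkq]
        · by_cases k4 : k * b = b
          · refine ⟨b, hFb, k4, ?_⟩
            rintro q (rfl | rfl | rfl | rfl | rfl | hq) hkq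
            · exact absurd hkq k1
            · exact absurd hkq k2
            · exact absurd hkq k3
            · exact hb
            · exact yr _
            · exfalso; apply k1; rw [← hq.2.1, ← mul_assoc, hkq]
          · refine ⟨y, hFy, yr k, ?_⟩
            rintro q (rfl | rfl | rfl | rfl | rfl | hq) hkq
            · exact absurd hkq k1
            · exact absurd hkq k2
            · exact absurd hkq k3
            · exact absurd hkq k4
            · exact hy
            · exfalso; apply k1; rw [← hq.2.1, ← mul_assoc, hkq]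
  obtain ⟨ρ, hρ⟩ := base (fun p q hp hq => comm_idem h hp hq) (om_mul2 h) F hFI hmul hrr
  have hρF : ∀ s, ρ s ∈ F := fun s => (hρ s).1
  have hρI : ∀ s, ρ s * ρ s = ρ s := fun s => hFI _ (hρF s)
  have hρ1 : ∀ s, om s * ρ s = ρ s := fun s => (hρ s).2.1
  have hρ2 : ∀ s, ∀ q ∈ F, om s * q = q → ρ s * q = q := fun s => (hρ s).2.2
  -- local facts
  have hxe : x' * e = b := by
    have := local_eq h he x'
    rw [he', hx', heb] at this
    exact this
  have hfx : f * x' = b := by
    have := local_eq h hf x'
    rw [mul_assoc, hf', hx', hfb] at this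
    exact this
  obtain ⟨hx'b, hbx'⟩ := mul_b h hb (s := x') (by rw [hx', hb])
  have hx'x' : x' * x' = b := by
    calc x' * x' = x' * (e * x') := by rw [he']
      _ = (x' * e) * x' := (mul_assoc _ _ _).symm
      _ = b := by rw [hxe, hbx']
  -- the sets
  have hUL : ∀ s, e * om s = e → e * s = e := fun s hs => (absorb h he hs).1
  have hUR : ∀ s, f * om s = f → s * f = f := fun s hs => (absorb h hf hs).2
  have efx : e * f ≠ x := fun heq => by
    have : om x = x := om_of_idem (by rw [← heq]; exact hefI)
    exact hxb (this.symm.trans hx)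
  have nUL : ∀ s, e * s * f = x → ¬ (e * om s = e) := fun s hs hu => by
    rw [hUL s hu] at hs; exact efx hs
  have nUR : ∀ s, e * s * f = x → ¬ (f * om s = f) := fun s hs hu => by
    rw [mul_assoc, hUR s hu] at hs; exact efx hs
  -- transfer: `om s * e = e` implies `s ∈ UL`
  have tUL : ∀ s, om s * e = e → e * om s = e := fun s hs => by rw [ci he (omI s)]; exact hs
  have tUR : ∀ s, om s * f = f → f * om s = f := fun s hs => by rw [ci hf (omI s)]; exact hs
  have tUL' : ∀ s, e * om s = e → om s * e = e := fun s hs => by rw [← ci he (omI s)]; exact hs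
  have tUR' : ∀ s, f * om s = f → om s * f = f := fun s hs => by rw [← ci hf (omI s)]; exact hs
  have hRb : ∀ s, e * s * f = x → ρ s = b := by
    intro s hs
    have e1 : e * om s * f = b := by
      have := om_mul2 h (e * s) f
      rw [om_mul2 h e s, om_of_idem he, om_of_idem hf, hs, hx] at this
      exact this.symm
    have e2 : om s * b = b := by
      conv_lhs => rw [← e1]
      rw [← mul_assoc, ← mul_assoc, ← ci he (omI s), mul_assoc e, omI, e1]
    have e3 := hρ2 s b hFb e2
    rcases hρF s with hh | hh | hh | hh | hh | hh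
    · exact absurd (tUL s (by have := hρ1 s; rwa [hh] at this)) (nUL s hs)
    · exact absurd (tUR s (by have := hρ1 s; rwa [hh] at this)) (nUR s hs)
    · have e4 := hρ1 s
      rw [hh, ← mul_assoc, ← ci he (omI s), e1] at e4
      rw [hh, ← e4]
    · exact hh
    · rw [hh, yl] at e3
      rw [hh, e3]
    · exfalso
      apply nUL s hs
      apply tUL
      conv_lhs => rw [← hh.2.1]
      rw [← mul_assoc, hρ1, hh.2.1]
  refine Exists.elim (moveGen ρ (fun _ => x') {s | e * s * f = x} {s | e * om s = e}
    {s | f * om s = f} ?_ ?_ ?_ ?_ ?_ ?_ ?_) ?_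
  · -- h1
    intro s t
    constructor
    · intro hst
      have hst' : e * (s * t) * f = x := hst
      have hpq : (e * s) * (t * f) = x := by rw [← hst']; simp only [mul_assoc]
      rcases hirr _ _ hpq with h1 | h1
      · right
        have h2 := (left_fix h _ _).1 h1
        rw [om_mul2 h e s, om_of_idem he] at h2
        have h3 : om s * x = x := by
          conv_lhs => rw [← h2]
          rw [← mul_assoc, ← mul_assoc, ← ci he (omI s), mul_assoc e, omI, h2]
        have h4 := hle _ (omI s) h3
        refine ⟨h4, ?_⟩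
        have h5 := hUL s h4
        show e * t * f = x
        rw [← hst', ← mul_assoc e s t, h5]
      · left
        have h2 := (right_fix h _ _).1 h1
        rw [om_mul2 h t f, om_of_idem hf] at h2
        have h3 : x * om t = x := by
          conv_lhs => rw [← h2]
          rw [mul_assoc x, mul_assoc (om t), ci hf (omI t), ← mul_assoc (om t), omI, h2]
        have h4 := hrf _ (omI t) h3
        refine ⟨?_, h4⟩
        have h5 := hUR t h4
        show e * s * f = x
        rw [← h5, ← hpq, ← mul_assoc]
    · rintro (⟨h1, h2⟩ | ⟨h1, h2⟩)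
      · have h5 := hUR t h2
        have h1' : e * s * f = x := h1
        show e * (s * t) * f = x
        rw [← mul_assoc e s t, mul_assoc (e * s) t f, h5, h1']
      · have h5 := hUL s h1
        have h2' : e * t * f = x := h2
        show e * (s * t) * f = x
        rw [← mul_assoc e s t, h5, h2']
  · -- h2
    intro s hs
    exact ⟨nUL s hs, nUR s hs⟩
  · -- h3
    intro s _ t ht
    have h1 := hρ2 t f hFf (tUR' t ht)
    show x' = x' * ρ t
    conv_rhs => rw [← hf']
    rw [mul_assoc, ci hf (hρI t), h1, hf']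
  · -- h4
    intro s hs t _
    have h1 := hρ2 s e hFe (tUL' s hs)
    show x' = ρ s * x'
    conv_rhs => rw [← he']
    rw [← mul_assoc, h1, he']
  · -- h5
    intro s hs t ht
    rw [hRb s hs]
    show x' * ρ t = b * ρ t
    rcases hρF t with hh | hh | hh | hh | hh | hh
    · rw [hh, hxe, hbe]
    · exact absurd (tUR t (by have := hρ1 t; rwa [hh] at this)) ht
    · rw [hh, ← mul_assoc, hxe, hbf, hbef]
    · rw [hh, hx'b, hb]
    · rw [hh, yr, yr]
    · exfalso
      apply ht
      apply tUR
      conv_lhs => rw [← hh.2.2.1]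
      rw [← mul_assoc, hρ1, hh.2.2.1]
  · -- h6
    intro s hs t ht
    rw [hRb t ht]
    show ρ s * x' = ρ s * b
    rcases hρF s with hh | hh | hh | hh | hh | hh
    · exact absurd (tUL s (by have := hρ1 s; rwa [hh] at this)) hs
    · rw [hh, hfx, hfb]
    · rw [hh, mul_assoc, hfx, heb, hefb]
    · rw [hh, hbx', hb]
    · rw [hh, yl, yl]
    · exfalso
      apply hs
      apply tUL
      conv_lhs => rw [← hh.2.1]
      rw [← mul_assoc, hρ1, hh.2.1]
  · -- h7
    intro s hs t ht
    rw [hRb s hs, hRb t ht, hb]
    exact hx'x'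
  · rintro ψ ⟨hψ1, hψ2⟩
    exact ⟨ψ, fun s hs => hψ1 s hs, fun s hs => by rw [hψ2 s hs]; exact hρI s⟩

end EVS
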