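import Pool.Agent.EVS.D1

/-!
# [EV-D3b] moving an irreducible element with a left or a right identity
-/

set_option autoImplicit false

namespace EVS

variable {S : Type} [Semigroup S] [Finite S]

/-- the projection onto `{e, b, y}` -/
private theorem d3b_base (h : Good2 S) {b e y : S} (hb : b * b = b) (he : e * e = e)
    (heb : e * b = b) (hy : y * y = y) (hy0 : ∀ s, y * s = y ∧ s * y = y) :
    ∃ ρ : S →ₙ* S, ∀ s, (ρ s = e ∨ ρ s = b ∨ ρ s = y) ∧ om s * ρ s = ρ s ∧
      (om s * e = e → ρ s * e = e) ∧ (om s * b = b → ρ s * b = b) := by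
  have hbe : b * e = b := by rw [comm_idem h hb he, heb]
  obtain ⟨ρ, hρ⟩ := base (S := S) (fun e f he hf => comm_idem h he hf) (om_mul2 h)
    {p : S | p = e ∨ p = b ∨ p = y}
    (by
      rintro p (rfl | rfl | rfl)
      · exact he
      · exact hb
      · exact hy)
    (by
      rintro p (hp | hp | hp) q (hq | hq | hq) <;> rw [hp, hq]
      · exact Or.inl he
      · exact Or.inr (Or.inl heb)
      · exact Or.inr (Or.inr (hy0 e).2)
      · exact Or.inr (Or.inl hbe)
      · exact Or.inr (Or.inl hb)
      · exact Or.inr (Or.inr (hy0 b).2)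
      · exact Or.inr (Or.inr (hy0 e).1)
      · exact Or.inr (Or.inr (hy0 b).1)
      · exact Or.inr (Or.inr hy))
    (by
      intro k _
      by_cases h1 : k * e = e
      · refine ⟨e, Or.inl rfl, h1, ?_⟩
        rintro q (hq | hq | hq) _ <;> rw [hq]
        · exact he
        · exact heb
        · exact (hy0 e).2
      · by_cases h2 : k * b = b
        · refine ⟨b, Or.inr (Or.inl rfl), h2, ?_⟩
          rintro q (hq | hq | hq) hk <;> rw [hq] at hk ⊢
          · exact absurd hk h1
          · exact hb
          · exact (hy0 b).2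
        · refine ⟨y, Or.inr (Or.inr rfl), (hy0 k).2, ?_⟩
          rintro q (hq | hq | hq) hk <;> rw [hq] at hk ⊢
          · exact absurd hk h1
          · exact absurd hk h2
          · exact hy)
  refine ⟨ρ, fun s => ⟨(hρ s).1, (hρ s).2.1, ?_, ?_⟩⟩
  · exact (hρ s).2.2 e (Or.inl rfl)
  · exact (hρ s).2.2 b (Or.inr (Or.inl rfl))

/-- PROOF.  `e b = b = b e` (`e x = x` gives `e om x = om x` by `om_mul2`).  Let `y` be the zero of `S`.
Base endomorphism `ρ`: `base` with `F = {e, b, y}`.
`hr`: for an idempotent `k` take `e` if `k e = e`; otherwise `b` if `k b = b`; otherwise `y`.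
Local facts: `x e = e x e = e om x = e b = b` (`local_eq`, `e x = x`), the same for `x'`: `x' e = b`.
So `x' x' = x' e x' = b x' = b`.
Apply `moveGen` with `κ s = x'`, `R = {s : e s = x}`, `UL = {s : e * om s = e}`, `UR = ∅`.
h1, `→`: `x = (e s) t`, so by `Irr`: `(e s) x = x` or `x t = x`.  The second case is impossible: `x om t = x`
(`right_fix`) contradicts `RTyp none x`.  In the first case
`om (e s) x = x` (`left_fix`), `om (e s) = e om s`, so `om s x = x` (`om s x = om s e om s x = e om s x = x`,
idempotents commute), so `e om s = e` by `LTyp`; so `s ∈ UL`, `e s = e` (`absorb`), and `e t = e s t = x`, so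
`t ∈ R`.
`←`: `s ∈ UL` gives `e s = e`, so `e (s t) = e t = x`.
h2: if `e s = x` and `e s = e` then `x` is idempotent, so `x = om x = b`, excluded.
h4: `ρ s x' = ρ s e x' = e x' = x'` (`om s * e = e`, so `ρ s * e = e`).
For `s ∈ R`: `ρ s = b`: `e om s = om (e s) = om x = b`; so `om s * b = b`, `ρ s * b = b`; `ρ s = e` would give
`om s e = e`, so `s ∈ UL`, excluded; `ρ s = y` gives `b = y b = y`.
h5: `x' e = b = b e`, `x' b = b = b b`, `x' y = y = b y`.
h6: `s ∉ UL`: `ρ s ∈ {b, y}`, `b x' = b`, `y x' = y`.  h7: `x' x' = b`.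
The values outside `R` are in `F`, hence idempotent. -/
theorem move1l (h : Good2 S) {b e x x' : S} (hb : b * b = b) (hx : om x = b) (hxb : x ≠ b)
    (hl : LTyp (some e) x) (hr : RTyp none x) (hirr : Irr x)
    (hx' : om x' = b) (he' : e * x' = x') :
    ∃ ψ : S →ₙ* S, (∀ s, e * s = x → ψ s = x') ∧ ∀ s, e * s ≠ x → ψ s * ψ s = ψ s := by
  obtain ⟨he, hex, hmin⟩ : e * e = e ∧ e * x = x ∧ ∀ k : S, k * k = k → k * x = x → e * k = e := hl
  have hnone : ∀ k : S, k * k = k → x * k ≠ x := hr
  have : Nonempty S := ⟨e⟩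
  obtain ⟨y, hy, hy0⟩ := exists_zero2 h
  have heb : e * b = b := by
    have h1 := om_mul2 h e x
    rw [hex, hx, om_of_idem he] at h1
    exact h1.symm
  have hbe : b * e = b := by rw [comm_idem h hb he, heb]
  obtain ⟨ρ, hρ⟩ := d3b_base h hb he heb hy hy0
  have hcom : ∀ s, om s * e = e * om s := fun s => comm_idem h (om_idem s) he
  have hxe : x' * e = b := by
    have h1 := local_eq h he x'
    rw [he', hx', heb] at h1
    exact h1
  have hbx : b * x' = b := by
    have h1 := (om_mul_self h x').1
    rwa [hx'] at h1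
  have hxb' : x' * b = b := by
    have h1 := (om_mul_self h x').2
    rwa [hx'] at h1
  have hxx : x' * x' = b := by
    conv_lhs => rw [← he', ← mul_assoc, mul_assoc e, hxe, heb]
    exact hbx
  have h2 : ∀ s, e * s = x → e * om s ≠ e := by
    intro s hs hu
    have h1 := (absorb h he hu).1
    apply hxb
    rw [← hx, ← hs, h1, om_of_idem he]
  have hρR : ∀ s, e * s = x → ρ s = b := by
    intro s hs
    have h1 : e * om s = b := by
      have h3 := om_mul2 h e s
      rw [hs, hx, om_of_idem he] at h3
      exact h3.symm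
    have h3 : om s * b = b := by
      rw [← h1, ← mul_assoc, hcom, mul_assoc, om_idem]
    obtain ⟨h4 | h4 | h4, h5, h6, h7⟩ := hρ s
    · rw [h4, hcom] at h5
      exact absurd h5 (h2 s hs)
    · exact h4
    · have h8 := h7 h3
      rw [h4, (hy0 b).1] at h8
      rw [h4, h8]
  obtain ⟨ψ, hψ1, hψ2⟩ := moveGen ρ (fun _ => x') {s | e * s = x} {s | e * om s = e} ∅
    (by
      intro s t
      simp only [Set.mem_ofPred_eq, Set.mem_empty_iff_false, and_false, false_or]
      constructor
      · intro hst
        rw [← mul_assoc] at hst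
        rcases hirr _ _ hst with h3 | h3
        · rw [left_fix h, om_mul2 h, om_of_idem he] at h3
          have h4 : om s * x = x := by
            rw [← hcom, mul_assoc, hex] at h3
            exact h3
          have h5 := hmin _ (om_idem s) h4
          refine ⟨h5, ?_⟩
          rw [(absorb h he h5).1] at hst
          exact hst
        · rw [right_fix h] at h3
          exact absurd h3 (hnone _ (om_idem t))
      · rintro ⟨h3, h4⟩
        rw [← mul_assoc, (absorb h he h3).1, h4])
    (by
      intro s hs
      exact ⟨h2 s hs, fun h => h⟩)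
    (by
      intro s _ t ht
      exact absurd ht (Set.notMem_empty t))
    (by
      intro s hs t _
      have hs' : e * om s = e := hs
      have h3 : ρ s * e = e := (hρ s).2.2.1 (by rw [hcom, hs'])
      show x' = ρ s * x'
      rw [← he', ← mul_assoc, h3])
    (by
      intro s hs t _
      rw [hρR s hs]
      rcases (hρ t).1 with h4 | h4 | h4
      · rw [h4, hxe, hbe]
      · rw [h4, hxb', hb]
      · rw [h4, (hy0 _).2, (hy0 _).2])
    (by
      intro s hs t ht
      rw [hρR t ht]
      obtain ⟨h4 | h4 | h4, h5, -, -⟩ := hρ s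
      · rw [h4, hcom] at h5
        exact absurd h5 hs
      · rw [h4, hbx, hb]
      · rw [h4, (hy0 _).1, (hy0 _).1])
    (by
      intro s hs t ht
      rw [hρR s hs, hρR t ht, hxx, hb])
  refine ⟨ψ, fun s hs => hψ1 s hs, fun s hs => ?_⟩
  rw [hψ2 s hs]
  rcases (hρ s).1 with h4 | h4 | h4 <;> rw [h4]
  · exact he
  · exact hb
  · exact hy

/-- The dual of `move1l`.  PROOF: exchange left and right everywhere. -/
theorem move1r (h : Good2 S) {b f x x' : S} (hb : b * b = b) (hx : om x = b) (hxb : x ≠ b)
    (hl : LTyp none x) (hr : RTyp (some f) x) (hirr : Irr x)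
    (hx' : om x' = b) (hf' : x' * f = x') :
    ∃ ψ : S →ₙ* S, (∀ s, s * f = x → ψ s = x') ∧ ∀ s, s * f ≠ x → ψ s * ψ s = ψ s := by
  obtain ⟨hf, hxf, hmin⟩ : f * f = f ∧ x * f = x ∧ ∀ k : S, k * k = k → x * k = x → f * k = f := hr
  have hnone : ∀ k : S, k * k = k → k * x ≠ x := hl
  have : Nonempty S := ⟨f⟩
  obtain ⟨y, hy, hy0⟩ := exists_zero2 h
  have hbf : b * f = b := by
    have h1 := om_mul2 h x f
    rw [hxf, hx, om_of_idem hf] at h1
    exact h1.symm
  have hfb : f * b = b := by rw [comm_idem h hf hb, hbf]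
  obtain ⟨ρ, hρ⟩ := d3b_base h hb hf hfb hy hy0
  have hcom : ∀ s, om s * f = f * om s := fun s => comm_idem h (om_idem s) hf
  have hfx : f * x' = b := by
    have h1 := local_eq h hf x'
    rw [mul_assoc, hf', hx', hfb] at h1
    exact h1
  have hbx : b * x' = b := by
    have h1 := (om_mul_self h x').1
    rwa [hx'] at h1
  have hxb' : x' * b = b := by
    have h1 := (om_mul_self h x').2
    rwa [hx'] at h1
  have hxx : x' * x' = b := by
    conv_lhs => rw [← hf', mul_assoc, ← mul_assoc f, hfx, hbf]
    exact hxb'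
  have h2 : ∀ s, s * f = x → f * om s ≠ f := by
    intro s hs hu
    have h1 := (absorb h hf hu).2
    apply hxb
    rw [← hx, ← hs, h1, om_of_idem hf]
  have hρR : ∀ s, s * f = x → ρ s = b := by
    intro s hs
    have h1 : om s * f = b := by
      have h3 := om_mul2 h s f
      rw [hs, hx, om_of_idem hf] at h3
      exact h3.symm
    have h3 : om s * b = b := by
      rw [← h1, ← mul_assoc, om_idem]
    obtain ⟨h4 | h4 | h4, h5, h6, h7⟩ := hρ s
    · rw [h4, hcom] at h5
      exact absurd h5 (h2 s hs)
    · exact h4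
    · have h8 := h7 h3
      rw [h4, (hy0 b).1] at h8
      rw [h4, h8]
  have hidem : ∀ s, ρ s * ρ s = ρ s := by
    intro s
    rcases (hρ s).1 with h4 | h4 | h4 <;> rw [h4]
    · exact hf
    · exact hb
    · exact hy
  obtain ⟨ψ, hψ1, hψ2⟩ := moveGen ρ (fun _ => x') {s | s * f = x} ∅ {s | f * om s = f}
    (by
      intro s t
      simp only [Set.mem_ofPred_eq, Set.mem_empty_iff_false, false_and, or_false]
      constructor
      · intro hst
        rw [mul_assoc] at hst
        rcases hirr _ _ hst with h3 | h3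
        · rw [left_fix h] at h3
          exact absurd h3 (hnone _ (om_idem s))
        · rw [right_fix h, om_mul2 h, om_of_idem hf] at h3
          have h4 : x * om t = x := by
            rw [hcom, ← mul_assoc, hxf] at h3
            exact h3
          have h5 := hmin _ (om_idem t) h4
          refine ⟨?_, h5⟩
          rw [(absorb h hf h5).2] at hst
          exact hst
      · rintro ⟨h3, h4⟩
        rw [mul_assoc, (absorb h hf h4).2, h3])
    (by
      intro s hs
      exact ⟨fun h => h, h2 s hs⟩)
    (by
      intro s _ t ht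
      have ht' : f * om t = f := ht
      have h3 : ρ t * f = f := (hρ t).2.2.1 (by rw [hcom, ht'])
      have h4 : f * ρ t = f := by rw [comm_idem h hf (hidem t), h3]
      show x' = x' * ρ t
      rw [← hf', mul_assoc, h4])
    (by
      intro s hs t _
      exact absurd hs (Set.notMem_empty s))
    (by
      intro s hs t ht
      rw [hρR s hs]
      obtain ⟨h4 | h4 | h4, h5, -, -⟩ := hρ t
      · rw [h4, hcom] at h5
        exact absurd h5 ht
      · rw [h4, hxb', hb]
      · rw [h4, (hy0 _).2, (hy0 _).2])
    (by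
      intro s _ t ht
      rw [hρR t ht]
      rcases (hρ s).1 with h4 | h4 | h4
      · rw [h4, hfx, hfb]
      · rw [h4, hbx, hb]
      · rw [h4, (hy0 _).1, (hy0 _).1])
    (by
      intro s hs t ht
      rw [hρR s hs, hρR t ht, hxx, hb])
  refine ⟨ψ, fun s hs => hψ1 s hs, fun s hs => ?_⟩
  rw [hψ2 s hs]
  exact hidem s

end EVS
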