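import Pool.Agent.EVS.D2
import Pool.Agent.EVS.D3a
import Pool.Agent.EVS.D3b

/-!
# [EV-D4] the number of irreducible elements in a level
-/

set_option autoImplicit false

namespace EVS

variable {S : Type} [Semigroup S] [Finite S]

/-- counting by fibres -/
theorem d4_fib {X Y : Type} [Finite X] [Finite Y] (g : X → Y) (c : ℕ)
    (h : ∀ y, Nat.card {x : X // g x = y} ≤ c) : Nat.card X ≤ c * Nat.card Y := by
  have := Fintype.ofFinite Y
  rw [← Nat.card_congr (Equiv.sigmaFiberEquiv g), Nat.card_sigma]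
  refine (Finset.sum_le_sum (fun y _ => h y)).trans ?_
  rw [Finset.sum_const, smul_eq_mul, Finset.card_univ, ← Nat.card_eq_fintype_card, mul_comm]

omit [Semigroup S] in
theorem d4_mono {P Q : S → Prop} (h : ∀ x, P x → Q x) :
    Nat.card {x : S // P x} ≤ Nat.card {x : S // Q x} :=
  Nat.card_le_card_of_injective (Subtype.map id h) (Subtype.map_injective h Function.injective_id)

/-- a fixed irreducible element is not idempotent -/
theorem d4_not_idem {b x : S} (hx : om x = b) (hxb : x ≠ b) : x * x ≠ x := fun h =>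
  hxb (by rw [← hx, om_of_idem h])

/-- one pair of types -/
theorem d4_pair (h : Good2 S) {b : S} (hb : b * b = b) (e f : Option S) :
    Nat.card {x : S // om x = b ∧ x ≠ b ∧ Irr x ∧ LTyp e x ∧ RTyp f x} ≤ nEnd S := by
  rcases e with _ | e
  · rcases f with _ | f
    · refine le_trans (d4_mono ?_) (card_indec_le h hb)
      rintro x ⟨h1, h2, h3, h4, h5⟩
      refine ⟨h1, h2, ?_⟩
      intro p q hpq
      rcases h3 p q hpq with h6 | h6
      · exact h4 (om p) (om_idem p) ((left_fix h p x).1 h6)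
      · exact h5 (om q) (om_idem q) ((right_fix h q x).1 h6)
    · refine card_le_nEnd (fun (x : {x : S // om x = b ∧ x ≠ b ∧ Irr x ∧ LTyp none x ∧
          RTyp (some f) x}) (ψ : S →ₙ* S) => ψ x.1 = x.1 ∧ ∀ s, s * f ≠ x.1 → ψ s * ψ s = ψ s) ?_ ?_
      · rintro ⟨x, h1, h2, h3, h4, h5⟩
        obtain ⟨ψ, p1, p2⟩ := move1r h hb h1 h2 h4 h5 h3 h1 h5.2.1
        exact ⟨ψ, p1 x h5.2.1, p2⟩
      · rintro ⟨x, h1, h2, h3, h4, h5⟩ ⟨y, k1, k2, k3, k4, k5⟩ ψ ⟨p1, p2⟩ ⟨q1, q2⟩
        by_contra hne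
        have hne' : y ≠ x := fun h6 => hne (Subtype.ext h6.symm)
        have h7 := p2 y (by rw [k5.2.1]; exact hne')
        simp only at q1
        rw [q1] at h7
        exact d4_not_idem k1 k2 h7
  · rcases f with _ | f
    · refine card_le_nEnd (fun (x : {x : S // om x = b ∧ x ≠ b ∧ Irr x ∧ LTyp (some e) x ∧
          RTyp none x}) (ψ : S →ₙ* S) => ψ x.1 = x.1 ∧ ∀ s, e * s ≠ x.1 → ψ s * ψ s = ψ s) ?_ ?_
      · rintro ⟨x, h1, h2, h3, h4, h5⟩
        obtain ⟨ψ, p1, p2⟩ := move1l h hb h1 h2 h4 h5 h3 h1 h4.2.1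
        exact ⟨ψ, p1 x h4.2.1, p2⟩
      · rintro ⟨x, h1, h2, h3, h4, h5⟩ ⟨y, k1, k2, k3, k4, k5⟩ ψ ⟨p1, p2⟩ ⟨q1, q2⟩
        by_contra hne
        have hne' : y ≠ x := fun h6 => hne (Subtype.ext h6.symm)
        have h7 := p2 y (by rw [k4.2.1]; exact hne')
        simp only at q1
        rw [q1] at h7
        exact d4_not_idem k1 k2 h7
    · refine card_le_nEnd (fun (x : {x : S // om x = b ∧ x ≠ b ∧ Irr x ∧ LTyp (some e) x ∧
          RTyp (some f) x}) (ψ : S →ₙ* S) => ψ x.1 = x.1 ∧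
          ∀ s, e * s * f ≠ x.1 → ψ s * ψ s = ψ s) ?_ ?_
      · rintro ⟨x, h1, h2, h3, h4, h5⟩
        obtain ⟨ψ, p1, p2⟩ := move2 h hb h1 h2 h4 h5 h3 h1 h4.2.1 h5.2.1
        exact ⟨ψ, p1 x (by rw [h4.2.1, h5.2.1]), p2⟩
      · rintro ⟨x, h1, h2, h3, h4, h5⟩ ⟨y, k1, k2, k3, k4, k5⟩ ψ ⟨p1, p2⟩ ⟨q1, q2⟩
        by_contra hne
        have hne' : y ≠ x := fun h6 => hne (Subtype.ext h6.symm)
        have h7 := p2 y (by rw [k4.2.1, k5.2.1]; exact hne')
        simp only at q1
        rw [q1] at h7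
        exact d4_not_idem k1 k2 h7

theorem d4_lt (h : Good2 S) (x : S) :
    ∃ e : Option {e : S // e * e = e}, LTyp (e.map Subtype.val) x := by
  obtain ⟨e, he⟩ := exists_ltyp h x
  rcases e with _ | e
  · exact ⟨none, he⟩
  · exact ⟨some ⟨e, he.1⟩, he⟩

theorem d4_rt (h : Good2 S) (x : S) :
    ∃ e : Option {e : S // e * e = e}, RTyp (e.map Subtype.val) x := by
  obtain ⟨e, he⟩ := exists_rtyp h x
  rcases e with _ | e
  · exact ⟨none, he⟩
  · exact ⟨some ⟨e, he.1⟩, he⟩

/-- PROOF: every `x` in the set has a left type `e` and a right type `f` (`exists_ltyp`, `exists_rtyp`), elements of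
`Option {e : S // e * e = e}` (the condition `e * e = e` is part of `LTyp (some e) x`), so at most `(c + 1)^2`
pairs of types (`card_idem_le`, `c = nEnd S`).  For each pair there are at most `c` elements:
both `none`: `x` is indecomposable (if `p q = x` then `p x = x` or `x q = x` by `Irr`, so `om p x = x` or
`x om q = x` by `left_fix`, `right_fix`, against the types), use `card_indec_le`.
`(some e, some f)`: for `x` let `ψ_x` be the endomorphism of `move2` with `x' = x`: `ψ_x x = x` (`e x f = x`), which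
is not idempotent (`x ≠ b = om x`), and `ψ_x x1` is idempotent for `x1 ≠ x` of the same type (`e x1 f = x1 ≠ x`).
So `ψ_x = ψ_{x1}` implies `x = x1` (`card_le_nEnd`).  The other two cases are the same with `move1l`, `move1r`. -/
theorem card_irr_le (h : Good2 S) {b : S} (hb : b * b = b) :
    Nat.card {x : S // om x = b ∧ x ≠ b ∧ Irr x} ≤ nEnd S * (nEnd S + 1) ^ 2 := by
  choose lt hlt using d4_lt h
  choose rt hrt using d4_rt h
  have h1 := d4_fib (fun x : {x : S // om x = b ∧ x ≠ b ∧ Irr x} => (lt x.1, rt x.1)) (nEnd S) (by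
    rintro ⟨e, f⟩
    refine le_trans ?_ (d4_pair h hb (e.map Subtype.val) (f.map Subtype.val))
    have key : ∀ x : {x : {x : S // om x = b ∧ x ≠ b ∧ Irr x} // (lt x.1, rt x.1) = (e, f)},
        om x.1.1 = b ∧ x.1.1 ≠ b ∧ Irr x.1.1 ∧ LTyp (e.map Subtype.val) x.1.1 ∧
          RTyp (f.map Subtype.val) x.1.1 := by
      rintro ⟨⟨x, k1, k2, k3⟩, k4⟩
      obtain ⟨rfl, rfl⟩ := Prod.mk.inj k4
      exact ⟨k1, k2, k3, hlt x, hrt x⟩
    refine Nat.card_le_card_of_injective
      (fun x => (⟨x.1.1, key x⟩ :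
          {x : S // om x = b ∧ x ≠ b ∧ Irr x ∧ LTyp (e.map Subtype.val) x ∧
            RTyp (f.map Subtype.val) x})) ?_
    intro x y hxy
    have h9 : x.1.1 = y.1.1 := (Subtype.mk.injEq _ _ _ _).mp hxy
    exact Subtype.ext (Subtype.ext h9))
  refine h1.trans (Nat.mul_le_mul_left _ ?_)
  rw [Nat.card_prod]
  have h2 : Nat.card (Option {e : S // e * e = e}) ≤ nEnd S + 1 := by
    rw [Finite.card_option]
    have := card_idem_le (S := S)
    omega
  calc Nat.card (Option {e : S // e * e = e}) * Nat.card (Option {e : S // e * e = e})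
      ≤ (nEnd S + 1) * (nEnd S + 1) := Nat.mul_le_mul h2 h2
    _ = (nEnd S + 1) ^ 2 := by ring

end EVS
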