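import Mathlib

/-!
# [EV] endomorphic varieties of semigroups (MP_2a8755_al): definitions
-/

set_option autoImplicit false

namespace EVS

/-- semigroup words -/
abbrev Wd := FreeSemigroup ℕ

/-- The semigroup `S` satisfies the identity `p.1 = p.2`. -/
def Holds (S : Type) [Semigroup S] (p : Wd × Wd) : Prop :=
  ∀ φ : ℕ → S, FreeSemigroup.lift φ p.1 = FreeSemigroup.lift φ p.2

/-- `S` belongs to the variety defined by the set `V` of identities. -/
def Mem (V : Set (Wd × Wd)) (S : Type) [Semigroup S] : Prop := ∀ p ∈ V, Holds S p

/-- the number of endomorphisms of `S` -/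
noncomputable def nEnd (S : Type) [Semigroup S] : ℕ := Nat.card (S →ₙ* S)

/-- The variety `V` is endomorphic: for every `B`, all sufficiently large finite members of `V` have more than
`B` endomorphisms (the endomorphic function of `V` is unbounded). -/
def Endomorphic (V : Set (Wd × Wd)) : Prop :=
  ∀ B : ℕ, ∃ n : ℕ, ∀ (S : Type) [Semigroup S] [Finite S], Mem V S → n ≤ Nat.card S → B < nEnd S

/-! ## three small semigroups -/

/-- `{1, c, 0}` with `c² = 0` -/
inductive C2 : Type
  | one | c | o
  deriving DecidableEq, Fintype

/-- multiplication of `C2` -/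
def C2.mul : C2 → C2 → C2
  | .one, x => x
  | x, .one => x
  | _, _ => .o

instance : Semigroup C2 where
  mul := C2.mul
  mul_assoc := by intro a b c; cases a <;> cases b <;> cases c <;> rfl

/-- `{f, y, 0}` with `f² = f`, `y f = y`, and all other products `0` -/
inductive P : Type
  | f | y | o
  deriving DecidableEq, Fintype

/-- multiplication of `P` -/
def P.mul : P → P → P
  | .f, .f => .f
  | .y, .f => .y
  | _, _ => .o

instance : Semigroup P where
  mul := P.mul
  mul_assoc := by intro a b c; cases a <;> cases b <;> cases c <;> rfl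

/-- `{e, f, ef, 0}` with `e² = e`, `f² = f`, `fe = 0` -/
inductive A0 : Type
  | e | f | ef | o
  deriving DecidableEq, Fintype

/-- multiplication of `A0` -/
def A0.mul : A0 → A0 → A0
  | .e, .e => .e
  | .e, .f => .ef
  | .e, .ef => .ef
  | .f, .f => .f
  | .ef, .f => .ef
  | _, _ => .o

instance : Semigroup A0 where
  mul := A0.mul
  mul_assoc := by intro a b c; cases a <;> cases b <;> cases c <;> rfl

/-! ## properties of semigroups -/

/-- all idempotents are central -/
def CentralIdem (S : Type) [Semigroup S] : Prop := ∀ e s : S, e * e = e → e * s = s * e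

/-- `g` is an element of a subgroup of `S` -/
def IsGp {S : Type} [Semigroup S] (g : S) : Prop :=
  ∃ e h : S, e * e = e ∧ e * g = g ∧ g * e = g ∧ g * h = e ∧ h * g = e

/-- all elements of subgroups are central -/
def CentralGp (S : Type) [Semigroup S] : Prop := ∀ g s : S, IsGp g → g * s = s * g

/-- all subgroups are trivial -/
def Aper (S : Type) [Semigroup S] : Prop := ∀ g : S, IsGp g → g * g = g

/-- `a` is in the ideal generated by `b` -/
def JLe {S : Type} [Semigroup S] (a b : S) : Prop :=
  ∃ x y : WithOne S, (a : WithOne S) = x * (b : WithOne S) * y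

/-- `S` is J-trivial -/
def JTriv (S : Type) [Semigroup S] : Prop := ∀ a b : S, JLe a b → JLe b a → a = b

/-- `S` is J-trivial, products of idempotents are idempotent and the local monoids `e S e` are bands -/
def Good2 (S : Type) [Semigroup S] : Prop :=
  JTriv S ∧ (∀ e f : S, e * e = e → f * f = f → (e * f) * (e * f) = e * f) ∧
    (∀ e s : S, e * e = e → (e * s * e) * (e * s * e) = e * s * e)

/-! ## powers -/

/-- `pw s n = s ^ (n + 1)` -/
def pw {S : Type} [Semigroup S] (s : S) : ℕ → S
  | 0 => s
  | n + 1 => pw s n * s

/-- the product of a list, in `S` with a new identity -/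
def prd {S : Type} [Semigroup S] (l : List S) : WithOne S := (l.map (fun s => (s : WithOne S))).prod

end EVS
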