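import Pool.Agent.EVS.H1

/-!
# [EV] definitions for the positive part
-/

set_option autoImplicit false

namespace EVS

/-! ## actions, units, types -/

section
variable {S : Type} [Semigroup S]

/-- left multiplication by `e`; `none` acts trivially -/
def act (e : Option S) (s : S) : S :=
  match e with
  | none => s
  | some e => e * s

/-- `e` is `none` or an idempotent above `b` -/
def OkE (b : S) (e : Option S) : Prop := ∀ e', e = some e' → e' * e' = e' ∧ e' * b = b

/-- `z` is the smallest idempotent -/
def IsZ (z : S) : Prop := z * z = z ∧ ∀ e : S, e * e = e → z * e = z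

end

section
variable {S : Type} [Semigroup S] [Finite S]

/-- `s` is a unit for `e` (no element is a unit for `none`) -/
def UU (e : Option S) (s : S) : Prop :=
  match e with
  | none => False
  | some e => e * om s = e

/-- `e s` is in the orbit of `a` under the group at `e`; for `e = none` this means `s = a` -/
def Orb (e : Option S) (a s : S) : Prop :=
  match e with
  | none => s = a
  | some e => ∃ g, om g = e ∧ g * e = g ∧ e * s = g * a

/-- `a` is a source for `(b, e)`: it is above `b`, it is no unit, it is fixed by `e` and in every
factorization of an element of its orbit one of the factors is a unit -/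
def Src (b : S) (e : Option S) (a : S) : Prop :=
  b * om a = b ∧ ¬ UU e a ∧ act e a = a ∧ ∀ s t, Orb e a (s * t) → UU e s ∨ UU e t

/-- `e` is the smallest idempotent with `e x = x` (`none` if there is no such idempotent) -/
def IsTyp (e : Option S) (x : S) : Prop :=
  act e x = x ∧ ∀ f : S, f * f = f → f * x = x → UU e f

/-- the number of elements strictly above the level of `b` -/
noncomputable def above (b : S) : ℕ := Nat.card {s : S // b * om s = b ∧ om s ≠ b}

end

/-- the bound for the size of a level, first case -/
def Psi (m c : ℕ) : ℕ :=
  c ^ 2 + (c + 1) * (m + c ^ 3 + 1) ^ ((m + 1) * (c ^ 2 * (2 * c + 1)))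

/-! ## one-sided types and irreducible elements -/

section
variable {S : Type} [Semigroup S]

/-- `e` is the smallest idempotent with `e x = x` (`none` if there is no such idempotent) -/
def LTyp (e : Option S) (x : S) : Prop :=
  match e with
  | none => ∀ k : S, k * k = k → k * x ≠ x
  | some e => e * e = e ∧ e * x = x ∧ ∀ k : S, k * k = k → k * x = x → e * k = e

/-- `f` is the smallest idempotent with `x f = x` (`none` if there is no such idempotent) -/
def RTyp (f : Option S) (x : S) : Prop :=
  match f with
  | none => ∀ k : S, k * k = k → x * k ≠ x
  | some f => f * f = f ∧ x * f = x ∧ ∀ k : S, k * k = k → x * k = x → f * k = f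

/-- `x` is irreducible -/
def Irr (x : S) : Prop := ∀ p q : S, p * q = x → p * x = x ∨ x * q = x

/-- `x` is indecomposable -/
def Indec (x : S) : Prop := ∀ p q : S, p * q ≠ x

/-- some idempotent is a left or a right identity for `a` -/
def Fixed (a : S) : Prop := ∃ e : S, e * e = e ∧ (e * a = a ∨ a * e = a)

end

/-- the letters at level `b` -/
def Ltr {S : Type} [Semigroup S] [Finite S] (b a : S) : Prop :=
  b * om a = b ∧ (om a = b → a ≠ b ∧ Irr a) ∧ (Fixed a ∨ Indec a)

/-- the bound for the size of a level, second case -/
def Psi2 (m c : ℕ) : ℕ :=
  1 + (m + c * (c + 1) ^ 2 + 1 + 1) ^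
    (2 * (m + c * (c + 1) ^ 2 + 1) + (m + 1) * (2 * c + 1))

end EVS
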