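import Pool.Agent.EVS.C1
import Pool.Agent.EVS.C2

/-!
# [EV] second case: central idempotents, squares are group elements (groups not necessarily commutative)
-/

set_option autoImplicit false

namespace EVS

/-- squares are elements of subgroups -/
def SqGp (S : Type) [Semigroup S] : Prop := ∀ x : S, IsGp (x * x)

/-- the elements of the group at the idempotent `d` -/
abbrev GH (S : Type) [Semigroup S] [Finite S] (d : S) : Type := {g : S // om g = d ∧ g * d = g}

section
variable {S : Type} [Semigroup S] [Finite S]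

/-- `e s` is in the two-sided orbit of `a` under the group at `e`; for `e = none` this means `s = a` -/
def Orb2 (e : Option S) (a s : S) : Prop :=
  match e with
  | none => s = a
  | some e => ∃ g h, om g = e ∧ g * e = g ∧ om h = e ∧ h * e = h ∧ e * s = g * a * h

/-- `a` is a source for `(b, e)` -/
def Src2 (b : S) (e : Option S) (a : S) : Prop :=
  b * om a = b ∧ ¬ UU e a ∧ act e a = a ∧ ∀ s t, Orb2 e a (s * t) → UU e s ∨ UU e t

/-- inverses in the group at `e`: PROOF: `om g = pw g n = e`, `h = pw g (n + n)` works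
(`g * h = pw g (n + n + 1) = pw g n * pw g n = e`), compare `isGp_iff`. -/
theorem gh_inv {e g : S} (h1 : om g = e) (h2 : g * e = g) :
    ∃ h : S, om h = e ∧ h * e = h ∧ g * h = e ∧ h * g = e := by
  obtain ⟨n, hn⟩ := om_eq_pw g
  have h3 : ∀ k, pw g k * e = pw g k := by
    intro k
    induction k with
    | zero => exact h2
    | succ k ih => rw [pw_succ, mul_assoc, h2]
  refine ⟨pw g (n + n), by rw [om_pw, h1], h3 _, ?_, ?_⟩
  · rw [mul_pw, ← pw_mul_pw, ← hn, om_idem, h1]
  · rw [← mul_pw_comm, mul_pw, ← pw_mul_pw, ← hn, om_idem, h1]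

/-- PROOF: `om_mul`; `g h e = g h`. -/
theorem gh_mul (hc : CentralIdem S) {e g h : S} (he : e * e = e) (h1 : om g = e) (_h2 : g * e = g)
    (h3 : om h = e) (h4 : h * e = h) : om (g * h) = e ∧ (g * h) * e = g * h :=
  ⟨by rw [om_mul hc, h1, h3, he], by rw [mul_assoc, h4]⟩

/-- `om (e s) = e` and `(e s) e = e s` for a unit `s` of `e` -/
theorem gh_unit (hc : CentralIdem S) {e s : S} (he : e * e = e) (h : e * om s = e) :
    om (e * s) = e ∧ (e * s) * e = e * s :=
  ⟨(gp_of_above hc he h).1, (gp_of_above hc he h).2.1⟩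

/-- The relation `Orb2` behaves well under multiplication by units (used in the constructions of endomorphisms).
PROOF: for `e = none` there are no units and both sides are false by `Src2` (a unit does not exist).
For `e = some e'`: `e'` is central (`act_mul`).  If `s ∈ Orb2`, `t` a unit: `e' s t = (e' s)(e' t) = g a (h (e' t))`.
Conversely if `s t ∈ Orb2`, then `s` or `t` is a unit by `Src2`; if `s` is a unit, `e' s` is in the group at
`e'`, with inverse `k`, so `e' t = k (e' s)(e' t) = k (e' s t) = (k g) a h`.  Symmetric for `t`. -/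
theorem orb2_mul (hc : CentralIdem S) {b a : S} {e : Option S} (he : OkE b e) (ha : Src2 b e a)
    (s t : S) : Orb2 e a (s * t) ↔ (Orb2 e a s ∧ UU e t) ∨ (UU e s ∧ Orb2 e a t) := by
  cases e with
  | none =>
    constructor
    · intro h
      exact absurd (ha.2.2.2 s t h) (by simp [UU])
    · rintro (⟨_, h⟩ | ⟨h, _⟩)
      · exact absurd h (by simp [UU])
      · exact absurd h (by simp [UU])
  | some e =>
    have hee := (he e rfl).1
    have hmul : e * (s * t) = (e * s) * (e * t) := by
      rw [mul_assoc, ← mul_assoc s, ← hc e s hee, mul_assoc e s t, ← mul_assoc e e, hee]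
    constructor
    · intro h
      obtain ⟨g, k, g1, g2, k1, k2, hgk⟩ := h
      rcases ha.2.2.2 s t ⟨g, k, g1, g2, k1, k2, hgk⟩ with hu | hu
      · right
        refine ⟨hu, ?_⟩
        obtain ⟨u1, u2⟩ := gh_unit hc hee (show e * om s = e from hu)
        obtain ⟨v, v1, v2, _, v4⟩ := gh_inv u1 u2
        obtain ⟨w1, w2⟩ := gh_mul hc hee v1 v2 g1 g2
        refine ⟨v * g, k, w1, w2, k1, k2, ?_⟩
        have e1 : v * (e * (s * t)) = e * t := by
          rw [hmul, ← mul_assoc, v4, ← mul_assoc, hee]
        rw [← e1, hgk]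
        simp only [mul_assoc]
      · left
        refine ⟨?_, hu⟩
        obtain ⟨u1, u2⟩ := gh_unit hc hee (show e * om t = e from hu)
        obtain ⟨v, v1, v2, v3, _⟩ := gh_inv u1 u2
        obtain ⟨w1, w2⟩ := gh_mul hc hee k1 k2 v1 v2
        refine ⟨g, k * v, g1, g2, w1, w2, ?_⟩
        have e1 : (e * (s * t)) * v = e * s := by
          rw [hmul, mul_assoc, v3, ← hc e (e * s) hee, ← mul_assoc, hee]
        rw [← e1, hgk]
        simp only [mul_assoc]
    · rintro (⟨⟨g, k, g1, g2, k1, k2, hgk⟩, hu⟩ | ⟨hu, ⟨g, k, g1, g2, k1, k2, hgk⟩⟩)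
      · obtain ⟨u1, u2⟩ := gh_unit hc hee (show e * om t = e from hu)
        obtain ⟨w1, w2⟩ := gh_mul hc hee k1 k2 u1 u2
        refine ⟨g, k * (e * t), g1, g2, w1, w2, ?_⟩
        rw [hmul, hgk]
        simp only [mul_assoc]
      · obtain ⟨u1, u2⟩ := gh_unit hc hee (show e * om s = e from hu)
        obtain ⟨w1, w2⟩ := gh_mul hc hee u1 u2 g1 g2
        refine ⟨(e * s) * g, k, w1, w2, k1, k2, ?_⟩
        rw [hmul, hgk]
        simp only [mul_assoc]

/-- PROOF: `e' s = g a h` would be in the group at `e'` if `s` is a unit, and then `a = g⁻¹ (e' s) h⁻¹`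
(as `e' a = a = a e'`) would be in the group at `e'`, so `e' * om a = e'`, `UU e a`, contradiction. -/
theorem orb2_not_unit (hc : CentralIdem S) {b a : S} {e : Option S} (he : OkE b e) (ha : Src2 b e a)
    {s : S} (hs : Orb2 e a s) : ¬ UU e s := by
  cases e with
  | none => simp [UU]
  | some e =>
    intro hu
    have hee := (he e rfl).1
    obtain ⟨g, k, g1, g2, k1, k2, hgk⟩ := hs
    apply ha.2.1
    show e * om a = e
    have h1 : om (e * s) = e * om a := by
      rw [hgk, om_mul hc, om_mul hc, g1, k1, ← hc e (e * om a) hee, ← mul_assoc, hee]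
    have h2 : om (e * s) = e := (gh_unit hc hee (show e * om s = e from hu)).1
    rw [← h1, h2]

/-- PROOF: `e om s = om (e s) = om (g a h) = e om a`, so `b om s = b e om s = b e om a = b om a = b`. -/
theorem orb2_above (hc : CentralIdem S) {b a : S} {e : Option S} (hb : b * b = b) (he : OkE b e)
    (ha : Src2 b e a) {s : S} (hs : Orb2 e a s) : b * om s = b := by
  cases e with
  | none =>
    have h : s = a := hs
    rw [h]
    exact ha.1
  | some e =>
    obtain ⟨hee, heb⟩ := he e rfl
    have hbe : b * e = b := by rw [← hc e b hee, heb]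
    obtain ⟨g, k, g1, g2, k1, k2, hgk⟩ := hs
    have h1 : om (e * s) = e * om a := by
      rw [hgk, om_mul hc, om_mul hc, g1, k1, ← hc e (e * om a) hee, ← mul_assoc, hee]
    have h2 : om (e * s) = e * om s := by rw [om_mul hc, om_of_idem hee]
    calc b * om s = (b * e) * om s := by rw [hbe]
      _ = b * (e * om a) := by rw [mul_assoc, ← h2, h1]
      _ = b := by rw [← mul_assoc, hbe, ha.1]

/-- PROOF: `g = h = e'`. -/
theorem orb2_self (hc : CentralIdem S) {b a : S} {e : Option S} (he : OkE b e)
    (ha : Src2 b e a) : Orb2 e a a := by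
  cases e with
  | none => exact (rfl : a = a)
  | some e =>
    have hee := (he e rfl).1
    have h1 : e * a = a := ha.2.2.1
    refine ⟨e, e, om_of_idem hee, hee, om_of_idem hee, hee, ?_⟩
    rw [h1, ← hc e a hee, h1]

end

end EVS
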