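import Pool.Agent.EVS.H1

/-!
# [EV-H2a] varieties containing `C2` but not `P`
-/

set_option autoImplicit false

namespace EVS

private theorem h2a_y (p : P) : p * P.y = P.o := by cases p <;> rfl

private theorem h2a_o (p : P) : p * P.o = P.o := by cases p <;> rfl

private theorem h2a_o' (p : P) : P.o * p = P.o := by cases p <;> rfl

private theorem h2a_c2 (k : C2) : k * C2.o = C2.o := by cases k <;> rfl

private theorem h2a_c2' (k : C2) : C2.o * k = C2.o := by cases k <;> rfl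

/-- Suppose `C2 ∈ V`, `P ∉ V`, `S ∈ V`, `e = e²`.  Then `s e = e s e`.
PROOF: suppose `s e ≠ e s e`; we show `P ∈ V` by `mem_of_div` applied to `T = S × C2` (`mem_prod`) with
`D = {(e,1), (se,c), (ese,c)} ∪ {(x,0) : x ∈ S}` and `g : S × C2 → P`,
`g (x, k) = f` if `k = 1`, `= y` if `k = c` and `x = s e`, `= o` otherwise.
`D` is closed: `(e,1)(e,1) = (e,1)`; `(e,1)(se,c) = (ese,c)`; `(e,1)(ese,c) = (ese,c)`;
`(se,c)(e,1) = (se,c)`; `(ese,c)(e,1) = (ese,c)`; a product of two elements with second coordinate `c`,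
or with a factor with second coordinate `0`, has second coordinate `0`.
`g` is multiplicative on `D`: `f f = f`; `f y = o` (`g (ese,c) = o` as `ese ≠ se`); `y f = y`;
`f o = o = o f`, everything else is `o`.  `g` maps `D` onto `P`. -/
theorem se_of_P {V : Set (Wd × Wd)} (hC : Mem V C2) (hP : ¬ Mem V P) {S : Type} [Semigroup S]
    (hS : Mem V S) {e : S} (he : e * e = e) (s : S) : s * e = e * s * e := by
  classical
  by_contra hne
  apply hP
  obtain ⟨g, g1, gc, go⟩ : ∃ g : S × C2 → P, (∀ x, g (x, C2.one) = P.f) ∧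
      (∀ x, g (x, C2.c) = if x = s * e then P.y else P.o) ∧ (∀ x, g (x, C2.o) = P.o) :=
    ⟨fun a => match a.2 with
      | .one => P.f
      | .c => if a.1 = s * e then P.y else P.o
      | .o => P.o, fun x => rfl, fun x => rfl, fun x => rfl⟩
  have gse : g (s * e, C2.c) = P.y := by rw [gc, if_pos rfl]
  have gese : g (e * s * e, C2.c) = P.o := by rw [gc, if_neg (Ne.symm hne)]
  have a1 : e * (s * e) = e * s * e := (mul_assoc e s e).symm
  have a2 : e * (e * s * e) = e * s * e := by rw [← mul_assoc, ← mul_assoc, he]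
  have a3 : s * e * e = s * e := by rw [mul_assoc, he]
  have a4 : e * s * e * e = e * s * e := by rw [mul_assoc, he]
  have m11 : ((e, C2.one) : S × C2) * (e, C2.one) = (e, C2.one) := by
    rw [Prod.mk_mul_mk, he]; rfl
  have m12 : ((e, C2.one) : S × C2) * (s * e, C2.c) = (e * s * e, C2.c) := by
    rw [Prod.mk_mul_mk, a1]; rfl
  have m13 : ((e, C2.one) : S × C2) * (e * s * e, C2.c) = (e * s * e, C2.c) := by
    rw [Prod.mk_mul_mk, a2]; rfl
  have m21 : ((s * e, C2.c) : S × C2) * (e, C2.one) = (s * e, C2.c) := by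
    rw [Prod.mk_mul_mk, a3]; rfl
  have m31 : ((e * s * e, C2.c) : S × C2) * (e, C2.one) = (e * s * e, C2.c) := by
    rw [Prod.mk_mul_mk, a4]; rfl
  have mcc : ∀ x y : S, ((x, C2.c) : S × C2) * (y, C2.c) = (x * y, C2.o) := fun x y => rfl
  have mo : ∀ (x y : S) (k : C2), ((x, k) : S × C2) * (y, C2.o) = (x * y, C2.o) := fun x y k => by
    rw [Prod.mk_mul_mk, h2a_c2]
  have mo' : ∀ (x y : S) (k : C2), ((x, C2.o) : S × C2) * (y, k) = (x * y, C2.o) := fun x y k => by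
    rw [Prod.mk_mul_mk, h2a_c2']
  let D : Set (S × C2) := {a | a = (e, C2.one) ∨ a = (s * e, C2.c) ∨ a = (e * s * e, C2.c) ∨
    ∃ x, a = (x, C2.o)}
  refine mem_of_div (T := S × C2) D g ?_ ?_ ?_ (mem_prod hS hC)
  · rintro a (rfl | rfl | rfl | ⟨x, rfl⟩) b (rfl | rfl | rfl | ⟨y, rfl⟩)
    · rw [m11]; exact Or.inl rfl
    · rw [m12]; exact Or.inr (Or.inr (Or.inl rfl))
    · rw [m13]; exact Or.inr (Or.inr (Or.inl rfl))
    · rw [mo]; exact Or.inr (Or.inr (Or.inr ⟨_, rfl⟩))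
    · rw [m21]; exact Or.inr (Or.inl rfl)
    · rw [mcc]; exact Or.inr (Or.inr (Or.inr ⟨_, rfl⟩))
    · rw [mcc]; exact Or.inr (Or.inr (Or.inr ⟨_, rfl⟩))
    · rw [mo]; exact Or.inr (Or.inr (Or.inr ⟨_, rfl⟩))
    · rw [m31]; exact Or.inr (Or.inr (Or.inl rfl))
    · rw [mcc]; exact Or.inr (Or.inr (Or.inr ⟨_, rfl⟩))
    · rw [mcc]; exact Or.inr (Or.inr (Or.inr ⟨_, rfl⟩))
    · rw [mo]; exact Or.inr (Or.inr (Or.inr ⟨_, rfl⟩))
    · rw [mo']; exact Or.inr (Or.inr (Or.inr ⟨_, rfl⟩))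
    · rw [mo']; exact Or.inr (Or.inr (Or.inr ⟨_, rfl⟩))
    · rw [mo']; exact Or.inr (Or.inr (Or.inr ⟨_, rfl⟩))
    · rw [mo']; exact Or.inr (Or.inr (Or.inr ⟨_, rfl⟩))
  · rintro a (rfl | rfl | rfl | ⟨x, rfl⟩) b (rfl | rfl | rfl | ⟨y, rfl⟩)
    · rw [m11, g1]; rfl
    · rw [m12, gse, gese, h2a_y]
    · rw [m13, gese, h2a_o]
    · rw [mo, go, go, h2a_o]
    · rw [m21, gse, g1]; rfl
    · rw [mcc, go, gse, h2a_y]
    · rw [mcc, go, gese, h2a_o]
    · rw [mo, go, go, h2a_o]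
    · rw [m31, gese, h2a_o']
    · rw [mcc, go, gese, h2a_o']
    · rw [mcc, go, gese, h2a_o]
    · rw [mo, go, go, h2a_o]
    · rw [mo', go, go, h2a_o']
    · rw [mo', go, go, h2a_o']
    · rw [mo', go, go, h2a_o']
    · rw [mo', go, go, h2a_o']
  · intro q
    cases q
    · exact ⟨(e, C2.one), Or.inl rfl, g1 e⟩
    · exact ⟨(s * e, C2.c), Or.inr (Or.inl rfl), gse⟩
    · exact ⟨(e, C2.o), Or.inr (Or.inr (Or.inr ⟨_, rfl⟩)), go e⟩

open MulOpposite in
/-- The dual.  PROOF: as before, with `D = {(e,1), (es,c), (ese,c)} ∪ {(x,0)}` and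
`g (x, k) = op f` if `k = 1`, `op y` if `k = c` and `x = e s`, `op o` otherwise (`MulOpposite.op`). -/
theorem es_of_P {V : Set (Wd × Wd)} (hC : Mem V C2) (hP : ¬ Mem V Pᵐᵒᵖ) {S : Type} [Semigroup S]
    (hS : Mem V S) {e : S} (he : e * e = e) (s : S) : e * s = e * s * e := by
  classical
  by_contra hne
  apply hP
  obtain ⟨g, g1, gc, go⟩ : ∃ g : S × C2 → Pᵐᵒᵖ, (∀ x, g (x, C2.one) = op P.f) ∧
      (∀ x, g (x, C2.c) = if x = e * s then op P.y else op P.o) ∧ (∀ x, g (x, C2.o) = op P.o) :=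
    ⟨fun a => match a.2 with
      | .one => op P.f
      | .c => if a.1 = e * s then op P.y else op P.o
      | .o => op P.o, fun x => rfl, fun x => rfl, fun x => rfl⟩
  have gse : g (e * s, C2.c) = op P.y := by rw [gc, if_pos rfl]
  have gese : g (e * s * e, C2.c) = op P.o := by rw [gc, if_neg (Ne.symm hne)]
  have a1 : e * (e * s) = e * s := by rw [← mul_assoc, he]
  have a2 : e * (e * s * e) = e * s * e := by rw [← mul_assoc, ← mul_assoc, he]
  have a4 : e * s * e * e = e * s * e := by rw [mul_assoc, he]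
  have m11 : ((e, C2.one) : S × C2) * (e, C2.one) = (e, C2.one) := by
    rw [Prod.mk_mul_mk, he]; rfl
  have m12 : ((e, C2.one) : S × C2) * (e * s, C2.c) = (e * s, C2.c) := by
    rw [Prod.mk_mul_mk, a1]; rfl
  have m13 : ((e, C2.one) : S × C2) * (e * s * e, C2.c) = (e * s * e, C2.c) := by
    rw [Prod.mk_mul_mk, a2]; rfl
  have m21 : ((e * s, C2.c) : S × C2) * (e, C2.one) = (e * s * e, C2.c) := rfl
  have m31 : ((e * s * e, C2.c) : S × C2) * (e, C2.one) = (e * s * e, C2.c) := by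
    rw [Prod.mk_mul_mk, a4]; rfl
  have mcc : ∀ x y : S, ((x, C2.c) : S × C2) * (y, C2.c) = (x * y, C2.o) := fun x y => rfl
  have mo : ∀ (x y : S) (k : C2), ((x, k) : S × C2) * (y, C2.o) = (x * y, C2.o) := fun x y k => by
    rw [Prod.mk_mul_mk, h2a_c2]
  have mo' : ∀ (x y : S) (k : C2), ((x, C2.o) : S × C2) * (y, k) = (x * y, C2.o) := fun x y k => by
    rw [Prod.mk_mul_mk, h2a_c2']
  have py : ∀ q : Pᵐᵒᵖ, op P.y * q = op P.o := fun q => by
    rw [← op_unop q, ← op_mul, h2a_y]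
  have po : ∀ q : Pᵐᵒᵖ, op P.o * q = op P.o := fun q => by
    rw [← op_unop q, ← op_mul, h2a_o]
  have po' : ∀ q : Pᵐᵒᵖ, q * op P.o = op P.o := fun q => by
    rw [← op_unop q, ← op_mul, h2a_o']
  let D : Set (S × C2) := {a | a = (e, C2.one) ∨ a = (e * s, C2.c) ∨ a = (e * s * e, C2.c) ∨
    ∃ x, a = (x, C2.o)}
  refine mem_of_div (T := S × C2) D g ?_ ?_ ?_ (mem_prod hS hC)
  · rintro a (rfl | rfl | rfl | ⟨x, rfl⟩) b (rfl | rfl | rfl | ⟨y, rfl⟩)
    · rw [m11]; exact Or.inl rfl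
    · rw [m12]; exact Or.inr (Or.inl rfl)
    · rw [m13]; exact Or.inr (Or.inr (Or.inl rfl))
    · rw [mo]; exact Or.inr (Or.inr (Or.inr ⟨_, rfl⟩))
    · rw [m21]; exact Or.inr (Or.inr (Or.inl rfl))
    · rw [mcc]; exact Or.inr (Or.inr (Or.inr ⟨_, rfl⟩))
    · rw [mcc]; exact Or.inr (Or.inr (Or.inr ⟨_, rfl⟩))
    · rw [mo]; exact Or.inr (Or.inr (Or.inr ⟨_, rfl⟩))
    · rw [m31]; exact Or.inr (Or.inr (Or.inl rfl))
    · rw [mcc]; exact Or.inr (Or.inr (Or.inr ⟨_, rfl⟩))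
    · rw [mcc]; exact Or.inr (Or.inr (Or.inr ⟨_, rfl⟩))
    · rw [mo]; exact Or.inr (Or.inr (Or.inr ⟨_, rfl⟩))
    · rw [mo']; exact Or.inr (Or.inr (Or.inr ⟨_, rfl⟩))
    · rw [mo']; exact Or.inr (Or.inr (Or.inr ⟨_, rfl⟩))
    · rw [mo']; exact Or.inr (Or.inr (Or.inr ⟨_, rfl⟩))
    · rw [mo']; exact Or.inr (Or.inr (Or.inr ⟨_, rfl⟩))
  · rintro a (rfl | rfl | rfl | ⟨x, rfl⟩) b (rfl | rfl | rfl | ⟨y, rfl⟩)
    · rw [m11, g1]; rfl
    · rw [m12, gse, g1]; rfl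
    · rw [m13, gese, po']
    · rw [mo, go, go, po']
    · rw [m21, gse, gese, py]
    · rw [mcc, go, gse, py]
    · rw [mcc, go, gese, po']
    · rw [mo, go, go, po']
    · rw [m31, gese, po]
    · rw [mcc, go, gese, po]
    · rw [mcc, go, gese, po]
    · rw [mo, go, go, po']
    · rw [mo', go, go, po]
    · rw [mo', go, go, po]
    · rw [mo', go, go, po]
    · rw [mo', go, go, po]
  · intro q
    obtain ⟨q, rfl⟩ : ∃ q', q = op q' := ⟨unop q, rfl⟩
    cases q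
    · exact ⟨(e, C2.one), Or.inl rfl, g1 e⟩
    · exact ⟨(e * s, C2.c), Or.inr (Or.inl rfl), gse⟩
    · exact ⟨(e, C2.o), Or.inr (Or.inr (Or.inr ⟨_, rfl⟩)), go e⟩

theorem central_of_P {V : Set (Wd × Wd)} (hC : Mem V C2) (hP : ¬ Mem V P) (hP' : ¬ Mem V Pᵐᵒᵖ)
    {S : Type} [Semigroup S] (hS : Mem V S) : CentralIdem S := by
  intro e s he
  rw [es_of_P hC hP' hS he s, ← se_of_P hC hP hS he s]

end EVS
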