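import Pool.Agent.EVS.C2

/-!
# [EV-LNA] complements in finite commutative groups of bounded exponent
-/

set_option autoImplicit false

namespace EVS

theorem lna_ker {A : Type} [CommGroup A] [Finite A] (m p : ℕ) :
    Nat.card (powMonoidHom (p * m) : A →* A).ker ≤
      Nat.card (powMonoidHom m : A →* A).ker * Nat.card (powMonoidHom p : A →* A).ker := by
  let K : Subgroup A := (powMonoidHom (p * m) : A →* A).ker
  let Kp : Subgroup A := (powMonoidHom p : A →* A).ker
  let Km : Subgroup A := (powMonoidHom m : A →* A).ker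
  let ψ : K →* Kp := ((powMonoidHom m : A →* A).comp K.subtype).codRestrict Kp (by
    rintro ⟨x, hx⟩
    have h : x ^ (p * m) = 1 := hx
    change (x ^ m) ^ p = 1
    rw [← pow_mul, mul_comm, h])
  have h1 : Nat.card K = Nat.card ψ.ker * Nat.card ψ.range := by
    rw [← Subgroup.index_ker ψ, Subgroup.card_mul_index]
  have h2 : Nat.card ψ.range ≤ Nat.card Kp := Subgroup.card_le_card_group _
  have h3 : Nat.card ψ.ker ≤ Nat.card Km := by
    let f : ψ.ker → Km := fun x => ⟨((x : K) : A), by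
      have h : ψ (x : K) = 1 := x.2
      have h' := congrArg (fun y : Kp => (y : A)) h
      exact h'⟩
    apply Nat.card_le_card_of_injective f
    intro x y h
    have h' := congrArg (fun y : Km => (y : A)) h
    exact Subtype.ext (Subtype.ext h')
  calc Nat.card K = Nat.card ψ.ker * Nat.card ψ.range := h1
    _ ≤ Nat.card Km * Nat.card Kp := Nat.mul_le_mul h3 h2

theorem lna_tors {A : Type} [CommGroup A] [Finite A] (k : ℕ)
    (hp : ∀ p : ℕ, p.Prime → Nat.card {a : A // a ^ p = 1} ≤ k) (n : ℕ) :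
    0 < n → Nat.card (powMonoidHom n : A →* A).ker ≤ k ^ n := by
  have hk : 1 ≤ k := by
    refine le_trans ?_ (hp 2 Nat.prime_two)
    have : Nonempty {a : A // a ^ 2 = 1} := ⟨⟨1, one_pow 2⟩⟩
    exact Nat.card_pos
  induction n using induction_on_primes with
  | zero => intro h; exact absurd h (lt_irrefl 0)
  | one =>
    intro _
    have h1 : (powMonoidHom 1 : A →* A).ker = ⊥ := by
      rw [eq_bot_iff]
      intro x hx
      have h : x ^ 1 = 1 := hx
      rw [pow_one] at h
      exact Subgroup.mem_bot.mpr h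
    rw [h1, Subgroup.card_bot, pow_one]
    exact hk
  | prime_mul p m hpp ih =>
    intro h0
    have hm : 0 < m := Nat.pos_of_mul_pos_left h0
    have h1 : Nat.card (powMonoidHom p : A →* A).ker ≤ k := hp p hpp
    have h2 : m + 1 ≤ p * m := by
      have := Nat.mul_le_mul_right m hpp.two_le
      omega
    calc Nat.card (powMonoidHom (p * m) : A →* A).ker
        ≤ Nat.card (powMonoidHom m : A →* A).ker * Nat.card (powMonoidHom p : A →* A).ker :=
          lna_ker m p
      _ ≤ k ^ m * k := Nat.mul_le_mul (ih hm) h1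
      _ = k ^ (m + 1) := (pow_succ k m).symm
      _ ≤ k ^ (p * m) := Nat.pow_le_pow_right hk h2

/-- PROOF: write `C^n` for the range of `powMonoidHom n`.  Claim: `|A| ≤ k^n * |A^n|` for all `n ≥ 1`, if
`#{c : c^p = 1} ≤ k` for every prime `p` (`k ≥ 1` since `c = 1` is such an element, take `p = 2`).  Strong
induction on `n`: `n = 1` clear; `n = p n'` with a prime `p`, `n' ≥ 1`, `n' + 1 ≤ n`: the map `c ↦ c^p` from
`A^{n'}` onto `A^n` has fibres of size at most `k`, so `|A^{n'}| ≤ k |A^n|`, and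
`|A| ≤ k^{n'} |A^{n'}| ≤ k^{n'+1} |A^n| ≤ k^n |A^n|`.  For `n = E`: `|A^E| = 1`. -/
theorem card_le_of_tors {A : Type} [CommGroup A] [Finite A] (k E : ℕ) (hE : 0 < E)
    (hA : ∀ a : A, a ^ E = 1) (hp : ∀ p : ℕ, p.Prime → Nat.card {a : A // a ^ p = 1} ≤ k) :
    Nat.card A ≤ k ^ E := by
  have h1 : (powMonoidHom E : A →* A).ker = ⊤ := by
    rw [eq_top_iff]
    intro x _
    exact hA x
  have h2 := lna_tors k hp E hE
  rw [h1, Subgroup.card_top] at h2
  exact h2

/-- PROOF: let `A1` be a maximal subgroup of `A` with `A1 ⊓ T = ⊥` (finite set, or Zorn), `C = A / A1`.  Apply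
`card_le_of_tors` to `C` with `k = |T|`: `C` has exponent dividing `E`, and for a prime `p` every `c ∈ C` with
`c^p = 1` is in the image of `T`: let `c ≠ 1`, `c` the class of `a`, so `a ∉ A1`, `a^p ∈ A1`.  The subgroup generated by
`A1` and `a` is larger than `A1`, so it contains some `x ∈ T`, `x ≠ 1`, `x = y a^i` with `y ∈ A1`.  `p` does not
divide `i` (otherwise `a^i ∈ A1`, `x ∈ A1 ⊓ T`), so `c^i` is the class of `x`, and `c` is a power of `c^i`
(`c^p = 1`, `i` invertible mod `p`), so `c` is in the image of `T`.  `A1.index = |C|`. -/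
theorem exists_compl {A : Type} [CommGroup A] [Finite A] (T : Subgroup A) (E : ℕ) (hE : 0 < E)
    (hA : ∀ a : A, a ^ E = 1) : ∃ A1 : Subgroup A, A1 ⊓ T = ⊥ ∧ A1.index ≤ Nat.card T ^ E := by
  classical
  obtain ⟨A1, hA1⟩ := (Set.toFinite {B : Subgroup A | B ⊓ T = ⊥}).exists_maximal ⟨⊥, bot_inf_eq T⟩
  have hmem : A1 ⊓ T = ⊥ := hA1.1
  refine ⟨A1, hmem, ?_⟩
  have key : ∀ (p : ℕ), p.Prime → ∀ c : A ⧸ A1, c ^ p = 1 → ∃ t : T, (QuotientGroup.mk (t : A) : A ⧸ A1) = c := by
    intro p hp c hc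
    induction c using QuotientGroup.induction_on with
    | H a =>
    have hap : a ^ p ∈ A1 := by
      rw [← QuotientGroup.mk_pow] at hc
      exact (QuotientGroup.eq_one_iff _).mp hc
    by_cases ha : a ∈ A1
    · exact ⟨1, by rw [(QuotientGroup.eq_one_iff a).mpr ha]; rfl⟩
    have hlt : ¬ (A1 ⊔ Subgroup.zpowers a ≤ A1) := by
      intro h
      exact ha (h (Subgroup.mem_sup_right (Subgroup.mem_zpowers a)))
    have hne : (A1 ⊔ Subgroup.zpowers a) ⊓ T ≠ ⊥ := by
      intro h
      exact hlt (hA1.2 h le_sup_left)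
    obtain ⟨x', hx'⟩ := Subgroup.ne_bot_iff_exists_ne_one.mp hne
    obtain ⟨x, hx⟩ := x'
    have hx1 : x ≠ 1 := fun h => hx' (Subtype.ext h)
    obtain ⟨hxs, hxT⟩ := Subgroup.mem_inf.mp hx
    obtain ⟨y, hy, z, hz, hyz⟩ := Subgroup.mem_sup.mp hxs
    obtain ⟨i, hi⟩ := Subgroup.mem_zpowers_iff.mp hz
    have hpi : ¬ ((p : ℤ) ∣ i) := by
      rintro ⟨j, hj⟩
      apply hx1
      have hz1 : z ∈ A1 := by
        rw [← hi, hj, zpow_mul, zpow_natCast]
        exact Subgroup.zpow_mem _ hap _
      have hxA : x ∈ A1 ⊓ T := Subgroup.mem_inf.mpr ⟨by rw [← hyz]; exact Subgroup.mul_mem _ hy hz1, hxT⟩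
      rw [hmem] at hxA
      exact Subgroup.mem_bot.mp hxA
    have hcop : IsCoprime (p : ℤ) i := by
      have hpp : Prime (p : ℤ) := Nat.prime_iff_prime_int.mp hp
      exact (hpp.coprime_iff_not_dvd).mpr hpi
    obtain ⟨u, v, huv⟩ := hcop
    refine ⟨⟨x ^ v, Subgroup.zpow_mem _ hxT _⟩, ?_⟩
    have hmx : (QuotientGroup.mk x : A ⧸ A1) = (QuotientGroup.mk a) ^ i := by
      rw [← hyz, QuotientGroup.mk_mul, (QuotientGroup.eq_one_iff y).mpr hy, one_mul, ← hi,
        QuotientGroup.mk_zpow]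
    change (QuotientGroup.mk (x ^ v) : A ⧸ A1) = QuotientGroup.mk a
    rw [QuotientGroup.mk_zpow, hmx, ← zpow_mul]
    have h1 : i * v = 1 - p * u := by linarith
    rw [h1, zpow_sub, zpow_one, zpow_mul, zpow_natCast, hc, one_zpow, inv_one, mul_one]
  have hbound : Nat.card (A ⧸ A1) ≤ Nat.card T ^ E := by
    apply card_le_of_tors (Nat.card T) E hE
    · intro c
      induction c using QuotientGroup.induction_on with
      | H a => rw [← QuotientGroup.mk_pow, hA a]; rfl
    · intro p hp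
      choose f hf using key p hp
      let g : {c : A ⧸ A1 // c ^ p = 1} → T := fun c => f c.1 c.2
      apply Nat.card_le_card_of_injective g
      intro c d h
      have h1 := hf c.1 c.2
      have h2 := hf d.1 d.2
      apply Subtype.ext
      rw [← h1, ← h2]
      exact congrArg (fun t : T => (QuotientGroup.mk (t : A) : A ⧸ A1)) h
  exact hbound

end EVS
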