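import Pool.Agent.EVS.H1

/-!
# [EV-N2a] two laws and connected words
-/

set_option autoImplicit false

namespace EVS

/-- the laws `x³ = x²`, `xyx = (xy)² = (yx)²` -/
def Law (S : Type) [Semigroup S] : Prop :=
  (∀ x : S, x * x * x = x * x) ∧
    ∀ x y : S, x * y * x = x * y * (x * y) ∧ x * y * x = y * x * (y * x)

/-- a list of letters which cannot be cut into two nonempty lists without a common letter -/
def Conn (l : List ℕ) : Prop :=
  ∀ l1 l2, l = l1 ++ l2 → l1 ≠ [] → l2 ≠ [] → ∃ x, x ∈ l1 ∧ x ∈ l2

variable {S : Type} [Semigroup S]

theorem law_absR {W : S} (φ : ℕ → S) (l : List ℕ) (h : ∀ x ∈ l, W * φ x = W) :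
    (W : WithOne S) * prd (l.map φ) = W := by
  induction l with
  | nil => rw [List.map_nil, prd_nil, mul_one]
  | cons a l ih =>
    rw [List.map_cons, prd_cons, ← mul_assoc, ← WithOne.coe_mul, h a List.mem_cons_self]
    exact ih fun x hx => h x (List.mem_cons_of_mem _ hx)

theorem law_absL {W : S} (φ : ℕ → S) (l : List ℕ) (h : ∀ x ∈ l, φ x * W = W) :
    prd (l.map φ) * (W : WithOne S) = W := by
  induction l with
  | nil => rw [List.map_nil, prd_nil, one_mul]
  | cons a l ih =>
    rw [List.map_cons, prd_cons, mul_assoc, ih fun x hx => h x (List.mem_cons_of_mem _ hx),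
      ← WithOne.coe_mul, h a List.mem_cons_self]

/-- `A = x y x` absorbs `x` and `y` on both sides.
PROOF: `A = xyxy = A y`, `A = yxyx = y A`.  `(xy)² = (xy)³` gives `A = A x y`, and `(yx)² = (yx)³` gives
`A = A y x = A x` (as `A y = A`).  `A x = (xy)² x = x (yx)² = x A`. -/
theorem absorb_xyx (h : Law S) (x y : S) :
    x * y * x * x = x * y * x ∧ x * y * x * y = x * y * x ∧
      x * (x * y * x) = x * y * x ∧ y * (x * y * x) = x * y * x := by
  obtain ⟨h3, h2⟩ := h
  obtain ⟨e1, e2⟩ := h2 x y
  have hAy : x * y * x * y = x * y * x := by
    rw [mul_assoc (x * y) x y, ← e1]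
  have hyA : y * (x * y * x) = x * y * x := by
    have : y * (x * y * x) = y * x * (y * x) := by simp only [mul_assoc]
    rw [this, ← e2]
  have hAx : x * y * x * x = x * y * x := by
    have h4 : x * y * x * (y * x) = x * y * x := by
      rw [e2]
      exact h3 (y * x)
    rw [← mul_assoc, hAy] at h4
    exact h4
  have hxA : x * (x * y * x) = x * y * x := by
    have h5 : x * (x * y * x) = x * y * x * x := by
      calc x * (x * y * x) = x * (y * x * (y * x)) := by rw [← e2]
        _ = x * y * (x * y) * x := by simp only [mul_assoc]
        _ = x * y * x * x := by rw [← e1]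
    rw [h5, hAx]
  exact ⟨hAx, hAy, hxA, hyA⟩

/-- The value of the word `x v x` absorbs all its letters on both sides (`φ : ℕ → S`, `v` a list of letters,
possibly empty; `W` is the value).
PROOF: empty `v`: `W = x x`, `x x x = x x`.  Otherwise let `V` be the value of `v`: `W = φx V φx` absorbs `φ x`
and `V` by `absorb_xyx`, hence `W W = W`.  Let `z` be a letter of `v`: `v = v1 z v2`.  Put `P = x v1`,
`Q = z v2 x` (values in `S`, both nonempty words), so `W = P Q`, `W = W W = (P Q)² = (Q P)²` (by the second
law `P Q P = (PQ)² = (QP)²`).  `Q P = z y` with `y` the value of `v2 x x v1`, so `W = (z y)² = z y z`,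
which absorbs `z` on both sides by `absorb_xyx`. -/
theorem absorb_loop (h : Law S) (φ : ℕ → S) (x : ℕ) (v : List ℕ) {W : S}
    (hW : prd ((x :: v ++ [x]).map φ) = (W : WithOne S)) :
    ∀ z ∈ x :: v, W * φ z = W ∧ φ z * W = W := by
  by_cases hv : v = []
  · subst hv
    have hW2 : W = φ x * φ x := by
      rw [← coe_inj, ← hW]
      simp [prd]
    intro z hz
    rw [List.mem_singleton] at hz
    subst hz
    rw [hW2]
    exact ⟨h.1 _, by rw [← mul_assoc]; exact h.1 _⟩
  · obtain ⟨V, hV⟩ := exists_prd (l := v.map φ) (by simpa using hv)
    have hW2 : W = φ x * V * φ x := by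
      rw [← coe_inj, ← hW, List.map_append, List.map_cons, prd_append, prd_cons, hV,
        List.map_singleton, prd_singleton, WithOne.coe_mul, WithOne.coe_mul]
    obtain ⟨a1, a2, a3, a4⟩ := absorb_xyx h (φ x) V
    rw [← hW2] at a1 a2 a3 a4
    have hWW : W * W = W := by
      conv_lhs => rw [hW2]
      rw [← hW2]
      calc W * W = W * (φ x * V * φ x) := by rw [← hW2]
        _ = W * φ x * V * φ x := by simp only [mul_assoc]
        _ = W := by rw [a1, a2, a1]
    intro z hz
    rcases List.mem_cons.1 hz with rfl | hz
    · exact ⟨a1, a3⟩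
    · obtain ⟨v1, v2, rfl⟩ := List.append_of_mem hz
      obtain ⟨P, hP⟩ := exists_prd (l := (x :: v1).map φ) (by simp)
      obtain ⟨Q, hQ⟩ := exists_prd (l := (z :: v2 ++ [x]).map φ) (by simp)
      obtain ⟨Y, hY⟩ := exists_prd (l := (v2 ++ [x] ++ (x :: v1)).map φ) (by simp)
      have hPQ : W = P * Q := by
        rw [← coe_inj, ← hW, WithOne.coe_mul, ← hP, ← hQ, ← prd_append, ← List.map_append]
        congr 2
        simp
      have hQP : Q * P = φ z * Y := by
        rw [← coe_inj, WithOne.coe_mul, ← hP, ← hQ, ← prd_append, ← List.map_append,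
          WithOne.coe_mul, ← hY, ← prd_cons, ← List.map_cons]
        congr 2
      obtain ⟨b1, b2⟩ := h.2 P Q
      obtain ⟨c1, -⟩ := h.2 (φ z) Y
      have hWz : W = φ z * Y * φ z := by
        calc W = P * Q * (P * Q) := by rw [← hPQ, hWW]
          _ = P * Q * P := b1.symm
          _ = Q * P * (Q * P) := b2
          _ = φ z * Y * (φ z * Y) := by rw [hQP]
          _ = φ z * Y * φ z := c1.symm
      obtain ⟨d1, -, d3, -⟩ := absorb_xyx h (φ z) Y
      rw [← hWz] at d1 d3
      exact ⟨d1, d3⟩

/-- The value of a connected word of length at least 2 absorbs all its letters on both sides.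
PROOF: we show by induction: if `l = p ++ r`, `p` absorbs all letters of `p` on both sides, `p ≠ []` and `r ≠ []`,
then there is a longer prefix `p'` with the same property; so the whole word has the property.
Start: let `x` be the first letter; cutting after `x` shows that `x` occurs again; take for `p` the prefix up to
the last (or next) occurrence of `x`, use `absorb_loop`.
Step: `l = p ++ r`, by connectedness a letter `z` of `p` occurs in `r`: `r = v ++ z :: r'`; let
`p' = p ++ v ++ [z]`.  Let `P` be the value of `p` and `B` the value of the word `z v z`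
(`B` absorbs its letters by `absorb_loop`).  The value of `p'` is `P v z = P z v z = P B`.  `P P = P`, `B B = B`
(absorb all letters), `z P = P`, `B z = B`, so `P B = z (P B) z =: A`, and `z * (P B) * z` absorbs `P B` and `z`.
Write `A = z * (P B) * z`.  The word argument of `absorb_loop` with the three letters `z, P, B` (use
`absorb_loop` for a map `φ'` with `φ' 0 = φ z`, `φ' 1 = P`, `φ' 2 = B` and the word `0 1 2 0`) shows that `A = P B`
absorbs `P` and `B` on both sides.  So for a letter `x` of `p`: `x P B = P B` and `P B x = P B P x = P B P = P B`;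
for a letter `x` of `B`: `P B x = P B` and `x P B = x B P B = B P B = P B`. -/
theorem absorb_conn (h : Law S) (φ : ℕ → S) (l : List ℕ) (h2 : 2 ≤ l.length) (hc : Conn l) {W : S}
    (hW : prd (l.map φ) = (W : WithOne S)) : ∀ x ∈ l, W * φ x = W ∧ φ x * W = W := by
  -- the induction over the prefixes
  have step : ∀ n : ℕ, ∀ p r : List ℕ, r.length ≤ n → p ≠ [] → l = p ++ r →
      (∀ P : S, prd (p.map φ) = (P : WithOne S) → ∀ x ∈ p, P * φ x = P ∧ φ x * P = P) →
      ∀ x ∈ l, W * φ x = W ∧ φ x * W = W := by
    intro n
    induction n with
    | zero =>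
      intro p r hr _ hl hP
      have hr0 : r = [] := List.length_eq_zero_iff.1 (Nat.le_zero.1 hr)
      rw [hr0, List.append_nil] at hl
      rw [hl] at hW ⊢
      exact hP W hW
    | succ n ih =>
      intro p r hr hp hl hP
      by_cases hr0 : r = []
      · rw [hr0, List.append_nil] at hl
        rw [hl] at hW ⊢
        exact hP W hW
      · obtain ⟨z, hzp, hzr⟩ := hc p r hl hp hr0
        obtain ⟨v, r', rfl⟩ := List.append_of_mem hzr
        refine ih (p ++ v ++ [z]) r' ?_ (by simp) (by rw [hl]; simp) ?_
        · rw [List.length_append, List.length_cons] at hr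
          omega
        · intro P' hP'
          obtain ⟨P, hPv⟩ := exists_prd (l := p.map φ) (by simpa using hp)
          obtain ⟨B, hB⟩ := exists_prd (l := (z :: v ++ [z]).map φ) (by simp)
          have hPa := hP P hPv
          have hBa := absorb_loop h φ z v hB
          have hPz := hPa z hzp
          have hBz := hBa z List.mem_cons_self
          -- the value of `p'`
          have hval : P' = P * B := by
            have hsp : prd ((z :: v ++ [z]).map φ) =
                (φ z : WithOne S) * (prd (v.map φ) * prd ([z].map φ)) := by
              rw [List.cons_append, List.map_cons, prd_cons, List.map_append, prd_append]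
            rw [← coe_inj, ← hP', WithOne.coe_mul, ← hB, hsp, List.map_append, List.map_append,
              prd_append, prd_append, hPv, ← mul_assoc (P : WithOne S), ← WithOne.coe_mul, hPz.1,
              mul_assoc]
          have hloop : φ z * P * B * φ z = P * B := by
            rw [hPz.2, mul_assoc, hBz.1]
          have habs := absorb_loop h (fun i => if i = 0 then φ z else if i = 1 then P else B) 0
            [1, 2] (W := P * B) (by
              rw [← hloop]
              simp [prd, mul_assoc])
          have hA1 := habs 1 (by simp)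
          have hA2 := habs 2 (by simp)
          simp only [one_ne_zero, if_false, if_true, OfNat.ofNat_ne_zero, OfNat.ofNat_ne_one]
            at hA1 hA2
          have hpl : ∀ x ∈ p, P' * φ x = P' ∧ φ x * P' = P' := by
            intro x hx
            obtain ⟨f1, f2⟩ := hPa x hx
            rw [hval]
            constructor
            · calc P * B * φ x = P * B * P * φ x := by rw [hA1.1]
                _ = P * B * (P * φ x) := by rw [mul_assoc (P * B)]
                _ = P * B := by rw [f1, hA1.1]
            · rw [← mul_assoc, f2]
          have hbl : ∀ x ∈ z :: v, P' * φ x = P' ∧ φ x * P' = P' := by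
            intro x hx
            obtain ⟨f1, f2⟩ := hBa x hx
            rw [hval]
            constructor
            · rw [mul_assoc, f1]
            · calc φ x * (P * B) = φ x * (B * (P * B)) := by rw [hA2.2]
                _ = φ x * B * (P * B) := by rw [mul_assoc]
                _ = P * B := by rw [f2, hA2.2]
          intro x hx
          rw [List.mem_append, List.mem_append, List.mem_singleton] at hx
          rcases hx with (hx | hx) | hx
          · exact hpl x hx
          · exact hbl x (List.mem_cons_of_mem _ hx)
          · rw [hx]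
            exact hbl z List.mem_cons_self
  -- the start
  match l, h2, hc, hW, step with
  | x :: l', h2, hc, hW, step =>
    have hl' : l' ≠ [] := by
      rintro rfl
      simp at h2
    obtain ⟨y, hy1, hy2⟩ := hc [x] l' rfl (by simp) hl'
    rw [List.mem_singleton] at hy1
    subst hy1
    obtain ⟨v, r', rfl⟩ := List.append_of_mem hy2
    refine step r'.length (y :: v ++ [y]) r' le_rfl (by simp) (by simp) ?_
    intro P hP x hx
    have hab := absorb_loop h φ y v hP
    rw [List.cons_append, List.mem_cons, List.mem_append, List.mem_singleton] at hx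
    rcases hx with hx | hx | hx
    · exact hab x (by rw [hx]; exact List.mem_cons_self)
    · exact hab x (List.mem_cons_of_mem _ hx)
    · exact hab x (by rw [hx]; exact List.mem_cons_self)

/-- Two connected words of length at least 2 with the same letters have the same value.
PROOF: `W = W W'` and `W' = W W'` by `absorb_conn` (the product of letters absorbed by `W` on the right is
absorbed by `W`). -/
theorem conn_eq (h : Law S) (φ : ℕ → S) (l l' : List ℕ) (h2 : 2 ≤ l.length) (hc : Conn l)
    (h2' : 2 ≤ l'.length) (hc' : Conn l') (hcon : ∀ x, x ∈ l ↔ x ∈ l') :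
    prd (l.map φ) = prd (l'.map φ) := by
  have hne : ∀ k : List ℕ, 2 ≤ k.length → k.map φ ≠ [] := by
    intro k hk hk0
    rw [List.map_eq_nil_iff] at hk0
    rw [hk0] at hk
    simp at hk
  obtain ⟨W, hW⟩ := exists_prd (hne l h2)
  obtain ⟨W', hW'⟩ := exists_prd (hne l' h2')
  have h1 := absorb_conn h φ l h2 hc hW
  have h1' := absorb_conn h φ l' h2' hc' hW'
  have e1 := law_absR φ l' (W := W) fun x hx => (h1 x ((hcon x).2 hx)).1
  have e2 := law_absL φ l (W := W') fun x hx => (h1' x ((hcon x).1 hx)).2
  rw [hW'] at e1
  rw [hW] at e2
  rw [hW, hW', ← e1, e2]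

end EVS
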