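import Pool.Agent.EVS.H1

/-!
# [EV-N1a] a commutative monoid with 41 elements
-/

set_option autoImplicit false

namespace EVS

/-- The monoid `TT`: generators `d i` (`i ∈ ℤ/7`), `t false`, `t true`; `d i` and `d j` are *adjacent* if
`j = i ± 1`, then `d i * d j = v`.  `dd i false = d i * d (i+2)`, `dd i true = d i * d (i+3)`,
`dt i a = d i * t a`. -/
inductive TT : Type
  | one
  | d (i : Fin 7)
  | t (a : Bool)
  | dd (i : Fin 7) (k : Bool)
  | dt (i : Fin 7) (a : Bool)
  | v | u | o
  deriving DecidableEq, Fintype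

/-- `d i * d j` -/
def TT.dm (i j : Fin 7) : TT :=
  if j = i + 1 ∨ i = j + 1 then .v
  else if j = i + 2 then .dd i false
  else if i = j + 2 then .dd j false
  else if j = i + 3 then .dd i true
  else if i = j + 3 then .dd j true
  else .o

/-- `d k * dd i c` -/
def TT.tr (k i : Fin 7) (c : Bool) : TT :=
  if (c = false ∧ (k = i + 4 ∨ k = i + 5)) ∨ (c = true ∧ k = i + 5) then .u else .o

/-- `d k * dt i a` -/
def TT.fo (k i : Fin 7) (a : Bool) : TT :=
  if (a = false ∧ k ≠ i) ∨ (a = true ∧ (k = i + 1 ∨ i = k + 1)) then .u else .o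

/-- multiplication of `TT` -/
def TT.mul : TT → TT → TT
  | .one, x => x
  | x, .one => x
  | .d i, .d j => TT.dm i j
  | .d i, .t a => .dt i a
  | .t a, .d i => .dt i a
  | .d k, .dd i c => TT.tr k i c
  | .dd i c, .d k => TT.tr k i c
  | .d k, .dt i a => TT.fo k i a
  | .dt i a, .d k => TT.fo k i a
  | .t false, .dd _ _ => .u
  | .dd _ _, .t false => .u
  | .t _, .v => .u
  | .v, .t _ => .u
  | _, _ => .o

/-- degree -/
def tt_deg : TT → ℕ
  | .one => 0
  | .d _ => 1
  | .t _ => 1
  | .dd _ _ => 2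
  | .dt _ _ => 2
  | .v => 2
  | .u => 3
  | .o => 4

theorem tt_dm (i j : Fin 7) : 2 ≤ tt_deg (TT.dm i j) := by
  unfold TT.dm
  split_ifs <;> simp [tt_deg]

theorem tt_tr (k i : Fin 7) (c : Bool) : 3 ≤ tt_deg (TT.tr k i c) := by
  unfold TT.tr
  split_ifs <;> simp [tt_deg]

theorem tt_fo (k i : Fin 7) (c : Bool) : 3 ≤ tt_deg (TT.fo k i c) := by
  unfold TT.fo
  split_ifs <;> simp [tt_deg]

theorem tt_deg_pos {a : TT} (h : a ≠ .one) : 1 ≤ tt_deg a := by
  cases a <;> simp_all [tt_deg]

theorem tt_deg_le (a : TT) : tt_deg a ≤ 4 := by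
  cases a <;> simp [tt_deg]

theorem tt_deg_four {a : TT} (h : 4 ≤ tt_deg a) : a = .o := by
  cases a <;> simp_all [tt_deg]

/-- the degree of a product -/
theorem tt_deg_mul {a b : TT} (ha : a ≠ .one) (hb : b ≠ .one) :
    4 ≤ tt_deg (TT.mul a b) ∨ tt_deg a + tt_deg b ≤ tt_deg (TT.mul a b) := by
  cases a with
  | one => exact absurd rfl ha
  | d i =>
    cases b with
    | one => exact absurd rfl hb
    | d j => exact Or.inr (tt_dm i j)
    | t a => exact Or.inr (le_refl 2)
    | dd j k => exact Or.inr (tt_tr i j k)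
    | dt j k => exact Or.inr (tt_fo i j k)
    | v => exact Or.inl (le_refl 4)
    | u => exact Or.inl (le_refl 4)
    | o => exact Or.inl (le_refl 4)
  | t a =>
    cases b with
    | one => exact absurd rfl hb
    | d j => exact Or.inr (le_refl 2)
    | t b => cases a <;> exact Or.inl (le_refl 4)
    | dd j k => cases a
                · exact Or.inr (le_refl 3)
                · exact Or.inl (le_refl 4)
    | dt j k => cases a <;> exact Or.inl (le_refl 4)
    | v => cases a <;> exact Or.inr (le_refl 3)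
    | u => cases a <;> exact Or.inl (le_refl 4)
    | o => cases a <;> exact Or.inl (le_refl 4)
  | dd i k =>
    cases b with
    | one => exact absurd rfl hb
    | d j => exact Or.inr (tt_tr j i k)
    | t b => cases b
             · exact Or.inr (le_refl 3)
             · exact Or.inl (le_refl 4)
    | dd j k => exact Or.inl (le_refl 4)
    | dt j k => exact Or.inl (le_refl 4)
    | v => exact Or.inl (le_refl 4)
    | u => exact Or.inl (le_refl 4)
    | o => exact Or.inl (le_refl 4)
  | dt i k =>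
    cases b with
    | one => exact absurd rfl hb
    | d j => exact Or.inr (tt_fo j i k)
    | t b => cases b <;> exact Or.inl (le_refl 4)
    | dd j k => exact Or.inl (le_refl 4)
    | dt j k => exact Or.inl (le_refl 4)
    | v => exact Or.inl (le_refl 4)
    | u => exact Or.inl (le_refl 4)
    | o => exact Or.inl (le_refl 4)
  | v =>
    cases b with
    | one => exact absurd rfl hb
    | d j => exact Or.inl (le_refl 4)
    | t b => cases b <;> exact Or.inr (le_refl 3)
    | dd j k => exact Or.inl (le_refl 4)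
    | dt j k => exact Or.inl (le_refl 4)
    | v => exact Or.inl (le_refl 4)
    | u => exact Or.inl (le_refl 4)
    | o => exact Or.inl (le_refl 4)
  | u =>
    cases b with
    | one => exact absurd rfl hb
    | d j => exact Or.inl (le_refl 4)
    | t b => cases b <;> exact Or.inl (le_refl 4)
    | dd j k => exact Or.inl (le_refl 4)
    | dt j k => exact Or.inl (le_refl 4)
    | v => exact Or.inl (le_refl 4)
    | u => exact Or.inl (le_refl 4)
    | o => exact Or.inl (le_refl 4)
  | o =>
    cases b with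
    | one => exact absurd rfl hb
    | d j => exact Or.inl (le_refl 4)
    | t b => cases b <;> exact Or.inl (le_refl 4)
    | dd j k => exact Or.inl (le_refl 4)
    | dt j k => exact Or.inl (le_refl 4)
    | v => exact Or.inl (le_refl 4)
    | u => exact Or.inl (le_refl 4)
    | o => exact Or.inl (le_refl 4)

theorem tt_ne_one {a : TT} (h : 1 ≤ tt_deg a) : a ≠ .one := by
  rintro rfl
  simp [tt_deg] at h

theorem tt_mul_ne_one {a b : TT} (ha : a ≠ .one) (hb : b ≠ .one) : TT.mul a b ≠ .one := by
  apply tt_ne_one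
  have := tt_deg_mul ha hb
  have := tt_deg_pos ha
  omega

theorem tt_mul_o {a b : TT} (ha : a ≠ .one) (hb : b ≠ .one) (h : 4 ≤ tt_deg a + tt_deg b) :
    TT.mul a b = .o := by
  apply tt_deg_four
  have := tt_deg_mul ha hb
  omega

theorem tt_one_mul (a : TT) : TT.mul .one a = a := by
  cases a <;> rfl

theorem tt_mul_one (a : TT) : TT.mul a .one = a := by
  cases a <;> rfl

theorem tt_deg_one {a : TT} (h : tt_deg a = 1) : (∃ i, a = .d i) ∨ ∃ b, a = .t b := by
  cases a <;> simp_all [tt_deg]

theorem tt_ddd : ∀ i j k : Fin 7,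
    TT.mul (TT.mul (.d i) (.d j)) (.d k) = TT.mul (.d i) (TT.mul (.d j) (.d k)) := by decide

theorem tt_ddt : ∀ (i j : Fin 7) (a : Bool),
    TT.mul (TT.mul (.d i) (.d j)) (.t a) = TT.mul (.d i) (TT.mul (.d j) (.t a)) := by decide

theorem tt_dtd : ∀ (i j : Fin 7) (a : Bool),
    TT.mul (TT.mul (.d i) (.t a)) (.d j) = TT.mul (.d i) (TT.mul (.t a) (.d j)) := by decide

theorem tt_tdd : ∀ (i j : Fin 7) (a : Bool),
    TT.mul (TT.mul (.t a) (.d i)) (.d j) = TT.mul (.t a) (TT.mul (.d i) (.d j)) := by decide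

theorem tt_dtt : ∀ (i : Fin 7) (a b : Bool),
    TT.mul (TT.mul (.d i) (.t a)) (.t b) = TT.mul (.d i) (TT.mul (.t a) (.t b)) := by decide

theorem tt_tdt : ∀ (i : Fin 7) (a b : Bool),
    TT.mul (TT.mul (.t a) (.d i)) (.t b) = TT.mul (.t a) (TT.mul (.d i) (.t b)) := by decide

theorem tt_ttd : ∀ (i : Fin 7) (a b : Bool),
    TT.mul (TT.mul (.t a) (.t b)) (.d i) = TT.mul (.t a) (TT.mul (.t b) (.d i)) := by decide

theorem tt_ttt : ∀ (a b c : Bool),
    TT.mul (TT.mul (.t a) (.t b)) (.t c) = TT.mul (.t a) (TT.mul (.t b) (.t c)) := by decide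

/-- PROOF: cases on the constructors of the three elements (512 cases); most are closed by `rfl` or `simp`, the
others by `decide` over the parameters in `Fin 7` and `Bool` (at most `7^3` values; only products of three
generators `d`, `t` are interesting, all products of total degree at least 4 are `o`, where `one` has degree 0,
`d, t` degree 1, `dd, dt, v` degree 2, `u` degree 3).  It has been checked by computer. -/
theorem TT.mul_assoc' (a b c : TT) : TT.mul (TT.mul a b) c = TT.mul a (TT.mul b c) := by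
  by_cases ha : a = .one
  · rw [ha, tt_one_mul, tt_one_mul]
  by_cases hb : b = .one
  · rw [hb, tt_one_mul, tt_mul_one]
  by_cases hc : c = .one
  · rw [hc, tt_mul_one, tt_mul_one]
  have h1 := tt_deg_pos ha
  have h2 := tt_deg_pos hb
  have h3 := tt_deg_pos hc
  by_cases h : 4 ≤ tt_deg a + tt_deg b + tt_deg c
  · rw [tt_mul_o (tt_mul_ne_one ha hb) hc, tt_mul_o ha (tt_mul_ne_one hb hc)]
    · have := tt_deg_mul hb hc
      omega
    · have := tt_deg_mul ha hb
      omega
  · rcases tt_deg_one (a := a) (by omega) with ⟨i, rfl⟩ | ⟨i, rfl⟩ <;>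
    rcases tt_deg_one (a := b) (by omega) with ⟨j, rfl⟩ | ⟨j, rfl⟩ <;>
    rcases tt_deg_one (a := c) (by omega) with ⟨k, rfl⟩ | ⟨k, rfl⟩
    · exact tt_ddd i j k
    · exact tt_ddt i j k
    · exact tt_dtd i k j
    · exact tt_dtt i j k
    · exact tt_tdd j k i
    · exact tt_tdt j i k
    · exact tt_ttd k i j
    · exact tt_ttt i j k

instance : Semigroup TT where
  mul := TT.mul
  mul_assoc := TT.mul_assoc'

theorem TT.mul_comm' (a b : TT) : a * b = b * a := by
  revert a b
  decide

theorem TT.one_mul' (a : TT) : TT.one * a = a := tt_one_mul a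

theorem TT.mul_one' (a : TT) : a * TT.one = a := tt_mul_one a

/-- products of two elements different from `one` are `one`, `t` or `d` never, and `a a = o` if `a ≠ one` -/
theorem TT.sq {a : TT} (h : a ≠ .one) : a * a = .o := by
  revert a
  decide

theorem TT.o_mul (a : TT) : TT.o * a = TT.o := by
  by_cases h : a = .one
  · rw [h]; rfl
  · exact tt_mul_o (by decide) h (by have := tt_deg_pos h; simp [tt_deg])

theorem TT.v_mul_t (a : Bool) : TT.v * TT.t a = TT.u := rfl

theorem TT.mul_ne {a b : TT} (ha : a ≠ .one) (hb : b ≠ .one) : a * b ≠ .one ∧ ∀ c, a * b ≠ .t c := by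
  refine ⟨tt_mul_ne_one ha hb, ?_⟩
  intro c h
  have h1 := tt_deg_pos ha
  have h2 := tt_deg_pos hb
  have h3 := tt_deg_mul ha hb
  have h4 : TT.mul a b = .t c := h
  have h5 : tt_deg (.t c) = 1 := rfl
  rw [h4, h5] at h3
  omega

/-- `v a b = o` if `a, b ≠ one` -/
theorem TT.v_mul_mul {a b : TT} (ha : a ≠ .one) (hb : b ≠ .one) : TT.v * (a * b) = .o := by
  have h1 := tt_deg_pos ha
  have h2 := tt_deg_pos hb
  have h3 := tt_deg_mul ha hb
  refine tt_mul_o (by decide) (tt_mul_ne_one ha hb) ?_
  have h4 : tt_deg TT.v = 2 := rfl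
  show 4 ≤ tt_deg TT.v + tt_deg (TT.mul a b)
  omega

/-- `u a = o` if `a ≠ one` -/
theorem TT.u_mul {a : TT} (ha : a ≠ .one) : TT.u * a = .o := by
  have h1 := tt_deg_pos ha
  refine tt_mul_o (by decide) ha ?_
  have h4 : tt_deg TT.u = 3 := rfl
  omega

end EVS
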