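import Pool.Agent.EVS.TT

/-!
# [EV-N1c] the semigroups `WW r`
-/

set_option autoImplicit false

namespace EVS

/-- the elements of `WW r` -/
inductive WW (r : ℕ) : Type
  | tt (s : TT)
  | y (i : Fin r)
  | z (i : Fin (r + 1))
  deriving DecidableEq, Fintype

/-- projection to `TT` -/
def WW.pi {r : ℕ} : WW r → TT
  | .tt s => s
  | .y _ => .v
  | .z _ => .u

/-- right action of `TT` -/
def WW.ac {r : ℕ} : WW r → TT → WW r
  | .tt s, s' => .tt (s * s')
  | .y i, .one => .y i
  | .y i, .t false => .z i.castSucc
  | .y i, .t true => .z i.succ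
  | .y _, s => .tt (.v * s)
  | .z i, .one => .z i
  | .z _, _ => .tt .o

theorem ww_ac_one {r : ℕ} (w : WW r) : w.ac .one = w := by
  cases w with
  | tt s => exact congrArg WW.tt (TT.mul_one' s)
  | y i => rfl
  | z i => rfl

/-- PROOF: cases; `v * t a = u`, `u * s = o` for `s ≠ one` (`TT.u_mul`). -/
theorem WW.pi_ac {r : ℕ} (w : WW r) (s : TT) : (w.ac s).pi = w.pi * s := by
  cases w with
  | tt s'' => rfl
  | y i =>
    cases s with
    | t a => cases a <;> rfl
    | _ => rfl
  | z i =>
    cases s with
    | one => rfl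
    | _ => exact (TT.u_mul (by simp)).symm

/-- PROOF: clear for `w = tt s''` (associativity of `TT`) and for `w = z i` (a product of two elements, one of
which is not `one`, is not `one`: `TT.mul_ne`; `tt o` is mapped to `tt o`).  For `w = y i`: clear if `s = one`
or `s' = one`.  Otherwise `s * s'` is neither `one` nor `t a` (`TT.mul_ne`), so the right side is
`tt (v * (s * s')) = tt o` (`TT.v_mul_mul`).  The left side: `y i` acted on by `s` is `z j` or `tt (v * s)`, so
the left side is `tt o` or `tt (v * s * s') = tt o`. -/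
theorem WW.ac_ac {r : ℕ} (w : WW r) (s s' : TT) : (w.ac s).ac s' = w.ac (s * s') := by
  cases w with
  | tt s'' => exact congrArg WW.tt (mul_assoc s'' s s')
  | z i =>
    by_cases hs : s = .one
    · subst hs
      rw [TT.one_mul']
      rfl
    · by_cases hs' : s' = .one
      · subst hs'
        rw [TT.mul_one', ww_ac_one]
      · have h1 : ∀ (j : Fin (r + 1)) (x : TT), x ≠ .one → (WW.z j : WW r).ac x = .tt .o := by
          intro j x hx
          cases x <;> first | rfl | exact absurd rfl hx
        rw [h1 i s hs, h1 i (s * s') (TT.mul_ne hs hs').1]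
        show WW.tt (TT.o * s') = .tt .o
        rw [TT.o_mul]
  | y i =>
    by_cases hs : s = .one
    · subst hs
      rw [TT.one_mul']
      rfl
    · by_cases hs' : s' = .one
      · subst hs'
        rw [TT.mul_one', ww_ac_one]
      · have h1 : ∀ (j : Fin (r + 1)) (x : TT), x ≠ .one → (WW.z j : WW r).ac x = .tt .o := by
          intro j x hx
          cases x <;> first | rfl | exact absurd rfl hx
        have h2 : ∀ x : TT, x ≠ .one → (∀ c, x ≠ .t c) → (WW.y i : WW r).ac x = .tt (.v * x) := by
          intro x hx hx'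
          cases x with
          | one => exact absurd rfl hx
          | t a => exact absurd rfl (hx' a)
          | _ => rfl
        have h3 := TT.mul_ne hs hs'
        rw [h2 (s * s') h3.1 h3.2, TT.v_mul_mul hs hs']
        by_cases ht : ∃ c, s = .t c
        · obtain ⟨c, rfl⟩ := ht
          cases c
          · exact h1 _ s' hs'
          · exact h1 _ s' hs'
        · push Not at ht
          rw [h2 s hs ht]
          show WW.tt (TT.v * s * s') = .tt .o
          rw [mul_assoc, TT.v_mul_mul hs hs']

instance (r : ℕ) : Semigroup (WW r) where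
  mul w w' := w.ac w'.pi
  mul_assoc w w' w'' := by
    show (w.ac w'.pi).ac w''.pi = w.ac (w'.ac w''.pi).pi
    rw [WW.ac_ac, WW.pi_ac]

theorem WW.mul_def {r : ℕ} (w w' : WW r) : w * w' = w.ac w'.pi := rfl

theorem WW.pi_mul {r : ℕ} (w w' : WW r) : (w * w').pi = w.pi * w'.pi := by
  rw [WW.mul_def, WW.pi_ac]

theorem WW.ac_one {r : ℕ} (w : WW r) : w.ac .one = w := ww_ac_one w

/-- PROOF: cases: `y i * v = tt (v * v)`, `z i * u = tt o = tt (u * u)`. -/
theorem WW.ac_pi {r : ℕ} (w : WW r) : w.ac w.pi = .tt (w.pi * w.pi) := by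
  cases w with
  | tt s => rfl
  | y i => rfl
  | z i => rfl

theorem WW.tt_mul {r : ℕ} (s : TT) (w : WW r) : (.tt s : WW r) * w = .tt (s * w.pi) := rfl

theorem WW.mul_tt {r : ℕ} (w : WW r) (s : TT) : w * (.tt s : WW r) = w.ac s := rfl

theorem WW.card (r : ℕ) : r ≤ Nat.card (WW r) := by
  have hinj : Function.Injective (fun i : Fin r => (WW.y i : WW r)) := by
    intro i j h
    injection h
  have h := Nat.card_le_card_of_injective _ hinj
  rwa [Nat.card_eq_fintype_card, Fintype.card_fin] at h

end EVS
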